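import Mathlib

/-! The polynomial normal form of the difference equation, checked by reflection. -/

namespace Pool.Agent.Lib.MP_77fc3d_an

namespace Refl

abbrev Mn := ℤ × ℕ × ℕ × ℕ
abbrev Pl := List Mn

def ins (m : Mn) : Pl → Pl
  | [] => [m]
  | n :: l => bif (Nat.beq m.2.2.1 n.2.2.1 && Nat.beq m.2.2.2 n.2.2.2 && Nat.beq m.2.1 n.2.1)
      then (m.1 + n.1, n.2) :: l else n :: ins m l

def add : Pl → Pl → Pl
  | [], q => q
  | m :: l, q => ins m (add l q)

def mulM (m : Mn) : Pl → Pl → Pl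
  | [], acc => acc
  | n :: l, acc => bif Nat.ble 5 (m.2.1 + n.2.1) then mulM m l acc else
      ins (m.1 * n.1, m.2.1 + n.2.1, m.2.2.1 + n.2.2.1, m.2.2.2 + n.2.2.2) (mulM m l acc)

def mul : Pl → Pl → Pl
  | [], _ => []
  | m :: l, q => mulM m q (mul l q)

def sc (c : ℤ) : Pl → Pl
  | [] => []
  | m :: l => (c * m.1, m.2) :: sc c l

def dU : Pl → Pl
  | [] => []
  | m :: l => (m.1 * m.2.2.1, m.2.1, m.2.2.1 - 1, m.2.2.2) :: dU l

def dV : Pl → Pl
  | [] => []
  | m :: l => (m.1 * m.2.2.2, m.2.1, m.2.2.1, m.2.2.2 - 1) :: dV l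

def swp : Pl → Pl
  | [] => []
  | m :: l => (m.1, m.2.1, m.2.2.2, m.2.2.1) :: swp l

def cln : Pl → Pl
  | [] => []
  | m :: l => bif (m.1 == 0) then cln l else m :: cln l

variable {S : Type} [CommRing S] (T U V : S)

def evM (m : Mn) : S := (m.1 : S) * T ^ m.2.1 * U ^ m.2.2.1 * V ^ m.2.2.2

def evP : Pl → S
  | [] => 0
  | m :: l => evM T U V m + evP l

lemma ev_ins (m : Mn) (l : Pl) : evP T U V (ins m l) = evM T U V m + evP T U V l := by
  induction l with
  | nil => simp [ins, evP]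
  | cons n l ih =>
    unfold ins
    cases h : (Nat.beq m.2.2.1 n.2.2.1 && Nat.beq m.2.2.2 n.2.2.2 && Nat.beq m.2.1 n.2.1)
    · simp only [cond_false, evP, ih]; ring
    · simp only [Bool.and_eq_true, Nat.beq_eq] at h
      obtain ⟨⟨h1, h2⟩, h3⟩ := h
      simp only [cond_true, evP, evM, h1, h2, h3]
      push_cast; ring

lemma ev_add (p q : Pl) : evP T U V (add p q) = evP T U V p + evP T U V q := by
  induction p with
  | nil => simp [add, evP]
  | cons m l ih => simp only [add, ev_ins, ih, evP]; ring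

lemma ev_mulM (hT : T ^ 5 = 0) (m : Mn) (q acc : Pl) :
    evP T U V (mulM m q acc) = evM T U V m * evP T U V q + evP T U V acc := by
  induction q with
  | nil => simp [mulM, evP]
  | cons n l ih =>
    unfold mulM
    cases h : Nat.ble 5 (m.2.1 + n.2.1)
    · simp only [cond_false, ev_ins, ih, evP, evM]
      push_cast; ring
    · have h5 : 5 ≤ m.2.1 + n.2.1 := Nat.le_of_ble_eq_true h
      have h0 : T ^ m.2.1 * T ^ n.2.1 = 0 := by
        rw [← pow_add]; exact pow_eq_zero_of_le h5 hT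
      simp only [cond_true, ih, evP, evM]
      linear_combination (-(m.1 : S) * n.1 * U ^ m.2.2.1 * V ^ m.2.2.2 * U ^ n.2.2.1 *
        V ^ n.2.2.2) * h0

lemma ev_mul (hT : T ^ 5 = 0) (p q : Pl) :
    evP T U V (mul p q) = evP T U V p * evP T U V q := by
  induction p with
  | nil => simp [mul, evP]
  | cons m l ih => simp only [mul, ev_mulM T U V hT, ih, evP]; ring

lemma ev_sc (c : ℤ) (p : Pl) : evP T U V (sc c p) = c * evP T U V p := by
  induction p with
  | nil => simp [sc, evP]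
  | cons m l ih => simp only [sc, ih, evP, evM]; push_cast; ring

lemma ev_swp (p : Pl) : evP T U V (swp p) = evP T V U p := by
  induction p with
  | nil => simp [swp, evP]
  | cons m l ih => simp only [swp, ih, evP, evM]; ring

lemma ev_cln (p : Pl) : evP T U V (cln p) = evP T U V p := by
  induction p with
  | nil => simp [cln]
  | cons m l ih =>
    unfold cln
    cases h : (m.1 == 0)
    · simp only [cond_false, evP, ih]
    · have : m.1 = 0 := by simpa using h
      simp [evP, ih, evM, this]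

/-- An additive map satisfying the Leibniz rule. -/
structure Der (S : Type) [CommRing S] where
  d : S →+ S
  leib : ∀ x y, d (x * y) = x * d y + y * d x

namespace Der

variable (δ : Der S)

lemma d_one : δ.d 1 = 0 := by
  have := δ.leib 1 1
  simp only [mul_one, one_mul] at this
  linear_combination -this

lemma d_int (c : ℤ) : δ.d c = 0 := by
  have : (c : S) = c • (1 : S) := by simp
  rw [this, map_zsmul, δ.d_one, smul_zero]

lemma d_pow (x : S) (n : ℕ) : δ.d (x ^ n) = n * x ^ (n - 1) * δ.d x := by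
  induction n with
  | zero => simp [δ.d_one]
  | succ n ih =>
    rw [pow_succ, δ.leib, ih]
    cases n with
    | zero => simp
    | succ n => simp only [Nat.add_sub_cancel]; push_cast; ring

lemma d_const_mul {c : S} (hc : δ.d c = 0) (x : S) : δ.d (c * x) = c * δ.d x := by
  rw [δ.leib, hc]; ring

end Der

lemma ev_d (δ : Der S) (hT : δ.d T = 0) (p : Pl) :
    δ.d (evP T U V p) = evP T U V (dU p) * δ.d U + evP T U V (dV p) * δ.d V := by
  induction p with
  | nil => simp [dU, dV, evP]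
  | cons m l ih =>
    simp only [dU, dV, evP, map_add, ih, evM, δ.leib, δ.d_pow, δ.d_int, hT]
    push_cast; ring

def uP : Pl :=
  [(1, 0, 1, 0), (210, 1, 1, 0), (-420, 1, 2, 1), (-1499400, 2, 0, 5), (13230, 2, 1, 0),
   (882000, 2, 2, 1), (-1631700, 2, 4, 0), (1868227200, 3, 0, 5), (396900, 3, 1, 0),
   (9830822400, 3, 1, 6), (-3715488000, 3, 2, 1), (4601457000, 3, 4, 0), (5994928800, 3, 5, 1),
   (210520800, 3, 7, 0), (-27252407939400, 4, 0, 5), (5415859260000, 4, 0, 8),
   (6945750, 4, 1, 0), (-57804732442800, 4, 1, 6), (36859815644400, 4, 2, 1),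
   (-104692196952000, 4, 2, 7), (-36641612592900, 4, 4, 0), (-111081551364000, 4, 5, 1),
   (2353517510400, 4, 7, 0), (8296585920000, 4, 8, 1)]
def tauP : Pl :=
  [(1, 0, 0, 0), (-840, 1, 1, 1), (5380200, 2, 0, 3), (-352800, 2, 1, 1), (13671000, 2, 2, 2),
   (5380200, 2, 3, 0), (-13069072800, 3, 0, 3), (-11636654400, 3, 0, 6), (4989776400, 3, 1, 1),
   (-87094072800, 3, 1, 4), (-73905199200, 3, 2, 2), (-13069072800, 3, 3, 0),
   (-123210763200, 3, 3, 3), (-87094072800, 3, 4, 1), (-11636654400, 3, 6, 0),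
   (78009677083800, 4, 0, 3), (292907129205600, 4, 0, 6), (-67495728610800, 4, 1, 1),
   (926727523243200, 4, 1, 4), (318017363328000, 4, 1, 7), (281257533937800, 4, 2, 2),
   (2147108469408000, 4, 2, 5), (78009677083800, 4, 3, 0), (3072298528000800, 4, 3, 3),
   (926727523243200, 4, 4, 1), (1907883979848000, 4, 4, 4), (2147108469408000, 4, 5, 2),
   (292907129205600, 4, 6, 0), (318017363328000, 4, 7, 1)]
def thP : Pl :=
  [(-4321800, 2, 0, 3), (2205000, 2, 1, 1), (-4321800, 2, 3, 0), (12041719200, 3, 0, 3),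
   (-258098400, 3, 0, 6), (-9987012000, 3, 1, 1), (24821899200, 3, 1, 4), (18723322800, 3, 2, 2),
   (12041719200, 3, 3, 0), (516196800, 3, 3, 3), (24821899200, 3, 4, 1), (-258098400, 3, 6, 0),
   (-79617794167800, 4, 0, 3), (-27990545360400, 4, 0, 6), (82834028335800, 4, 1, 1),
   (-359977882168800, 4, 1, 4), (-22212956203200, 4, 2, 2), (-305624303712000, 4, 2, 5),
   (-79617794167800, 4, 3, 0), (-491653400767200, 4, 3, 3), (-359977882168800, 4, 4, 1),
   (-305624303712000, 4, 5, 2), (-27990545360400, 4, 6, 0)]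
def fP : Pl :=
  [(1, 0, 0, 0), (420, 1, 1, 1), (-926100, 2, 1, 1), (2498617800, 3, 1, 1),
   (-7669149862500, 4, 1, 1), (1496344752000, 4, 1, 7), (-2992689504000, 4, 4, 4),
   (1496344752000, 4, 7, 1)]

def pU : Pl := add (mul [(1, 0, 1, 0)] fP) [(1, 0, 0, 2)]
def pV : Pl := add (mul [(1, 0, 0, 1)] fP) [(1, 0, 2, 0)]
def qU : Pl := cln (mul tauP pU)
def qV : Pl := cln (mul tauP pV)

/-- One application of `τ δ - 1`. -/
def d1 (a b p : Pl) : Pl := cln (add (add (mul (dU p) a) (mul (dV p) b)) (sc (-1) p))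

def nx (a b p : Pl) : Pl := d1 a b (d1 a b (mul [(1, 1, 0, 0)] p))

def chk (a b v u : Pl) : Pl :=
  (fun w1 => (fun w3 => (fun w5 => (fun w7 => (fun w9 =>
    cln (add (add (add (add (add w1 (sc 210 w3)) (sc 13230 w5)) (sc 396900 w7)) (sc 6945750 w9))
      (sc (-1) (mul u u)))) (nx a b w7)) (nx a b w5)) (nx a b w3)) (nx a b w1)) (d1 a b v)

def efP : Pl := add (mul [(1, 0, 1, 0)] (dU fP)) (mul [(1, 0, 0, 1)] (dV fP))

def chk2 : Pl := cln (add (mul tauP (add (add (sc 2 fP) efP)
  (add (mul (dU thP) pU) (mul (dV thP) pV)))) [(-2, 0, 0, 0)])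

theorem chk_v : chk qU qV (swp uP) uP = [] := by decide +kernel

theorem chk_u : chk qU qV uP (swp uP) = [] := by decide +kernel

theorem chk2_eq : chk2 = [] := by decide +kernel

end Refl

end Pool.Agent.Lib.MP_77fc3d_an
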