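import Pool.Agent.Lib.MP_77fc3d_an.Circ
import Pool.Agent.Lib.MP_77fc3d_an.Refl

/-! The algebra of real-analytic functions on the circle. -/

open Real Filter Topology MeasureTheory

namespace Pool.Agent.Lib.MP_77fc3d_an

/-- Functions whose Fourier coefficients decay exponentially. -/
def AnS : Subalgebra ℂ CT where
  carrier := {f | ∃ ρ > 0, ∃ M, Bd ρ f M}
  mul_mem' := by
    rintro f g ⟨ρ, hρ, M, h⟩ ⟨ρ', hρ', M', h'⟩
    exact ⟨min ρ ρ', lt_min hρ hρ', _, (h.mono (min_le_left _ _) le_rfl).mul (lt_min hρ hρ').le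
      (h'.mono (min_le_right _ _) le_rfl)⟩
  add_mem' := by
    rintro f g ⟨ρ, hρ, M, h⟩ ⟨ρ', hρ', M', h'⟩
    exact ⟨min ρ ρ', lt_min hρ hρ', _, (h.mono (min_le_left _ _) le_rfl).add
      (h'.mono (min_le_right _ _) le_rfl)⟩
  algebraMap_mem' c := ⟨1, one_pos, _, by
    rw [Algebra.algebraMap_eq_smul_one]; exact (Bd.one 1).smul c⟩

/-- The algebra of analytic functions on the circle. -/
def An : Type := ↥AnS

noncomputable instance : CommRing An := inferInstanceAs (CommRing ↥AnS)
noncomputable instance : Algebra ℂ An := inferInstanceAs (Algebra ℂ ↥AnS)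

lemma val_add (f g : An) : (f + g).1 = f.1 + g.1 := rfl
lemma val_sub (f g : An) : (f - g).1 = f.1 - g.1 := rfl
lemma val_mul (f g : An) : (f * g).1 = f.1 * g.1 := rfl
lemma val_neg (f : An) : (-f).1 = -f.1 := rfl
lemma val_one : (1 : An).1 = 1 := rfl
lemma val_zero : (0 : An).1 = 0 := rfl
lemma val_smul (c : ℂ) (f : An) : (c • f).1 = c • f.1 := rfl

/-- Fourier coefficient of an analytic function. -/
noncomputable def cf (f : An) (n : ℤ) : ℂ := fc f.1 n

lemma An.bd (f : An) : ∃ ρ > 0, ∃ M, Bd ρ f.1 M := f.2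

lemma An.summable (f : An) : Summable fun n => ‖cf f n‖ := by
  obtain ⟨ρ, hρ, M, h⟩ := f.bd
  exact h.summable_norm hρ.le

lemma An.ext_cf {f g : An} (h : ∀ n, cf f n = cf g n) : f = g := Subtype.ext (eq_of_fc h)

@[simp] lemma cf_add (f g : An) (n : ℤ) : cf (f + g) n = cf f n + cf g n := fc_add _ _ _
@[simp] lemma cf_sub (f g : An) (n : ℤ) : cf (f - g) n = cf f n - cf g n := fc_sub _ _ _
@[simp] lemma cf_neg (f : An) (n : ℤ) : cf (-f) n = -cf f n := fc_neg _ _
@[simp] lemma cf_zero (n : ℤ) : cf 0 n = 0 := fc_zero _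
@[simp] lemma cf_smul (c : ℂ) (f : An) (n : ℤ) : cf (c • f) n = c * cf f n := fc_smul _ _ _

/-- Constants. -/
noncomputable abbrev κ : ℂ →+* An := algebraMap ℂ An

@[simp] lemma cf_κ_mul (c : ℂ) (f : An) (n : ℤ) : cf (κ c * f) n = c * cf f n := by
  rw [← Algebra.smul_def, cf_smul]

/-- The monomials. -/
noncomputable def em (n : ℤ) : An := ⟨fourier n, 1, one_pos, _, Bd.fourier 1 n⟩

lemma em_add (m n : ℤ) : em (m + n) = em m * em n := by
  apply Subtype.ext; ext x; simp [em, val_mul]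

lemma em_zero : em 0 = 1 := by
  apply Subtype.ext; ext x; simp [em, val_one]

lemma em_pow (n : ℕ) : em 1 ^ n = em n := by
  induction n with
  | zero => simp [em_zero]
  | succ n ih => rw [pow_succ, ih, ← em_add]; push_cast; rfl

lemma cf_em (m n : ℤ) : cf (em m) n = if n = m then 1 else 0 := fc_fourier m n

lemma cf_em_mul (k : ℤ) (g : An) (n : ℤ) : cf (em k * g) n = cf g (n - k) := fc_fourier_mul _ _ _

lemma cf_one (n : ℤ) : cf 1 n = if n = 0 then 1 else 0 := by rw [← em_zero, cf_em]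

lemma cf_κ (c : ℂ) (n : ℤ) : cf (κ c) n = if n = 0 then c else 0 := by
  rw [← mul_one (κ c), cf_κ_mul, cf_one]; simp

lemma hasSum_cf_mul (f g : An) (n : ℤ) :
    HasSum (fun k => cf f k * cf g (n - k)) (cf (f * g) n) :=
  hasSum_fc_mul f.summable.of_norm _ _

/-- Sub-exponential growth. -/
def SubExp (m : ℤ → ℂ) : Prop := ∀ σ > 0, ∃ K ≥ 0, ∀ n, ‖m n‖ ≤ K * wt σ n

lemma synth_mem {m : ℤ → ℂ} (hm : SubExp m) (f : An) :
    (Summable fun n => ‖m n * cf f n‖) ∧ synth (fun n => m n * cf f n) ∈ AnS := by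
  obtain ⟨ρ, hρ, M, h⟩ := f.bd
  obtain ⟨K, hK, hmK⟩ := hm (ρ / 2) (by linarith)
  have hs : Summable fun n => ‖m n * cf f n‖ := by
    refine (h.summable.mul_left K).of_nonneg_of_le (fun _ => norm_nonneg _) fun n => ?_
    rw [norm_mul]
    have h1 := mul_le_mul_of_nonneg_right (hmK n) (norm_nonneg (cf f n))
    have h2 := mul_le_mul_of_nonneg_left (wt_mono (by linarith : ρ / 2 ≤ ρ) n)
      (mul_nonneg hK (norm_nonneg (cf f n)))
    unfold cf at *
    linarith
  refine ⟨hs, ρ - ρ / 2, by linarith, _, h.of_mult hK fun n => ?_⟩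
  rw [fc_synth hs, norm_mul]
  exact mul_le_mul_of_nonneg_right (hmK n) (norm_nonneg _)

open Classical in
/-- Fourier multiplier. -/
noncomputable def op (m : ℤ → ℂ) (f : An) : An :=
  if h : SubExp m then ⟨synth fun n => m n * cf f n, (synth_mem h f).2⟩ else 0

lemma cf_op {m : ℤ → ℂ} (hm : SubExp m) (f : An) (n : ℤ) : cf (op m f) n = m n * cf f n := by
  unfold op
  rw [dif_pos hm]
  exact fc_synth (synth_mem hm f).1 n

lemma subExp_of_bdd {m : ℤ → ℂ} {K : ℝ} (h : ∀ n, ‖m n‖ ≤ K) : SubExp m := fun _ hσ =>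
  have hK : 0 ≤ K := (norm_nonneg _).trans (h 0)
  ⟨K, hK, fun n => (h n).trans (le_mul_of_one_le_right hK (one_le_wt hσ.le n))⟩

lemma subExp_id : SubExp fun n => (n : ℂ) := fun σ hσ =>
  ⟨σ⁻¹, by positivity, fun n => by simpa using abs_le_wt hσ n⟩

/-- The derivation `(2 π i)⁻¹ d/dx`. -/
noncomputable def D : Refl.Der An where
  d :=
    { toFun := op fun n => (n : ℂ)
      map_zero' := An.ext_cf fun n => by simp [cf_op subExp_id]
      map_add' := fun f g => An.ext_cf fun n => by simp [cf_op subExp_id, mul_add] }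
  leib f g := An.ext_cf fun n => by
    have h1 := hasSum_cf_mul f (op (fun n => (n : ℂ)) g) n
    have h2 := hasSum_cf_mul (op (fun n => (n : ℂ)) f) g n
    have h3 := (hasSum_cf_mul f g n).mul_left (n : ℂ)
    simp only [cf_op subExp_id] at h1 h2
    simp only [AddMonoidHom.coe_mk, ZeroHom.coe_mk, cf_add, cf_op subExp_id]
    rw [mul_comm g]
    refine h3.unique ((h1.add h2).congr_fun ?_)
    intro k; push_cast; ring

@[simp] lemma cf_D (f : An) (n : ℤ) : cf (D.d f) n = n * cf f n := cf_op subExp_id f n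

lemma D_κ (c : ℂ) : D.d (κ c) = 0 := An.ext_cf fun n => by
  rw [cf_D, cf_κ]; split_ifs with h <;> simp [h]

lemma D_em (m : ℤ) : D.d (em m) = κ m * em m := An.ext_cf fun n => by
  rw [cf_D, cf_κ_mul, cf_em]; split_ifs with h <;> simp [h]

lemma Bd.D {ρ σ M : ℝ} {f : An} (h : Bd ρ f.1 M) (hσ : 0 < σ) :
    Bd (ρ - σ) (D.d f).1 (σ⁻¹ * M) :=
  h.of_mult (by positivity) fun n => by
    have := cf_D f n
    unfold cf at this
    rw [this, norm_mul]
    exact mul_le_mul_of_nonneg_right (by simpa using abs_le_wt hσ n) (norm_nonneg _)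

lemma subExp_inv : SubExp fun n => (n : ℂ)⁻¹ := subExp_of_bdd (K := 1) fun n => by
  rcases eq_or_ne n 0 with h | h
  · simp [h]
  · rw [norm_inv, Complex.norm_intCast]
    exact inv_le_one_of_one_le₀ (by exact_mod_cast Int.one_le_abs h)

/-- A primitive of a function of mean zero. -/
noncomputable def Dinv (f : An) : An := op (fun n => (n : ℂ)⁻¹) f

lemma D_Dinv (f : An) : D.d (Dinv f) = f - κ (cf f 0) := An.ext_cf fun n => by
  rw [cf_D, Dinv, cf_op subExp_inv, cf_sub, cf_κ]
  split_ifs with h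
  · simp [h]
  · have : (n : ℂ) ≠ 0 := by exact_mod_cast h
    field_simp; ring

/-- Translation of the argument. -/
noncomputable def shC (β : ℝ) (f : CT) : CT :=
  f.comp ⟨fun x => x + (β : UnitAddCircle), by fun_prop⟩

lemma fc_shC (β : ℝ) (f : CT) (n : ℤ) :
    fc (shC β f) n = Complex.exp (2 * π * Complex.I * n * β) * fc f n := by
  unfold fc fourierCoeff
  rw [← integral_const_mul, ← integral_add_right_eq_self
    (fun t : UnitAddCircle => Complex.exp (2 * π * Complex.I * n * β) * (fourier (-n) t • f t))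
    (β : UnitAddCircle)]
  refine integral_congr_ae (ae_of_all _ fun t => ?_)
  have h1 : fourier (-n) (t + (β : UnitAddCircle)) = fourier (-n) t * fourier (-n) (β : UnitAddCircle) := by
    simp only [fourier_apply, smul_add, AddCircle.toCircle_add, Circle.coe_mul]
  have h2 : Complex.exp (2 * π * Complex.I * n * β) * fourier (-n) (β : UnitAddCircle) = 1 := by
    rw [fourier_coe_apply, ← Complex.exp_add]; simp
  simp only [shC, ContinuousMap.comp_apply, ContinuousMap.coe_mk, smul_eq_mul, h1]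
  linear_combination (-(fourier (-n) t * f (t + (β : UnitAddCircle)))) * h2

lemma norm_exp_sh (β : ℝ) (n : ℤ) : ‖Complex.exp (2 * π * Complex.I * n * β)‖ = 1 := by
  have : (2 * π * Complex.I * n * β : ℂ) = ((2 * π * n * β : ℝ) : ℂ) * Complex.I := by
    push_cast; ring
  rw [this, Complex.norm_exp_ofReal_mul_I]

lemma Bd.shC {ρ M : ℝ} {f : CT} (h : Bd ρ f M) (β : ℝ) : Bd ρ (shC β f) M := fun s => by
  simpa only [fc_shC, norm_mul, norm_exp_sh, one_mul] using h s

lemma continuous_shC (β : ℝ) : Continuous (shC β) := ContinuousMap.continuous_precomp _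

/-- Translation as a ring endomorphism. -/
noncomputable def sh (β : ℝ) : An →+* An where
  toFun f := ⟨shC β f.1, by obtain ⟨ρ, hρ, M, h⟩ := f.bd; exact ⟨ρ, hρ, M, h.shC β⟩⟩
  map_one' := rfl
  map_mul' _ _ := rfl
  map_zero' := rfl
  map_add' _ _ := rfl

lemma sh_val (β : ℝ) (f : An) : (sh β f).1 = shC β f.1 := rfl

lemma cf_sh (β : ℝ) (f : An) (n : ℤ) :
    cf (sh β f) n = Complex.exp (2 * π * Complex.I * n * β) * cf f n := fc_shC _ _ _

@[simp] lemma sh_κ (β : ℝ) (c : ℂ) : sh β (κ c) = κ c := rfl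

lemma D_sh (β : ℝ) (f : An) : D.d (sh β f) = sh β (D.d f) := An.ext_cf fun n => by
  simp only [cf_D, cf_sh]; ring

/-- Evaluation at a real point. -/
noncomputable def evR (x : ℝ) : An →+* ℂ where
  toFun f := f.1 (x : UnitAddCircle)
  map_one' := rfl
  map_mul' _ _ := rfl
  map_zero' := rfl
  map_add' _ _ := rfl

lemma evR_apply (x : ℝ) (f : An) : evR x f = f.1 (x : UnitAddCircle) := rfl

@[simp] lemma evR_κ (x : ℝ) (c : ℂ) : evR x (κ c) = c := by
  simp [evR_apply, Algebra.algebraMap_eq_smul_one, val_smul, val_one]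

lemma evR_em (x : ℝ) (n : ℤ) : evR x (em n) = Complex.exp (2 * π * Complex.I * n * x) := by
  simp [evR_apply, em]

lemma evR_sh (x β : ℝ) (f : An) : evR x (sh β f) = evR (x + β) f := by
  simp [evR_apply, sh_val, shC]

lemma evR_periodic (x : ℝ) (f : An) : evR (x + 1) f = evR x f := by
  simp [evR_apply]

lemma An.ext_ev {f g : An} (h : ∀ x : ℝ, evR x f = evR x g) : f = g := by
  apply Subtype.ext; ext x
  induction x using QuotientAddGroup.induction_on with
  | H x => exact h x

lemma continuous_evR (f : An) : Continuous fun x : ℝ => evR x f :=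
  f.1.continuous.comp (AddCircle.continuous_mk' 1)

lemma cf_eq_integral (f : An) (n : ℤ) :
    cf f n = ∫ x in (0 : ℝ)..1, Complex.exp (2 * π * Complex.I * (-n : ℤ) * x) * evR x f := by
  unfold cf fc
  rw [fourierCoeff_eq_intervalIntegral _ n 0]
  simp only [fourier_coe_apply, evR_apply]
  simp

/-- Holomorphic extension to a strip. -/
noncomputable def ext (f : An) (z : ℂ) : ℂ :=
  ∑' n : ℤ, cf f n * Complex.exp (2 * π * Complex.I * n * z)

lemma norm_term_le {ρ : ℝ} (f : An) (n : ℤ) {z : ℂ} (hz : |z.im| < ρ / (2 * π)) :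
    ‖cf f n * Complex.exp (2 * π * Complex.I * n * z)‖ ≤ ‖fc f.1 n‖ * wt ρ n := by
  rw [norm_mul, Complex.norm_exp]
  refine mul_le_mul_of_nonneg_left (exp_le_exp.mpr ?_) (norm_nonneg _)
  have h1 : (2 * π * Complex.I * n * z).re = -(2 * π * n * z.im) := by simp
  rw [h1]
  rw [lt_div_iff₀ (by positivity)] at hz
  have h2 : -(2 * π * n * z.im) ≤ |2 * π * n * z.im| := neg_le_abs _
  rw [abs_mul, abs_mul, abs_of_pos (by positivity : 0 < 2 * π)] at h2
  nlinarith [abs_nonneg (n : ℝ)]

lemma isOpen_strip (h : ℝ) : IsOpen {z : ℂ | |z.im| < h} :=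
  isOpen_lt (by fun_prop) continuous_const

lemma differentiableOn_ext {ρ M : ℝ} {f : An} (h : Bd ρ f.1 M) :
    DifferentiableOn ℂ (ext f) {z : ℂ | |z.im| < ρ / (2 * π)} :=
  Complex.differentiableOn_tsum_of_summable_norm h.summable (fun n => by fun_prop)
    (isOpen_strip _) (fun n _ hw => norm_term_le f n hw)

lemma ext_ofReal (f : An) (x : ℝ) : ext f x = evR x f := by
  have := has_pointwise_sum_fourier_series_of_summable (T := 1) (f := f.1)
    f.summable.of_norm (x : UnitAddCircle)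
  simp only [fourier_coe_apply, smul_eq_mul, Complex.ofReal_one, div_one] at this
  exact this.tsum_eq

lemma ext_add_int (f : An) (z : ℂ) (k : ℤ) : ext f (z + k) = ext f z := by
  unfold ext
  congr 1; funext n
  have : Complex.exp (2 * π * Complex.I * n * k) = 1 := by
    rw [← Complex.exp_int_mul_two_pi_mul_I (n * k)]; congr 1; push_cast; ring
  rw [mul_add, Complex.exp_add, this, mul_one]

lemma hasDerivAt_evR (f : An) (x : ℝ) :
    HasDerivAt (fun y : ℝ => evR y f) (2 * π * Complex.I * evR x (D.d f)) x := by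
  obtain ⟨ρ, hρ, M, h⟩ := f.bd
  have hx : (x : ℂ) ∈ {z : ℂ | |z.im| < ρ / (2 * π)} := by
    simp only [Set.mem_setOf_eq, Complex.ofReal_im, abs_zero]; positivity
  have h1 := (differentiableOn_ext h).differentiableAt ((isOpen_strip _).mem_nhds hx)
  have h2 := Complex.hasSum_deriv_of_summable_norm
    (F := fun (n : ℤ) z => cf f n * Complex.exp (2 * π * Complex.I * n * z)) h.summable
    (fun n => by fun_prop) (isOpen_strip _) (fun n _ hw => norm_term_le f n hw) hx
  have h3 : ∀ n : ℤ, deriv (fun z => cf f n * Complex.exp (2 * π * Complex.I * n * z)) x =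
      2 * π * Complex.I * (cf (D.d f) n * Complex.exp (2 * π * Complex.I * n * x)) := by
    intro n
    have : HasDerivAt (fun z => cf f n * Complex.exp (2 * π * Complex.I * n * z))
        (cf f n * (Complex.exp (2 * π * Complex.I * n * x) * (2 * π * Complex.I * n * 1))) x :=
      ((hasDerivAt_id (x : ℂ)).const_mul _).cexp.const_mul _
    rw [this.deriv, cf_D]; ring
  simp only [h3] at h2
  have h4 : deriv (ext f) x = 2 * π * Complex.I * evR x (D.d f) := by
    rw [← ext_ofReal, ext, ← tsum_mul_left]; exact h2.tsum_eq.symm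
  have h5 := h1.hasDerivAt.comp_ofReal
  rw [h4] at h5
  simpa only [ext_ofReal] using h5

end Pool.Agent.Lib.MP_77fc3d_an
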