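import Mathlib

/-! Dixon type elliptic functions on the hexagonal lattice. -/

open Complex Filter Topology PeriodPair

namespace Pool.Agent.Lib.MP_77fc3d_an

/-- Regularisation of removable singularities. -/
noncomputable def reg (f : ℂ → ℂ) (z : ℂ) : ℂ := limUnder (𝓝[≠] z) f

lemma reg_eq {f g : ℂ → ℂ} {z : ℂ} (hg : ContinuousAt g z) (h : f =ᶠ[𝓝[≠] z] g) :
    reg f z = g z :=
  Tendsto.limUnder_eq ((hg.tendsto.mono_left nhdsWithin_le_nhds).congr' h.symm)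

lemma reg_analytic {f g : ℂ → ℂ} {z : ℂ} (hg : AnalyticAt ℂ g z) (h : f =ᶠ[𝓝[≠] z] g) :
    AnalyticAt ℂ (reg f) z := by
  refine hg.congr ?_
  have h1 : ∀ᶠ w in 𝓝 z, w ≠ z → f w = g w := eventually_nhdsWithin_iff.mp h
  filter_upwards [h1.eventually_nhds, hg.eventually_analyticAt] with w hw hw'
  by_cases hwz : w = z
  · subst hwz; exact (reg_eq hg.continuousAt h).symm
  · refine (reg_eq hw'.continuousAt (mem_nhdsWithin_of_mem_nhds ?_)).symm
    filter_upwards [hw, eventually_ne_nhds hwz] with v hv hv' using hv hv'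

/-- `f` has at worst a removable singularity at `z`. -/
def Rem (f : ℂ → ℂ) (z : ℂ) : Prop := ∃ g, AnalyticAt ℂ g z ∧ f =ᶠ[𝓝[≠] z] g

lemma tendsto_add_punct (z l : ℂ) : Tendsto (fun w => w + l) (𝓝[≠] z) (𝓝[≠] (z + l)) := by
  refine tendsto_nhdsWithin_of_tendsto_nhds_of_eventually_within _
    (((continuous_add_right l).tendsto z).mono_left nhdsWithin_le_nhds) ?_
  filter_upwards [self_mem_nhdsWithin] with w hw
  simpa using hw

lemma tendsto_neg_punct (z : ℂ) : Tendsto (fun w => -w) (𝓝[≠] z) (𝓝[≠] (-z)) := by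
  refine tendsto_nhdsWithin_of_tendsto_nhds_of_eventually_within _
    ((continuous_neg.tendsto z).mono_left nhdsWithin_le_nhds) ?_
  filter_upwards [self_mem_nhdsWithin] with w hw
  simpa using hw

lemma Rem.of_add {f : ℂ → ℂ} {z l : ℂ} (per : ∀ w, f (w + l) = f w) (h : Rem f (z + l)) :
    Rem f z := by
  obtain ⟨g, hg, hfg⟩ := h
  refine ⟨fun w => g (w + l), hg.comp_of_eq (by fun_prop) rfl, ?_⟩
  filter_upwards [(tendsto_add_punct z l).eventually hfg] with w hw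
  rw [← hw, per]

lemma Rem.of_neg {f : ℂ → ℂ} {z : ℂ} (ev : ∀ w, f (-w) = f w) (h : Rem f (-z)) : Rem f z := by
  obtain ⟨g, hg, hfg⟩ := h
  refine ⟨fun w => g (-w), hg.comp_of_eq (by fun_prop) rfl, ?_⟩
  filter_upwards [(tendsto_neg_punct z).eventually hfg] with w hw
  rw [← hw, ev]

lemma liouville (P : PeriodPair) (f : ℂ → ℂ) (per : ∀ l ∈ P.lattice, ∀ z, f (z + l) = f z)
    (hf : ∀ z, Rem f z) (z w : ℂ) : reg f z = reg f w := by
  have hd : Differentiable ℂ (reg f) := fun z => by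
    obtain ⟨g, hg, h⟩ := hf z
    exact (reg_analytic hg h).differentiableAt
  refine hd.apply_eq_apply_of_bounded (IsZLattice.isCompact_range_of_periodic P.lattice _
    hd.continuous fun z l hl => ?_).isBounded z w
  obtain ⟨g, hg, h⟩ := hf (z + l)
  rw [reg_eq hg.continuousAt h]
  refine (reg_eq (g := fun w => g (w + l)) (hg.continuousAt.comp_of_eq (by fun_prop) rfl) ?_).symm
  filter_upwards [(tendsto_add_punct z l).eventually h] with w hw
  rw [← hw, per l hl]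

section symm

variable (P : PeriodPair)

/-- Multiplication by a unit of the lattice. -/
noncomputable def mulE {k : ℂ} (hk : k ≠ 0) (h1 : ∀ l ∈ P.lattice, k * l ∈ P.lattice)
    (h2 : ∀ l ∈ P.lattice, k⁻¹ * l ∈ P.lattice) : P.lattice ≃ P.lattice where
  toFun l := ⟨k * l, h1 _ l.2⟩
  invFun l := ⟨k⁻¹ * l, h2 _ l.2⟩
  left_inv l := by ext; simp [hk]
  right_inv l := by ext; simp [hk]

lemma wp_mul {k : ℂ} (hk : k ≠ 0) (h1 : ∀ l ∈ P.lattice, k * l ∈ P.lattice)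
    (h2 : ∀ l ∈ P.lattice, k⁻¹ * l ∈ P.lattice) (z : ℂ) :
    ℘[P] (k * z) = (k ^ 2)⁻¹ * ℘[P] z := by
  simp only [weierstrassP]
  rw [← (mulE P hk h1 h2).tsum_eq, ← tsum_mul_left]
  congr with l
  simp only [mulE, Equiv.coe_fn_mk, ← mul_sub, mul_pow, one_div, mul_inv]

lemma G_mul {k : ℂ} (hk : k ≠ 0) (h1 : ∀ l ∈ P.lattice, k * l ∈ P.lattice)
    (h2 : ∀ l ∈ P.lattice, k⁻¹ * l ∈ P.lattice) (n : ℕ) : P.G n = (k ^ n)⁻¹ * P.G n := by
  conv_lhs => rw [PeriodPair.G, ← (mulE P hk h1 h2).tsum_eq]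
  rw [PeriodPair.G, ← tsum_mul_left]
  congr with l
  simp only [mulE, Equiv.coe_fn_mk, mul_pow, mul_inv]

/-- Complex conjugation on the lattice. -/
noncomputable def conjE (h : ∀ l ∈ P.lattice, (starRingEnd ℂ) l ∈ P.lattice) :
    P.lattice ≃ P.lattice where
  toFun l := ⟨starRingEnd ℂ l, h _ l.2⟩
  invFun l := ⟨starRingEnd ℂ l, h _ l.2⟩
  left_inv l := by ext; simp
  right_inv l := by ext; simp

lemma wp_conj (h : ∀ l ∈ P.lattice, (starRingEnd ℂ) l ∈ P.lattice) (z : ℂ) :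
    ℘[P] (starRingEnd ℂ z) = starRingEnd ℂ (℘[P] z) := by
  simp only [weierstrassP]
  rw [← (conjE P h).tsum_eq, conj_tsum]
  congr with l
  simp [conjE]

lemma G_conj (h : ∀ l ∈ P.lattice, (starRingEnd ℂ) l ∈ P.lattice) (n : ℕ) :
    starRingEnd ℂ (P.G n) = P.G n := by
  conv_rhs => rw [PeriodPair.G, ← (conjE P h).tsum_eq]
  rw [PeriodPair.G, conj_tsum]
  congr with l
  simp [conjE]

lemma preconn : IsPreconnected (P.lattice : Set ℂ)ᶜ :=
  (Set.Countable.isConnected_compl_of_one_lt_rank (by simp)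
    (countable_of_Lindelof_of_discrete (X := P.lattice))).2

lemma ev_notMem (z : ℂ) : ∀ᶠ w in 𝓝[≠] z, w ∉ P.lattice := by
  filter_upwards [self_mem_nhdsWithin, mem_nhdsWithin_of_mem_nhds
    (P.compl_lattice_sdiff_singleton_mem_nhds z)] with w hw hw' hl
  exact hw' ⟨hl, hw⟩

end symm

/-- The primitive sixth root of unity. -/
noncomputable def ζ : ℂ := ⟨1 / 2, √3 / 2⟩

lemma sq3 : √3 * √3 = 3 := Real.mul_self_sqrt (by norm_num)

lemma ζ_re : ζ.re = 1 / 2 := rfl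
lemma ζ_im : ζ.im = √3 / 2 := rfl

lemma ζ_sq : ζ ^ 2 = ζ - 1 := by
  apply Complex.ext <;> simp [pow_two, ζ_re, ζ_im]
  · nlinarith [sq3]
  · ring

lemma ζ_conj : starRingEnd ℂ ζ = 1 - ζ := by
  apply Complex.ext <;> simp [ζ_re, ζ_im]; norm_num

lemma ζ_ne : ζ ≠ 0 := fun h => by have := ζ_sq; simp [h] at this

lemma ζ_inv : ζ⁻¹ = 1 - ζ := by
  apply inv_eq_of_mul_eq_one_right; linear_combination -ζ_sq

lemma coord_inj {a b : ℝ} (h : (a : ℂ) + b * ζ = 0) : a = 0 ∧ b = 0 := by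
  have h1 := congrArg Complex.im h
  have h2 := congrArg Complex.re h
  simp [ζ_re, ζ_im] at h1 h2
  simp [h1] at h2
  exact ⟨h2, h1⟩

/-- The hexagonal lattice. -/
noncomputable def LL : PeriodPair where
  ω₁ := 1
  ω₂ := ζ
  indep := LinearIndependent.pair_iff.mpr fun s t h => coord_inj (by simpa using h)

/-- Its sublattice of index three. -/
noncomputable def LM : PeriodPair where
  ω₁ := 1 + ζ
  ω₂ := 2 * ζ - 1
  indep := LinearIndependent.pair_iff.mpr fun s t h => by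
    have := coord_inj (a := s - t) (b := s + 2 * t) (by
      simp only [real_smul] at h; push_cast; linear_combination h)
    constructor <;> linarith [this.1, this.2]

lemma mem_LL {z : ℂ} : z ∈ LL.lattice ↔ ∃ m n : ℤ, z = m + n * ζ := by
  rw [mem_lattice]; simp [LL, eq_comm]

lemma mem_LM {z : ℂ} : z ∈ LM.lattice ↔ ∃ m n : ℤ, z = m * (1 + ζ) + n * (2 * ζ - 1) := by
  rw [mem_lattice]; simp [LM, eq_comm]

lemma LM_sub {z : ℂ} (h : z ∈ LM.lattice) : z ∈ LL.lattice := by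
  obtain ⟨m, n, rfl⟩ := mem_LM.mp h
  exact mem_LL.mpr ⟨m - n, m + 2 * n, by push_cast; ring⟩

lemma LL_ζ : ∀ l ∈ LL.lattice, ζ * l ∈ LL.lattice := fun l hl => by
  obtain ⟨m, n, rfl⟩ := mem_LL.mp hl
  exact mem_LL.mpr ⟨-n, m + n, by push_cast; linear_combination n * ζ_sq⟩

lemma LL_ζ' : ∀ l ∈ LL.lattice, ζ⁻¹ * l ∈ LL.lattice := fun l hl => by
  obtain ⟨m, n, rfl⟩ := mem_LL.mp hl
  exact mem_LL.mpr ⟨m + n, -m, by rw [ζ_inv]; push_cast; linear_combination -n * ζ_sq⟩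

lemma LL_conj : ∀ l ∈ LL.lattice, starRingEnd ℂ l ∈ LL.lattice := fun l hl => by
  obtain ⟨m, n, rfl⟩ := mem_LL.mp hl
  exact mem_LL.mpr ⟨m + n, -n, by simp [ζ_conj]; ring⟩

lemma LM_ζ : ∀ l ∈ LM.lattice, ζ * l ∈ LM.lattice := fun l hl => by
  obtain ⟨m, n, rfl⟩ := mem_LM.mp hl
  exact mem_LM.mpr ⟨-n, m + n, by push_cast; linear_combination (m + 2 * n) * ζ_sq⟩

lemma LM_ζ' : ∀ l ∈ LM.lattice, ζ⁻¹ * l ∈ LM.lattice := fun l hl => by
  obtain ⟨m, n, rfl⟩ := mem_LM.mp hl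
  exact mem_LM.mpr ⟨m + n, -m, by rw [ζ_inv]; push_cast; linear_combination -(m + 2 * n) * ζ_sq⟩

lemma LM_conj : ∀ l ∈ LM.lattice, starRingEnd ℂ l ∈ LM.lattice := fun l hl => by
  obtain ⟨m, n, rfl⟩ := mem_LM.mp hl
  exact mem_LM.mpr ⟨m, -m - n, by
    simp only [map_add, map_mul, map_sub, map_intCast, map_one, map_ofNat, ζ_conj]
    push_cast; ring⟩

lemma one_notMem_LM : (1 : ℂ) ∉ LM.lattice := fun h => by
  obtain ⟨m, n, h⟩ := mem_LM.mp h
  have := coord_inj (a := m - n - 1) (b := m + 2 * n) (by push_cast; linear_combination -h)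
  have h1 : m - n - 1 = 0 := by exact_mod_cast this.1
  have h2 : m + 2 * n = 0 := by exact_mod_cast this.2
  omega

lemma LL_cases {z : ℂ} (h : z ∈ LL.lattice) :
    ∃ l ∈ LM.lattice, z + l = 0 ∨ z + l = 1 ∨ z + l = -1 := by
  obtain ⟨m, n, rfl⟩ := mem_LL.mp h
  obtain ⟨k, hk⟩ : ∃ k, m - n = 3 * k ∨ m - n = 3 * k + 1 ∨ m - n = 3 * k - 1 :=
    ⟨(m - n + 1) / 3, by omega⟩
  refine ⟨_, mem_LM.mpr ⟨-n - 2 * k, k, rfl⟩, ?_⟩
  rcases hk with hk | hk | hk
  · left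
    have : (m : ℂ) - n = 3 * k := by exact_mod_cast hk
    push_cast; linear_combination this
  · right; left
    have : (m : ℂ) - n = 3 * k + 1 := by exact_mod_cast hk
    push_cast; linear_combination this
  · right; right
    have : (m : ℂ) - n = 3 * k - 1 := by exact_mod_cast hk
    push_cast; linear_combination this

lemma ζ4_ne : (ζ ^ 4)⁻¹ ≠ 1 := by
  intro h
  have h1 : ζ ^ 4 = 1 := inv_eq_one.mp h
  have : ζ = -1 := by linear_combination -h1 + (ζ ^ 2 + ζ) * ζ_sq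
  have := congrArg Complex.re this
  norm_num [ζ_re] at this

lemma G4_eq {P : PeriodPair} (h1 : ∀ l ∈ P.lattice, ζ * l ∈ P.lattice)
    (h2 : ∀ l ∈ P.lattice, ζ⁻¹ * l ∈ P.lattice) : P.G 4 = 0 := by
  have := G_mul P ζ_ne h1 h2 4
  by_contra h
  exact ζ4_ne (mul_right_cancel₀ h (this.symm.trans (one_mul _).symm))

lemma wpM_one : ℘[LM] 1 = 0 := by
  have h1 := wp_mul LM ζ_ne LM_ζ LM_ζ' (ζ * 1)
  rw [wp_mul LM ζ_ne LM_ζ LM_ζ' 1] at h1
  have h2 : ℘[LM] (ζ * (ζ * 1)) = ℘[LM] 1 := by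
    have := LM.weierstrassP_add_coe 1 ⟨_, mem_LM.mpr ⟨-1, 1, rfl⟩⟩
    rw [← this]; congr 1; push_cast; linear_combination ζ_sq
  rw [h2, ← mul_assoc, ← mul_inv, ← pow_add] at h1
  by_contra h
  exact ζ4_ne (mul_right_cancel₀ h (h1.symm.trans (one_mul _).symm))

lemma relM (z : ℂ) (hz : z ∉ LM.lattice) : ℘'[LM] z ^ 2 = 4 * ℘[LM] z ^ 3 - LM.g₃ := by
  rw [LM.derivWeierstrassP_sq z hz, g₂, G4_eq LM_ζ LM_ζ']; ring

/-- The auxiliary elliptic function. -/
noncomputable def aux (z : ℂ) : ℂ := ℘[LM] z ^ 2 * (℘[LM] z - ℘[LL] z)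

lemma aux_zero : Rem aux 0 := by
  have ha : AnalyticAt ℂ (fun z => weierstrassPExcept LM 0 z - weierstrassPExcept LL 0 z) 0 := by fun_prop
  have h4 : ((4 : ℕ) : ℕ∞) ≤ analyticOrderAt (fun z => weierstrassPExcept LM 0 z - weierstrassPExcept LL 0 z) 0 := by
    rw [natCast_le_analyticOrderAt_iff_iteratedDeriv_eq_zero ha]
    intro i hi
    rw [iteratedDeriv_fun_sub (LM.analyticAt_weierstrassPExcept 0).contDiffAt
      (LL.analyticAt_weierstrassPExcept 0).contDiffAt]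
    simp only [iteratedDeriv_weierstrassPExcept_self, sumInvPow_zero]
    interval_cases i
    · simp
    · simp [G_eq_zero_of_odd _ 3 (by decide)]
    · simp [G4_eq LM_ζ LM_ζ', G4_eq LL_ζ LL_ζ']
    · simp [G_eq_zero_of_odd _ 5 (by decide)]
  obtain ⟨k, hk, hk'⟩ := (natCast_le_analyticOrderAt ha).mp h4
  refine ⟨fun z => (z ^ 2 * weierstrassPExcept LM 0 z + 1) ^ 2 * k z, by fun_prop, ?_⟩
  filter_upwards [self_mem_nhdsWithin, mem_nhdsWithin_of_mem_nhds hk'] with z hz hz'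
  have hz0 : z ≠ 0 := hz
  have e1 := LM.weierstrassPExcept_add 0 z
  have e2 := LL.weierstrassPExcept_add 0 z
  simp only [ZeroMemClass.coe_zero, sub_zero, smul_eq_mul] at e1 e2 hz'
  unfold aux
  rw [← e1, ← e2]
  have : weierstrassPExcept LM 0 z + (1 / z ^ 2 - 1 / 0 ^ 2) - (weierstrassPExcept LL 0 z + (1 / z ^ 2 - 1 / 0 ^ 2)) =
      z ^ 4 * k z := by rw [← hz']; ring
  rw [this]; field_simp; ring

lemma aux_one : ∃ k s : ℂ → ℂ, AnalyticAt ℂ k 1 ∧ AnalyticAt ℂ s 1 ∧ s 1 = -1 ∧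
    k 1 ^ 2 = -LM.g₃ ∧ (∀ᶠ z in 𝓝 1, ℘[LM] z = (z - 1) * k z) ∧
    aux =ᶠ[𝓝[≠] 1] fun z => k z ^ 2 * s z := by
  have ha : AnalyticAt ℂ ℘[LM] 1 := LM.analyticOnNhd_weierstrassP 1 one_notMem_LM
  have h1 : ((1 : ℕ) : ℕ∞) ≤ analyticOrderAt ℘[LM] 1 := by
    rw [natCast_le_analyticOrderAt_iff_iteratedDeriv_eq_zero ha]
    intro i hi
    interval_cases i
    simpa using wpM_one
  obtain ⟨k, hk, hk'⟩ := (natCast_le_analyticOrderAt ha).mp h1
  simp only [pow_one, smul_eq_mul] at hk'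
  have hd : ℘'[LM] 1 = k 1 := by
    have h2 : HasDerivAt (fun z => (z - 1) * k z) (1 * k 1 + (1 - 1) * deriv k 1) 1 :=
      ((hasDerivAt_id (1 : ℂ)).sub_const 1).mul hk.differentiableAt.hasDerivAt
    rw [← deriv_weierstrassP, EventuallyEq.deriv_eq hk', h2.deriv]; ring
  refine ⟨k, fun z => (z - 1) ^ 2 * (℘[LM] z - weierstrassPExcept LL 1 z + 1) - 1, hk, by fun_prop, by simp,
    ?_, hk', ?_⟩
  · rw [← hd, relM 1 one_notMem_LM, wpM_one]; ring
  · filter_upwards [self_mem_nhdsWithin, mem_nhdsWithin_of_mem_nhds hk'] with z hz hz'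
    have hz0 : z - 1 ≠ 0 := sub_ne_zero.mpr hz
    have e2 := LL.weierstrassPExcept_add ⟨1, LL.ω₁_mem_lattice⟩ z
    simp only at e2
    unfold aux
    rw [← e2]
    nth_rewrite 1 [hz']
    field_simp; ring

lemma aux_eq {z : ℂ} (hz : z ∉ LL.lattice) : aux z = LM.g₃ := by
  have han : ∀ z ∉ LL.lattice, AnalyticAt ℂ aux z := fun z hz => by
    have h1 := LM.analyticOnNhd_weierstrassP z (fun h => hz (LM_sub h))
    have h2 := LL.analyticOnNhd_weierstrassP z hz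
    unfold aux; fun_prop
  have per : ∀ l ∈ LM.lattice, ∀ z, aux (z + l) = aux z := fun l hl z => by
    unfold aux
    rw [LM.weierstrassP_add_coe z ⟨l, hl⟩, LL.weierstrassP_add_coe z ⟨l, LM_sub hl⟩]
  obtain ⟨k, s, hk, hs, hs1, hk1, -, h1⟩ := aux_one
  have r1 : Rem aux 1 := ⟨_, by fun_prop, h1⟩
  have hr : ∀ z, Rem aux z := fun z => by
    by_cases hz : z ∈ LL.lattice
    · obtain ⟨l, hl, h | h | h⟩ := LL_cases hz
      · exact Rem.of_add (per l hl) (h ▸ aux_zero)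
      · exact Rem.of_add (per l hl) (h ▸ r1)
      · refine Rem.of_add (per l hl) (h ▸ Rem.of_neg (fun w => by simp [aux]) ?_)
        simpa using r1
    · exact ⟨aux, han z hz, EventuallyEq.rfl⟩
  have := liouville LM aux per hr z 1
  rw [reg_eq (han z hz).continuousAt EventuallyEq.rfl,
    reg_eq (g := fun z => k z ^ 2 * s z) (AnalyticAt.continuousAt (by fun_prop)) h1] at this
  rw [this, hk1, hs1]; ring

lemma g3_ne : LM.g₃ ≠ 0 := by
  intro h0
  obtain ⟨k, s, hk, hs, hs1, -, hk', h1⟩ := aux_one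
  have hs0 : ∀ᶠ z in 𝓝 1, s z ≠ 0 := hs.continuousAt.eventually_ne (by rw [hs1]; norm_num)
  have h2 : ∀ᶠ z in 𝓝[≠] 1, ℘[LM] z = 0 := by
    filter_upwards [h1, ev_notMem LL 1, mem_nhdsWithin_of_mem_nhds hs0,
      mem_nhdsWithin_of_mem_nhds hk'] with z e1 e2 e3 e4
    rw [aux_eq e2, h0] at e1
    have : k z = 0 := by simpa [e3] using e1.symm
    rw [e4, this, mul_zero]
  have h3 := LM.analyticOnNhd_weierstrassP.eqOn_zero_of_preconnected_of_frequently_eq_zero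
    (preconn LM) one_notMem_LM h2.frequently
  refine LM.not_continuousAt_weierstrassP 0 (zero_mem _) (continuousAt_const.congr (f := fun _ => 0) ?_)
  filter_upwards [eventually_nhdsWithin_iff.mp (ev_notMem LM 0)] with z hz
  by_cases h : z = 0
  · simp [h]
  · exact (h3 (hz h)).symm

lemma hasDerivAt_wpM {z : ℂ} (hz : z ∉ LM.lattice) : HasDerivAt ℘[LM] (℘'[LM] z) z := by
  have := (LM.analyticOnNhd_weierstrassP z hz).differentiableAt.hasDerivAt
  rwa [deriv_weierstrassP] at this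

lemma hasDerivAt_wpM' {z : ℂ} (hz : z ∉ LM.lattice) : HasDerivAt ℘'[LM] (6 * ℘[LM] z ^ 2) z := by
  have a1 := LM.analyticOnNhd_derivWeierstrassP
  have a2 : AnalyticOnNhd ℂ (fun z => deriv ℘'[LM] z - 6 * ℘[LM] z ^ 2) LM.latticeᶜ := fun z hz => by
    have := (a1 z hz).deriv
    have := LM.analyticOnNhd_weierstrassP z hz
    fun_prop
  have key : ∀ z ∈ (LM.lattice : Set ℂ)ᶜ, ℘'[LM] z * (deriv ℘'[LM] z - 6 * ℘[LM] z ^ 2) = 0 := by
    intro z hz
    have e1 := ((a1 z hz).differentiableAt.hasDerivAt.pow 2)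
    have e2 := (((hasDerivAt_wpM hz).pow 3).const_mul 4).sub_const LM.g₃
    have e3 := e1.unique (e2.congr_of_eventuallyEq (by
      filter_upwards [LM.isClosed_lattice.isOpen_compl.mem_nhds hz] with w hw
      exact relM w hw))
    norm_num at e3
    linear_combination e3 / 2
  rcases a1.eq_zero_or_eq_zero_of_mul_eq_zero a2 key (preconn LM) with h | h
  · have := relM 1 one_notMem_LM
    rw [h 1 one_notMem_LM, wpM_one] at this
    exact absurd (by linear_combination this) g3_ne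
  · have := (a1 z hz).differentiableAt.hasDerivAt
    rwa [sub_eq_zero.mp (h z hz)] at this

/-- The Dixon type functions. -/
theorem exists_dixon : ∃ (F G : ℂ → ℂ) (h : ℂ), h ≠ 0 ∧ (h ^ 2).im = 0 ∧ ∀ z ∉ LL.lattice,
    HasDerivAt F (G z ^ 2) z ∧ HasDerivAt G (F z ^ 2) z ∧ F z * G z = ℘[LL] z ∧
      G z ^ 3 - F z ^ 3 = h := by
  obtain ⟨β, hβ⟩ := IsAlgClosed.exists_pow_nat_eq (3 * LM.g₃) (n := 2) (by norm_num)
  refine ⟨fun z => (℘'[LM] z + β) / (2 * ℘[LM] z), fun z => (℘'[LM] z - β) / (2 * ℘[LM] z),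
    -3 * β, ?_, ?_, fun z hz => ?_⟩
  · intro h
    have : β = 0 := by linear_combination -h / 3
    rw [this] at hβ
    exact g3_ne (by linear_combination -hβ / 3)
  · have : (-3 * β) ^ 2 = ((27 * 140 : ℝ) : ℂ) * LM.G 6 := by
      rw [g₃] at hβ; push_cast; linear_combination 9 * hβ
    rw [this, im_ofReal_mul, conj_eq_iff_im.mp (G_conj LM LM_conj 6), mul_zero]
  · have hz' : z ∉ LM.lattice := fun h => hz (LM_sub h)
    have ha := aux_eq hz
    unfold aux at ha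
    have hp : ℘[LM] z ≠ 0 := fun h => g3_ne (by rw [← ha, h]; ring)
    have hr := relM z hz'
    have d1 := hasDerivAt_wpM hz'
    have d2 := hasDerivAt_wpM' hz'
    refine ⟨?_, ?_, ?_, ?_⟩
    · refine ((d2.add_const β).div (d1.const_mul 2) (by simpa using hp)).congr_deriv ?_
      field_simp
      linear_combination -3 * hr - hβ
    · refine ((d2.sub_const β).div (d1.const_mul 2) (by simpa using hp)).congr_deriv ?_
      field_simp
      linear_combination -3 * hr - hβ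
    · field_simp
      linear_combination hr - hβ + 4 * ha
    · field_simp
      linear_combination -6 * β * hr - 2 * β * hβ

lemma wpL_ζ (z : ℂ) : ℘[LL] (ζ * z) = (ζ ^ 2)⁻¹ * ℘[LL] z := wp_mul LL ζ_ne LL_ζ LL_ζ' z

lemma wpL_conj (z : ℂ) : ℘[LL] (starRingEnd ℂ z) = starRingEnd ℂ (℘[LL] z) := wp_conj LL LL_conj z

lemma wpL_add (z : ℂ) (m n : ℤ) : ℘[LL] (z + (m + n * ζ)) = ℘[LL] z :=
  LL.weierstrassP_add_coe z ⟨_, mem_LL.mpr ⟨m, n, rfl⟩⟩

end Pool.Agent.Lib.MP_77fc3d_an
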