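import Pool.Agent.Lib.MP_77fc3d_an.An
import Pool.Agent.Lib.MP_77fc3d_an.Ell

/-! Restriction of holomorphic functions to a circle. -/

open Real Filter Topology MeasureTheory PeriodPair Metric

namespace Pool.Agent.Lib.MP_77fc3d_an

/-- Parametrisation of the circle. -/
noncomputable def cz (c : ℂ) (r : ℝ) (x : ℝ) : ℂ := c + r * Complex.exp (2 * π * Complex.I * x)

lemma circle_eq (g : ℂ → ℂ) (c : ℂ) (r : ℝ) :
    (∮ z in C(c, r), g z) = 2 * π * Complex.I * ∫ x in (0 : ℝ)..1, (cz c r x - c) * g (cz c r x) := by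
  have h := intervalIntegral.smul_integral_comp_mul_left (a := 0) (b := 1)
    (fun θ : ℝ => deriv (circleMap c r) θ • g (circleMap c r θ)) (2 * π)
  rw [mul_zero, mul_one] at h
  rw [circleIntegral, ← h, ← intervalIntegral.integral_const_mul, ← intervalIntegral.integral_smul]
  refine intervalIntegral.integral_congr fun x _ => ?_
  have e : circleMap c r (2 * π * x) = cz c r x := by
    simp only [circleMap, cz]; congr 3; push_cast; ring
  have e' : circleMap 0 r (2 * π * x) = cz c r x - c := by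
    simp only [circleMap, cz, zero_add, add_sub_cancel_left]; congr 2; push_cast; ring
  simp only [deriv_circleMap, e, e', smul_eq_mul, Complex.real_smul]
  push_cast; ring

lemma norm_cz {c : ℂ} {r : ℝ} (hr : 0 ≤ r) (x : ℝ) : ‖cz c r x - c‖ = r := by
  have := norm_exp_sh x 1
  simp only [Int.cast_one, mul_one] at this
  simp [cz, this, abs_of_nonneg hr]

lemma integral_eq_circle (f : ℂ → ℂ) (c : ℂ) {r : ℝ} (hr : 0 < r) (n : ℤ) :
    ∫ x in (0 : ℝ)..1, Complex.exp (2 * π * Complex.I * (-n : ℤ) * x) * f (cz c r x) =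
      (2 * π * Complex.I)⁻¹ * (r : ℂ) ^ n * ∮ z in C(c, r), (z - c) ^ (-n - 1) * f z := by
  rw [circle_eq]
  have h : (2 * π * Complex.I : ℂ) ≠ 0 := by simp [pi_ne_zero]
  have hr' : (r : ℂ) ≠ 0 := by exact_mod_cast hr.ne'
  have h' : ∀ a b : ℂ, (2 * π * Complex.I)⁻¹ * a * (2 * π * Complex.I * b) = a * b := by
    intro a b; field_simp
  rw [h', ← intervalIntegral.integral_const_mul]
  refine intervalIntegral.integral_congr fun x _ => ?_
  have h1 : cz c r x - c = r * Complex.exp (2 * π * Complex.I * x) := by simp [cz]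
  have h2 : cz c r x - c ≠ 0 := by rw [h1]; simp [hr.ne']
  have h3 : (cz c r x - c) * (cz c r x - c) ^ (-n - 1) = (cz c r x - c) ^ (-n) := by
    rw [← zpow_one_add₀ h2]; congr 1; ring
  rw [← mul_assoc (cz c r x - c), h3, h1, mul_zpow, ← Complex.exp_int_mul, ← mul_assoc, ← mul_assoc,
    ← zpow_add₀ hr']
  simp only [add_neg_cancel, zpow_zero, one_mul]
  congr 2; ring

theorem exists_an {f : ℂ → ℂ} {c : ℂ} {r r1 r2 : ℝ} (h0 : 0 < r1) (h1 : r1 < r) (h2 : r < r2)
    (hf : ∀ z, r1 < ‖z - c‖ → ‖z - c‖ < r2 → DifferentiableAt ℂ f z) :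
    ∃ φ : An, ∀ x : ℝ, evR x φ = f (cz c r x) := by
  have hr : 0 < r := h0.trans h1
  have hcont : Continuous fun x : UnitAddCircle => f (c + r * fourier 1 x) := by
    refine continuous_iff_continuousAt.mpr fun x => ?_
    have hn : ‖c + r * fourier 1 x - c‖ = r := by simp [abs_of_pos hr]
    exact ContinuousAt.comp (f := fun x : UnitAddCircle => c + r * fourier 1 x)
      (hf _ (by rwa [hn]) (by rwa [hn])).continuousAt (by fun_prop)
  let φ : CT := ⟨_, hcont⟩
  have hφ : ∀ x : ℝ, φ (x : UnitAddCircle) = f (cz c r x) := fun x => by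
    simp only [φ, cz, ContinuousMap.coe_mk, fourier_coe_apply]; simp
  obtain ⟨ρ, hρ, hρ1, hρ2⟩ : ∃ ρ > 0, r1 < r * exp (-(2 * ρ)) ∧ r * exp (2 * ρ) < r2 := by
    have e1 : ∀ᶠ ρ in 𝓝 (0 : ℝ), r1 < r * exp (-(2 * ρ)) :=
      continuousAt_const.eventually_lt (by fun_prop) (by simpa)
    have e2 : ∀ᶠ ρ in 𝓝 (0 : ℝ), r * exp (2 * ρ) < r2 :=
      ContinuousAt.eventually_lt (by fun_prop) continuousAt_const (by simpa)
    obtain ⟨ρ, h⟩ := (((e1.and e2).filter_mono nhdsWithin_le_nhds).and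
      (self_mem_nhdsWithin (s := Set.Ioi (0 : ℝ)))).exists
    exact ⟨ρ, h.2, h.1⟩
  set Rm := r * exp (-(2 * ρ)) with hRm
  set Rp := r * exp (2 * ρ) with hRp
  have hm0 : 0 < Rm := by positivity
  have hmr : Rm ≤ r := mul_le_of_le_one_right hr.le (exp_le_one_iff.mpr (by linarith))
  have hpr : r ≤ Rp := le_mul_of_one_le_right hr.le (one_le_exp (by linarith))
  have hK : IsCompact (closedBall c Rp \ ball c Rm) := (isCompact_closedBall _ _).diff isOpen_ball
  have hdK : ∀ z ∈ closedBall c Rp \ ball c Rm, DifferentiableAt ℂ f z ∧ z - c ≠ 0 := fun z hz => by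
    simp only [Set.mem_diff, mem_closedBall, mem_ball, dist_eq_norm, not_lt] at hz
    exact ⟨hf z (by linarith [hz.2]) (by linarith [hz.1]), norm_pos_iff.mp (by linarith [hz.2])⟩
  obtain ⟨M, hM⟩ := hK.exists_bound_of_continuousOn
    (fun z hz => (hdK z hz).1.continuousAt.continuousWithinAt)
  have shift : ∀ (n : ℤ) (a b : ℝ), Rm ≤ a → a ≤ b → b ≤ Rp →
      (∮ z in C(c, b), (z - c) ^ (-n - 1) * f z) = ∮ z in C(c, a), (z - c) ^ (-n - 1) * f z := by
    intro n a b ha hab hb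
    have hsub : closedBall c b \ ball c a ⊆ closedBall c Rp \ ball c Rm :=
      Set.diff_subset_diff (closedBall_subset_closedBall hb) (ball_subset_ball ha)
    have hd : ∀ z ∈ closedBall c b \ ball c a,
        DifferentiableAt ℂ (fun z => (z - c) ^ (-n - 1) * f z) z := fun z hz =>
      ((differentiableAt_id.sub_const c).zpow (Or.inl (hdK z (hsub hz)).2)).mul (hdK z (hsub hz)).1
    exact Complex.circleIntegral_eq_of_differentiable_on_annulus_off_countable (hm0.trans_le ha) hab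
      Set.countable_empty (fun z hz => (hd z hz).continuousAt.continuousWithinAt)
      (fun z hz => hd z (Set.diff_subset_diff ball_subset_closedBall ball_subset_closedBall hz.1))
  have bnd : ∀ (n : ℤ) (a : ℝ), Rm ≤ a → a ≤ Rp →
      ‖(2 * π * Complex.I)⁻¹ * (r : ℂ) ^ n * ∮ z in C(c, a), (z - c) ^ (-n - 1) * f z‖ ≤
        M * (r / a) ^ n := by
    intro n a ha ha'
    have ha0 : 0 < a := hm0.trans_le ha
    have := circleIntegral.norm_integral_le_of_norm_le_const (c := c) ha0.le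
      (f := fun z => (z - c) ^ (-n - 1) * f z) (C := a ^ (-n - 1) * M) (fun z hz => by
        rw [mem_sphere, dist_eq_norm] at hz
        rw [norm_mul, norm_zpow, hz]
        refine mul_le_mul_of_nonneg_left (hM z ?_) (by positivity)
        simp only [Set.mem_diff, mem_closedBall, mem_ball, dist_eq_norm, not_lt, hz]
        exact ⟨ha', ha⟩)
    rw [norm_mul, norm_mul, norm_inv, norm_zpow, Complex.norm_real, Real.norm_of_nonneg hr.le]
    have e : ‖(2 * π * Complex.I : ℂ)‖ = 2 * π := by simp [abs_of_pos pi_pos]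
    rw [e]
    refine (mul_le_mul_of_nonneg_left this (by positivity)).trans (le_of_eq ?_)
    rw [div_zpow, zpow_sub₀ ha0.ne', zpow_neg]
    field_simp
  have hc : ∀ n : ℤ, ‖fc φ n‖ ≤ M * wt (-(2 * ρ)) n := by
    intro n
    have e : fc φ n = (2 * π * Complex.I)⁻¹ * (r : ℂ) ^ n *
        ∮ z in C(c, r), (z - c) ^ (-n - 1) * f z := by
      rw [← integral_eq_circle f c hr n]
      unfold fc
      rw [fourierCoeff_eq_intervalIntegral _ n 0]
      simp only [fourier_coe_apply, hφ]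
      simp
    rcases le_total 0 n with hn | hn
    · rw [e, ← shift n r Rp hmr hpr le_rfl]
      refine (bnd n Rp (hmr.trans hpr) le_rfl).trans (le_of_eq ?_)
      rw [hRp, div_mul_cancel_left₀ hr.ne', ← exp_neg, wt, abs_of_nonneg (by exact_mod_cast hn),
        exp_mul, Real.rpow_intCast]
    · rw [e, shift n Rm r le_rfl hmr hpr]
      refine (bnd n Rm le_rfl (hmr.trans hpr)).trans (le_of_eq ?_)
      rw [hRm, div_mul_cancel_left₀ hr.ne', ← exp_neg, neg_neg, wt,
        abs_of_nonpos (by exact_mod_cast hn), neg_mul_neg, exp_mul (2 * ρ), Real.rpow_intCast]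
  refine ⟨⟨φ, ρ, hρ, _, Bd.of_summable ?_⟩, hφ⟩
  refine ((summable_wt_neg hρ).mul_left M).of_nonneg_of_le
    (fun n => mul_nonneg (norm_nonneg _) (wt_pos _ _).le) fun n => ?_
  have := mul_le_mul_of_nonneg_right (hc n) (wt_pos ρ n).le
  rw [mul_assoc, ← wt_add] at this
  rwa [show -(2 * ρ) + ρ = -ρ by ring] at this

lemma hasDerivAt_cz (c : ℂ) (r x : ℝ) :
    HasDerivAt (cz c r) (2 * π * Complex.I * (cz c r x - c)) x := by
  have : HasDerivAt (fun z : ℂ => c + r * Complex.exp (2 * π * Complex.I * z))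
      (r * (Complex.exp (2 * π * Complex.I * x) * (2 * π * Complex.I * 1))) x :=
    (((hasDerivAt_id (x : ℂ)).const_mul _).cexp.const_mul _).const_add _
  exact this.comp_ofReal.congr_deriv (by simp [cz]; ring)

lemma D_eq_of {φ ψ : An} {f f' : ℂ → ℂ} {c : ℂ} {r : ℝ} (h : ∀ x, evR x φ = f (cz c r x))
    (h' : ∀ x, evR x ψ = (cz c r x - c) * f' (cz c r x))
    (hd : ∀ x, HasDerivAt f (f' (cz c r x)) (cz c r x)) : D.d φ = ψ := An.ext_ev fun x => by
  have h1 := hasDerivAt_evR φ x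
  have h2 := (hd x).comp x (hasDerivAt_cz c r x)
  have h3 := h1.unique (by simpa only [h, Function.comp_def] using h2)
  have : (2 * π * Complex.I : ℂ) ≠ 0 := by simp [pi_ne_zero]
  apply mul_left_cancel₀ this
  rw [h3, h']; ring

/-- The centre of the circle. -/
noncomputable def cc : ℂ := (5 + 2 * ζ) / 11

/-- The lattice points inside the circle. -/
def pts : Finset (ℤ × ℤ) :=
  {(-1, 0), (-1, 1), (0, -1), (0, 0), (0, 1), (0, 2), (1, -1), (1, 0), (1, 1), (2, -1), (2, 0)}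

/-- A lattice point. -/
noncomputable def lp (p : ℤ × ℤ) : ℂ := p.1 + p.2 * ζ

lemma lp_inj : Function.Injective lp := fun p q h => by
  have := coord_inj (a := p.1 - q.1) (b := p.2 - q.2) (by
    unfold lp at h; push_cast; linear_combination h)
  have h1 : p.1 - q.1 = 0 := by exact_mod_cast this.1
  have h2 : p.2 - q.2 = 0 := by exact_mod_cast this.2
  ext <;> omega

lemma normSq_lp (p : ℤ × ℤ) : 121 * ‖lp p - cc‖ ^ 2 =
    (((11 * p.1 - 5) ^ 2 + (11 * p.1 - 5) * (11 * p.2 - 2) + (11 * p.2 - 2) ^ 2 : ℤ) : ℝ) := by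
  rw [Complex.sq_norm, Complex.normSq_apply]
  simp [lp, cc, ζ_re, ζ_im]
  linear_combination (121 * (p.2 / 2 - 1 / 11) ^ 2) * sq3

lemma pts_cases (p : ℤ × ℤ) :
    (p ∈ pts ∧ (11 * p.1 - 5) ^ 2 + (11 * p.1 - 5) * (11 * p.2 - 2) + (11 * p.2 - 2) ^ 2 ≤ 325) ∨
      336 ≤ (11 * p.1 - 5) ^ 2 + (11 * p.1 - 5) * (11 * p.2 - 2) + (11 * p.2 - 2) ^ 2 := by
  obtain ⟨m, n⟩ := p
  by_contra hh
  rw [not_or, not_le] at hh
  obtain ⟨h1, h2⟩ := hh
  simp only at h1 h2
  have a1 : -2 < m := by nlinarith [sq_nonneg (11 * m - 5 + 2 * (11 * n - 2))]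
  have a2 : m < 3 := by nlinarith [sq_nonneg (11 * m - 5 + 2 * (11 * n - 2))]
  have a3 : -2 < n := by nlinarith [sq_nonneg (2 * (11 * m - 5) + (11 * n - 2))]
  have a4 : n < 3 := by nlinarith [sq_nonneg (2 * (11 * m - 5) + (11 * n - 2))]
  interval_cases m <;> interval_cases n <;> simp_all [pts]

/-- The radius of the circle. -/
noncomputable def rr : ℝ := 33 / 20

lemma lp_cases (p : ℤ × ℤ) : (p ∈ pts ∧ ‖lp p - cc‖ ≤ 41 / 25) ∨ 83 / 50 ≤ ‖lp p - cc‖ := by
  have h := normSq_lp p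
  rcases pts_cases p with ⟨h1, h2⟩ | h2
  · left
    refine ⟨h1, ?_⟩
    have : (((11 * p.1 - 5) ^ 2 + (11 * p.1 - 5) * (11 * p.2 - 2) + (11 * p.2 - 2) ^ 2 : ℤ) : ℝ)
      ≤ 325 := by exact_mod_cast h2
    nlinarith [norm_nonneg (lp p - cc)]
  · right
    have : (336 : ℝ) ≤ (((11 * p.1 - 5) ^ 2 + (11 * p.1 - 5) * (11 * p.2 - 2) +
      (11 * p.2 - 2) ^ 2 : ℤ) : ℝ) := by exact_mod_cast h2
    nlinarith [norm_nonneg (lp p - cc)]

lemma pts_le {p : ℤ × ℤ} (hp : p ∈ pts) : ‖lp p - cc‖ ≤ 41 / 25 := by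
  have h2 : (11 * p.1 - 5) ^ 2 + (11 * p.1 - 5) * (11 * p.2 - 2) + (11 * p.2 - 2) ^ 2 ≤ 325 := by
    revert p; decide
  have h := normSq_lp p
  have : (((11 * p.1 - 5) ^ 2 + (11 * p.1 - 5) * (11 * p.2 - 2) + (11 * p.2 - 2) ^ 2 : ℤ) : ℝ)
      ≤ 325 := by exact_mod_cast h2
  nlinarith [norm_nonneg (lp p - cc)]

lemma ann_free {z : ℂ} (h1 : 41 / 25 < ‖z - cc‖) (h2 : ‖z - cc‖ < 83 / 50) : z ∉ LL.lattice := by
  intro hz
  obtain ⟨m, n, rfl⟩ := mem_LL.mp hz
  rcases lp_cases (m, n) with h | h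
  · exact absurd h.2 (not_le.mpr h1)
  · exact absurd h (not_le.mpr h2)

lemma cz_free (x : ℝ) : cz cc rr x ∉ LL.lattice :=
  ann_free (by rw [norm_cz (by norm_num [rr])]; norm_num [rr])
    (by rw [norm_cz (by norm_num [rr])]; norm_num [rr])

lemma wp_moment (k : ℕ) : (∮ z in C(cc, rr), (z - cc) ^ (k + 1) * ℘[LL] z) =
    2 * π * Complex.I * ∑ p ∈ pts, (k + 1) * (lp p - cc) ^ k := by
  classical
  have hr : (0 : ℝ) < rr := by norm_num [rr]
  let Q : ℂ → ℂ := fun z => ℘[LL] z - ∑ p ∈ pts, ((z - lp p) ^ 2)⁻¹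
  have han : ∀ (s : Finset (ℤ × ℤ)) (z : ℂ), (∀ p ∈ s, z ≠ lp p) →
      AnalyticAt ℂ (fun z => ∑ p ∈ s, ((z - lp p) ^ 2)⁻¹) z := fun s z hz =>
    Finset.analyticAt_fun_sum s fun p hp => AnalyticAt.fun_inv (by fun_prop)
      (pow_ne_zero 2 (sub_ne_zero.mpr (hz p hp)))
  have hQ : ∀ z ∉ LL.lattice, AnalyticAt ℂ Q z := fun z hz =>
    (LL.analyticOnNhd_weierstrassP z hz).fun_sub (han _ z fun p _ h =>
      hz (mem_LL.mpr ⟨p.1, p.2, h⟩))
  have hreg : ∀ z ∈ closedBall cc rr, AnalyticAt ℂ (reg Q) z := by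
    intro z hz
    by_cases hl : z ∈ LL.lattice
    · obtain ⟨m, n, rfl⟩ := mem_LL.mp hl
      have hp : (m, n) ∈ pts := by
        rcases lp_cases (m, n) with h | h
        · exact h.1
        · rw [mem_closedBall, dist_eq_norm] at hz
          unfold lp at h
          norm_num [rr] at hz h
          linarith
      refine reg_analytic (g := fun z => weierstrassPExcept LL (lp (m, n)) z - 1 / lp (m, n) ^ 2 -
        ∑ p ∈ pts.erase (m, n), ((z - lp p) ^ 2)⁻¹) ?_ (Eventually.of_forall fun w => ?_)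
      · exact ((LL.analyticAt_weierstrassPExcept _).fun_sub analyticAt_const).fun_sub
          (han _ _ fun p hp h => (Finset.mem_erase.mp hp).1 (lp_inj h).symm)
      · have e := LL.weierstrassPExcept_add ⟨lp (m, n), hl⟩ w
        simp only [Q, ← Finset.add_sum_erase _ _ hp] at e ⊢
        rw [← e]; ring
    · exact reg_analytic (hQ z hl) EventuallyEq.rfl
  have hsph : ∀ z ∈ sphere cc rr, z ∉ LL.lattice := fun z hz => by
    rw [mem_sphere, dist_eq_norm] at hz
    exact ann_free (by rw [hz]; norm_num [rr]) (by rw [hz]; norm_num [rr])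
  have h0 : (∮ z in C(cc, rr), (z - cc) ^ (k + 1) * reg Q z) = 0 := by
    have hd : ∀ z ∈ closedBall cc rr, DifferentiableAt ℂ (fun z => (z - cc) ^ (k + 1) * reg Q z) z :=
      fun z hz => DifferentiableAt.fun_mul (by fun_prop) (hreg z hz).differentiableAt
    exact Complex.circleIntegral_eq_zero_of_differentiable_on_off_countable hr.le
      Set.countable_empty (fun z hz => (hd z hz).continuousAt.continuousWithinAt)
      (fun z hz => hd z (ball_subset_closedBall hz.1))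
  have hi : ∀ p ∈ pts, CircleIntegrable (fun z => ((z - lp p) ^ 2)⁻¹ • (z - cc) ^ (k + 1)) cc rr :=
    fun p _ => ContinuousOn.circleIntegrable hr.le fun z hz => by
      have : z - lp p ≠ 0 := sub_ne_zero.mpr fun h => hsph z hz (mem_LL.mpr ⟨p.1, p.2, h⟩)
      refine ContinuousAt.continuousWithinAt ?_
      fun_prop (disch := exact pow_ne_zero 2 this)
  have h1 : (∮ z in C(cc, rr), (z - cc) ^ (k + 1) * ℘[LL] z) =
      ∮ z in C(cc, rr), ((z - cc) ^ (k + 1) * reg Q z +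
        ∑ p ∈ pts, ((z - lp p) ^ 2)⁻¹ • (z - cc) ^ (k + 1)) := by
    refine circleIntegral.integral_congr hr.le fun z hz => ?_
    rw [reg_eq (hQ z (hsph z hz)).continuousAt EventuallyEq.rfl, ← Finset.sum_smul]
    simp only [Q, smul_eq_mul]; ring
  rw [h1, circleIntegral.integral_add, h0, zero_add, circleIntegral.integral_fun_sum hi,
    Finset.mul_sum]
  · refine Finset.sum_congr rfl fun p hp => ?_
    have := Complex.two_pi_I_inv_smul_circleIntegral_sub_sq_inv_smul_of_differentiable isOpen_univ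
      (c := cc) (R := rr) (w₀ := lp p) (f := fun z => (z - cc) ^ (k + 1)) (Set.subset_univ _)
      (by fun_prop) (by
        rw [mem_ball, dist_eq_norm]; exact (pts_le hp).trans_lt (by norm_num [rr]))
    have hd : HasDerivAt (fun z => (z - cc) ^ (k + 1)) _ (lp p) :=
      ((hasDerivAt_id (lp p)).sub_const cc).fun_pow (k + 1)
    rw [hd.deriv, smul_eq_mul, inv_mul_eq_iff_eq_mul₀ (by simp [pi_ne_zero])] at this
    rw [this]; simp
  · exact ContinuousOn.circleIntegrable hr.le fun z hz =>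
      (ContinuousAt.mul (by fun_prop)
        (hreg z (sphere_subset_closedBall hz)).continuousAt).continuousWithinAt
  · exact CircleIntegrable.fun_sum _ hi

lemma sum_one : ∑ p ∈ pts, (lp p - cc) = 0 := by
  simp only [pts]
  repeat rw [Finset.sum_insert (by decide)]
  simp only [Finset.sum_singleton, lp, cc]
  push_cast; ring

lemma sum_six : ∑ p ∈ pts, (lp p - cc) ^ 6 = (7742141 + 39120840 * ζ) / 11 ^ 6 := by
  have h : ∀ a b : ℂ, (a + b * ζ) ^ 6 =
      (a ^ 6 - 15 * a ^ 4 * b ^ 2 - 20 * a ^ 3 * b ^ 3 + 6 * a * b ^ 5 + b ^ 6) +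
      (6 * a ^ 5 * b + 15 * a ^ 4 * b ^ 2 - 15 * a ^ 2 * b ^ 4 - 6 * a * b ^ 5) * ζ := by
    intro a b
    linear_combination (15 * a ^ 4 * b ^ 2 + 20 * a ^ 3 * b ^ 3 * (ζ + 1) +
      15 * a ^ 2 * b ^ 4 * (ζ ^ 2 + ζ) + 6 * a * b ^ 5 * (ζ ^ 3 + ζ ^ 2 - 1) +
      b ^ 6 * (ζ ^ 4 + ζ ^ 3 - ζ - 1)) * ζ_sq
  have h2 : ∀ p : ℤ × ℤ, lp p - cc = (p.1 - 5 / 11) + (p.2 - 2 / 11) * ζ := fun p => by
    simp only [lp, cc]; ring
  simp only [h2, h, pts]
  repeat rw [Finset.sum_insert (by decide)]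
  simp only [Finset.sum_singleton]
  push_cast; ring

lemma sum_two : ∑ p ∈ pts, (lp p - cc) ^ 2 = (12 + 20 * ζ) / 11 := by
  have h : ∀ a b : ℂ, (a + b * ζ) ^ 2 = (a ^ 2 - b ^ 2) + (2 * a * b + b ^ 2) * ζ := by
    intro a b
    linear_combination b ^ 2 * ζ_sq
  have h2 : ∀ p : ℤ × ℤ, lp p - cc = (p.1 - 5 / 11) + (p.2 - 2 / 11) * ζ := fun p => by
    simp only [lp, cc]; ring
  simp only [h2, h, pts]
  repeat rw [Finset.sum_insert (by decide)]
  simp only [Finset.sum_singleton]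
  push_cast; ring

/-- The unperturbed solution, restricted to the circle. -/
theorem exists_data : ∃ (F G : An) (h w : ℂ), h ≠ 0 ∧ (h ^ 2).im = 0 ∧ w.im ≠ 0 ∧
    D.d F = κ rr * em 1 * G ^ 2 ∧ D.d G = κ rr * em 1 * F ^ 2 ∧ G ^ 3 - F ^ 3 = κ h ∧
    cf ((κ rr * em 1) ^ 2 * (F * G)) 0 = 11 ∧ cf ((κ rr * em 1) ^ 3 * (F * G)) 0 = 0 ∧
    cf ((κ rr * em 1) ^ 8 * (F * G)) 0 = w ∧ cf ((κ rr * em 1) ^ 4 * (F * G)) 0 ≠ 0 ∧
    ∀ x, evR x (F * G) = ℘[LL] (cz cc rr x) := by
  obtain ⟨F, G, h, h0, him, hFG⟩ := exists_dixon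
  obtain ⟨φ, hφ⟩ := exists_an (f := F) (c := cc) (r := rr) (r1 := 41 / 25) (r2 := 83 / 50)
    (by norm_num) (by norm_num [rr]) (by norm_num [rr])
    (fun z h1 h2 => (hFG z (ann_free h1 h2)).1.differentiableAt)
  obtain ⟨ψ, hψ⟩ := exists_an (f := G) (c := cc) (r := rr) (r1 := 41 / 25) (r2 := 83 / 50)
    (by norm_num) (by norm_num [rr]) (by norm_num [rr])
    (fun z h1 h2 => (hFG z (ann_free h1 h2)).2.1.differentiableAt)
  have hs : ∀ x, evR x (κ rr * em 1) = cz cc rr x - cc := fun x => by simp [evR_em, cz]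
  have hP : ∀ x, evR x (φ * ψ) = ℘[LL] (cz cc rr x) := fun x => by
    rw [map_mul, hφ, hψ, (hFG _ (cz_free x)).2.2.1]
  have hm : ∀ k : ℕ, cf ((κ rr * em 1) ^ (k + 2) * (φ * ψ)) 0 =
      ∑ p ∈ pts, (k + 1) * (lp p - cc) ^ k := fun k => by
    have e := wp_moment k
    rw [circle_eq] at e
    rw [cf_eq_integral, ← mul_left_cancel₀ (by simp [pi_ne_zero]) e]
    refine intervalIntegral.integral_congr fun x _ => ?_
    rw [map_mul, map_pow, hs, hP]; simp; ring
  refine ⟨φ, ψ, h, 7 * ((7742141 + 39120840 * ζ) / 11 ^ 6), h0, him, ?_, ?_, ?_, ?_, ?_, ?_, ?_, ?_, hP⟩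
  · have : (7 * ((7742141 + 39120840 * ζ) / 11 ^ 6) : ℂ) =
        ((7 / 11 ^ 6 : ℝ) : ℂ) * (7742141 + 39120840 * ζ) := by push_cast; ring
    rw [this, Complex.im_ofReal_mul]
    simp [ζ_im]
  · exact D_eq_of (f' := fun z => G z ^ 2) hφ (fun x => by rw [map_mul, map_pow, hs, hψ])
      (fun x => (hFG _ (cz_free x)).1)
  · exact D_eq_of (f' := fun z => F z ^ 2) hψ (fun x => by rw [map_mul, map_pow, hs, hφ])
      (fun x => (hFG _ (cz_free x)).2.1)
  · exact An.ext_ev fun x => by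
      rw [map_sub, map_pow, map_pow, hφ, hψ, evR_κ, (hFG _ (cz_free x)).2.2.2]
  · rw [hm 0]; simp [pts]
  · rw [hm 1, ← Finset.mul_sum]; simp only [pow_one, sum_one, mul_zero]
  · rw [hm 6, ← Finset.mul_sum, sum_six]; norm_num
  · rw [hm 2, ← Finset.mul_sum, sum_two]
    refine mul_ne_zero (by norm_num) (div_ne_zero (fun h => ?_) (by norm_num))
    have := congrArg Complex.re h
    simp [ζ_re] at this
    norm_num at this

end Pool.Agent.Lib.MP_77fc3d_an
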