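import Pool.Agent.Lib.MP_77fc3d_an.Fml

/-! The formal invariant annulus up to order four. -/

open Real Filter Topology MeasureTheory PeriodPair

namespace Pool.Agent.Lib.MP_77fc3d_an

open T5 Refl

section sub

variable {R : Type} [CommRing R] (δ : Der R) (g c : R)

/-- Truncated Taylor substitution. -/
def Sub' (x : R) : R := x + g * δ.d x + 12 * c * g ^ 2 * δ.d (δ.d x) +
  4 * c * g ^ 3 * δ.d (δ.d (δ.d x)) + c * g ^ 4 * δ.d (δ.d (δ.d (δ.d x)))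

lemma Sub'_add (x y : R) : Sub' δ g c (x + y) = Sub' δ g c x + Sub' δ g c y := by
  simp only [Sub', map_add]; ring

lemma Sub'_sub (x y : R) : Sub' δ g c (x - y) = Sub' δ g c x - Sub' δ g c y := by
  simp only [Sub', map_sub]; ring

lemma Sub'_const {k : R} (hk : δ.d k = 0) (x : R) : Sub' δ g c (k * x) = k * Sub' δ g c x := by
  simp only [Sub', δ.d_const_mul hk]; ring

lemma Sub'_mul (h24 : 24 * c = 1) (h5 : g ^ 5 = 0) (x y : R) :
    Sub' δ g c (x * y) = Sub' δ g c x * Sub' δ g c y := by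
  simp only [Sub', map_add, δ.leib]
  generalize δ.d (δ.d (δ.d (δ.d x))) = a4
  generalize δ.d (δ.d (δ.d x)) = a3
  generalize δ.d (δ.d x) = a2
  generalize δ.d x = a1
  generalize δ.d (δ.d (δ.d (δ.d y))) = b4
  generalize δ.d (δ.d (δ.d y)) = b3
  generalize δ.d (δ.d y) = b2
  generalize δ.d y = b1
  linear_combination (g ^ 2 * a1 * b1 - 6 * c * g ^ 4 * a2 * b2) * h24 -
    ((c * (a1 * b4 + a4 * b1) + 48 * c ^ 2 * (a2 * b3 + a3 * b2)) +
      g * (12 * c ^ 2 * (a2 * b4 + a4 * b2) + 16 * c ^ 2 * a3 * b3) +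
      g ^ 2 * 4 * c ^ 2 * (a3 * b4 + a4 * b3) + g ^ 3 * c ^ 2 * a4 * b4) * h5

lemma d_Sub' (h24 : 24 * c = 1) (hc : δ.d c = 0) (h4 : δ.d g * g ^ 4 = 0) (x : R) :
    δ.d (Sub' δ g c x) = (1 + δ.d g) * Sub' δ g c (δ.d x) := by
  have c12 : δ.d 12 = 0 := by simpa using δ.d_int 12
  have c4 : δ.d 4 = 0 := by simpa using δ.d_int 4
  simp only [Sub', map_add, δ.leib, δ.d_pow, hc, c12, c4]
  push_cast
  linear_combination (g * δ.d g * δ.d (δ.d x)) * h24 -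
    (c * δ.d (δ.d (δ.d (δ.d (δ.d x))))) * h4

end sub

lemma nil_five {N : S → S} (h1 : ∀ x, (N x).c0 = 0) (h2 : ∀ x, N (t * x) = t * N x) (x : S) :
    N (N (N (N (N x)))) = 0 := by
  have step : ∀ (n : ℕ) (y : S), ∃ z, N (t ^ n * y) = t ^ (n + 1) * z := by
    intro n
    induction n with
    | zero => intro y; exact ⟨_, by rw [pow_zero, one_mul, zero_add, pow_one]; exact eq_t_mul_of_c0 (h1 y)⟩
    | succ n ih =>
      intro y
      obtain ⟨z, hz⟩ := ih y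
      exact ⟨z, by rw [pow_succ', mul_assoc, h2, hz]; ring⟩
  obtain ⟨z1, e1⟩ := step 0 x
  obtain ⟨z2, e2⟩ := step 1 z1
  obtain ⟨z3, e3⟩ := step 2 z2
  obtain ⟨z4, e4⟩ := step 3 z3
  obtain ⟨z5, e5⟩ := step 4 z4
  rw [pow_zero, one_mul] at e1
  rw [e1, e2, e3, e4, e5, t5S, zero_mul]

lemma Sh_map {R R' : Type} [CommRing R] [CommRing R'] {Φ : R → R'} {T : R} {T' : R'}
    {X : R → R} {X' : R' → R'} (hadd : ∀ x y, Φ (x + y) = Φ x + Φ y)
    (hc : ∀ (n k : ℕ) x, Φ (n * T ^ k * x) = n * T' ^ k * Φ x) (hX : ∀ x, Φ (X x) = X' (Φ x))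
    (v : R) : Φ (Sh T X v) = Sh T' X' (Φ v) := by
  have hi : ∀ (n : ℕ) x, Φ (X^[n] x) = X'^[n] (Φ x) := fun n x =>
    (Function.Semiconj.iterate_right hX n) x
  have h1 := hc 210 1
  have h2 := hc 13230 2
  have h3 := hc 396900 3
  have h4 := hc 6945750 4
  push_cast at h1 h2 h3 h4
  simp only [pow_one] at h1
  simp only [Sh, hadd, h1, h2, h3, h4, hi, hX]

lemma exists_straight {κ₁ κi : S} (h1 : κ₁ * κi = 1) (h0 : κi.c0 = 1) {ν : K}
    (hν : cfS 0 κi * ν = 1) {u v : S}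
    (e1 : Sh t (fun x => κ₁ * DS.d x - x) v = u ^ 2)
    (e2 : Sh t (fun x => κ₁ * DS.d x - x) u = v ^ 2) :
    ∃ u' v' : S, u'.c0 = u.c0 ∧ v'.c0 = v.c0 ∧ Sh t (fun x => ι ν * DS.d x - x) v' = u' ^ 2 ∧
      Sh t (fun x => ι ν * DS.d x - x) u' = v' ^ 2 := by
  have hν0 : ν.c0 = 1 := by
    have := congrArg T5.c0 hν
    simpa [cfS, h0, cf_one] using this
  have hg0 : (DinvS (ι ν * κi - 1)).c0 = 0 := by simp [DinvS, ι_c0, hν0, h0, Dinv_zero]
  have hDg : DS.d (DinvS (ι ν * κi - 1)) = ι ν * κi - 1 := by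
    rw [D_DinvS, map_sub, cfS_ι, cfS_one, mul_comm ν, hν, sub_self, map_zero, sub_zero]
  generalize DinvS (ι ν * κi - 1) = g at hg0 hDg
  have h24 : 24 * ι (C (1 / 24)) = 1 := by
    rw [← map_ofNat ι 24, ← map_ofNat (C : ℂ →+* K) 24, ← map_mul, ← map_mul]; norm_num
  have hc := DS_ι (C (1 / 24))
  generalize ι (C (1 / 24)) = c at h24 hc
  have h5 := pow_five_of_c0 hg0
  have h4 := mul_four (x := DS.d g) (by rw [DS_c0, hg0, map_zero]) hg0
  have hN1 : ∀ x, (x - Sub' DS g c x).c0 = 0 := fun x => by simp [Sub', hg0]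
  have hN2 : ∀ x, t * x - Sub' DS g c (t * x) = t * (x - Sub' DS g c x) := fun x => by
    rw [Sub'_const _ _ _ DS_t]; ring
  have hN := nil_five (N := fun x => x - Sub' DS g c x) hN1 hN2
  have surj : ∀ u, ∃ u', u'.c0 = u.c0 ∧ Sub' DS g c u' = u := by
    intro u
    have := hN u
    generalize hn1 : u - Sub' DS g c u = n1 at this
    generalize hn2 : n1 - Sub' DS g c n1 = n2 at this
    generalize hn3 : n2 - Sub' DS g c n2 = n3 at this
    generalize hn4 : n3 - Sub' DS g c n3 = n4 at this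
    refine ⟨u + n1 + n2 + n3 + n4, ?_, ?_⟩
    · have a1 := hn1 ▸ hN1 u
      have a2 := hn2 ▸ hN1 n1
      have a3 := hn3 ▸ hN1 n2
      have a4 := hn4 ▸ hN1 n3
      simp [a1, a2, a3, a4]
    · simp only [Sub'_add]
      linear_combination -hn1 - hn2 - hn3 - hn4 - this
  have inj : ∀ x y, Sub' DS g c x = Sub' DS g c y → x = y := by
    intro x y h
    have h' : Sub' DS g c (x - y) = 0 := by rw [Sub'_sub, h, sub_self]
    have := hN (x - y)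
    simp only [h', sub_zero] at this
    exact sub_eq_zero.mp this
  have hS : ∀ w, Sub' DS g c (Sh t (fun x => ι ν * DS.d x - x) w) =
      Sh t (fun x => κ₁ * DS.d x - x) (Sub' DS g c w) := by
    refine Sh_map (Sub'_add _ _ _) (fun n k x => Sub'_const _ _ _ ?_ x) fun x => ?_
    · rw [DS.leib, DS.d_pow, DS_t]
      have : DS.d (n : S) = 0 := by simpa using DS.d_int n
      rw [this]; ring
    · rw [Sub'_sub, Sub'_const _ _ _ (DS_ι ν), d_Sub' _ _ _ h24 hc h4, hDg]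
      linear_combination (-ι ν * Sub' DS g c (DS.d x)) * h1
  obtain ⟨u', hu0, hu⟩ := surj u
  obtain ⟨v', hv0, hv⟩ := surj v
  refine ⟨u', v', hu0, hv0, inj _ _ ?_, inj _ _ ?_⟩
  · rw [hS, hv, e1, pow_two u', Sub'_mul _ _ _ h24 h5, hu, pow_two]
  · rw [hS, hu, e2, pow_two v', Sub'_mul _ _ _ h24 h5, hv, pow_two]

lemma Sh_scale {n q : S} (hn : n * q = 1) (dq : DS.d q = 0) (v : S) :
    Sh t (fun x => DS.d x - q * x) (q * v) =
      q ^ 2 * Sh (t * q ^ 2) (fun x => n * DS.d x - x) v := by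
  have hi : ∀ (k : ℕ) x, (fun x => DS.d x - q * x)^[k] (q * x) =
      q ^ (k + 1) * (fun x => n * DS.d x - x)^[k] x := by
    intro k x
    induction k with
    | zero => simp
    | succ k ih =>
      rw [Function.iterate_succ_apply', Function.iterate_succ_apply', ih,
        DS.d_const_mul (by rw [DS.d_pow, dq, mul_zero])]
      linear_combination (-q ^ (k + 1) * DS.d ((fun x => n * DS.d x - x)^[k] x)) * hn
  have h1 := hi 1 v
  simp only [Function.iterate_one] at h1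
  simp only [Sh, hi, h1]
  ring

lemma exists_reparam {μ ν : K} (hμ0 : μ.c0 = 1) (hν : μ * ν = 1) {u v : S}
    (e1 : Sh t (fun x => ι ν * DS.d x - x) v = u ^ 2)
    (e2 : Sh t (fun x => ι ν * DS.d x - x) u = v ^ 2) :
    ∃ (u' v' : S) (q : K), u'.c0 = u.c0 ∧ v'.c0 = v.c0 ∧ q.c0 = 1 ∧ q.c1 = μ.c1 ∧
      q.c2 = μ.c2 + 2 * μ.c1 ^ 2 ∧ q.c3 = μ.c3 + 6 * μ.c1 * μ.c2 + 5 * μ.c1 ^ 3 ∧
      q.c4 = μ.c4 + 8 * μ.c1 * μ.c3 + 4 * μ.c2 ^ 2 + 28 * μ.c1 ^ 2 * μ.c2 + 14 * μ.c1 ^ 4 ∧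
      Sh t (fun x => DS.d x - ι q * x) v' = u' ^ 2 ∧
      Sh t (fun x => DS.d x - ι q * x) u' = v' ^ 2 := by
  let q : K := ⟨1, μ.c1, μ.c2 + 2 * μ.c1 ^ 2, μ.c3 + 6 * μ.c1 * μ.c2 + 5 * μ.c1 ^ 3,
    μ.c4 + 8 * μ.c1 * μ.c3 + 4 * μ.c2 ^ 2 + 28 * μ.c1 ^ 2 * μ.c2 + 14 * μ.c1 ^ 4⟩
  have hx : (t * q ^ 2 : K).c0 = 0 := by simp
  have hx' : (t * ι q ^ 2 : S).c0 = 0 := by simp
  have hq : subst _ hx μ = q := by
    rw [subst_apply]
    ext <;> simp [q, pow_succ, hμ0] <;> ring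
  have hι : ∀ k, subst _ hx' (ι k) = ι (subst _ hx k) := fun k => by
    simp only [subst_apply, map_add, map_mul, map_pow, ι_C, ι_t]; rfl
  have hc : DS.d (t * ι q ^ 2) = 0 := by rw [DS.leib, DS.d_pow, DS_ι, DS_t]; ring
  have hD : ∀ x, subst _ hx' (DS.d x) = DS.d (subst _ hx' x) := fun x => by
    have hp : ∀ k : ℕ, DS.d ((t * ι q ^ 2) ^ k) = 0 := fun k => by rw [DS.d_pow, hc, mul_zero]
    simp only [subst_apply, map_add, DS.d_const_mul hc, DS.d_const_mul (hp _), DS_C]; rfl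
  have hn : ι (subst _ hx ν) * ι q = 1 := by
    have := congrArg (subst _ hx) hν
    rw [map_mul, hq, map_one] at this
    rw [← map_mul, mul_comm, this, map_one]
  have hS : ∀ w, subst _ hx' (Sh t (fun x => ι ν * DS.d x - x) w) =
      Sh (t * ι q ^ 2) (fun x => ι (subst _ hx ν) * DS.d x - x) (subst _ hx' w) := by
    refine Sh_map (map_add _) (fun n k x => by simp) fun x => ?_
    rw [map_sub, map_mul, hι, hD]
  have f1 := congrArg (subst _ hx') e1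
  have f2 := congrArg (subst _ hx') e2
  rw [hS, map_pow] at f1 f2
  refine ⟨ι q * subst _ hx' u, ι q * subst _ hx' v, q, ?_, ?_, rfl, rfl, rfl, rfl, rfl, ?_, ?_⟩
  · simp [subst_c0, ι_c0, q]
  · simp [subst_c0, ι_c0, q]
  · rw [Sh_scale hn (DS_ι _), f1]; ring
  · rw [Sh_scale hn (DS_ι _), f2]; ring

/-- The function `z - c` on the circle. -/
noncomputable def s0 : An := κ rr * em 1

/-- Its inverse. -/
noncomputable def si0 : An := κ (rr : ℂ)⁻¹ * em (-1)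

lemma rr_ne : (rr : ℂ) ≠ 0 := by norm_num [rr]

lemma s0_si0 : s0 * si0 = 1 := by
  have h1 : κ rr * κ (rr : ℂ)⁻¹ = 1 := by rw [← map_mul, mul_inv_cancel₀ rr_ne, map_one]
  have h2 : em 1 * em (-1) = 1 := by rw [← em_add]; exact em_zero
  unfold s0 si0
  linear_combination (em 1 * em (-1)) * h1 + h2

lemma D_s0 : D.d s0 = s0 := by
  unfold s0
  rw [D.d_const_mul (D_κ _), D_em]; simp

theorem exists_formal : ∃ (F G : An) (h : ℂ) (y1 y2 : S) (q : K), h ≠ 0 ∧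
    D.d F = s0 * G ^ 2 ∧ D.d G = s0 * F ^ 2 ∧ G ^ 3 - F ^ 3 = κ h ∧ cf (s0 ^ 4 * (F * G)) 0 ≠ 0 ∧
    y1.c0 = s0 * F ∧ y2.c0 = s0 * G ∧ q.c0 = 1 ∧ q.c1 = 4620 ∧ q.c2.im = 0 ∧ q.c3.im = 0 ∧
    q.c4.im ≠ 0 ∧ Sh t (fun x => DS.d x - ι q * x) y2 = y1 ^ 2 ∧
    Sh t (fun x => DS.d x - ι q * x) y1 = y2 ^ 2 := by
  obtain ⟨F, G, h, w, h0, him, hw, dF, dG, hh, m2, m3, m8, m4, hP⟩ := exists_data
  obtain ⟨ρ, hρ0, hρ⟩ := exists_rho s0 (F * G) (κ h) D_s0 m2 m3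
  have hreal := lame_real hP hρ
  change D.d F = s0 * G ^ 2 at dF
  change D.d G = s0 * F ^ 2 at dG
  change cf (s0 ^ 2 * (F * G)) 0 = 11 at m2
  change cf (s0 ^ 8 * (F * G)) 0 = w at m8
  change cj (cfS 0 (C s0 * (t * Aq t) * C (F * G) * ρ)) = cfS 0 (C s0 * (t * Aq t) * C (F * G) * ρ)
    at hreal
  have hi : (C s0 : S) * C si0 = 1 := by rw [← map_mul, s0_si0, map_one]
  have hh' : (C G : S) ^ 3 - C F ^ 3 = C (κ h) := by rw [← hh]; simp
  obtain ⟨ρi, hρi, hρi0⟩ := exists_inv (x := ρ) (a := si0) (by rw [hρ0, s0_si0])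
  let δ : Der S :=
    { d := (AddMonoidHom.mulLeft (ρ * C si0)).comp DS.d
      leib := fun x y => by simp [DS.leib]; ring }
  have hδ : ∀ x, δ.d x = ρ * C si0 * DS.d x := fun x => rfl
  have hf : 1 + t * phi t (C (F * G)) (C (κ h)) ρ = 1 + t * Aq t * (ρ * C F * (ρ * C G)) +
      1496344752000 * t ^ 4 * ((ρ * C G) ^ 3 - (ρ * C F) ^ 3) ^ 2 * (ρ * C F * (ρ * C G)) := by
    rw [phi, ← hh', map_mul]; ring
  obtain ⟨u1, v1, τ1, Θ, e1, e2, e3⟩ := normal_form t (ρ * C F) (ρ * C G) t5S δ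
    (by rw [hδ, DS_t, mul_zero]) _ hf
    (by
      rw [hδ, DS.leib, DS_C, dF, hρ, map_mul, map_pow]
      linear_combination (ρ ^ 2 * C G ^ 2 + ρ * C F * (1 + t * phi t (C (F * G)) (C (κ h)) ρ)) * hi)
    (by
      rw [hδ, DS.leib, DS_C, dG, hρ, map_mul, map_pow]
      linear_combination (ρ ^ 2 * C F ^ 2 + ρ * C G * (1 + t * phi t (C (F * G)) (C (κ h)) ρ)) * hi)
  simp only [hδ, ← mul_assoc (1 + t * τ1)] at e1 e2
  have h2 : 2 * ι (C (1 / 2)) = 1 := by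
    rw [← map_ofNat ι 2, ← map_ofNat (C : ℂ →+* K) 2, ← map_mul, ← map_mul]; norm_num
  have hκ : DS.d ρ * ρi + C s0 * (t * Aq t) * C (F * G) * ρ +
      ι (4 * 1496344752000 * t ^ 4 * C h ^ 2) * (C s0 * C (F * G) * ρ ^ 7) +
      ι (C (1 / 2)) * DS.d Θ = ι (C (1 / 2)) * (2 * (1 + t * phi t (C (F * G)) (C (κ h)) ρ) +
        (2 * t * Aq t * (ρ * C F * (ρ * C G)) + 8 * 1496344752000 * t ^ 4 *
        ((ρ * C G) ^ 3 - (ρ * C F) ^ 3) ^ 2 * (ρ * C F * (ρ * C G))) + δ.d Θ) * (C s0 * ρi) := by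
    rw [hδ, hρ]
    simp only [map_mul ι, map_pow ι, map_ofNat ι, ι_t, ι_C h, map_mul C F G, ← hh']
    generalize 1 + t * phi t (C F * C G) (C G ^ 3 - C F ^ 3) ρ = f
    generalize ι (C (1 / 2)) = c at h2
    linear_combination (-(C s0 * f * ρi) - C s0 * ρi * (t * Aq t * (ρ * C F * (ρ * C G)) +
        4 * 1496344752000 * t ^ 4 * ((ρ * C G) ^ 3 - (ρ * C F) ^ 3) ^ 2 * (ρ * C F * (ρ * C G)))) * h2 +
      (-(C s0 * (t * Aq t) * (C F * C G) * ρ) - 4 * 1496344752000 * t ^ 4 * (C G ^ 3 - C F ^ 3) ^ 2 *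
        (C s0 * (C F * C G) * ρ ^ 7) - c * DS.d Θ * (C s0 * C si0)) * hρi - c * DS.d Θ * hi
  generalize hκi : DS.d ρ * ρi + C s0 * (t * Aq t) * C (F * G) * ρ +
      ι (4 * 1496344752000 * t ^ 4 * C h ^ 2) * (C s0 * C (F * G) * ρ ^ 7) +
      ι (C (1 / 2)) * DS.d Θ = κi at hκ
  have k1 : (1 + t * τ1) * ρ * C si0 * κi = 1 := by
    rw [hκ]
    linear_combination (ι (C (1 / 2)) * ρ * C si0 * (C s0 * ρi)) * e3 + (ρ * ρi * (C s0 * C si0)) * h2 +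
      (C s0 * C si0) * hρi + hi
  have k0 : κi.c0 = 1 := by
    have := congrArg T5.c0 k1
    simp only [mul_c0, add_c0, one_c0, t_c0, zero_mul, add_zero, one_mul, hρ0, C_c0, s0_si0] at this
    exact this
  have hm : cfS 0 κi = 1 + cfS 0 (C s0 * (t * Aq t) * C (F * G) * ρ) +
      4 * 1496344752000 * t ^ 4 * C h ^ 2 * cfS 0 (C s0 * C (F * G) * ρ ^ 7) := by
    rw [← hκi, map_add, map_add, map_add, cfS_ι, cfS_ι, cfS_D0, mean_logD D_s0 s0_si0 hρ0 hρi]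
    ring
  have a0 : (cfS 0 (C s0 * (t * Aq t) * C (F * G) * ρ)).c0 = 0 := by simp [cfS]
  have a1 : (cfS 0 (C s0 * (t * Aq t) * C (F * G) * ρ)).c1 = 4620 := by
    have : (C s0 * (t * Aq t) * C (F * G) * ρ).c1 = κ 420 * (s0 ^ 2 * (F * G)) := by
      simp only [mul_c1, mul_c0, C_c0, C_c1, t_c0, t_c1, Aq_c0, hρ0, map_ofNat]; ring
    simp only [cfS, mapA_c1, cfA_apply, this, cf_κ_mul, m2]; norm_num
  have b0 : (cfS 0 (C s0 * C (F * G) * ρ ^ 7)).c0 = w := by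
    simp only [cfS, mapA_c0, cfA_apply, mul_c0, pow_c0, C_c0, hρ0, ← m8]
    congr 1; ring
  generalize cfS 0 (C s0 * (t * Aq t) * C (F * G) * ρ) = a at hm hreal a0 a1
  generalize cfS 0 (C s0 * C (F * G) * ρ ^ 7) = b at hm b0
  have hb : 4 * 1496344752000 * t ^ 4 * C h ^ 2 * b =
      (⟨0, 0, 0, 0, 4 * 1496344752000 * h ^ 2 * w⟩ : K) := by
    have : (4 * 1496344752000 * t ^ 4 * C h ^ 2 * b : K) =
        t ^ 4 * (C (4 * 1496344752000 * h ^ 2) * b) := by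
      simp only [map_mul, map_pow, map_ofNat]; ring
    rw [this, t_pow_four]
    ext <;> simp [b0, -map_mul, -map_pow]
  rw [hb] at hm
  have r2 : a.c2.im = 0 := Complex.conj_eq_iff_im.mp (congrArg T5.c2 hreal)
  have r3 : a.c3.im = 0 := Complex.conj_eq_iff_im.mp (congrArg T5.c3 hreal)
  have r4 : a.c4.im = 0 := Complex.conj_eq_iff_im.mp (congrArg T5.c4 hreal)
  have μ0 : (cfS 0 κi).c0 = 1 := by rw [hm]; simp [a0]
  have μ1 : (cfS 0 κi).c1 = 4620 := by rw [hm]; simp [a1]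
  have μ2 : (cfS 0 κi).c2 = a.c2.re := by rw [hm]; apply Complex.ext <;> simp [r2]
  have μ3 : (cfS 0 κi).c3 = a.c3.re := by rw [hm]; apply Complex.ext <;> simp [r3]
  have μ4 : (cfS 0 κi).c4 = a.c4.re + 4 * 1496344752000 * ((h ^ 2).re : ℂ) * w := by
    have : ((h ^ 2).re : ℂ) = h ^ 2 := by apply Complex.ext <;> simp [him]
    rw [hm, this]; apply Complex.ext <;> simp [r4]
  obtain ⟨ν, hν, -⟩ := exists_inv (x := cfS 0 κi) (a := 1) (by rw [μ0, one_mul])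
  obtain ⟨u', v', hu', hv', f1, f2⟩ := exists_straight k1 k0 hν e1 e2
  obtain ⟨y1, y2, q, hy1, hy2, q0, q1, q2, q3, q4, g1, g2⟩ := exists_reparam μ0 hν f1 f2
  refine ⟨F, G, h, y1, y2, q, h0, dF, dG, hh, m4, ?_, ?_, q0,
    by rw [q1, μ1], ?_, ?_, ?_, g1, g2⟩
  · rw [hy1, hu']; simp [hρ0]
  · rw [hy2, hv']; simp [hρ0]
  · rw [q2, μ1, μ2]; norm_num
  · rw [q3, μ1, μ2, μ3]; norm_num
  · have hre : (h ^ 2).re ≠ 0 := fun h' => pow_ne_zero 2 h0 (Complex.ext h' him)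
    have : q.c4 = ((a.c4.re + 8 * 4620 * a.c3.re + 4 * a.c2.re ^ 2 + 28 * 4620 ^ 2 * a.c2.re +
        14 * 4620 ^ 4 : ℝ) : ℂ) + ((4 * 1496344752000 * (h ^ 2).re : ℝ) : ℂ) * w := by
      rw [q4, μ1, μ2, μ3, μ4]; push_cast; ring
    rw [this, Complex.add_im, Complex.ofReal_im, Complex.im_ofReal_mul, zero_add]
    exact mul_ne_zero (mul_ne_zero (by norm_num) hre) hw

end Pool.Agent.Lib.MP_77fc3d_an
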