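import Pool.Agent.Lib.MP_77fc3d_an.Kam3
import Pool.Agent.Lib.MP_77fc3d_an.Fml2

/-! Uniform bounds on some strip; Taylor estimates. -/

open Real Filter Topology

namespace Pool.Agent.Lib.MP_77fc3d_an

variable {P : Type} {S : Sc P}

/-- Uniform bound on some fixed strip. -/
def AE (S : Sc P) (x : P → An) (j : ℤ) : Prop :=
  ∃ ρ > 0, ∃ C ≥ 0, ∀ᶠ p in S.l, Bd ρ (x p).1 (C * S.mon 0 j 0 p)

lemma poly_le_wt (d : ℕ) : ∀ σ > 0, ∃ K ≥ 0, ∀ n : ℤ, (|(n : ℝ)| + 1) ^ d ≤ K * wt σ n := by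
  induction d with
  | zero => exact fun σ hσ => ⟨1, zero_le_one, fun n => by simpa using one_le_wt hσ.le n⟩
  | succ d ih =>
    intro σ hσ
    obtain ⟨K, hK, h⟩ := ih (σ / 2) (by linarith)
    refine ⟨K * ((σ / 2)⁻¹ + 1), by positivity, fun n => ?_⟩
    have h1 := abs_le_wt (by linarith : 0 < σ / 2) n
    have h2 := one_le_wt (by linarith : 0 ≤ σ / 2) n
    have h3 : |(n : ℝ)| + 1 ≤ ((σ / 2)⁻¹ + 1) * wt (σ / 2) n := by linarith
    have h4 := wt_add (σ / 2) (σ / 2) n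
    rw [add_halves] at h4
    rw [pow_succ, h4, mul_mul_mul_comm]
    exact mul_le_mul (h n) h3 (by positivity) (by positivity)

namespace AE

variable {x y : P → An} {c : P → ℂ} {j j' : ℤ}

lemma w (h : AE S x j) (hj : j' ≤ j) : AE S x j' := by
  obtain ⟨ρ, hρ, C, hC, h⟩ := h
  refine ⟨ρ, hρ, C, hC, ?_⟩
  filter_upwards [h, S.mon_le 0 hj le_rfl] with p h1 h2
  exact h1.mono le_rfl (mul_le_mul_of_nonneg_left h2 hC)

lemma congr (h : AE S x j) (e : ∀ p, x p = y p) : AE S y j := by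
  rwa [← funext e]

lemma add (h : AE S x j) (h' : AE S y j) : AE S (fun p => x p + y p) j := by
  obtain ⟨ρ, hρ, C, hC, h⟩ := h
  obtain ⟨ρ', hρ', C', hC', h'⟩ := h'
  refine ⟨min ρ ρ', lt_min hρ hρ', C + C', by positivity, ?_⟩
  filter_upwards [h, h'] with p h1 h2
  rw [add_mul]
  exact (h1.mono (min_le_left _ _) le_rfl).add (h2.mono (min_le_right _ _) le_rfl)

lemma sub (h : AE S x j) (h' : AE S y j) : AE S (fun p => x p - y p) j := by
  obtain ⟨ρ, hρ, C, hC, h⟩ := h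
  obtain ⟨ρ', hρ', C', hC', h'⟩ := h'
  refine ⟨min ρ ρ', lt_min hρ hρ', C + C', by positivity, ?_⟩
  filter_upwards [h, h'] with p h1 h2
  rw [add_mul]
  exact (h1.mono (min_le_left _ _) le_rfl).sub (h2.mono (min_le_right _ _) le_rfl)

lemma mul (h : AE S x j) (h' : AE S y j') : AE S (fun p => x p * y p) (j + j') := by
  obtain ⟨ρ, hρ, C, hC, h⟩ := h
  obtain ⟨ρ', hρ', C', hC', h'⟩ := h'
  refine ⟨min ρ ρ', lt_min hρ hρ', C * C', by positivity, ?_⟩
  filter_upwards [h, h'] with p h1 h2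
  have e := S.mon_mul 0 0 j j' 0 0 p
  simp only [add_zero] at e
  rw [e, mul_mul_mul_comm]
  exact (h1.mono (min_le_left _ _) le_rfl).mul (lt_min hρ hρ').le (h2.mono (min_le_right _ _) le_rfl)

lemma fixed (f : An) : AE S (fun _ => f) 0 := by
  obtain ⟨ρ, hρ, M, h⟩ := f.bd
  exact ⟨ρ, hρ, M, h.nonneg, Eventually.of_forall fun p => by rwa [S.mon_zero, mul_one]⟩

lemma const (h : CO S c 0 j 0) : AE S (fun p => κ (c p)) j := by
  obtain ⟨C, hC, h⟩ := h
  exact ⟨1, one_pos, C, hC, h.mono fun p hp => (Bd.κ _ _).mono le_rfl hp⟩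

lemma der (h : AE S x j) : AE S (fun p => D.d (x p)) j := by
  obtain ⟨ρ, hρ, C, hC, h⟩ := h
  refine ⟨ρ - ρ / 2, by linarith, (ρ / 2)⁻¹ * C, by positivity, h.mono fun p hp => ?_⟩
  rw [mul_assoc]; exact hp.D (by linarith)

lemma shift (h : AE S x j) (β : P → ℝ) : AE S (fun p => sh (β p) (x p)) j := by
  obtain ⟨ρ, hρ, C, hC, h⟩ := h
  exact ⟨ρ, hρ, C, hC, h.mono fun p hp => hp.shC _⟩

lemma mult (h : AE S x j) {m : P → ℤ → ℂ} {k d : ℕ} {A : ℝ} (hA : 0 ≤ A)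
    (hm : ∀ᶠ p in S.l, ∀ n : ℤ, ‖m p n‖ ≤ A * S.E p ^ k * (|(n : ℝ)| + 1) ^ d)
    (e : ∀ p n, cf (y p) n = m p n * cf (x p) n) : AE S y (k + j) := by
  obtain ⟨ρ, hρ, C, hC, h⟩ := h
  obtain ⟨K, hK, hw⟩ := poly_le_wt d (ρ / 2) (by linarith)
  refine ⟨ρ - ρ / 2, by linarith, A * K * C, by positivity, ?_⟩
  filter_upwards [h, hm] with p h1 h2
  have hE := S.hE p
  have e1 := S.mon_mul 0 0 k j 0 0 p
  simp only [add_zero] at e1
  rw [S.mon_E] at e1
  refine (h1.of_mult (σ := ρ / 2) (K := A * S.E p ^ k * K) (by positivity) fun n => ?_).mono le_rfl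
    (le_of_eq (by rw [e1]; ring))
  change ‖cf _ n‖ ≤ _ * ‖cf _ n‖
  rw [e, norm_mul]
  refine mul_le_mul_of_nonneg_right ((h2 n).trans ?_) (norm_nonneg _)
  rw [mul_assoc _ K]
  exact mul_le_mul_of_nonneg_left (hw n) (by positivity)

lemma pair (h : AE S x j) (h' : AE S y j) :
    ∃ ρ > 0, ∀ ρ' ≤ ρ, BO S (fun _ => ρ') (fun p => (x p, y p)) 0 j 0 := by
  obtain ⟨ρ, hρ, C, hC, h⟩ := h
  obtain ⟨ρ', hρ', C', hC', h'⟩ := h'
  refine ⟨min ρ ρ', lt_min hρ hρ', fun r hr => ⟨C + C', by positivity, ?_⟩⟩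
  filter_upwards [h, h'] with p h1 h2
  have := S.mon_nonneg 0 j 0 p
  exact ⟨h1.mono (hr.trans (min_le_left _ _)) (by nlinarith),
    h2.mono (hr.trans (min_le_right _ _)) (by nlinarith)⟩

end AE

lemma taylor_exp {x : ℂ} (hx : x.re ≤ 1) {n : ℕ} (hn : 0 < n) :
    ‖Complex.exp x - ∑ m ∈ Finset.range n, x ^ m / m.factorial‖ ≤ (3 + n) * ‖x‖ ^ n := by
  have hn' : (1 : ℝ) ≤ n := by exact_mod_cast hn
  rcases le_total ‖x‖ 1 with h | h
  · refine (Complex.exp_bound h hn).trans ?_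
    rw [mul_comm]
    refine mul_le_mul_of_nonneg_right ?_ (by positivity)
    have h1 : (1 : ℝ) ≤ n.factorial := by exact_mod_cast Nat.factorial_pos n
    have h2 : ((n.factorial : ℝ) * n)⁻¹ ≤ 1 := inv_le_one_of_one_le₀ (by nlinarith)
    push_cast
    nlinarith
  · have h1 : 1 ≤ ‖x‖ ^ n := one_le_pow₀ h
    have h2 : ‖Complex.exp x‖ ≤ 3 := by
      rw [Complex.norm_exp]; exact (exp_le_exp.mpr hx).trans exp_one_lt_three.le
    have h3 : ‖∑ m ∈ Finset.range n, x ^ m / m.factorial‖ ≤ n * ‖x‖ ^ n := by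
      refine (norm_sum_le _ _).trans ?_
      have := Finset.sum_le_card_nsmul (Finset.range n) (fun m => ‖x ^ m / m.factorial‖) (‖x‖ ^ n)
        fun m hm => by
          rw [norm_div, norm_pow, Complex.norm_natCast]
          exact (div_le_self (by positivity) (by exact_mod_cast Nat.factorial_pos m)).trans
            (pow_le_pow_right₀ h (Finset.mem_range.mp hm).le)
      simpa using this
    refine (norm_sub_le _ _).trans ?_
    linarith

lemma taylor3 {x : ℂ} (hx : |x.re| ≤ 1) :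
    ‖Complex.exp x - Complex.exp (-x) - 2 * x‖ ≤ 12 * ‖x‖ ^ 3 := by
  have h1 := taylor_exp (x := x) (abs_le.mp hx).2 (n := 3) (by norm_num)
  have h2 := taylor_exp (x := -x) (by simpa using neg_le.mp (abs_le.mp hx).1) (n := 3) (by norm_num)
  have h3 := norm_sub_le (Complex.exp x - ∑ m ∈ Finset.range 3, x ^ m / m.factorial)
    (Complex.exp (-x) - ∑ m ∈ Finset.range 3, (-x) ^ m / m.factorial)
  have e : (Complex.exp x - ∑ m ∈ Finset.range 3, x ^ m / m.factorial) -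
      (Complex.exp (-x) - ∑ m ∈ Finset.range 3, (-x) ^ m / m.factorial) =
      Complex.exp x - Complex.exp (-x) - 2 * x := by
    simp only [Finset.sum_range_succ, Finset.sum_range_zero, Nat.factorial]; push_cast; ring
  rw [e] at h3
  rw [norm_neg] at h2
  push_cast at h1 h2
  linarith

lemma taylor11 {x : ℂ} (hx : |x.re| ≤ 1) :
    ‖Complex.exp x - Complex.exp (-x) -
      2 * (x + x ^ 3 / 6 + x ^ 5 / 120 + x ^ 7 / 5040 + x ^ 9 / 362880)‖ ≤ 28 * ‖x‖ ^ 11 := by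
  have h1 := taylor_exp (x := x) (abs_le.mp hx).2 (n := 11) (by norm_num)
  have h2 := taylor_exp (x := -x) (by simpa using neg_le.mp (abs_le.mp hx).1) (n := 11) (by norm_num)
  have h3 := norm_sub_le (Complex.exp x - ∑ m ∈ Finset.range 11, x ^ m / m.factorial)
    (Complex.exp (-x) - ∑ m ∈ Finset.range 11, (-x) ^ m / m.factorial)
  have e : (Complex.exp x - ∑ m ∈ Finset.range 11, x ^ m / m.factorial) -
      (Complex.exp (-x) - ∑ m ∈ Finset.range 11, (-x) ^ m / m.factorial) =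
      Complex.exp x - Complex.exp (-x) -
      2 * (x + x ^ 3 / 6 + x ^ 5 / 120 + x ^ 7 / 5040 + x ^ 9 / 362880) := by
    simp only [Finset.sum_range_succ, Finset.sum_range_zero, Nat.factorial]; push_cast; ring
  rw [e] at h3
  rw [norm_neg] at h2
  push_cast at h1 h2
  linarith

lemma CO.exp_sub_one {c : P → ℂ} {j : ℤ} (h : CO S c 0 j 0) (hj : 1 ≤ j) :
    CO S (fun p => Complex.exp (c p) - 1) 0 j 0 := by
  have h1 := (h.w ⟨rfl, hj, le_rfl⟩).small one_pos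
  obtain ⟨C, hC, h⟩ := h
  refine ⟨2 * C, by positivity, ?_⟩
  filter_upwards [h, h1] with p h2 h3
  have := Complex.norm_exp_sub_one_le h3
  linarith

lemma CO.exp_sub_id {c : P → ℂ} {j : ℤ} (h : CO S c 0 j 0) (hj : 1 ≤ j) :
    CO S (fun p => Complex.exp (c p) - 1 - c p) 0 (j + j) 0 := by
  have h1 := (h.w ⟨rfl, hj, le_rfl⟩).small one_pos
  obtain ⟨C, hC, h⟩ := h.mul h
  refine ⟨C, hC, ?_⟩
  filter_upwards [h, h1] with p h2 h3
  have := Complex.norm_exp_sub_one_sub_id_le h3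
  rw [norm_mul, ← sq] at h2
  exact this.trans h2

end Pool.Agent.Lib.MP_77fc3d_an
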