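import Pool.Agent.Lib.MP_77fc3d_an.Apx

/-! The formal solution gives an approximate solution. -/

open Real Filter Topology

namespace Pool.Agent.Lib.MP_77fc3d_an

open T5

abbrev PP := {β : ℝ // β ≠ 0}

lemma EE_pos {β : ℝ} (h : β ≠ 0) : 0 < EE β := by
  have := abs_pos.mpr h
  unfold EE; positivity

/-- The scale of the rotation number. -/
noncomputable def SP : Sc PP where
  l := comap (fun p => EE p.1) (𝓝 0)
  e _ := 1
  E p := EE p.1
  s _ := 1
  he _ := zero_le_one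
  hE p := EE_pos p.2
  hs _ := one_pos
  hs1 _ := le_rfl
  hl := tendsto_comap

noncomputable def ep (β : ℝ) : ℂ := 2 * π * Complex.I * β
noncomputable def TT (β : ℝ) : ℂ := ep β ^ 2 / 1260
noncomputable def qq (q : K) (β : ℝ) : ℂ := ev (TT β) q
noncomputable def bb (q : K) (β : ℝ) : ℂ := Complex.exp (ep β * qq q β)
noncomputable def eA (β : ℝ) (a : S) : An := ev (κ (TT β)) a
noncomputable def XT (q : K) (β : ℝ) (v : An) : An := D.d v - κ (qq q β) * v

lemma kk_eq (β : ℝ) : kk β = 2 * ep β := by unfold kk ep; ring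

lemma ex_eq (β : ℝ) (j : ℤ) : ex β j = Complex.exp (ep β * j) := by
  unfold ex ep; congr 1; ring

lemma norm_ep (β : ℝ) : ‖ep β‖ = EE β := by
  have := norm_kk β
  rw [kk_eq, norm_mul, Complex.norm_ofNat] at this
  linarith

lemma cep : CO SP (fun p => ep p.1) 0 1 0 :=
  ⟨1, zero_le_one, Eventually.of_forall fun p => by rw [Sc.mon_one, norm_ep, one_mul]; rfl⟩

lemma cTT : CO SP (fun p => TT p.1) 0 2 0 :=
  ((((cep.mul cep).mul (CO.const (1 / 1260))).w (by norm_num))).congr (Eventually.of_forall fun p => by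
    unfold TT; ring)

variable {q : K}

lemma cq2 : CO SP (fun p => qq q p.1 - q.c0 - TT p.1 * q.c1) 0 4 0 := by
  have h2 : CO SP _ 0 4 0 := (((cTT.pow 2).mul (CO.const q.c2)).w (by norm_num))
  have h3 : CO SP _ 0 4 0 := (((cTT.pow 3).mul (CO.const q.c3)).w (by norm_num))
  have h4 : CO SP _ 0 4 0 := (((cTT.pow 4).mul (CO.const q.c4)).w (by norm_num))
  exact ((h2.add h3).add h4).congr (Eventually.of_forall fun p => by unfold qq ev; ring)

lemma cq1 : CO SP (fun p => qq q p.1 - q.c0) 0 2 0 :=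
  ((cq2.w (by norm_num)).add ((cTT.mul (CO.const q.c1)).w (by norm_num))).congr (Eventually.of_forall fun p => by ring)

lemma cq0 : CO SP (fun p => qq q p.1) 0 0 0 :=
  ((cq1.w (by norm_num)).add (CO.const q.c0)).congr (Eventually.of_forall fun p => by ring)

lemma ceq : CO SP (fun p => ep p.1 * qq q p.1) 0 1 0 := ((cep.mul cq0).w (by norm_num))

lemma cb1 : CO SP (fun p => bb q p.1 - 1) 0 1 0 := ceq.exp_sub_one le_rfl

lemma cb0 : CO SP (fun p => bb q p.1) 0 0 0 :=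
  ((cb1.w (by norm_num)).add (CO.const 1)).congr (Eventually.of_forall fun p => by ring)

lemma aT (n : ℕ) : AE SP (fun p => κ (TT p.1) ^ n) (n * 2) :=
  (AE.const (cTT.pow n)).congr fun _ => map_pow _ _ _

lemma aT1 : AE SP (fun p => κ (TT p.1)) 2 := AE.const cTT

lemma aev1 (a : S) : AE SP (fun p => eA p.1 a - a.c0) 2 := by
  have h1 : AE SP _ 2 := ((aT1.mul (AE.fixed a.c1)).w (by norm_num))
  have h2 : AE SP _ 2 := (((aT 2).mul (AE.fixed a.c2)).w (by norm_num))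
  have h3 : AE SP _ 2 := (((aT 3).mul (AE.fixed a.c3)).w (by norm_num))
  have h4 : AE SP _ 2 := (((aT 4).mul (AE.fixed a.c4)).w (by norm_num))
  exact (((h1.add h2).add h3).add h4).congr fun p => by unfold eA ev; ring

lemma aev (a : S) : AE SP (fun p => eA p.1 a) 0 :=
  (((aev1 a).w (by norm_num)).add (AE.fixed a.c0)).congr fun p => by ring

lemma aev_mul (a b : S) : AE SP (fun p => eA p.1 a * eA p.1 b - eA p.1 (a * b)) 10 := by
  have h := aev ⟨a.c1 * b.c4 + a.c2 * b.c3 + a.c3 * b.c2 + a.c4 * b.c1,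
    a.c2 * b.c4 + a.c3 * b.c3 + a.c4 * b.c2, a.c3 * b.c4 + a.c4 * b.c3, a.c4 * b.c4, 0⟩
  refine (((aT 5).mul h).w (by norm_num)).congr fun p => ?_
  unfold eA
  rw [ev_mul]; simp only [ev]; ring

lemma D_eA (β : ℝ) (a : S) : D.d (eA β a) = eA β (DS.d a) := by
  have h : ∀ n : ℕ, D.d (κ (TT β) ^ n) = 0 := fun n => by rw [← map_pow]; exact D_κ _
  unfold eA ev
  simp only [map_add, D.d_const_mul (h _), D.d_const_mul (D_κ _)]
  rfl

lemma eA_ι (β : ℝ) (q : K) : eA β (ι q) = κ (qq q β) := by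
  simp only [eA, qq, ev, ι, map_add, map_mul, map_pow, map_c0, map_c1, map_c2, map_c3, map_c4]

lemma aXT {x : PP → An} {j : ℤ} (h : AE SP x j) : AE SP (fun p => XT q p.1 (x p)) j :=
  h.der.sub (((AE.const cq0).mul h).w (by norm_num))

lemma aiter (y : S) (n : ℕ) : AE SP (fun p => eA p.1 ((fun x => DS.d x - ι q * x)^[n] y) -
    (XT q p.1)^[n] (eA p.1 y)) 10 := by
  induction n with
  | zero => exact (((aT 5).mul (AE.fixed 0)).w (by norm_num)).congr fun p => by simp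
  | succ n ih =>
    refine ((aev_mul (ι q) ((fun x => DS.d x - ι q * x)^[n] y)).add (aXT (q := q) ih)).congr fun p => ?_
    rw [Function.iterate_succ_apply', Function.iterate_succ_apply']
    generalize (fun x => DS.d x - ι q * x)^[n] y = z
    generalize (XT q p.1)^[n] (eA p.1 y) = u
    have : eA p.1 (DS.d z - ι q * z) = eA p.1 (DS.d z) - eA p.1 (ι q * z) := ev_sub _ _ _
    rw [this, eA_ι, ← D_eA]
    simp only [XT, map_sub]; ring

lemma eA_coef (β : ℝ) (c : ℕ) [c.AtLeastTwo] {k : ℕ} (hk : k ≤ 4) :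
    eA β (OfNat.ofNat c * t ^ k) = OfNat.ofNat c * κ (TT β) ^ k := by
  rw [← map_ofNat (C : An →+* S) c, eA, ev_C_mul]
  congr 1
  interval_cases k <;> simp [ev, pow_succ]

lemma aterm (y : S) (c : ℕ) [c.AtLeastTwo] {k : ℕ} (hk : k ≤ 4) (n : ℕ) :
    AE SP (fun p => eA p.1 (OfNat.ofNat c * t ^ k * (fun x => DS.d x - ι q * x)^[n] y) -
      OfNat.ofNat c * κ (TT p.1) ^ k * (XT q p.1)^[n] (eA p.1 y)) 10 := by
  have h1 := aev_mul (OfNat.ofNat c * t ^ k) ((fun x => DS.d x - ι q * x)^[n] y)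
  have h2 : AE SP _ 10 := (((aev (OfNat.ofNat c * t ^ k)).mul (aiter (q := q) y n)).w (by norm_num))
  refine (h2.sub h1).congr fun p => ?_
  rw [eA_coef _ c hk]; ring

lemma aSh (y : S) : AE SP (fun p => eA p.1 (Sh t (fun x => DS.d x - ι q * x) y) -
    Sh (κ (TT p.1)) (XT q p.1) (eA p.1 y)) 10 := by
  have h1 := aiter (q := q) y 1
  have h3 := aterm (q := q) y 210 (k := 1) (by norm_num) 3
  have h5 := aterm (q := q) y 13230 (k := 2) (by norm_num) 5
  have h7 := aterm (q := q) y 396900 (k := 3) (by norm_num) 7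
  have h9 := aterm (q := q) y 6945750 (k := 4) (by norm_num) 9
  refine ((((h1.add h3).add h5).add h7).add h9).congr fun p => ?_
  have e : ∀ a b : S, eA p.1 (a + b) = eA p.1 a + eA p.1 b := fun a b => ev_add _ _ _
  simp only [Sh, e, pow_one, Function.iterate_one]
  ring

lemma cf_XT (β : ℝ) (v : An) (j : ℤ) : cf (XT q β v) j = (j - qq q β) * cf v j := by
  simp only [XT, cf_sub, cf_D, cf_κ_mul]; ring

lemma cf_XT_iter (β : ℝ) (v : An) (j : ℤ) (n : ℕ) :
    cf ((XT q β)^[n] v) j = (j - qq q β) ^ n * cf v j := by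
  induction n with
  | zero => simp
  | succ n ih => rw [Function.iterate_succ_apply', cf_XT, ih]; ring

lemma cf_Sh (β : ℝ) (v : An) (j : ℤ) : ep β * cf (Sh (κ (TT β)) (XT q β) v) j =
    (ep β * (j - qq q β) + (ep β * (j - qq q β)) ^ 3 / 6 + (ep β * (j - qq q β)) ^ 5 / 120 +
      (ep β * (j - qq q β)) ^ 7 / 5040 + (ep β * (j - qq q β)) ^ 9 / 362880) * cf v j := by
  have e : ∀ (c : ℕ) [c.AtLeastTwo], (OfNat.ofNat c : An) = κ (OfNat.ofNat c) := fun c _ =>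
    (map_ofNat κ c).symm
  unfold Sh
  rw [e 210, e 13230, e 396900, e 6945750]
  simp only [← map_pow, ← map_mul, cf_add, cf_κ_mul, cf_XT_iter, cf_XT, TT]
  ring

lemma arg_bd : ∃ A ≥ 0, ∀ᶠ p in SP.l, ‖bb q p.1‖ ≤ A ∧ ∀ j : ℤ, |(ep p.1 * (j - qq q p.1)).re| ≤ 1 ∧
    ‖ep p.1 * (j - qq q p.1)‖ ≤ A * SP.E p * (|(j : ℝ)| + 1) := by
  obtain ⟨A, hA, h⟩ := cq0 (q := q)
  obtain ⟨A', hA', h'⟩ := cb0 (q := q)
  refine ⟨A + A' + 1, by positivity, ?_⟩
  filter_upwards [h, h', (ceq (q := q)).small one_pos] with p h1 h2 h3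
  rw [Sc.mon_zero, mul_one] at h1 h2
  refine ⟨by linarith, fun j => ⟨?_, ?_⟩⟩
  · have e : (ep p.1 * (j - qq q p.1)).re = -(ep p.1 * qq q p.1).re := by simp [ep]
    rw [e, abs_neg]
    exact (Complex.abs_re_le_norm _).trans h3
  · have h4 := norm_sub_le (j : ℂ) (qq q p.1)
    rw [Complex.norm_intCast] at h4
    rw [norm_mul, norm_ep, mul_comm _ (SP.E p), mul_assoc]
    refine mul_le_mul_of_nonneg_left ?_ (SP.hE p).le
    nlinarith [abs_nonneg (j : ℝ)]

lemma exp_id (β : ℝ) (j : ℤ) : bb q β * Complex.exp (ep β * (j - qq q β)) = ex β j ∧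
    ex β j * Complex.exp (-(ep β * (j - qq q β))) = bb q β := by
  rw [ex_eq, bb, ← Complex.exp_add, ← Complex.exp_add]
  constructor <;> congr 1 <;> ring

lemma amain11 {u : PP → An} (h : AE SP u 0) : AE SP (fun p => sh p.1 (sh p.1 (u p)) -
    κ (bb q p.1 ^ 2) * u p - κ (kk p.1 * bb q p.1) * sh p.1 (Sh (κ (TT p.1)) (XT q p.1) (u p))) 11 := by
  obtain ⟨A, hA, hb⟩ := arg_bd (q := q)
  refine ((h.mult (k := 11) (d := 11) (A := A * (28 * A ^ 11)) (by positivity)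
    (m := fun p j => bb q p.1 * ex p.1 j * (Complex.exp (ep p.1 * (j - qq q p.1)) -
      Complex.exp (-(ep p.1 * (j - qq q p.1))) -
      2 * (ep p.1 * (j - qq q p.1) + (ep p.1 * (j - qq q p.1)) ^ 3 / 6 +
      (ep p.1 * (j - qq q p.1)) ^ 5 / 120 + (ep p.1 * (j - qq q p.1)) ^ 7 / 5040 +
      (ep p.1 * (j - qq q p.1)) ^ 9 / 362880))) ?_ ?_).w (by norm_num))
  · filter_upwards [hb] with p ⟨h1, h2⟩ j
    have h3 := taylor11 (h2 j).1
    have h4 := pow_le_pow_left₀ (norm_nonneg _) (h2 j).2 11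
    rw [norm_mul, norm_mul, norm_ex, mul_one]
    calc _ ≤ A * (28 * (A * SP.E p * (|(j : ℝ)| + 1)) ^ 11) :=
          mul_le_mul h1 (h3.trans (by linarith)) (norm_nonneg _) hA
      _ = _ := by ring
  · intro p j
    obtain ⟨e1, e2⟩ := exp_id (q := q) p.1 j
    have e3 := cf_Sh (q := q) p.1 (u p) j
    simp only [cf_sub, cf_sh', cf_κ_mul, kk_eq]
    linear_combination (-ex p.1 j * cf (u p) j) * e1 + (bb q p.1 * cf (u p) j) * e2 -
      2 * bb q p.1 * ex p.1 j * e3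

lemma amain3 {u : PP → An} (h : AE SP u 0) : AE SP (fun p => sh p.1 (sh p.1 (u p)) -
    κ (bb q p.1 ^ 2) * u p - κ (kk p.1 * bb q p.1) * sh p.1 (XT q p.1 (u p))) 3 := by
  obtain ⟨A, hA, hb⟩ := arg_bd (q := q)
  refine ((h.mult (k := 3) (d := 3) (A := A * (12 * A ^ 3)) (by positivity)
    (m := fun p j => bb q p.1 * ex p.1 j * (Complex.exp (ep p.1 * (j - qq q p.1)) -
      Complex.exp (-(ep p.1 * (j - qq q p.1))) - 2 * (ep p.1 * (j - qq q p.1)))) ?_ ?_).w (by norm_num))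
  · filter_upwards [hb] with p ⟨h1, h2⟩ j
    have h3 := taylor3 (h2 j).1
    have h4 := pow_le_pow_left₀ (norm_nonneg _) (h2 j).2 3
    rw [norm_mul, norm_mul, norm_ex, mul_one]
    calc _ ≤ A * (12 * (A * SP.E p * (|(j : ℝ)| + 1)) ^ 3) :=
          mul_le_mul h1 (h3.trans (by linarith)) (norm_nonneg _) hA
      _ = _ := by ring
  · intro p j
    obtain ⟨e1, e2⟩ := exp_id (q := q) p.1 j
    simp only [cf_sub, cf_sh', cf_κ_mul, kk_eq, cf_XT]
    linear_combination (-ex p.1 j * cf (u p) j) * e1 + (bb q p.1 * cf (u p) j) * e2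

lemma ckk : CO SP (fun p => kk p.1) 0 1 0 :=
  (((CO.const 2).mul cep).w (by norm_num)).congr (Eventually.of_forall fun p => (kk_eq _).symm)

lemma aErr {y y' : S} (h : Sh t (fun x => DS.d x - ι q * x) y = y' ^ 2) :
    AE SP (fun p => sh p.1 (sh p.1 (κ (bb q p.1) * eA p.1 y)) -
      κ (bb q p.1 ^ 2) * (κ (bb q p.1) * eA p.1 y) -
      κ (kk p.1) * sh p.1 (κ (bb q p.1) * eA p.1 y') ^ 2) 11 := by
  have hb : AE SP _ 0 := AE.const (cb0 (q := q))
  have h1 : AE SP _ 11 := ((hb.mul (amain11 (q := q) (aev y))).w (by norm_num))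
  have h2 := (aSh (q := q) y).add (aev_mul y' y')
  have h3 : AE SP _ 11 := (((((AE.const ckk).mul hb).mul hb).mul (h2.shift fun p => p.1)).w (by norm_num))
  refine (h1.sub h3).congr fun p => ?_
  rw [h, ← sq y']
  simp only [map_mul, map_pow, map_sub, map_add, sh_κ]
  ring

lemma aLin (hq : q.c0 = 1) {y' : S} {n n' : An} (h : D.d n - n = 2 * y'.c0 * n') :
    AE SP (fun p => sh p.1 (sh p.1 n) - κ (bb q p.1 ^ 2) * n -
      2 * κ (kk p.1) * sh p.1 (κ (bb q p.1) * eA p.1 y') * sh p.1 n') 3 := by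
  have hb : AE SP _ 0 := AE.const (cb0 (q := q))
  have h1 := amain3 (q := q) (AE.fixed n)
  have h2 : AE SP _ 2 := (((AE.const (cq1 (q := q))).mul (AE.fixed n)).w (by norm_num))
  have h3 : AE SP _ 2 := ((((AE.fixed 2).mul (aev1 y')).mul (AE.fixed n')).w (by norm_num))
  have h4 : AE SP _ 3 := ((((AE.const ckk).mul hb).mul ((h2.add h3).shift fun p => p.1)).w (by norm_num))
  refine (h1.sub h4).congr fun p => ?_
  have h5 := congrArg (sh p.1) h
  simp only [XT, hq, map_mul, map_pow, map_sub, map_add, sh_κ, map_ofNat, map_one] at h5 ⊢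
  linear_combination (-κ (kk p.1) * κ (bb q p.1)) * h5

lemma aY (y : S) : AE SP (fun p => κ (bb q p.1) * eA p.1 y - y.c0) 1 :=
  ((((AE.const (cb1 (q := q))).mul (aev y)).w (by norm_num)).add ((aev1 y).w (by norm_num))).congr fun p => by
    simp only [map_sub, map_one]; ring

lemma ca2 (hq : q.c0 = 1) : CO SP (fun p => bb q p.1 ^ 2 - ex p.1 2 -
    ex p.1 2 * (2 * ep p.1 * TT p.1 * q.c1)) 0 4 0 := by
  have hz : CO SP (fun p => 2 * ep p.1 * (qq q p.1 - q.c0)) 0 3 0 := ((((CO.const 2).mul cep).mul cq1).w (by norm_num))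
  have h1 : CO SP _ 0 4 0 := ((hz.exp_sub_id (by norm_num)).w (by norm_num))
  have h2 : CO SP _ 0 4 0 := ((((CO.const 2).mul cep).mul (cq2 (q := q))).w (by norm_num))
  have h3 : CO SP (fun p => ex p.1 2) 0 0 0 :=
    ⟨1, zero_le_one, Eventually.of_forall fun p => by rw [norm_ex, Sc.mon_zero, mul_one]⟩
  refine ((h3.mul (h1.add h2)).w (by norm_num)).congr (Eventually.of_forall fun p => ?_)
  have e : bb q p.1 ^ 2 = ex p.1 2 * Complex.exp (2 * ep p.1 * (qq q p.1 - q.c0)) := by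
    rw [bb, ex_eq, sq, ← Complex.exp_add, ← Complex.exp_add, hq]; congr 1; push_cast; ring
  rw [e]; ring

lemma norm_lead (β : ℝ) : ‖ex β 2 * (2 * ep β * TT β * 4620)‖ = 22 / 3 * EE β ^ 3 := by
  simp only [TT, norm_mul, norm_div, norm_pow, norm_ex, norm_ep, Complex.norm_ofNat]; ring

lemma ha23 (hq : q.c0 = 1) (hq1 : q.c1 = 4620) : ∀ᶠ p in SP.l,
    EE p.1 ^ 3 ≤ ‖bb q p.1 ^ 2 - ex p.1 2‖ ∧ ‖bb q p.1 ^ 2 - ex p.1 2‖ ≤ 9 * EE p.1 ^ 3 := by
  have h : CO SP _ 0 ((3 : ℕ) + 1) 0 := ((ca2 hq).w (by norm_num))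
  filter_upwards [h.small_pow one_pos] with p hp
  rw [hq1] at hp
  change _ ≤ 1 * EE p.1 ^ 3 at hp
  have h1 := norm_lead p.1
  have h2 := abs_norm_sub_norm_le (bb q p.1 ^ 2 - ex p.1 2) (ex p.1 2 * (2 * ep p.1 * TT p.1 * 4620))
  have h3 := abs_le.mp (h2.trans hp)
  have : 0 < EE p.1 ^ 3 := pow_pos (EE_pos p.2) 3
  constructor <;> linarith [h3.1, h3.2]

lemma ha1 (hq : q.c0 = 1) (hq1 : q.c1 = 4620) (hq2 : q.c2.im = 0) (hq3 : q.c3.im = 0) :
    ∀ᶠ p in SP.l, 0 < p.1 * q.c4.im →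
      |q.c4.im| / 1260 ^ 4 * EE p.1 ^ 9 ≤ 1 - ‖bb q p.1 ^ 2‖ := by
  filter_upwards [SP.small one_pos, SP.small' (C := 2 * (|q.c4.im| / 1260 ^ 4)) (by positivity) one_pos]
    with p h1 h2 hs
  change EE p.1 ≤ 1 at h1
  change _ * EE p.1 ≤ 1 at h2
  have hE := EE_pos p.2
  have eT : TT p.1 = ((-EE p.1 ^ 2 / 1260 : ℝ) : ℂ) := by
    have : EE p.1 ^ 2 = (2 * π * p.1) ^ 2 := by unfold EE; rw [mul_pow, sq_abs]; ring
    rw [this]; unfold TT ep; push_cast
    linear_combination (4 * π ^ 2 * p.1 ^ 2 / 1260 : ℂ) * Complex.I_sq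
  have e1 : (qq q p.1).im = (EE p.1 ^ 2 / 1260) ^ 4 * q.c4.im := by
    unfold qq ev
    rw [eT, hq, hq1]
    simp only [← Complex.ofReal_pow, Complex.add_im, Complex.im_ofReal_mul, hq2, hq3,
      Complex.one_im, show (4620 : ℂ).im = 0 by simp]
    ring
  have e2 : (ep p.1 * qq q p.1).re = -(2 * π * p.1 * (qq q p.1).im) := by simp [ep]
  have e3 : p.1 * q.c4.im = |p.1| * |q.c4.im| := by rw [← abs_mul, abs_of_pos hs]
  have e4 : ‖bb q p.1 ^ 2‖ = exp (-(2 * (|q.c4.im| / 1260 ^ 4) * EE p.1 ^ 9)) := by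
    rw [norm_pow, bb, Complex.norm_exp, ← exp_nat_mul, e2, e1]
    congr 1
    have : EE p.1 ^ 9 = EE p.1 ^ 8 * (2 * π * |p.1|) := by rw [pow_succ]; rfl
    rw [this]; push_cast
    linear_combination (-4 * π * (EE p.1 ^ 2 / 1260) ^ 4) * e3
  have h9 : EE p.1 ^ 9 ≤ EE p.1 := pow_le_of_le_one hE.le h1 (by norm_num)
  have h3 : 2 * (|q.c4.im| / 1260 ^ 4) * EE p.1 ^ 9 ≤ 1 :=
    (mul_le_mul_of_nonneg_left h9 (by positivity)).trans h2
  have h4 : 0 ≤ 2 * (|q.c4.im| / 1260 ^ 4) * EE p.1 ^ 9 := by positivity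
  rw [e4, show |q.c4.im| / 1260 ^ 4 * EE p.1 ^ 9 = (2 * (|q.c4.im| / 1260 ^ 4) * EE p.1 ^ 9) / 2 by ring]
  generalize 2 * (|q.c4.im| / 1260 ^ 4) * EE p.1 ^ 9 = u at *
  have h5 := add_one_le_exp u
  have h6 : exp (-u) * exp u = 1 := by rw [← exp_add]; simp
  have h7 := exp_pos (-u)
  nlinarith

end Pool.Agent.Lib.MP_77fc3d_an
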