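import Pool.Agent.Lib.MP_77fc3d_an.Apx2

/-! Existence of invariant circles that do not bound invariant discs. -/

open Real Filter Topology

namespace Pool.Agent.Lib.MP_77fc3d_an

open T5

lemma SP_iff {Q : PP → Prop} (h : ∀ᶠ p in SP.l, Q p) : ∃ E0 > 0, ∀ p : PP, EE p.1 < E0 → Q p := by
  obtain ⟨t, ht, h6⟩ := mem_comap.mp h
  obtain ⟨E0, hE0, h7⟩ := Metric.mem_nhds_iff.mp ht
  refine ⟨E0, hE0, fun p hp => h6 (h7 ?_)⟩
  rw [Metric.mem_ball, Real.dist_eq, sub_zero, abs_of_pos (EE_pos p.2)]; exact hp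

theorem exists_init {M1 : ℝ} (hM1 : 1 ≤ M1) : ∃ (F : Fix) (s : ℝ), s ≠ 0 ∧
    cf (F.Y0.1 * F.Y0.2) (-2) ≠ 0 ∧ cf (F.Y0.2 ^ 3 - F.Y0.1 ^ 3) 3 ≠ 0 ∧
    ∃ E0 > 0, ∀ β, 0 < β * s → EE β < E0 → Dio M1 β → ∃ a Y, Init F β a Y := by
  obtain ⟨F, G, h, y1, y2, q, h0, dF, dG, hh, m4, c1, c2, q0, q1, q2, q3, q4, e1, e2⟩ :=
    exists_formal
  have dd : ∀ {F G : An}, D.d G = s0 * F ^ 2 →
      D.d (s0 * G ^ 2) - s0 * G ^ 2 = 2 * (s0 * G) * (s0 * F ^ 2) := by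
    intro F G dG
    rw [D.leib, D.d_pow, D_s0, dG]; push_cast; ring
  have d1 : ∀ {F G : An}, D.d F = s0 * G ^ 2 → D.d (s0 * F) = s0 * F + s0 ^ 2 * G ^ 2 := by
    intro F G dF
    rw [D.leib, D_s0, dF]; ring
  have hi : κ h * κ h⁻¹ = 1 := by rw [← map_mul, mul_inv_cancel₀ h0, map_one]
  have sh0 : ∀ f : An, sh 0 f = f := fun f => An.ext_cf fun n => by simp [cf_sh]
  obtain ⟨r1, hr1, H1⟩ := (aY (q := q) y1).pair (aY (q := q) y2)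
  obtain ⟨r2, hr2, H2⟩ := (aY (q := q) y1).der.pair (aY (q := q) y2).der
  obtain ⟨r3, hr3, H3⟩ := (aLin q0 (y' := y2) (by rw [c2]; exact dd dG)).pair
    (aLin q0 (y' := y1) (by rw [c1]; exact dd dF))
  obtain ⟨r4, hr4, H4⟩ := (aErr e2).pair (aErr e1)
  obtain ⟨r5, hr5, A5, H5⟩ := exists_BB (s0 * G ^ 2, s0 * F ^ 2)
  obtain ⟨r6, hr6, A6, H6⟩ := exists_BB (s0 * F, s0 * G)
  obtain ⟨r7, hr7, A7, H7⟩ := exists_BB (-(κ h⁻¹ * si0 ^ 2), κ h⁻¹ * si0 ^ 2)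
  obtain ⟨ρ, hρ, hρ1, k1, k2, k3, k4, k5, k6, k7⟩ : ∃ ρ > 0, ρ ≤ 1 ∧ 4 * ρ ≤ r1 ∧ 4 * ρ ≤ r2 ∧
      4 * ρ ≤ r3 ∧ 4 * ρ ≤ r4 ∧ 4 * ρ ≤ r5 ∧ 4 * ρ ≤ r6 ∧ 4 * ρ ≤ r7 := by
    have e : ∀ r > 0, ∀ᶠ ρ in 𝓝 (0 : ℝ), 4 * ρ ≤ r := fun r hr =>
      (ContinuousAt.eventually_lt (by fun_prop) continuousAt_const (by simpa)).mono fun _ h => h.le
    have e0 : ∀ᶠ ρ in 𝓝 (0 : ℝ), ρ ≤ 1 := Iic_mem_nhds one_pos
    obtain ⟨ρ, h⟩ := (((e0.and ((e _ hr1).and ((e _ hr2).and ((e _ hr3).and ((e _ hr4).and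
      ((e _ hr5).and ((e _ hr6).and (e _ hr7)))))))).filter_mono nhdsWithin_le_nhds).and
      (self_mem_nhdsWithin (s := Set.Ioi (0 : ℝ)))).exists
    exact ⟨ρ, h.2, h.1⟩
  obtain ⟨A1, hA1, H1⟩ := H1 (2 * ρ) (by linarith)
  obtain ⟨A2, hA2, H2⟩ := H2 (2 * ρ) (by linarith)
  obtain ⟨A3, hA3, H3⟩ := H3 (2 * ρ) (by linarith)
  obtain ⟨A4, hA4, H4⟩ := H4 (2 * ρ) (by linarith)
  have hA5 := H5.nonneg
  have hA6 := H6.nonneg
  have hA7 := H7.nonneg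
  have hq4 : 0 < |q.c4.im| := abs_pos.mpr q4
  have hA8 : 0 < 1260 ^ 4 / |q.c4.im| := by positivity
  generalize hM : M1 + 9 + A1 + A2 + A3 + A4 + A5 + A6 + A7 + 1260 ^ 4 / |q.c4.im| = M
  have hs3 : s0 ^ 3 = κ (rr ^ 3) * em 3 := by
    rw [s0, mul_pow, map_pow, em_pow]; rfl
  let FF : Fix :=
    { N := (s0 * G ^ 2, s0 * F ^ 2), Y0 := (s0 * F, s0 * G),
      W0 := (-(κ h⁻¹ * si0 ^ 2), κ h⁻¹ * si0 ^ 2), ρ0 := ρ, M := M
      hρ := hρ, hρ1 := hρ1, hM := by linarith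
      bN := H5.mono k5 (by linarith)
      bY := H6.mono k6 (by linarith)
      bW := H7.mono k7 (by linarith)
      hW := by
        ext1
        · simp only [Prod.fst_mul, Prod.fst_sub, τ_fst, DB_fst, DB_snd, sh0, d1 dF, d1 dG, Prod.fst_one]
          linear_combination (s0 ^ 2 * κ h⁻¹ * si0 ^ 2) * hh + (s0 * si0) ^ 2 * hi +
            (s0 * si0 + 1) * s0_si0
        · simp only [Prod.snd_mul, Prod.snd_sub, τ_snd, DB_fst, DB_snd, sh0, d1 dF, d1 dG, Prod.snd_one]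
          linear_combination (s0 ^ 2 * κ h⁻¹ * si0 ^ 2) * hh + (s0 * si0) ^ 2 * hi +
            (s0 * si0 + 1) * s0_si0
      hres := by
        simp only [res, Prod.fst_mul, Prod.snd_mul, τ_fst, τ_snd, DB_fst, DB_snd, sh0, d1 dF, d1 dG]
        rw [← cf_sub]
        have : (s0 * G + s0 ^ 2 * F ^ 2) * (s0 * F) - (s0 * F + s0 ^ 2 * G ^ 2) * (s0 * G) =
            κ (-(h * rr ^ 3)) * em 3 := by
          rw [map_neg, map_mul]
          linear_combination (-s0 ^ 3) * hh - κ h * hs3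
        rw [this, cf_κ_mul, cf_em]; simp
      hmn := by
        simp only [mn, Prod.fst_mul, Prod.snd_mul, Prod.fst_neg, Prod.snd_neg, τ_fst, τ_snd, sh0]
        rw [← cf_add]
        have : -(s0 * F * (s0 * F ^ 2) * (κ h⁻¹ * si0 ^ 2)) +
            -(s0 * G * (s0 * G ^ 2) * -(κ h⁻¹ * si0 ^ 2)) = 1 := by
          linear_combination (s0 ^ 2 * κ h⁻¹ * si0 ^ 2) * hh + (s0 * si0) ^ 2 * hi +
            (s0 * si0 + 1) * s0_si0
        rw [this, cf_one]; simp }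
  obtain ⟨E0, hE0, H⟩ := SP_iff ((H1.and H2).and ((H3.and H4).and ((ha23 q0 q1).and (ha1 q0 q1 q2 q3))))
  refine ⟨FF, q.c4.im, q4, ?_, ?_, E0, hE0, fun β hβ hE hd => ?_⟩
  · intro hc
    apply m4
    have : s0 ^ 4 * (F * G) = κ (rr ^ 2) * (em 2 * (s0 * F * (s0 * G))) := by
      have : s0 ^ 2 = κ (rr ^ 2) * em 2 := by rw [s0, mul_pow, map_pow, em_pow]; rfl
      linear_combination (s0 ^ 2 * (F * G)) * this
    rw [this, cf_κ_mul, cf_em_mul]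
    exact mul_eq_zero_of_right _ hc
  · have : (s0 * G) ^ 3 - (s0 * F) ^ 3 = κ (h * rr ^ 3) * em 3 := by
      rw [map_mul]
      linear_combination (s0 ^ 3) * hh + κ h * hs3
    change cf ((s0 * G) ^ 3 - (s0 * F) ^ 3) 3 ≠ 0
    rw [this, cf_κ_mul, cf_em]
    simp [h0, rr]
  · have hβ0 : β ≠ 0 := by rintro rfl; simp at hβ
    obtain ⟨⟨b1, b2⟩, ⟨b3, b4⟩, ⟨b5, b6⟩, b7⟩ := H ⟨β, hβ0⟩ hE
    have hE' := EE_pos hβ0
    rw [Sc.mon_one] at b1 b2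
    rw [show (3 : ℤ) = (3 : ℕ) from rfl, Sc.mon_E] at b3
    rw [show (11 : ℤ) = (11 : ℕ) from rfl, Sc.mon_E] at b4
    have m : ∀ {A x : ℝ}, A ≤ M → 0 < x → A * x ≤ M * x := fun h hx =>
      mul_le_mul_of_nonneg_right h hx.le
    refine ⟨bb q β ^ 2, (κ (bb q β) * eA β y1, κ (bb q β) * eA β y2), hE',
      hd.mono (by linarith) (by change _ ≤ M; linarith), ?_, b6.trans (m (by linarith) (by positivity)),
      ?_, ?_, ?_, b3.mono le_rfl (m (by linarith) (pow_pos hE' 3)),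
      b4.mono le_rfl (m (by linarith) (pow_pos hE' 11))⟩
    · refine le_trans ?_ (b7 hβ)
      change EE β ^ 9 / M ≤ _ * EE β ^ 9
      rw [← inv_div (1260 ^ 4 : ℝ), mul_comm, ← div_eq_mul_inv]
      gcongr; linarith
    · exact (div_le_self (by positivity) FF.hM).trans b5
    · rw [c1, c2] at b1
      exact b1.mono le_rfl (m (by linarith) hE')
    · rw [c1, c2] at b2
      rw [← map_sub]
      exact b2.mono le_rfl (m (by linarith) hE')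

lemma cf_ne {ρ A : ℝ} (hρ : 0 ≤ ρ) {f g : An} {n : ℤ} (h : Bd ρ (f - g).1 A) (hA : A < ‖cf g n‖) :
    cf f n ≠ 0 := fun h0 => by
  have := h.coeff_le hρ n
  change ‖cf (f - g) n‖ ≤ A at this
  rw [cf_sub, h0, zero_sub, norm_neg] at this
  linarith

theorem exists_circle {M1 η : ℝ} (hM1 : 1 ≤ M1) : ∃ s : ℝ, s ≠ 0 ∧ (0 < η → ∃ E0 > 0, ∀ β, 0 < β * s →
    EE β < E0 → Dio M1 β → ∃ (a : ℂ) (Y : B), Err (τ β) (κB (kk β)) (κB a) Y = 0 ∧ ‖a‖ < 1 ∧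
      ‖a - 1‖ < η ∧ cf (Y.1 * Y.2) (-2) ≠ 0 ∧ cf (Y.2 ^ 3 - Y.1 ^ 3) 3 ≠ 0) := by
  obtain ⟨F, s, hs, n1, n2, E1, hE1, H1⟩ := exists_init hM1
  obtain ⟨E2, hE2, H2⟩ := kam F
  refine ⟨s, hs, fun hη => ?_⟩
  have hM := F.hM
  have hρ := F.hρ
  have p1 := norm_pos_iff.mpr n1
  have p2 := norm_pos_iff.mpr n2
  obtain ⟨E3, hE3, H3⟩ := SP_iff ((SP.small one_pos).and ((SP.small' (C := 2 * F.M) (by positivity) one_pos).and
    ((SP.small' (C := F.M + 3) (by positivity) (half_pos hη)).and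
    ((SP.small' (C := 8 * F.M ^ 2) (by positivity) (half_pos p1)).and
    (SP.small' (C := 52 * F.M ^ 3) (by positivity) (half_pos p2))))))
  refine ⟨min E1 (min E2 E3), lt_min hE1 (lt_min hE2 hE3), fun β hβ hE hd => ?_⟩
  have hβ0 : β ≠ 0 := by rintro rfl; simp at hβ
  obtain ⟨a0, Y0, hi⟩ := H1 β hβ (hE.trans_le (min_le_left _ _)) hd
  obtain ⟨a, Y, e0, ha, hY⟩ := H2 β a0 Y0 hi (hE.trans_le ((min_le_right _ _).trans (min_le_left _ _)))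
  obtain ⟨s1, s2, s3, s4, s5⟩ := H3 ⟨β, hβ0⟩ (hE.trans_le ((min_le_right _ _).trans (min_le_right _ _)))
  change EE β ≤ 1 at s1
  change _ * EE β ≤ _ at s2 s3 s4 s5
  have hE0 := hi.hβ
  have h7 : EE β ^ 7 ≤ EE β := pow_le_of_le_one hE0.le s1 (by norm_num)
  have h3 : EE β ^ 3 ≤ EE β := pow_le_of_le_one hE0.le s1 (by norm_num)
  have h10 : EE β ^ 10 ≤ EE β := pow_le_of_le_one hE0.le s1 (by norm_num)
  have dY : BB F.ρ0 (Y - F.Y0) (2 * F.M * EE β) := by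
    have := hY.add (hi.hY.mono (by linarith) le_rfl)
    rw [sub_add_sub_cancel] at this
    exact this.mono le_rfl (by nlinarith)
  have b0 : BB F.ρ0 F.Y0 F.M := F.bY.mono (by linarith) le_rfl
  have bY : BB F.ρ0 Y (3 * F.M) := by
    have := dY.add b0
    rw [sub_add_cancel] at this
    exact this.mono le_rfl (by nlinarith)
  refine ⟨a, Y, e0, ?_, ?_, ?_, ?_⟩
  · have h1 := hi.ha1
    have h2 := norm_sub_norm_le a a0
    have h9 : EE β ^ 10 < EE β ^ 9 / F.M := by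
      rw [lt_div_iff₀ (by positivity)]
      have : 0 < EE β ^ 9 := by positivity
      nlinarith
    linarith
  · have h1 := hi.ha2
    have h2 := norm_ex_sub_one β 2
    have h4 := norm_add₃_le (a := a - a0) (b := a0 - ex β 2) (c := ex β 2 - 1)
    rw [sub_add_sub_cancel, sub_add_sub_cancel] at h4
    have e : 2 * π * |β| * |((2 : ℤ) : ℝ)| = 2 * EE β := by unfold EE; norm_num; ring
    rw [e] at h2
    nlinarith
  · have h1 := (dY.1.mul hρ.le bY.2).add (b0.1.mul hρ.le dY.2)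
    have e : (Y - F.Y0).1 * Y.2 + F.Y0.1 * (Y - F.Y0).2 = Y.1 * Y.2 - F.Y0.1 * F.Y0.2 := by
      simp only [Prod.fst_sub, Prod.snd_sub]; ring
    rw [← val_mul, ← val_mul, ← val_add, e] at h1
    exact cf_ne hρ.le h1 (by nlinarith)
  · have h1 := dY.mul hρ.le (((bY.mul hρ.le bY).add (bY.mul hρ.le b0)).add (b0.mul hρ.le b0))
    have e : (Y - F.Y0) * (Y * Y + Y * F.Y0 + F.Y0 * F.Y0) = Y ^ 3 - F.Y0 ^ 3 := by ring
    rw [e] at h1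
    have h2 := h1.2.sub h1.1
    have e' : (Y ^ 3 - F.Y0 ^ 3).2 - (Y ^ 3 - F.Y0 ^ 3).1 =
        (Y.2 ^ 3 - Y.1 ^ 3) - (F.Y0.2 ^ 3 - F.Y0.1 ^ 3) := by
      simp only [Prod.fst_sub, Prod.snd_sub, Prod.pow_fst, Prod.pow_snd]; ring
    rw [← val_sub, e'] at h2
    exact cf_ne hρ.le h2 (by nlinarith)

end Pool.Agent.Lib.MP_77fc3d_an
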