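import Pool.Agent.Lib.MP_77fc3d_an.Dioph

/-! A small calculus of uniform bounds. -/

open Real Filter Topology

namespace Pool.Agent.Lib.MP_77fc3d_an

/-- Scales attached to a family of parameters. -/
structure Sc (P : Type) where
  l : Filter P
  e : P → ℝ
  E : P → ℝ
  s : P → ℝ
  he : ∀ p, 0 ≤ e p
  hE : ∀ p, 0 < E p
  hs : ∀ p, 0 < s p
  hs1 : ∀ p, s p ≤ 1
  hl : Tendsto E l (𝓝 0)

variable {P : Type} {S : Sc P}

/-- Monomials in the scales. -/
noncomputable def Sc.mon (S : Sc P) (i : ℕ) (j : ℤ) (k : ℕ) (p : P) : ℝ :=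
  S.e p ^ i * S.E p ^ j * (S.s p)⁻¹ ^ k

lemma Sc.mon_nonneg (S : Sc P) (i : ℕ) (j : ℤ) (k : ℕ) (p : P) : 0 ≤ S.mon i j k p := by
  have := S.he p; have := S.hE p; have := S.hs p
  unfold Sc.mon; positivity

lemma Sc.mon_mul (S : Sc P) (i i' : ℕ) (j j' : ℤ) (k k' : ℕ) (p : P) :
    S.mon (i + i') (j + j') (k + k') p = S.mon i j k p * S.mon i' j' k' p := by
  unfold Sc.mon; rw [zpow_add₀ (S.hE p).ne']; ring

lemma Sc.small (S : Sc P) {c : ℝ} (hc : 0 < c) : ∀ᶠ p in S.l, S.E p ≤ c :=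
  S.hl.eventually (Iic_mem_nhds hc)

lemma Sc.small' (S : Sc P) {C : ℝ} (hC : 0 ≤ C) {c : ℝ} (hc : 0 < c) : ∀ᶠ p in S.l, C * S.E p ≤ c := by
  filter_upwards [S.small (c := c / (C + 1)) (by positivity)] with p hp
  rw [le_div_iff₀ (by positivity)] at hp
  have := S.hE p
  nlinarith

lemma Sc.mon_le (S : Sc P) (i : ℕ) {j j' : ℤ} {k k' : ℕ} (hj : j' ≤ j) (hk : k ≤ k') :
    ∀ᶠ p in S.l, S.mon i j k p ≤ S.mon i j' k' p := by
  filter_upwards [S.small one_pos] with p hp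
  have h1 := zpow_le_zpow_right_of_le_one₀ (S.hE p) hp hj
  have h2 := pow_le_pow_right₀ ((one_le_inv₀ (S.hs p)).mpr (S.hs1 p)) hk
  have := S.he p; have := S.hE p; have := S.hs p
  unfold Sc.mon; gcongr

lemma Sc.mon_zero (S : Sc P) (p : P) : S.mon 0 0 0 p = 1 := by simp [Sc.mon]

lemma Sc.mon_E (S : Sc P) (n : ℕ) (p : P) : S.mon 0 n 0 p = S.E p ^ n := by simp [Sc.mon]

lemma Sc.mon_one (S : Sc P) (p : P) : S.mon 0 1 0 p = S.E p := by simp [Sc.mon]

/-- Uniform bound for a family of pairs of analytic functions. -/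
def BO (S : Sc P) (r : P → ℝ) (x : P → B) (i : ℕ) (j : ℤ) (k : ℕ) : Prop :=
  ∃ C ≥ 0, ∀ᶠ p in S.l, BB (r p) (x p) (C * S.mon i j k p)

/-- Uniform bound for a family of numbers. -/
def CO (S : Sc P) (c : P → ℂ) (i : ℕ) (j : ℤ) (k : ℕ) : Prop :=
  ∃ C ≥ 0, ∀ᶠ p in S.l, ‖c p‖ ≤ C * S.mon i j k p

variable {r r' : P → ℝ} {x y : P → B} {c d : P → ℂ} {i i' k k' : ℕ} {j j' : ℤ}

namespace CO

lemma w (h : CO S c i j k) (hh : i = i' ∧ j' ≤ j ∧ k ≤ k') : CO S c i' j' k' := by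
  obtain ⟨rfl, hj, hk⟩ := hh
  obtain ⟨C, hC, h⟩ := h
  refine ⟨C, hC, ?_⟩
  filter_upwards [h, S.mon_le i hj hk] with p h1 h2
  exact h1.trans (mul_le_mul_of_nonneg_left h2 hC)

lemma congr (h : CO S c i j k) (e : ∀ᶠ p in S.l, c p = d p) : CO S d i j k := by
  obtain ⟨C, hC, h⟩ := h
  refine ⟨C, hC, ?_⟩
  filter_upwards [h, e] with p h1 h2
  exact h2 ▸ h1

lemma add (h : CO S c i j k) (h' : CO S d i j k) : CO S (fun p => c p + d p) i j k := by
  obtain ⟨C, hC, h⟩ := h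
  obtain ⟨C', hC', h'⟩ := h'
  refine ⟨C + C', by positivity, ?_⟩
  filter_upwards [h, h'] with p h1 h2
  exact (norm_add_le _ _).trans (by linarith)

lemma sub (h : CO S c i j k) (h' : CO S d i j k) : CO S (fun p => c p - d p) i j k := by
  obtain ⟨C, hC, h⟩ := h
  obtain ⟨C', hC', h'⟩ := h'
  refine ⟨C + C', by positivity, ?_⟩
  filter_upwards [h, h'] with p h1 h2
  exact (norm_sub_le _ _).trans (by linarith)

lemma mul (h : CO S c i j k) (h' : CO S d i' j' k') :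
    CO S (fun p => c p * d p) (i + i') (j + j') (k + k') := by
  obtain ⟨C, hC, h⟩ := h
  obtain ⟨C', hC', h'⟩ := h'
  refine ⟨C * C', by positivity, ?_⟩
  filter_upwards [h, h'] with p h1 h2
  rw [norm_mul, S.mon_mul, mul_mul_mul_comm]
  exact mul_le_mul h1 h2 (norm_nonneg _) ((norm_nonneg _).trans h1)

lemma const (c : ℂ) : CO S (fun _ => c) 0 0 0 :=
  ⟨‖c‖, norm_nonneg _, Eventually.of_forall fun p => by rw [S.mon_zero, mul_one]⟩

lemma pow {j : ℤ} (h : CO S c 0 j 0) (n : ℕ) : CO S (fun p => c p ^ n) 0 (n * j) 0 := by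
  induction n with
  | zero => simpa using const 1
  | succ n ih =>
    have := ih.mul h
    simp only [pow_succ]
    exact this.w ⟨rfl, by push_cast; linarith, le_rfl⟩

lemma div (h : CO S c i j k) (hd : ∀ᶠ p in S.l, S.E p ≤ ‖d p‖) :
    CO S (fun p => c p / d p) i (j - 1) k := by
  obtain ⟨C, hC, h⟩ := h
  refine ⟨C, hC, ?_⟩
  filter_upwards [h, hd] with p h1 h2
  have e : S.mon i j k p = S.mon i (j - 1) k p * S.E p := by
    rw [← S.mon_one, ← S.mon_mul]; simp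
  have := S.hE p
  have := S.mon_nonneg i (j - 1) k p
  rw [norm_div, div_le_iff₀ (by linarith)]
  rw [e, ← mul_assoc] at h1
  exact h1.trans (by gcongr)

lemma small (h : CO S c 0 1 0) {t : ℝ} (ht : 0 < t) : ∀ᶠ p in S.l, ‖c p‖ ≤ t := by
  obtain ⟨C, hC, h⟩ := h
  filter_upwards [h, S.small' hC ht] with p h1 h2
  rw [S.mon_one] at h1; linarith

lemma small_pow {n : ℕ} (h : CO S c 0 (n + 1) 0) {t : ℝ} (ht : 0 < t) :
    ∀ᶠ p in S.l, ‖c p‖ ≤ t * S.E p ^ n := by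
  obtain ⟨C, hC, h⟩ := h
  filter_upwards [h, S.small' hC ht] with p h1 h2
  have e : S.mon 0 (n + 1) 0 p = S.E p * S.E p ^ n := by
    rw [← pow_succ', ← S.mon_E]; rfl
  rw [e, ← mul_assoc] at h1
  have := S.hE p
  exact h1.trans (by gcongr)

end CO

namespace BO

lemma w (h : BO S r x i j k) (hh : i = i' ∧ j' ≤ j ∧ k ≤ k') : BO S r x i' j' k' := by
  obtain ⟨rfl, hj, hk⟩ := hh
  obtain ⟨C, hC, h⟩ := h
  refine ⟨C, hC, ?_⟩
  filter_upwards [h, S.mon_le i hj hk] with p h1 h2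
  exact h1.mono le_rfl (mul_le_mul_of_nonneg_left h2 hC)

lemma rad (h : BO S r x i j k) (hr : ∀ p, r' p ≤ r p) : BO S r' x i j k := by
  obtain ⟨C, hC, h⟩ := h
  exact ⟨C, hC, h.mono fun p hp => hp.mono (hr p) le_rfl⟩

lemma congr (h : BO S r x i j k) (e : ∀ᶠ p in S.l, x p = y p) : BO S r y i j k := by
  obtain ⟨C, hC, h⟩ := h
  refine ⟨C, hC, ?_⟩
  filter_upwards [h, e] with p h1 h2
  exact h2 ▸ h1

lemma add (h : BO S r x i j k) (h' : BO S r y i j k) : BO S r (fun p => x p + y p) i j k := by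
  obtain ⟨C, hC, h⟩ := h
  obtain ⟨C', hC', h'⟩ := h'
  refine ⟨C + C', by positivity, ?_⟩
  filter_upwards [h, h'] with p h1 h2
  rw [add_mul]; exact h1.add h2

lemma sub (h : BO S r x i j k) (h' : BO S r y i j k) : BO S r (fun p => x p - y p) i j k := by
  obtain ⟨C, hC, h⟩ := h
  obtain ⟨C', hC', h'⟩ := h'
  refine ⟨C + C', by positivity, ?_⟩
  filter_upwards [h, h'] with p h1 h2
  rw [add_mul]; exact h1.sub h2

lemma neg (h : BO S r x i j k) : BO S r (fun p => -x p) i j k := by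
  obtain ⟨C, hC, h⟩ := h
  exact ⟨C, hC, h.mono fun p hp => hp.neg⟩

lemma mul (hr : ∀ p, 0 ≤ r p) (h : BO S r x i j k) (h' : BO S r y i' j' k') :
    BO S r (fun p => x p * y p) (i + i') (j + j') (k + k') := by
  obtain ⟨C, hC, h⟩ := h
  obtain ⟨C', hC', h'⟩ := h'
  refine ⟨C * C', by positivity, ?_⟩
  filter_upwards [h, h'] with p h1 h2
  rw [S.mon_mul, mul_mul_mul_comm]
  exact h1.mul (hr p) h2

lemma tau (h : BO S r x i j k) (β : P → ℝ) : BO S r (fun p => τ (β p) (x p)) i j k := by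
  obtain ⟨C, hC, h⟩ := h
  exact ⟨C, hC, h.mono fun p hp => hp.tau _⟩

lemma der (h : BO S r x i j k) : BO S (fun p => r p - S.s p) (fun p => DB.d (x p)) i j (k + 1) := by
  obtain ⟨C, hC, h⟩ := h
  refine ⟨C, hC, h.mono fun p hp => (hp.der (S.hs p)).mono le_rfl (le_of_eq ?_)⟩
  unfold Sc.mon; ring

lemma der' (h : BO S r x i j k) {t : ℝ} (ht : 0 < t) :
    BO S (fun p => r p - t) (fun p => DB.d (x p)) i j k := by
  obtain ⟨C, hC, h⟩ := h
  refine ⟨t⁻¹ * C, by positivity, h.mono fun p hp => (hp.der ht).mono le_rfl (le_of_eq ?_)⟩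
  ring

lemma const (h : CO S c i j k) (r : P → ℝ) : BO S r (fun p => κB (c p)) i j k := by
  obtain ⟨C, hC, h⟩ := h
  exact ⟨C, hC, h.mono fun p hp => (BB.const _ _).mono le_rfl hp⟩

lemma fixed {ρ M : ℝ} {z : B} (h : BB ρ z M) (hr : ∀ p, r p ≤ ρ) : BO S r (fun _ => z) 0 0 0 :=
  ⟨M, h.nonneg, Eventually.of_forall fun p => by rw [S.mon_zero, mul_one]; exact h.mono (hr p) le_rfl⟩

lemma mn_le (hr : ∀ p, 0 ≤ r p) (h : BO S r x i j k) : CO S (fun p => mn (x p)) i j k := by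
  obtain ⟨C, hC, h⟩ := h
  exact ⟨2 * C, by positivity, h.mono fun p hp => by rw [mul_assoc]; exact hp.mn_le (hr p)⟩

lemma res_le (hr : ∀ p, 0 ≤ r p) (h : BO S r x i j k) : CO S (fun p => res (x p)) i j k := by
  obtain ⟨C, hC, h⟩ := h
  exact ⟨2 * C, by positivity, h.mono fun p hp => by rw [mul_assoc]; exact hp.res_le (hr p)⟩

lemma tau_sub {β : P → ℝ} (hβ : ∀ p, S.E p = EE (β p)) (h : BO S r (fun p => DB.d (x p)) i j k) :
    BO S r (fun p => τ (β p) (x p) - τ 0 (x p)) i (j + 1) k := by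
  obtain ⟨C, hC, h⟩ := h
  refine ⟨C, hC, h.mono fun p hp => (hp.tau_sub (β p)).mono le_rfl (le_of_eq ?_)⟩
  have := S.mon_mul i 0 j 1 k 0 p
  rw [S.mon_one, hβ, EE] at this
  simp only [add_zero] at this
  rw [this]; ring

lemma inverse (hr : ∀ p, 0 < r p) (h : BO S r (fun p => 1 - x p * y p) 0 1 0) (hy : BO S r y 0 0 0) :
    (∀ᶠ p in S.l, x p * Ring.inverse (x p) = 1) ∧
      BO S r (fun p => Ring.inverse (x p) - y p) 0 1 0 := by
  have key : ∀ᶠ p in S.l, ∃ z : B, x p * y p * z = 1 ∧ BB (r p) z 2 := by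
    obtain ⟨C, hC, h⟩ := h
    filter_upwards [h, S.small' hC (by norm_num : (0 : ℝ) < 1 / 2)] with p h1 h2
    rw [S.mon_one] at h1
    simpa using (h1.mono le_rfl h2).exists_inv (hr p)
  have k2 : ∀ᶠ p in S.l, x p * Ring.inverse (x p) = 1 := key.mono fun p ⟨z, hz, _⟩ =>
    Ring.mul_inverse_cancel _ (IsUnit.of_mul_eq_one (y p * z) (by rw [← mul_assoc]; exact hz))
  have k3 : BO S r (fun p => Ring.inverse (x p)) 0 0 0 := by
    obtain ⟨C, hC, h⟩ := hy
    refine ⟨C * 2, by positivity, ?_⟩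
    filter_upwards [h, key, k2] with p h1 ⟨z, hz, bz⟩ h3
    have e : Ring.inverse (x p) = y p * z := by
      linear_combination y p * z * h3 - Ring.inverse (x p) * hz
    rw [e, S.mon_zero, mul_one] at *
    exact h1.mul (hr p).le bz
  refine ⟨k2, (((k3.mul (fun p => (hr p).le) h).w (by norm_num))).congr (k2.mono fun p hp => ?_)⟩
  linear_combination (-y p) * hp

end BO

end Pool.Agent.Lib.MP_77fc3d_an
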