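import Mathlib

/-! Weighted `ℓ¹` bounds for Fourier coefficients of continuous functions on the circle. -/

open Real Filter Topology MeasureTheory

namespace Pool.Agent.Lib.MP_77fc3d_an

abbrev CT := C(UnitAddCircle, ℂ)

/-- Fourier coefficient. -/
noncomputable def fc (f : CT) (n : ℤ) : ℂ := fourierCoeff (T := 1) (f : UnitAddCircle → ℂ) n

lemma integrable_ct (f : CT) : Integrable (f : UnitAddCircle → ℂ) AddCircle.haarAddCircle :=
  f.continuous.integrable_of_hasCompactSupport (HasCompactSupport.of_compactSpace _)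

lemma fc_add (f g : CT) (n : ℤ) : fc (f + g) n = fc f n + fc g n := by
  have := congrFun (fourierCoeff.add (T := 1) (integrable_ct f) (integrable_ct g)) n
  exact this

lemma fc_smul (c : ℂ) (f : CT) (n : ℤ) : fc (c • f) n = c * fc f n :=
  fourierCoeff.const_smul (T := 1) (f : UnitAddCircle → ℂ) c n

lemma norm_fc_le (f : CT) (n : ℤ) : ‖fc f n‖ ≤ ‖f‖ := by
  unfold fc fourierCoeff
  have := norm_integral_le_of_norm_le_const (μ := AddCircle.haarAddCircle (T := 1))
    (f := fun t : UnitAddCircle => fourier (-n) t • f t) (C := ‖f‖) (ae_of_all _ fun t => by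
      rw [norm_smul, fourier_apply, Circle.norm_coe, one_mul]; exact f.norm_coe_le_norm t)
  simpa using this

/-- The Fourier coefficient as a continuous linear functional. -/
noncomputable def fcL (n : ℤ) : CT →L[ℂ] ℂ :=
  LinearMap.mkContinuous
    { toFun := fun f => fc f n
      map_add' := fun f g => fc_add f g n
      map_smul' := fun c f => fc_smul c f n } 1 (fun f => by simpa using norm_fc_le f n)

@[simp] lemma fcL_apply (n : ℤ) (f : CT) : fcL n f = fc f n := rfl

lemma fc_sub (f g : CT) (n : ℤ) : fc (f - g) n = fc f n - fc g n := map_sub (fcL n) f g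
lemma fc_neg (f : CT) (n : ℤ) : fc (-f) n = -fc f n := map_neg (fcL n) f
lemma fc_zero (n : ℤ) : fc 0 n = 0 := map_zero (fcL n)

lemma fc_fourier (m n : ℤ) : fc (fourier m) n = if n = m then 1 else 0 := by
  unfold fc
  rw [fourierCoeff_fourier, Pi.single_apply]

lemma fc_fourier_mul (k : ℤ) (g : CT) (n : ℤ) : fc (fourier k * g) n = fc g (n - k) := by
  unfold fc fourierCoeff
  refine integral_congr_ae (ae_of_all _ fun t => ?_)
  simp only [ContinuousMap.mul_apply, smul_eq_mul]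
  rw [← mul_assoc, ← fourier_add]
  congr 2; ring_nf

lemma hasSum_fc {f : CT} (h : Summable (fc f)) : HasSum (fun n => fc f n • fourier n) f :=
  hasSum_fourier_series_of_summable (T := 1) h

lemma eq_of_fc {f g : CT} (h : ∀ n, fc f n = fc g n) : f = g := by
  have h0 : fc (f - g) = 0 := by ext n; simp [fc_sub, h]
  have := hasSum_fc (f := f - g) (by rw [h0]; exact summable_zero)
  have h1 : (fun n => fc (f - g) n • fourier (T := 1) n) = fun _ => 0 := by
    funext n; rw [h0]; ext x; simp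
  rw [h1] at this
  exact sub_eq_zero.mp (this.unique hasSum_zero)

lemma hasSum_fc_mul {f : CT} (h : Summable (fc f)) (g : CT) (n : ℤ) :
    HasSum (fun k => fc f k * fc g (n - k)) (fc (f * g) n) := by
  have h1 := (fcL n).hasSum ((hasSum_fc h).mul_right g)
  simp only [fcL_apply, smul_mul_assoc, fc_smul, fc_fourier_mul] at h1
  exact h1

/-- Synthesis of a function from its coefficients. -/
noncomputable def synth (a : ℤ → ℂ) : CT := ∑' n, a n • fourier n

lemma hasSum_synth {a : ℤ → ℂ} (h : Summable fun n => ‖a n‖) :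
    HasSum (fun n => a n • fourier (T := 1) n) (synth a) := by
  refine (Summable.of_norm ?_).hasSum
  simpa [norm_smul, fourier_norm] using h

lemma fc_synth {a : ℤ → ℂ} (h : Summable fun n => ‖a n‖) (n : ℤ) : fc (synth a) n = a n := by
  have h1 := (fcL n).hasSum (hasSum_synth h)
  simp only [fcL_apply, fc_smul, fc_fourier] at h1
  have h2 : HasSum (fun k => a k * if n = k then 1 else 0) (a n) := by
    have := hasSum_single (f := fun k => a k * if n = k then (1 : ℂ) else 0) n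
      (fun k hk => by simp [Ne.symm hk])
    simpa using this
  exact h1.unique h2

/-- The weight. -/
noncomputable def wt (ρ : ℝ) (n : ℤ) : ℝ := exp (ρ * |(n : ℝ)|)

lemma wt_pos (ρ : ℝ) (n : ℤ) : 0 < wt ρ n := exp_pos _

lemma one_le_wt {ρ : ℝ} (h : 0 ≤ ρ) (n : ℤ) : 1 ≤ wt ρ n := one_le_exp (by positivity)

lemma wt_mono {ρ ρ' : ℝ} (h : ρ ≤ ρ') (n : ℤ) : wt ρ n ≤ wt ρ' n :=
  exp_le_exp.mpr (mul_le_mul_of_nonneg_right h (abs_nonneg _))

lemma wt_add (ρ σ : ℝ) (n : ℤ) : wt (ρ + σ) n = wt ρ n * wt σ n := by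
  unfold wt; rw [← exp_add]; ring_nf

lemma wt_le {ρ : ℝ} (h : 0 ≤ ρ) (k n : ℤ) : wt ρ n ≤ wt ρ k * wt ρ (n - k) := by
  unfold wt
  rw [← exp_add, ← mul_add]
  refine exp_le_exp.mpr (mul_le_mul_of_nonneg_left ?_ h)
  push_cast
  have := abs_add_le (k : ℝ) (n - k)
  simpa using this

/-- The weighted `ℓ¹` norm of the coefficients is at most `M`. -/
def Bd (ρ : ℝ) (f : CT) (M : ℝ) : Prop := ∀ s : Finset ℤ, ∑ n ∈ s, ‖fc f n‖ * wt ρ n ≤ M

namespace Bd

variable {ρ ρ' M M' : ℝ} {f g : CT}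

lemma nonneg (h : Bd ρ f M) : 0 ≤ M := by simpa using h ∅

lemma summable (h : Bd ρ f M) : Summable fun n => ‖fc f n‖ * wt ρ n :=
  summable_of_sum_le (fun _ => mul_nonneg (norm_nonneg _) (wt_pos _ _).le) h

lemma tsum_le (h : Bd ρ f M) : ∑' n, ‖fc f n‖ * wt ρ n ≤ M := h.summable.tsum_le_of_sum_le h

lemma summable_norm (h : Bd ρ f M) (hρ : 0 ≤ ρ) : Summable fun n => ‖fc f n‖ :=
  h.summable.of_nonneg_of_le (fun _ => norm_nonneg _)
    (fun n => le_mul_of_one_le_right (norm_nonneg _) (one_le_wt hρ n))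

lemma of_summable (h : Summable fun n => ‖fc f n‖ * wt ρ n) :
    Bd ρ f (∑' n, ‖fc f n‖ * wt ρ n) := fun s =>
  h.sum_le_tsum s (fun _ _ => mul_nonneg (norm_nonneg _) (wt_pos _ _).le)

lemma mono (h : Bd ρ f M) (hρ : ρ' ≤ ρ) (hM : M ≤ M') : Bd ρ' f M' := fun s =>
  (Finset.sum_le_sum fun n _ =>
    mul_le_mul_of_nonneg_left (wt_mono hρ n) (norm_nonneg _)).trans ((h s).trans hM)

lemma coeff (h : Bd ρ f M) (n : ℤ) : ‖fc f n‖ * wt ρ n ≤ M := by simpa using h {n}

lemma coeff_le (h : Bd ρ f M) (hρ : 0 ≤ ρ) (n : ℤ) : ‖fc f n‖ ≤ M :=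
  (le_mul_of_one_le_right (norm_nonneg _) (one_le_wt hρ n)).trans (h.coeff n)

lemma add (h : Bd ρ f M) (h' : Bd ρ g M') : Bd ρ (f + g) (M + M') := fun s => by
  refine le_trans (Finset.sum_le_sum fun n _ => ?_) ((Finset.sum_add_distrib).le.trans
    (add_le_add (h s) (h' s)))
  rw [fc_add, ← add_mul]
  exact mul_le_mul_of_nonneg_right (norm_add_le _ _) (wt_pos _ _).le

lemma neg (h : Bd ρ f M) : Bd ρ (-f) M := fun s => by simpa [fc_neg] using h s

lemma sub (h : Bd ρ f M) (h' : Bd ρ g M') : Bd ρ (f - g) (M + M') := by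
  rw [sub_eq_add_neg]; exact h.add h'.neg

lemma smul (h : Bd ρ f M) (c : ℂ) : Bd ρ (c • f) (‖c‖ * M) := fun s => by
  simp only [fc_smul, norm_mul, mul_assoc, ← Finset.mul_sum]
  exact mul_le_mul_of_nonneg_left (h s) (norm_nonneg _)

lemma zero (ρ : ℝ) : Bd ρ 0 0 := fun s => by simp [fc_zero]

lemma fourier (ρ : ℝ) (m : ℤ) : Bd ρ (fourier m) (wt ρ m) := fun s => by
  simp only [fc_fourier]
  by_cases hm : m ∈ s
  · rw [Finset.sum_eq_single m (fun n _ hn => by simp [hn]) (fun h => absurd hm h)]; simp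
  · rw [Finset.sum_eq_zero (fun n hn => by
      have : n ≠ m := fun h => hm (h ▸ hn)
      simp [this])]
    exact (wt_pos _ _).le

lemma one (ρ : ℝ) : Bd ρ 1 1 := by
  have := fourier ρ 0
  have h : (_root_.fourier 0 : CT) = 1 := by ext x; simp
  simpa [h, wt] using this

lemma mul (hρ : 0 ≤ ρ) (h : Bd ρ f M) (h' : Bd ρ g M') : Bd ρ (f * g) (M * M') := fun s => by
  have hs := h.summable_norm hρ
  have key : ∀ n, ‖fc (f * g) n‖ * wt ρ n ≤
      ∑' k, (‖fc f k‖ * wt ρ k) * (‖fc g (n - k)‖ * wt ρ (n - k)) := by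
    intro n
    have h1 := (hasSum_fc_mul hs.of_norm g n).mul_right ((wt ρ n : ℝ) : ℂ)
    have h2 : Summable fun k => (‖fc f k‖ * wt ρ k) * (‖fc g (n - k)‖ * wt ρ (n - k)) :=
      (h.summable.mul_right M').of_nonneg_of_le
        (fun k => by have := wt_pos ρ k; have := wt_pos ρ (n - k); positivity)
        (fun k => mul_le_mul_of_nonneg_left (h'.coeff _)
          (mul_nonneg (norm_nonneg _) (wt_pos _ _).le))
    have h3 := h1.norm_le_of_bounded h2.hasSum (fun k => by
      rw [norm_mul, norm_mul, Complex.norm_real, Real.norm_of_nonneg (wt_pos _ _).le]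
      have := mul_le_mul_of_nonneg_left (wt_le hρ k n)
        (mul_nonneg (norm_nonneg (fc f k)) (norm_nonneg (fc g (n - k))))
      linarith)
    rwa [norm_mul, Complex.norm_real, Real.norm_of_nonneg (wt_pos _ _).le] at h3
  have hsum : ∀ n, Summable fun k => (‖fc f k‖ * wt ρ k) * (‖fc g (n - k)‖ * wt ρ (n - k)) :=
    fun n => (h.summable.mul_right M').of_nonneg_of_le
        (fun k => by have := wt_pos ρ k; have := wt_pos ρ (n - k); positivity)
        (fun k => mul_le_mul_of_nonneg_left (h'.coeff _)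
          (mul_nonneg (norm_nonneg _) (wt_pos _ _).le))
  refine (Finset.sum_le_sum fun n _ => key n).trans ?_
  rw [← Summable.tsum_finsetSum (fun n _ => hsum n)]
  have hin : ∀ k, ∑ n ∈ s, (‖fc f k‖ * wt ρ k) * (‖fc g (n - k)‖ * wt ρ (n - k)) ≤
      (‖fc f k‖ * wt ρ k) * M' := by
    intro k
    rw [← Finset.mul_sum]
    refine mul_le_mul_of_nonneg_left ?_ (mul_nonneg (norm_nonneg _) (wt_pos _ _).le)
    have := h' (s.map (Equiv.subRight k).toEmbedding)
    simpa using this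
  refine (Summable.tsum_le_tsum hin (summable_sum fun n _ => hsum n)
    (h.summable.mul_right M')).trans ?_
  rw [tsum_mul_right]
  exact mul_le_mul_of_nonneg_right h.tsum_le h'.nonneg

lemma norm_le (h : Bd ρ f M) (hρ : 0 ≤ ρ) : ‖f‖ ≤ M := by
  have hs := h.summable_norm hρ
  refine ((hasSum_fc hs.of_norm).norm_le_of_bounded h.summable.hasSum fun n => ?_).trans h.tsum_le
  rw [norm_smul, fourier_norm, mul_one]
  exact le_mul_of_one_le_right (norm_nonneg _) (one_le_wt hρ n)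

lemma of_tendsto {ι : Type} {l : Filter ι} [l.NeBot] {F : ι → CT} (hF : Tendsto F l (𝓝 f))
    (h : ∀ᶠ i in l, Bd ρ (F i) M) : Bd ρ f M := fun s => by
  refine le_of_tendsto (f := fun i => ∑ n ∈ s, ‖fc (F i) n‖ * wt ρ n) (x := l) ?_
    (h.mono fun i hi => hi s)
  refine tendsto_finsetSum _ fun n _ => Tendsto.mul_const _ (Tendsto.norm ?_)
  exact ((fcL n).continuous.tendsto f).comp hF

lemma pow (hρ : 0 ≤ ρ) (h : Bd ρ f M) (n : ℕ) : Bd ρ (f ^ n) (M ^ n) := by
  induction n with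
  | zero => simpa using one ρ
  | succ n ih => rw [pow_succ, pow_succ]; exact ih.mul hρ h

/-- Fourier multipliers. -/
lemma of_mult {σ K : ℝ} (h : Bd ρ f M) (hK : 0 ≤ K)
    (hg : ∀ n, ‖fc g n‖ ≤ K * wt σ n * ‖fc f n‖) : Bd (ρ - σ) g (K * M) := fun s => by
  refine le_trans (Finset.sum_le_sum fun n _ => ?_)
    ((Finset.mul_sum s _ K).ge.trans (mul_le_mul_of_nonneg_left (h s) hK))
  have h1 : wt ρ n = wt (ρ - σ) n * wt σ n := by rw [← wt_add]; ring_nf
  rw [h1]
  have := mul_le_mul_of_nonneg_right (hg n) (wt_pos (ρ - σ) n).le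
  linarith

lemma exists_inv (hρ : 0 ≤ ρ) (h : Bd ρ f (1 / 2)) : ∃ g : CT, (1 - f) * g = 1 ∧ Bd ρ g 2 := by
  have hn : ‖f‖ < 1 := (h.norm_le hρ).trans_lt (by norm_num)
  refine ⟨∑' n : ℕ, f ^ n, mul_neg_geom_series f hn, ?_⟩
  have hs := (summable_geometric_of_norm_lt_one hn).hasSum.tendsto_sum_nat
  refine of_tendsto hs (Eventually.of_forall fun N => ?_)
  have : Bd ρ (∑ i ∈ Finset.range N, f ^ i) (2 - 2 * (1 / 2) ^ N) := by
    induction N with
    | zero => simpa using zero ρ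
    | succ N ih =>
      rw [Finset.sum_range_succ]
      exact (ih.add (h.pow hρ N)).mono le_rfl (by rw [pow_succ]; linarith)
  exact this.mono le_rfl (by have : (0 : ℝ) ≤ (1 / 2) ^ N := by positivity
                             linarith)

end Bd

lemma abs_le_wt {σ : ℝ} (hσ : 0 < σ) (n : ℤ) : |(n : ℝ)| ≤ σ⁻¹ * wt σ n := by
  have := add_one_le_exp (σ * |(n : ℝ)|)
  rw [inv_mul_eq_div, le_div_iff₀ hσ]
  unfold wt; linarith

lemma pow_le_wt {σ : ℝ} (hσ : 0 < σ) (k : ℕ) (n : ℤ) :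
    |(n : ℝ)| ^ k ≤ (k.factorial * σ⁻¹ ^ k) * wt σ n := by
  have h := Real.pow_div_factorial_le_exp (σ * |(n : ℝ)|) (by positivity) k
  have hk : (0 : ℝ) < k.factorial := by positivity
  rw [div_le_iff₀ hk, mul_pow] at h
  have : |(n : ℝ)| ^ k = σ⁻¹ ^ k * (σ ^ k * |(n : ℝ)| ^ k) := by
    rw [← mul_assoc, ← mul_pow, inv_mul_cancel₀ hσ.ne']; simp
  rw [this]
  have := mul_le_mul_of_nonneg_left h (by positivity : 0 ≤ σ⁻¹ ^ k)
  unfold wt; linarith

lemma summable_wt_neg {σ : ℝ} (hσ : 0 < σ) : Summable fun n : ℤ => wt (-σ) n := by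
  have h : Summable fun n : ℕ => exp (-σ) ^ n :=
    summable_geometric_of_lt_one (exp_pos _).le (exp_lt_one_iff.mpr (by linarith))
  refine Summable.of_nat_of_neg ?_ ?_ <;>
  · refine h.congr fun n => ?_
    simp [wt, ← exp_nat_mul, mul_comm]

end Pool.Agent.Lib.MP_77fc3d_an
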