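import Pool.Agent.Lib.MP_77fc3d_an.An

/-! Pairs of analytic functions and the cohomological equations. -/

open Real Filter Topology

namespace Pool.Agent.Lib.MP_77fc3d_an

open Refl

abbrev B := An × An

/-- Bound for a pair. -/
def BB (ρ : ℝ) (x : B) (M : ℝ) : Prop := Bd ρ x.1.1 M ∧ Bd ρ x.2.1 M

/-- Shift and swap. -/
noncomputable def τ (β : ℝ) : B →+* B where
  toFun x := (sh β x.2, sh β x.1)
  map_one' := by simp
  map_mul' x y := by simp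
  map_zero' := by simp
  map_add' x y := by simp

lemma τ_fst (β : ℝ) (x : B) : (τ β x).1 = sh β x.2 := rfl
lemma τ_snd (β : ℝ) (x : B) : (τ β x).2 = sh β x.1 := rfl

/-- The componentwise derivation. -/
noncomputable def DB : Der B where
  d := AddMonoidHom.prodMap D.d D.d
  leib x y := by ext1 <;> simp [D.leib]

lemma DB_fst (x : B) : (DB.d x).1 = D.d x.1 := rfl
lemma DB_snd (x : B) : (DB.d x).2 = D.d x.2 := rfl

/-- Constants. -/
noncomputable def κB : ℂ →+* B := RingHom.prod κ κ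

lemma κB_fst (c : ℂ) : (κB c).1 = κ c := rfl
lemma κB_snd (c : ℂ) : (κB c).2 = κ c := rfl

@[simp] lemma τ_κB (β : ℝ) (c : ℂ) : τ β (κB c) = κB c := rfl

lemma DB_κB (c : ℂ) : DB.d (κB c) = 0 := Prod.ext (D_κ c) (D_κ c)

lemma DB_τ (β : ℝ) (x : B) : DB.d (τ β x) = τ β (DB.d x) := Prod.ext (D_sh _ _) (D_sh _ _)

/-- Twice the mean over both components. -/
noncomputable def mn (x : B) : ℂ := cf x.1 0 + cf x.2 0

/-- The resonant coefficient. -/
noncomputable def res (x : B) : ℂ := cf x.1 2 - cf x.2 2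

lemma mn_add (x y : B) : mn (x + y) = mn x + mn y := by simp [mn]; ring
lemma mn_sub (x y : B) : mn (x - y) = mn x - mn y := by simp [mn]; ring
lemma mn_κB (c : ℂ) (x : B) : mn (κB c * x) = c * mn x := by simp [mn, κB_fst, κB_snd]; ring
lemma res_sub (x y : B) : res (x - y) = res x - res y := by simp [res]; ring
lemma res_κB (c : ℂ) (x : B) : res (κB c * x) = c * res x := by simp [res, κB_fst, κB_snd]; ring

lemma Bd.κ (ρ : ℝ) (c : ℂ) : Bd ρ (κ c).1 ‖c‖ := by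
  have := (Bd.one ρ).smul c
  rw [mul_one] at this
  rw [Algebra.algebraMap_eq_smul_one]
  exact this

namespace BB

variable {ρ ρ' σ M M' : ℝ} {x y : B}

lemma nonneg (h : BB ρ x M) : 0 ≤ M := h.1.nonneg
lemma mono (h : BB ρ x M) (hρ : ρ' ≤ ρ) (hM : M ≤ M') : BB ρ' x M' := ⟨h.1.mono hρ hM, h.2.mono hρ hM⟩
lemma add (h : BB ρ x M) (h' : BB ρ y M') : BB ρ (x + y) (M + M') := ⟨h.1.add h'.1, h.2.add h'.2⟩
lemma sub (h : BB ρ x M) (h' : BB ρ y M') : BB ρ (x - y) (M + M') := ⟨h.1.sub h'.1, h.2.sub h'.2⟩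
lemma neg (h : BB ρ x M) : BB ρ (-x) M := ⟨h.1.neg, h.2.neg⟩
lemma mul (hρ : 0 ≤ ρ) (h : BB ρ x M) (h' : BB ρ y M') : BB ρ (x * y) (M * M') :=
  ⟨h.1.mul hρ h'.1, h.2.mul hρ h'.2⟩
lemma tau (h : BB ρ x M) (β : ℝ) : BB ρ (τ β x) M := ⟨h.2.shC β, h.1.shC β⟩
lemma der (h : BB ρ x M) (hσ : 0 < σ) : BB (ρ - σ) (DB.d x) (σ⁻¹ * M) := ⟨h.1.D hσ, h.2.D hσ⟩
lemma const (ρ : ℝ) (c : ℂ) : BB ρ (κB c) ‖c‖ := ⟨Bd.κ ρ c, Bd.κ ρ c⟩
lemma zero (ρ : ℝ) : BB ρ 0 0 := ⟨Bd.zero ρ, Bd.zero ρ⟩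

lemma mn_le (h : BB ρ x M) (hρ : 0 ≤ ρ) : ‖mn x‖ ≤ 2 * M :=
  (norm_add_le _ _).trans (by
    have := h.1.coeff_le hρ 0
    have := h.2.coeff_le hρ 0
    unfold cf; linarith)

lemma res_le (h : BB ρ x M) (hρ : 0 ≤ ρ) : ‖res x‖ ≤ 2 * M :=
  (norm_sub_le _ _).trans (by
    have := h.1.coeff_le hρ 2
    have := h.2.coeff_le hρ 2
    unfold cf; linarith)

lemma exists_inv (hρ : 0 < ρ) (h : BB ρ x (1 / 2)) : ∃ y : B, (1 - x) * y = 1 ∧ BB ρ y 2 := by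
  obtain ⟨g1, e1, b1⟩ := h.1.exists_inv hρ.le
  obtain ⟨g2, e2, b2⟩ := h.2.exists_inv hρ.le
  exact ⟨(⟨g1, ρ, hρ, _, b1⟩, ⟨g2, ρ, hρ, _, b2⟩), Prod.ext (Subtype.ext e1) (Subtype.ext e2), b1, b2⟩

end BB

lemma exists_BB (x : B) : ∃ ρ > 0, ∃ M, BB ρ x M := by
  obtain ⟨ρ, hρ, M, h⟩ := x.1.bd
  obtain ⟨ρ', hρ', M', h'⟩ := x.2.bd
  exact ⟨min ρ ρ', lt_min hρ hρ', max M M', h.mono (min_le_left _ _) (le_max_left _ _),
    h'.mono (min_le_right _ _) (le_max_right _ _)⟩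

/-- The multiplier of the shift. -/
noncomputable def ex (β : ℝ) (j : ℤ) : ℂ := Complex.exp (2 * π * Complex.I * j * β)

lemma norm_ex (β : ℝ) (j : ℤ) : ‖ex β j‖ = 1 := norm_exp_sh β j

lemma ex_add (β : ℝ) (i j : ℤ) : ex β (i + j) = ex β i * ex β j := by
  unfold ex; rw [← Complex.exp_add]; congr 1; push_cast; ring

lemma cf_sh' (β : ℝ) (f : An) (n : ℤ) : cf (sh β f) n = ex β n * cf f n := cf_sh β f n

lemma norm_ex_sub_one (β : ℝ) (j : ℤ) : ‖ex β j - 1‖ ≤ 2 * π * |β| * |(j : ℝ)| := by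
  have h := Real.norm_exp_I_mul_ofReal_sub_one_le (x := 2 * π * j * β)
  have e : Complex.I * ((2 * π * j * β : ℝ) : ℂ) = 2 * π * Complex.I * j * β := by push_cast; ring
  rw [e, Real.norm_eq_abs, abs_mul, abs_mul, abs_of_pos (by positivity : 0 < 2 * π)] at h
  unfold ex; linarith

lemma BB.tau_sub {ρ M : ℝ} {x : B} (h : BB ρ (DB.d x) M) (β : ℝ) :
    BB ρ (τ β x - τ 0 x) (2 * π * |β| * M) := by
  have key : ∀ f : An, Bd ρ (D.d f).1 M → Bd ρ (sh β f - sh 0 f).1 (2 * π * |β| * M) := by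
    intro f hf
    have := hf.of_mult (σ := 0) (g := (sh β f - sh 0 f).1) (K := 2 * π * |β|) (by positivity) fun n => by
      change ‖cf (sh β f - sh 0 f) n‖ ≤ _ * ‖cf (D.d f) n‖
      have e : cf (sh β f - sh 0 f) n = (ex β n - 1) * cf f n := by
        rw [cf_sub, cf_sh', cf_sh']; simp [ex]; ring
      rw [e, cf_D, norm_mul, norm_mul, Complex.norm_intCast]
      have := mul_le_mul_of_nonneg_right (norm_ex_sub_one β n) (norm_nonneg (cf f n))
      simp only [wt, zero_mul, exp_zero, mul_one]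
      linarith
    simpa using this
  exact ⟨key _ h.2, key _ h.1⟩

/-- Solution of `τ η + a η = r`. -/
noncomputable def sol (β : ℝ) (a : ℂ) (r : B) : B :=
  (κ (1 / 2) * (op (fun j => (ex β j + a)⁻¹) (r.1 + r.2) + op (fun j => (-ex β j + a)⁻¹) (r.1 - r.2)),
   κ (1 / 2) * (op (fun j => (ex β j + a)⁻¹) (r.1 + r.2) - op (fun j => (-ex β j + a)⁻¹) (r.1 - r.2)))

lemma sol_eq {β : ℝ} {a : ℂ} {r : B} (h1 : SubExp fun j => (ex β j + a)⁻¹)
    (h2 : SubExp fun j => (-ex β j + a)⁻¹) (h3 : ∀ j, ex β j + a = 0 → cf r.1 j + cf r.2 j = 0)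
    (h4 : ∀ j, -ex β j + a ≠ 0) : τ β (sol β a r) + κB a * sol β a r = r := by
  have e1 : ∀ j, (ex β j + a) * (ex β j + a)⁻¹ * (cf r.1 j + cf r.2 j) = cf r.1 j + cf r.2 j := by
    intro j
    by_cases h : ex β j + a = 0
    · rw [h3 j h, mul_zero]
    · rw [mul_inv_cancel₀ h, one_mul]
  have e2 : ∀ j, (-ex β j + a) * (-ex β j + a)⁻¹ = 1 := fun j => mul_inv_cancel₀ (h4 j)
  ext1 <;> refine An.ext_cf fun j => ?_
  · simp only [Prod.fst_add, Prod.fst_mul, τ_fst, κB_fst, sol, cf_add, cf_sub, cf_sh', cf_κ_mul,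
      cf_op h1, cf_op h2]
    linear_combination (1 / 2) * e1 j + (1 / 2) * (cf r.1 j - cf r.2 j) * e2 j
  · simp only [Prod.snd_add, Prod.snd_mul, τ_snd, κB_snd, sol, cf_add, cf_sub, cf_sh', cf_κ_mul,
      cf_op h1, cf_op h2]
    linear_combination (1 / 2) * e1 j - (1 / 2) * (cf r.1 j - cf r.2 j) * e2 j

lemma sol_bd {β : ℝ} {a : ℂ} {r : B} (h1 : SubExp fun j => (ex β j + a)⁻¹)
    (h2 : SubExp fun j => (-ex β j + a)⁻¹) {ρ σ M K : ℝ} (hK : 0 ≤ K) (hσ : 0 ≤ σ)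
    (b1 : ∀ j, ‖(ex β j + a)⁻¹‖ ≤ K * wt σ j) (b2 : ∀ j ≠ 2, ‖(-ex β j + a)⁻¹‖ ≤ K * wt σ j)
    (hr : BB ρ r M) :
    BB (ρ - σ) (sol β a r) (2 * K * M + ‖(-ex β 2 + a)⁻¹‖ * ‖res r‖ * wt ρ 2) := by
  have hA : Bd (ρ - σ) (op (fun j => (ex β j + a)⁻¹) (r.1 + r.2)).1 (K * (M + M)) :=
    (hr.1.add hr.2).of_mult hK fun n => by
      change ‖cf _ n‖ ≤ _ * ‖cf (r.1 + r.2) n‖
      rw [cf_op h1, norm_mul]
      exact mul_le_mul_of_nonneg_right (b1 n) (norm_nonneg _)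
  have hB1 : Bd (ρ - σ) (op (fun j => (-ex β j + a)⁻¹) (r.1 - r.2) -
      κ ((-ex β 2 + a)⁻¹ * res r) * em 2).1 (K * (M + M)) :=
    (hr.1.sub hr.2).of_mult hK fun n => by
      change ‖cf _ n‖ ≤ _ * ‖cf (r.1 - r.2) n‖
      rw [cf_sub, cf_op h2, cf_κ_mul, cf_em]
      by_cases hn : n = 2
      · subst hn
        have : (-ex β 2 + a)⁻¹ * cf (r.1 - r.2) 2 - (-ex β 2 + a)⁻¹ * res r * 1 = 0 := by
          rw [cf_sub, res]; ring
        rw [if_pos rfl, this, norm_zero]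
        have := wt_pos σ 2
        positivity
      · rw [if_neg hn, mul_zero, sub_zero, norm_mul]
        exact mul_le_mul_of_nonneg_right (b2 n hn) (norm_nonneg _)
  have hB2 : Bd (ρ - σ) (κ ((-ex β 2 + a)⁻¹ * res r) * em 2).1
      (‖(-ex β 2 + a)⁻¹‖ * ‖res r‖ * wt ρ 2) := by
    have := (Bd.fourier ρ 2).smul ((-ex β 2 + a)⁻¹ * res r)
    rw [norm_mul] at this
    rw [← Algebra.smul_def]
    exact this.mono (by linarith) le_rfl
  have hB := hB1.add hB2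
  rw [← val_add, sub_add_cancel] at hB
  have hn : 0 ≤ ‖(-ex β 2 + a)⁻¹‖ * ‖res r‖ * wt ρ 2 := hB2.nonneg
  constructor
  · have := (hA.add hB).smul (1 / 2)
    simp only [sol, ← Algebra.smul_def]
    exact this.mono le_rfl (by rw [show ‖(1 / 2 : ℂ)‖ = 1 / 2 by norm_num]; linarith)
  · have := (hA.sub hB).smul (1 / 2)
    simp only [sol, ← Algebra.smul_def]
    exact this.mono le_rfl (by rw [show ‖(1 / 2 : ℂ)‖ = 1 / 2 by norm_num]; linarith)

section alg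

variable {R : Type} [CommRing R] (T : R →+* R) (δ : Der R)

/-- The invariance equation. -/
def Err (k a Y : R) : R := T (T Y) - a * Y - k * T Y ^ 2

/-- Its linearisation. -/
def Lin (k a Y w : R) : R := T (T w) - a * w - 2 * k * T Y * T w

lemma newton_alg {k a dl Y N Wi η ξ : R} (hT : ∀ x, δ.d (T x) = T (δ.d x)) (ha : T a = a)
    (da : δ.d a = 0) (dk : δ.d k = 0)
    (hW : (δ.d Y * T N - N * T (δ.d Y)) * Wi = 1)
    (hη : T η + a * η = T (δ.d Y) * (k * dl * Y - Err T k a Y))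
    (hξ : T ξ - ξ = (η * Wi * Lin T k a Y N - (k * dl * Y - Err T k a Y)) * T N * T Wi) :
    Err T k (a + k * dl) (Y + (ξ * δ.d Y + η * Wi * N)) =
      (η * Wi * T N * T Wi * δ.d (Err T k a Y)) * T (T N) + ξ * δ.d (Err T k a Y) +
      T ((η * Wi * T N * T Wi * δ.d (Err T k a Y)) * T N) -
      2 * k * T Y * ((η * Wi * T N * T Wi * δ.d (Err T k a Y)) * T N) -
      k * dl * (ξ * δ.d Y + η * Wi * N) - k * T (ξ * δ.d Y + η * Wi * N) ^ 2 := by
  have hD : δ.d (Err T k a Y) = Lin T k a Y (δ.d Y) := by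
    simp only [Err, Lin, map_sub, δ.d_const_mul da, δ.d_const_mul dk, δ.d_pow, hT]
    push_cast; ring
  have hW' := congrArg T hW
  simp only [map_mul, map_sub, map_one] at hW'
  generalize hR : k * dl * Y - Err T k a Y = Rr at hη hξ
  generalize hχ : η * Wi = χ at hξ ⊢
  generalize hr : χ * T N * T Wi * δ.d (Err T k a Y) = r
  have hZ : T χ - χ = -((χ * Lin T k a Y N - Rr) * T (δ.d Y) * T Wi) + r := by
    rw [← hr, hD, ← hχ, map_mul]
    simp only [Lin]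
    linear_combination (T Wi) * hη + (a * η * T Wi) * hW + (η * Wi) * hW'
  have hd : T (ξ * δ.d Y + χ * N) = ξ * T (δ.d Y) + χ * T N + r * T N := by
    simp only [map_add, map_mul]
    linear_combination T (δ.d Y) * hξ + T N * hZ
  have hd' := congrArg T hd
  rw [map_add T (ξ * T (δ.d Y) + χ * T N), map_add T (ξ * T (δ.d Y)), map_mul T ξ, map_mul T χ] at hd'
  rw [hD]
  simp only [Err, Lin, map_add T Y] at hR hξ hZ ⊢
  generalize T (ξ * δ.d Y + χ * N) = w1 at hd hd' ⊢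
  rw [map_add T (T Y)]
  linear_combination hd' + T (T (δ.d Y)) * hξ + T (T N) * hZ - 2 * k * T Y * hd - hR -
    (χ * (T (T N) - a * N - 2 * k * T Y * T N) - Rr) * hW'

end alg

end Pool.Agent.Lib.MP_77fc3d_an
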