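import Pool.Agent.Lib.MP_77fc3d_an.Dbl

/-! Bounded type numbers are badly approximable; small divisor estimates. -/

open Real

namespace Pool.Agent.Lib.MP_77fc3d_an

/-- Iterates of the Gauss map. -/
noncomputable def gs (θ : ℝ) : ℕ → ℝ
  | 0 => Int.fract θ
  | n + 1 => Int.fract (gs θ n)⁻¹

lemma irrational_fract {x : ℝ} (h : Irrational x) : Irrational (Int.fract x) := by
  unfold Int.fract; exact h.sub_intCast _

lemma gs_irr {θ : ℝ} (h : Irrational θ) : ∀ n, Irrational (gs θ n)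
  | 0 => irrational_fract h
  | n + 1 => irrational_fract (gs_irr h n).inv

lemma gs_lt (θ : ℝ) (n : ℕ) : gs θ n < 1 := by cases n <;> exact Int.fract_lt_one _

lemma gs_pos {θ : ℝ} (h : Irrational θ) (n : ℕ) : 0 < gs θ n :=
  lt_of_le_of_ne (by cases n <;> exact Int.fract_nonneg _) (gs_irr h n).ne_zero.symm

lemma gs_stream {θ : ℝ} (h : Irrational θ) :
    ∀ n, ∃ p, GenContFract.IntFractPair.stream θ n = some p ∧ p.fr = gs θ n
  | 0 => ⟨_, rfl, rfl⟩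
  | n + 1 => by
    obtain ⟨p, hp, e⟩ := gs_stream h n
    refine ⟨_, GenContFract.IntFractPair.stream_succ_of_some hp (e ▸ (gs_pos h n).ne'), ?_⟩
    rw [e]; rfl

lemma gs_floor {θ : ℝ} (h : Irrational θ) (n : ℕ) :
    (GenContFract.of θ).partDens.get? n = some ((⌊(gs θ n)⁻¹⌋ : ℤ) : ℝ) := by
  obtain ⟨p, hp, e⟩ := gs_stream h n
  have h1 := GenContFract.IntFractPair.stream_succ_of_some hp (e ▸ (gs_pos h n).ne')
  have h2 := GenContFract.partDen_eq_s_b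
    (GenContFract.get?_of_eq_some_of_succ_get?_intFractPair_stream h1)
  rw [h2, e]; rfl

lemma gs_bad {θ η : ℝ} (h : Irrational θ) (hη : 0 < η) (hb : ∀ n, η < gs θ n) (q : ℕ) :
    1 ≤ q → ∀ (n : ℕ) (p : ℤ), η / 4 * (1 + 1 / q) ≤ q * |q * gs θ n - p| := by
  induction q using Nat.strong_induction_on with
  | _ q ih =>
  intro hq n p
  have hq' : (1 : ℝ) ≤ q := by exact_mod_cast hq
  have hη1 : η < 1 := (hb 0).trans (gs_lt θ 0)
  set x := gs θ n with hx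
  have x0 : 0 < x := gs_pos h n
  have x1 : x < 1 := gs_lt θ n
  have hq1 : 1 / (q : ℝ) ≤ 1 := by rw [div_le_one (by linarith)]; exact hq'
  by_cases hbig : η / 2 ≤ q * |q * x - p|
  · nlinarith
  push Not at hbig
  have hδ : |q * x - p| < η / 2 := by nlinarith [abs_nonneg (q * x - p)]
  have hδ' := abs_lt.mp hδ
  have hG : gs θ (n + 1) = x⁻¹ - ⌊x⁻¹⌋ := rfl
  have hfl : (1 : ℝ) ≤ ⌊x⁻¹⌋ := by
    exact_mod_cast Int.le_floor.mpr (by simpa using (one_le_inv₀ x0).mpr x1.le)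
  have hx2 : η / 2 ≤ 1 - x := by
    have h1 : 1 + η < x⁻¹ := by have := hb (n + 1); rw [hG] at this; linarith
    have h2 : (1 + η) * x < 1 := by rwa [← one_div, lt_div_iff₀ x0] at h1
    nlinarith
  have hp1 : 1 ≤ p := by
    have : (0 : ℝ) < p := by have := hb n; nlinarith
    exact_mod_cast this
  have hpq : p < q := by
    have : (p : ℝ) < q := by nlinarith
    exact_mod_cast this
  obtain ⟨m, rfl⟩ := Int.eq_ofNat_of_zero_le (by omega : 0 ≤ p)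
  have hm1 : (1 : ℝ) ≤ m := by exact_mod_cast hp1
  have hmq : (m : ℝ) + 1 ≤ q := by exact_mod_cast hpq
  have h1 := ih m (by omega) (by omega) (n + 1) (q - m * ⌊x⁻¹⌋)
  have e : |(q : ℝ) * x - ((m : ℤ) : ℝ)| = x * |m * gs θ (n + 1) - ((q - m * ⌊x⁻¹⌋ : ℤ) : ℝ)| := by
    rw [← abs_of_pos x0, ← abs_mul, abs_of_pos x0, ← abs_neg, hG]
    congr 1; push_cast; field_simp; ring
  generalize |m * gs θ (n + 1) - ((q - m * ⌊x⁻¹⌋ : ℤ) : ℝ)| = δ' at h1 e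
  generalize hδd : |(q : ℝ) * x - ((m : ℤ) : ℝ)| = δ at *
  have hqx : (m : ℝ) - δ ≤ q * x := by
    have := neg_abs_le ((q : ℝ) * x - ((m : ℤ) : ℝ)); rw [hδd] at this; push_cast at this; linarith
  have δ0 : 0 ≤ δ := hδd ▸ abs_nonneg _
  have hm0 : (0 : ℝ) < m := by linarith
  have hq0 : (0 : ℝ) < q := by linarith
  have h2 : q * δ = (q * x / m) * (m * δ') := by rw [e]; field_simp
  have h3 : 1 + 1 / (q : ℝ) ≤ (q * x / m) * (1 + 1 / m) := by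
    have h4 : (m - δ) / m * (1 + 1 / m) ≤ (q * x / m) * (1 + 1 / m) := by gcongr
    refine le_trans ?_ h4
    rw [← sub_nonneg]
    have : (m - δ) / m * (1 + 1 / m) - (1 + 1 / (q : ℝ)) =
        (m * (q - m) - q * δ * (m + 1)) / (q * m ^ 2) := by field_simp; ring
    rw [this]
    apply div_nonneg _ (by positivity)
    nlinarith
  rw [h2]
  calc η / 4 * (1 + 1 / q) ≤ η / 4 * ((q * x / m) * (1 + 1 / m)) := by gcongr
    _ = (q * x / m) * (η / 4 * (1 + 1 / m)) := by ring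
    _ ≤ _ := by gcongr

lemma bad_of_bounded {θ : ℝ} (h : Irrational θ)
    (hb : ∃ M : ℝ, ∀ n b, (GenContFract.of θ).partDens.get? n = some b → b ≤ M) :
    ∃ γ > 0, ∀ q p : ℤ, q ≠ 0 → γ / |(q : ℝ)| ≤ |q * θ - p| := by
  obtain ⟨M, hM⟩ := hb
  have h1 : ∀ n, (gs θ n)⁻¹ < M + 1 := fun n =>
    (Int.lt_floor_add_one _).trans_le (by have := hM n _ (gs_floor h n); linarith)
  have hM0 : 0 < M + 1 := (inv_pos.mpr (gs_pos h 0)).trans (h1 0)
  have h2 : ∀ n, (M + 1)⁻¹ < gs θ n := fun n => (inv_lt_comm₀ hM0 (gs_pos h n)).mpr (h1 n)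
  refine ⟨(M + 1)⁻¹ / 4, by positivity, ?_⟩
  have key : ∀ q : ℕ, 1 ≤ q → ∀ p : ℤ, (M + 1)⁻¹ / 4 / q ≤ |q * θ - p| := by
    intro q hq p
    have h3 := gs_bad h (by positivity) h2 q hq 0 (p - q * ⌊θ⌋)
    have e : (q : ℝ) * gs θ 0 - ((p - q * ⌊θ⌋ : ℤ) : ℝ) = q * θ - p := by
      simp only [gs, Int.fract]; push_cast; ring
    have hq0 : (0 : ℝ) < q := by exact_mod_cast hq
    rw [e] at h3
    rw [div_le_iff₀ hq0]
    have : 0 ≤ (M + 1)⁻¹ / 4 * (1 / q) := by positivity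
    linarith
  intro q p hq
  rcases Int.natAbs_eq q with e | e
  · have := key q.natAbs (by omega) p
    rw [Nat.cast_natAbs] at this
    push_cast at this
    rwa [abs_of_pos (a := (q : ℝ)) (by exact_mod_cast (by omega : 0 < q))] at this ⊢
  · have := key q.natAbs (by omega) (-p)
    rw [Nat.cast_natAbs] at this
    push_cast at this
    rw [abs_of_neg (a := (q : ℝ)) (by exact_mod_cast (by omega : q < 0))] at this ⊢
    rwa [show -(q : ℝ) * θ - -p = -(q * θ - p) by ring, abs_neg] at this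

lemma four_mul_le_norm_exp (x : ℝ) :
    4 * |x - round x| ≤ ‖Complex.exp (2 * π * Complex.I * x) - 1‖ := by
  have e : Complex.exp (2 * π * Complex.I * x) =
      Complex.exp (Complex.I * ((2 * π * (x - round x) : ℝ) : ℂ)) := by
    rw [← mul_one (Complex.exp (Complex.I * _)), ← Complex.exp_int_mul_two_pi_mul_I (round x),
      ← Complex.exp_add]
    congr 1; push_cast; ring
  rw [e, Complex.norm_exp_I_mul_ofReal_sub_one]
  have h := abs_sub_round x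
  generalize x - round x = y at h
  have h1 : 2 / π * (π * |y|) ≤ sin (π * |y|) :=
    mul_le_sin (by positivity) (by nlinarith [pi_pos])
  have h2 : |sin (2 * π * y / 2)| = |sin (π * |y|)| := by
    rw [show 2 * π * y / 2 = π * y by ring]
    rcases abs_choice y with h | h <;> rw [h]
    rw [mul_neg, sin_neg, abs_neg]
  rw [norm_mul, Real.norm_eq_abs (sin _), h2]
  have h3 : 2 / π * (π * |y|) = 2 * |y| := by field_simp
  have h4 := le_abs_self (sin (π * |y|))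
  simp only [Real.norm_ofNat]
  linarith

/-- The size of the small parameter. -/
noncomputable def EE (β : ℝ) : ℝ := 2 * π * |β|

/-- The Diophantine condition used in the iteration. -/
def Dio (M β : ℝ) : Prop :=
  ∀ j : ℤ, j ≠ 0 → EE β / (M * |(j : ℝ)|) ≤ ‖ex β j - 1‖ ∧ EE β / (M * |(j : ℝ)|) ≤ ‖ex β j + 1‖

lemma Dio.mono {M M' β : ℝ} (h : Dio M β) (hM : 0 < M) (hM' : M ≤ M') : Dio M' β := fun j hj => by
  have hj' : 0 < |(j : ℝ)| := abs_pos.mpr (by exact_mod_cast hj)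
  have : EE β / (M' * |(j : ℝ)|) ≤ EE β / (M * |(j : ℝ)|) := by
    unfold EE; gcongr
  exact ⟨this.trans (h j hj).1, this.trans (h j hj).2⟩

lemma dio_of_bad {ϑ γ : ℝ} (hγ : 0 < γ) (h : ∀ q p : ℤ, q ≠ 0 → γ / |(q : ℝ)| ≤ |q * ϑ - p|) :
    ∃ M ≥ 1, ∀ k : ℕ, 1 ≤ k → Dio M (ϑ / (2 * k)) := by
  refine ⟨π * |ϑ| / γ + 1, by have : 0 ≤ π * |ϑ| / γ := by positivity
                              linarith, fun k hk j hj => ?_⟩
  have hk0 : (0 : ℝ) < k := by exact_mod_cast hk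
  have hj' : 0 < |(j : ℝ)| := abs_pos.mpr (by exact_mod_cast hj)
  have h1 := four_mul_le_norm_exp (j * ϑ / k)
  have h2 := h j (round (j * ϑ / k) * k) hj
  have e1 : (j : ℝ) * ϑ - ((round (j * ϑ / k) * k : ℤ) : ℝ) = (j * ϑ / k - round (j * ϑ / k)) * k := by
    push_cast; field_simp
  rw [e1, abs_mul, abs_of_pos hk0] at h2
  have e2 : Complex.exp (2 * π * Complex.I * ((j * ϑ / k : ℝ) : ℂ)) - 1 =
      (ex (ϑ / (2 * k)) j - 1) * (ex (ϑ / (2 * k)) j + 1) := by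
    have : (k : ℂ) ≠ 0 := by exact_mod_cast hk0.ne'
    have : Complex.exp (2 * π * Complex.I * ((j * ϑ / k : ℝ) : ℂ)) =
        ex (ϑ / (2 * k)) j * ex (ϑ / (2 * k)) j := by
      unfold ex; rw [← Complex.exp_add]; congr 1; push_cast; field_simp; ring
    rw [this]; ring
  rw [e2, norm_mul] at h1
  have n1 : ‖ex (ϑ / (2 * k)) j - 1‖ ≤ 2 := (norm_sub_le _ _).trans (by rw [norm_ex]; norm_num)
  have n2 : ‖ex (ϑ / (2 * k)) j + 1‖ ≤ 2 := (norm_add_le _ _).trans (by rw [norm_ex]; norm_num)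
  have h3 : EE (ϑ / (2 * k)) / ((π * |ϑ| / γ + 1) * |(j : ℝ)|) ≤ γ / |(j : ℝ)| / k := by
    unfold EE
    rw [abs_div, abs_of_pos (by positivity : (0 : ℝ) < 2 * k), div_le_div_iff₀ (by positivity) hk0]
    have : γ / |(j : ℝ)| * ((π * |ϑ| / γ + 1) * |(j : ℝ)|) = π * |ϑ| + γ := by field_simp
    rw [this, show 2 * π * (|ϑ| / (2 * k)) * k = π * |ϑ| by field_simp]
    linarith
  have h4 : γ / |(j : ℝ)| / k ≤ |j * ϑ / k - round (j * ϑ / k)| := by rwa [div_le_iff₀ hk0]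
  have := norm_nonneg (ex (ϑ / (2 * k)) j - 1)
  have := norm_nonneg (ex (ϑ / (2 * k)) j + 1)
  constructor <;> nlinarith

lemma ex_zero (β : ℝ) : ex β 0 = 1 := by simp [ex]

lemma subExp_of {m : ℤ → ℂ} (h : ∀ σ, 0 < σ → σ ≤ 1 → ∃ K ≥ 0, ∀ j ≠ 2, ‖m j‖ ≤ K * wt σ j) :
    SubExp m := fun σ hσ => by
  obtain ⟨K, hK, hb⟩ := h (min σ 1) (lt_min hσ one_pos) (min_le_right _ _)
  refine ⟨K + ‖m 2‖, by positivity, fun n => ?_⟩
  have h1 := one_le_wt hσ.le n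
  have h2 := wt_mono (min_le_left σ 1) n
  have h3 := norm_nonneg (m 2)
  by_cases hn : n = 2
  · subst hn; nlinarith
  · have := hb n hn; nlinarith

section

variable {M β σ : ℝ} {a : ℂ}

lemma Dio.lower (h : Dio M β) (hM : 1 ≤ M) (hE1 : EE β ≤ 1) {s : ℂ} {m : ℤ}
    (hs : s = 1 ∨ (s = -1 ∧ m ≠ 0)) : EE β / (M * (|(m : ℝ)| + 1)) ≤ ‖s * ex β m + 1‖ := by
  have hE0 : 0 ≤ EE β := by unfold EE; positivity
  by_cases hm : m = 0
  · rcases hs with rfl | ⟨-, h'⟩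
    · subst hm
      rw [ex_zero, div_le_iff₀ (by positivity)]
      norm_num; linarith
    · exact absurd hm h'
  · have hj' : 0 < |(m : ℝ)| := abs_pos.mpr (by exact_mod_cast hm)
    have h1 : EE β / (M * (|(m : ℝ)| + 1)) ≤ EE β / (M * |(m : ℝ)|) := by gcongr; linarith
    rcases hs with rfl | ⟨rfl, -⟩
    · rw [one_mul]; exact h1.trans (h m hm).2
    · rw [show -1 * ex β m + 1 = -(ex β m - 1) by ring, norm_neg]; exact h1.trans (h m hm).1

lemma pow_four_le (hσ : 0 < σ) (hσ1 : σ ≤ 1) (j : ℤ) :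
    (|(j : ℝ)| + 3) ^ 4 ≤ 1000 * σ⁻¹ ^ 4 * wt σ j := by
  have h1 := pow_le_wt hσ 4 j
  have h2 := one_le_wt hσ.le j
  have h3 : 1 ≤ σ⁻¹ ^ 4 := one_le_pow₀ ((one_le_inv₀ hσ).mpr hσ1)
  have h4 : (|(j : ℝ)| + 3) ^ 4 ≤ 8 * (|(j : ℝ)| ^ 4 + 81) := by
    nlinarith [sq_nonneg (|(j : ℝ)| - 3), sq_nonneg (|(j : ℝ)| ^ 2 - 9), sq_nonneg (|(j : ℝ)| + 3),
      mul_nonneg (sq_nonneg (|(j : ℝ)| - 3)) (sq_nonneg (|(j : ℝ)| + 3)),
      mul_nonneg (sq_nonneg (|(j : ℝ)| - 3)) (sq_nonneg (|(j : ℝ)|))]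
  norm_num [Nat.factorial] at h1 h3 ⊢
  nlinarith

lemma small_div (h : Dio M β) (hM : 1 ≤ M) (hE : 0 < EE β) (hE1 : EE β ≤ 1)
    (ha1 : EE β ^ 9 / M ≤ 1 - ‖a‖) (ha2 : ‖a - ex β 2‖ ≤ M * EE β ^ 3) (hσ : 0 < σ) (hσ1 : σ ≤ 1)
    {s : ℂ} {j : ℤ} (hs : s = 1 ∨ (s = -1 ∧ j ≠ 2)) :
    ‖(s * ex β j + a)⁻¹‖ ≤ 16000 * M ^ 9 * (EE β)⁻¹ * σ⁻¹ ^ 4 * wt σ j := by
  have hl := h.lower hM hE1 (s := s) (m := j - 2) (hs.imp id fun h => ⟨h.1, by omega⟩)
  have hs1 : ‖s‖ = 1 := by rcases hs with rfl | ⟨rfl, -⟩ <;> simp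
  generalize EE β = E at *
  have hμ : |((j - 2 : ℤ) : ℝ)| + 1 ≤ |(j : ℝ)| + 3 := by
    push_cast; have := abs_sub (j : ℝ) 2; rw [abs_two] at this; linarith
  have hμ1 : 1 ≤ |((j - 2 : ℤ) : ℝ)| + 1 := by have := abs_nonneg ((j - 2 : ℤ) : ℝ); linarith
  have hμ4 := (pow_le_pow_left₀ (by linarith) hμ 4).trans (pow_four_le hσ hσ1 j)
  generalize |((j - 2 : ℤ) : ℝ)| + 1 = μ at *
  suffices hh : E / (16 * M ^ 9 * μ ^ 4) ≤ ‖s * ex β j + a‖ by
    rw [norm_inv]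
    refine (inv_anti₀ (by positivity) hh).trans ?_
    rw [inv_div, div_eq_mul_inv]
    calc 16 * M ^ 9 * μ ^ 4 * E⁻¹ ≤ 16 * M ^ 9 * (1000 * σ⁻¹ ^ 4 * wt σ j) * E⁻¹ := by gcongr
      _ = _ := by ring
  by_cases hc : 2 * M ^ 2 * E ^ 2 * μ ≤ 1
  · have e : s * ex β j + a = ex β 2 * (s * ex β (j - 2) + 1) + (a - ex β 2) := by
      rw [show j = 2 + (j - 2) by ring, ex_add]; simp only [add_sub_cancel_left]; ring
    have h1 := norm_sub_norm_le (ex β 2 * (s * ex β (j - 2) + 1)) (-(a - ex β 2))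
    rw [sub_neg_eq_add, ← e, norm_neg, norm_mul, norm_ex, one_mul] at h1
    have h2 : M * E ^ 3 ≤ E / (2 * (M * μ)) := by
      rw [le_div_iff₀ (by positivity)]; nlinarith
    have h3 : E / (M * μ) = 2 * (E / (2 * (M * μ))) := by field_simp
    have h4 : E / (16 * M ^ 9 * μ ^ 4) ≤ E / (2 * (M * μ)) := by
      have : M ≤ M ^ 9 := le_self_pow₀ hM (by norm_num)
      have : μ ≤ μ ^ 4 := le_self_pow₀ hμ1 (by norm_num)
      rw [mul_assoc]
      gcongr; norm_num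
    linarith
  · push Not at hc
    have h1 := norm_sub_norm_le (s * ex β j) (-a)
    rw [sub_neg_eq_add, norm_neg, norm_mul, hs1, norm_ex, one_mul] at h1
    refine le_trans ?_ (ha1.trans h1)
    rw [div_le_div_iff₀ (by positivity) (by positivity)]
    have h2 : 1 ≤ (2 * M ^ 2 * E ^ 2 * μ) ^ 4 := one_le_pow₀ hc.le
    calc E * M = E * M * 1 := by ring
      _ ≤ E * M * (2 * M ^ 2 * E ^ 2 * μ) ^ 4 := by gcongr
      _ = _ := by ring

lemma small_div_neg (h : Dio M β) (hM : 1 ≤ M) (hE : 0 < EE β) (hE1 : EE β ≤ 1)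
    (hσ : 0 < σ) (hσ1 : σ ≤ 1) {s : ℂ} (j : ℤ) (hs : s = 1 ∨ s = -1) :
    ‖(s * ex β j + -1)⁻¹‖ ≤ 2 * M * (EE β)⁻¹ * σ⁻¹ * wt σ j := by
  have hw := wt_pos σ j
  by_cases hj : s = 1 ∧ j = 0
  · obtain ⟨rfl, rfl⟩ := hj
    rw [ex_zero]; simp only [mul_one, add_neg_cancel, inv_zero, norm_zero]; positivity
  have hl := h.lower hM hE1 (s := -s) (m := j) (by
    rcases hs with rfl | rfl
    · exact Or.inr ⟨rfl, fun h => hj ⟨rfl, h⟩⟩
    · exact Or.inl (by ring))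
  rw [show -s * ex β j + 1 = -(s * ex β j + -1) by ring, norm_neg] at hl
  rw [norm_inv]
  refine (inv_anti₀ (by positivity) hl).trans ?_
  have h1 := abs_le_wt hσ j
  have h2 := one_le_wt hσ.le j
  have h3 : 1 ≤ σ⁻¹ := (one_le_inv₀ hσ).mpr hσ1
  have h4 : |(j : ℝ)| + 1 ≤ 2 * σ⁻¹ * wt σ j := by nlinarith
  rw [inv_div, div_eq_mul_inv]
  calc M * (|(j : ℝ)| + 1) * (EE β)⁻¹ ≤ M * (2 * σ⁻¹ * wt σ j) * (EE β)⁻¹ := by gcongr
    _ = _ := by ring

end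

end Pool.Agent.Lib.MP_77fc3d_an
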