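import Pool.Agent.Lib.MP_77fc3d_an.Lame

/-! A single-valued flat section on the complement of the hexagonal lattice. -/

open Complex Filter Topology PeriodPair

namespace Pool.Agent.Lib.MP_77fc3d_an

open T5

variable {A' : K}

lemma sym_rfl {U : Set ℂ} (hU : IsOpen U) (hc : Convex ℝ U) {J : ℂ → Jet}
    (h : ∀ z ∈ U, FlatAt A' J z) (k l : ℂ) (hk : k * starRingEnd ℂ k = 1)
    (hp : ∀ z, k ^ 2 * ℘[LL] (k * starRingEnd ℂ z + l) = starRingEnd ℂ (℘[LL] z))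
    (hm : ∀ z ∈ U, k * starRingEnd ℂ z + l ∈ U) {z₀ : ℂ} (h0 : z₀ ∈ U)
    (hfix : k * starRingEnd ℂ z₀ + l = z₀) (hj : Jet.rfl' k (J z₀) = J z₀) :
    ∀ z ∈ U, Jet.rfl' k (J (k * starRingEnd ℂ z + l)) = J z :=
  flat_unique hU hc (fun z hz => (h _ (hm z hz)).rfl' hk (hp z)) h h0 (by rw [hfix, hj])

lemma sym_rot {U : Set ℂ} (hU : IsOpen U) (hc : Convex ℝ U) {J : ℂ → Jet}
    (h : ∀ z ∈ U, FlatAt A' J z) (k l : ℂ) (hk : k * starRingEnd ℂ k = 1)
    (hp : ∀ z, k ^ 2 * ℘[LL] (k * z + l) = ℘[LL] z)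
    (hm : ∀ z ∈ U, k * z + l ∈ U) {z₀ : ℂ} (h0 : z₀ ∈ U)
    (hfix : k * z₀ + l = z₀) (hj : Jet.rot k (J z₀) = J z₀) :
    ∀ z ∈ U, Jet.rot k (J (k * z + l)) = J z :=
  flat_unique hU hc (fun z hz => (h _ (hm z hz)).rot hk (hp z)) h h0 (by rw [hfix, hj])

/-- The jet reduces to `(1, 0, 0, 0)` modulo `t`. -/
def Jet.Nm (j : Jet) : Prop := j.a.c0 = 1 ∧ j.b.c0 = 0 ∧ j.c.c0 = 0 ∧ j.d.c0 = 0

lemma flat_nm {U : Set ℂ} (hU : IsOpen U) (hc : Convex ℝ U) {J : ℂ → Jet}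
    (h : ∀ z ∈ U, FlatAt A' J z) {z₀ : ℂ} (h0 : z₀ ∈ U) (hJ : (J z₀).Nm) :
    ∀ z ∈ U, (J z).Nm := by
  intro z hz
  have := flat_unique hU hc (fun w hw => (h w hw).lc (h w hw) (t ^ 4) 0)
    (fun w _ => flat_const w) h0 (by
      obtain ⟨h1, h2, h3, h4⟩ := hJ
      have e1 : t ^ 4 * ((J z₀).a - 1) = 0 := (t4_mul_eq_zero_iff _).mpr (by simp [h1])
      ext1 <;> simp only [Jet.lc, zero_mul, add_zero]
      · linear_combination e1
      · exact (t4_mul_eq_zero_iff _).mpr h2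
      · exact (t4_mul_eq_zero_iff _).mpr h3
      · exact (t4_mul_eq_zero_iff _).mpr h4) z hz
  simp only [Jet.lc, zero_mul, add_zero, Jet.mk.injEq] at this
  obtain ⟨h1, h2, h3, h4⟩ := this
  have e1 : t ^ 4 * ((J z).a - 1) = 0 := by linear_combination h1
  refine ⟨?_, (t4_mul_eq_zero_iff _).mp h2, (t4_mul_eq_zero_iff _).mp h3,
    (t4_mul_eq_zero_iff _).mp h4⟩
  have := (t4_mul_eq_zero_iff _).mp e1
  simpa [sub_eq_zero] using this

lemma flat_tr {J : ℂ → Jet} {z : ℂ} (m n : ℤ) (h : FlatAt A' J (z + (m + n * ζ))) :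
    FlatAt A' (fun w => J (w + (m + n * ζ))) z := by
  have := FlatAt.rot (k := 1) (l := m + n * ζ) (z := z) (J := J) (A' := A') (by simp)
    (by simp [wpL_add]) (by simpa using h)
  simpa [Jet.rot] using this

/-- The centre of the basic triangle. -/
noncomputable def oo : ℂ := ⟨1 / 2, √3 / 6⟩

def S0 : Set ℂ := {z | 0 < z.im} ∩ {z | z.im < √3 / 2}
def R0 : Set ℂ := ({z | 0 < z.re} ∩ {z | z.re < 1}) ∩ ({z | -(√3 / 2) < z.im} ∩ {z | z.im < √3 / 2})

lemma s3_gt : 1.7 < √3 := Real.lt_sqrt_of_sq_lt (by norm_num)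
lemma s3_lt : √3 < 1.8 := (Real.sqrt_lt' (by norm_num)).mpr (by norm_num)

lemma S0_open : IsOpen S0 :=
  (isOpen_lt continuous_const continuous_im).inter (isOpen_lt continuous_im continuous_const)
lemma S0_convex : Convex ℝ S0 := (convex_halfSpace_im_gt _).inter (convex_halfSpace_im_lt _)
lemma R0_open : IsOpen R0 :=
  ((isOpen_lt continuous_const continuous_re).inter (isOpen_lt continuous_re continuous_const)).inter
    ((isOpen_lt continuous_const continuous_im).inter (isOpen_lt continuous_im continuous_const))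
lemma R0_convex : Convex ℝ R0 := ((convex_halfSpace_re_gt _).inter (convex_halfSpace_re_lt _)).inter
  ((convex_halfSpace_im_gt _).inter (convex_halfSpace_im_lt _))

lemma mem_S0 {z : ℂ} : z ∈ S0 ↔ 0 < z.im ∧ z.im < √3 / 2 := Iff.rfl
lemma mem_R0 {z : ℂ} : z ∈ R0 ↔ (0 < z.re ∧ z.re < 1) ∧ (-(√3 / 2) < z.im ∧ z.im < √3 / 2) := Iff.rfl

lemma S0_free : ∀ z ∈ S0, z ∉ LL.lattice := fun z hz hl => by
  obtain ⟨m, n, rfl⟩ := mem_LL.mp hl
  simp [mem_S0, ζ_im] at hz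
  have h4 : n < 1 := by exact_mod_cast hz.2
  omega

lemma R0_free : ∀ z ∈ R0, z ∉ LL.lattice := fun z hz hl => by
  obtain ⟨m, n, rfl⟩ := mem_LL.mp hl
  simp [mem_R0, ζ_im, ζ_re] at hz
  have := s3_gt
  have h1 : (-1 : ℝ) < n := by
    by_contra h; push Not at h; nlinarith [hz.2.1]
  have h2 : (n : ℝ) < 1 := by
    by_contra h; push Not at h; nlinarith [hz.2.2]
  have h3 : -1 < n := by exact_mod_cast h1
  have h4 : n < 1 := by exact_mod_cast h2
  have h5 : n = 0 := by omega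
  subst h5
  have h6 := hz.1.1
  have h7 := hz.1.2
  simp at h6 h7
  have h8 : m < 1 := by exact_mod_cast h7
  omega

lemma oo_S : oo ∈ S0 := by simp only [mem_S0, oo]; constructor <;> linarith [s3_gt]
lemma oo_R : oo ∈ R0 := by
  simp only [mem_R0, oo]; refine ⟨⟨?_, ?_⟩, ?_, ?_⟩ <;> linarith [s3_gt]

lemma ball_R : ∀ z ∈ Metric.ball oo (1 / 2), z ∈ R0 := fun z hz => by
  rw [Metric.mem_ball, dist_eq_norm] at hz
  have h1 := abs_lt.mp ((abs_re_le_norm (z - oo)).trans_lt hz)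
  have h2 := abs_lt.mp ((abs_im_le_norm (z - oo)).trans_lt hz)
  simp only [sub_re, sub_im, oo] at h1 h2
  simp only [mem_R0]
  refine ⟨⟨?_, ?_⟩, ?_, ?_⟩ <;> linarith [s3_gt, h1.1, h1.2, h2.1, h2.2]

lemma exists_JR (hA : cj A' = A') : ∃ (γ : K) (J : ℂ → Jet), γ.c0 = 0 ∧ J oo = ⟨1, 0, 0, γ⟩ ∧
    (J (1 / 2)).b = 0 ∧ ∀ z ∈ R0, FlatAt A' J z := by
  obtain ⟨J1, h1, f1⟩ := exists_flat hA R0_open R0_convex R0_free oo ⟨1, 0, 0, 0⟩
  obtain ⟨J2, h2, f2⟩ := exists_flat hA R0_open R0_convex R0_free oo ⟨0, 0, 0, 1⟩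
  have hp : (1 / 2 : ℂ) ∈ R0 := by
    simp only [mem_R0]; norm_num
  have e1 := (flat_nm R0_open R0_convex f1 oo_R (by rw [h1]; simp [Jet.Nm]) _ hp).2.1
  have e2 := flat_unique R0_open R0_convex (fun w hw => (f2 w hw).lc (f2 w hw) (t ^ 4) 0)
    (fun w _ => flat_quad oo w) oo_R (by simp [h2, Jet.lc]) _ hp
  simp only [Jet.lc, zero_mul, add_zero, Jet.mk.injEq] at e2
  have e3 : t ^ 4 * ((J2 (1 / 2)).b - cj (C (1 / 2) - C oo)) = 0 := by linear_combination e2.2.1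
  have e4 := (t4_mul_eq_zero_iff _).mp e3
  have e5 : (J2 (1 / 2)).b.c0 ≠ 0 := by
    intro h
    rw [sub_c0, h] at e4
    have h' := congrArg Complex.im e4
    simp [cj, oo] at h'
  obtain ⟨y, hy, -⟩ := exists_inv (mul_inv_cancel₀ e5)
  refine ⟨-(J1 (1 / 2)).b * y, fun w => Jet.lc 1 (J1 w) (-(J1 (1 / 2)).b * y) (J2 w),
    by rw [mul_c0, neg_c0, e1]; simp,
    by simp [h1, h2, Jet.lc], ?_, fun z hz => (f1 z hz).lc (f2 z hz) _ _⟩
  simp only [Jet.lc]
  linear_combination (-(J1 (1 / 2)).b) * hy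

lemma hp_r2 (z : ℂ) :
    (-1) ^ 2 * ℘[LL] (-1 * starRingEnd ℂ z + 1) = starRingEnd ℂ (℘[LL] z) := by
  have := wpL_add (-starRingEnd ℂ z) 1 0
  simp only [weierstrassP_neg, wpL_conj] at this
  rw [← this]; simp

lemma exists_pair (hA : cj A' = A') : ∃ JR JS : ℂ → Jet, (∀ z ∈ R0, FlatAt A' JR z ∧ (JR z).Nm) ∧
    (∀ z ∈ S0, FlatAt A' JS z ∧ (JS z).Nm) ∧ (∀ z ∈ S0, JS (z + 1) = JS z) ∧
    (∀ z ∈ R0, 0 < z.im → JR z = JS z) ∧ (∀ z ∈ R0, z.im < 0 → JR z = JS (z + ζ)) := by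
  obtain ⟨γ, JR, hγ, ho, hb, fR⟩ := exists_JR hA
  obtain ⟨JS, ho', fS⟩ := exists_flat hA S0_open S0_convex S0_free oo ⟨1, 0, 0, γ⟩
  have s3 := s3_gt
  have s3' := s3_lt
  have hp : (1 / 2 : ℂ) ∈ R0 := by
    simp only [mem_R0]; norm_num
  have agree : ∀ z ∈ R0 ∩ S0, JR z = JS z :=
    flat_unique (R0_open.inter S0_open) (R0_convex.inter S0_convex) (fun z hz => fR z hz.1)
      (fun z hz => fS z hz.2) ⟨oo_R, oo_S⟩ (by rw [ho, ho'])
  have fix2 : -1 * starRingEnd ℂ oo + 1 = oo := by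
    apply Complex.ext <;> simp [oo]; norm_num
  have r2R := sym_rfl R0_open R0_convex fR (-1) 1 (by simp) hp_r2 (fun z hz => by
    simp only [mem_R0] at hz ⊢; simp; refine ⟨⟨?_, ?_⟩, ?_, ?_⟩ <;> linarith [hz.1.1, hz.1.2, hz.2.1, hz.2.2])
    oo_R fix2 (by rw [ho]; simp [Jet.rfl'])
  have r2S := sym_rfl S0_open S0_convex fS (-1) 1 (by simp) hp_r2 (fun z hz => by
    simp only [mem_S0] at hz ⊢; simpa using hz) oo_S fix2 (by rw [ho']; simp [Jet.rfl'])
  have hc : (JR (1 / 2)).c = 0 := by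
    have h1 := congrArg Jet.c (r2R _ hp)
    have h2 : -1 * starRingEnd ℂ (1 / 2 : ℂ) + 1 = 1 / 2 := by
      apply Complex.ext <;> simp; norm_num
    rw [h2] at h1
    simp only [Jet.rfl', hb, mul_zero] at h1
    exact h1.symm
  have cR := sym_rfl R0_open R0_convex fR 1 0 (by simp) (fun z => by simp [wpL_conj])
    (fun z hz => by
      simp only [mem_R0] at hz ⊢; simp
      refine ⟨⟨?_, ?_⟩, ?_, ?_⟩ <;> linarith [hz.1.1, hz.1.2, hz.2.1, hz.2.2])
    hp (by apply Complex.ext <;> simp) (by ext1 <;> simp only [Jet.rfl', hb, hc, mul_zero])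
  have hζ : ζ * starRingEnd ℂ ζ = 1 := by rw [ζ_conj]; linear_combination -ζ_sq
  have fix3 : ζ * starRingEnd ℂ oo + 0 = oo := by
    apply Complex.ext <;> simp [oo, ζ_re, ζ_im] <;> nlinarith [sq3]
  have r3 := sym_rfl Metric.isOpen_ball (convex_ball oo (1 / 2)) (fun z hz => fR z (ball_R z hz))
    ζ 0 hζ (fun z => by
      rw [add_zero, wpL_ζ, wpL_conj, ← mul_assoc, mul_inv_cancel₀ (pow_ne_zero 2 ζ_ne), one_mul])
    (fun z hz => by
      rw [Metric.mem_ball, dist_eq_norm] at hz ⊢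
      have h1 : ζ * starRingEnd ℂ z + 0 - oo = ζ * starRingEnd ℂ (z - oo) := by
        rw [map_sub]; linear_combination fix3
      have h2 : ‖ζ‖ = 1 := by
        have := congrArg norm hζ
        rw [norm_mul, RCLike.norm_conj, norm_one] at this
        nlinarith [norm_nonneg ζ]
      rwa [h1, norm_mul, h2, one_mul, RCLike.norm_conj])
    (Metric.mem_ball_self (by norm_num)) fix3 (by rw [ho]; simp [Jet.rfl'])
  have hpB : (1 / 2 : ℂ) ∈ Metric.ball oo (1 / 2) := by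
    rw [Metric.mem_ball, dist_eq_norm]
    have : (1 / 2 : ℂ) - oo = ((-(√3 / 6) : ℝ) : ℂ) * I := by apply Complex.ext <;> simp [oo]
    rw [this, norm_mul, norm_I, norm_real, Real.norm_eq_abs, abs_neg, abs_of_pos (by linarith)]
    linarith
  have hm : ζ * starRingEnd ℂ (1 / 2 : ℂ) + 0 = ζ / 2 := by
    apply Complex.ext <;> simp <;> ring
  have hmS : ζ / 2 ∈ S0 := by simp [mem_S0, ζ_im]
  have hmR : ζ / 2 ∈ R0 := by
    simp only [mem_R0]; simp [ζ_im, ζ_re]; refine ⟨by norm_num, ?_⟩; linarith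
  have e3 := r3 _ hpB
  rw [hm, agree _ ⟨hmR, hmS⟩] at e3
  have eζ := congrArg (C : ℂ →+* K) hζ
  simp only [map_mul, map_one] at eζ
  have mb : (JS (ζ / 2)).b = 0 := by
    have := congrArg Jet.c e3
    simp only [Jet.rfl', hc] at this
    linear_combination C (starRingEnd ℂ ζ) * this - (JS (ζ / 2)).b * eζ
  have mc : (JS (ζ / 2)).c = 0 := by
    have := congrArg Jet.b e3
    simp only [Jet.rfl', hb] at this
    linear_combination C ζ * this - (JS (ζ / 2)).c * eζ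
  have rho := sym_rot S0_open S0_convex fS (-1) ζ (by simp) (fun z => by
      have := wpL_add (-z) 0 1
      simp only [weierstrassP_neg] at this
      rw [← this]; simp)
    (fun z hz => by simp only [mem_S0] at hz ⊢; simp [ζ_im]; constructor <;> linarith [hz.1, hz.2])
    hmS (by ring) (by ext1 <;> simp [Jet.rot, mb, mc])
  have gl : ∀ z ∈ S0, JS z = Jet.rfl' 1 (JS (starRingEnd ℂ z + (ζ - 1))) := fun z hz => by
    have h1 := r2S z hz
    have hz' : -1 * starRingEnd ℂ z + 1 ∈ S0 := by simp only [mem_S0] at hz ⊢; simpa using hz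
    rw [← rho _ hz'] at h1
    have : -1 * (-1 * starRingEnd ℂ z + 1) + ζ = starRingEnd ℂ z + (ζ - 1) := by ring
    rw [this] at h1
    rw [← h1]
    ext1 <;> simp [Jet.rfl', Jet.rot]
  have glm : ∀ z ∈ S0, starRingEnd ℂ z + (ζ - 1) ∈ S0 := fun z hz => by
    simp only [mem_S0] at hz ⊢; simp [ζ_im]; constructor <;> linarith [hz.1, hz.2]
  have rr : ∀ j : Jet, Jet.rfl' 1 (Jet.rfl' 1 j) = j := fun j => by ext1 <;> simp [Jet.rfl']
  have per : ∀ z ∈ S0, JS (z + 1) = JS z := fun z hz => by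
    have hz1 : z + 1 ∈ S0 := by simp only [mem_S0] at hz ⊢; simpa using hz
    rw [gl _ hz1, gl _ (glm _ hz1), rr]
    congr 1
    simp [ζ_conj]
    ring
  refine ⟨JR, JS, fun z hz => ⟨fR z hz, flat_nm R0_open R0_convex fR oo_R
    (by rw [ho]; simp [Jet.Nm, hγ]) z hz⟩, fun z hz => ⟨fS z hz, flat_nm S0_open S0_convex fS oo_S
    (by rw [ho']; simp [Jet.Nm, hγ]) z hz⟩, per, fun z hz h => agree z ⟨hz, h, hz.2.2⟩,
    fun z hz h => ?_⟩
  have hz' := mem_R0.mp hz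
  have h1 : starRingEnd ℂ z ∈ S0 := by
    simp only [mem_S0]; simp; constructor <;> linarith [hz'.2.1]
  have h2 : starRingEnd ℂ z ∈ R0 := by
    simp only [mem_R0]; simp; refine ⟨hz'.1, ?_, ?_⟩ <;> linarith [hz'.2.1]
  have h3 := cR z hz
  rw [one_mul, add_zero, agree _ ⟨h2, h1⟩, gl _ h1, rr] at h3
  rw [← h3, ← per _ (glm _ h1)]
  congr 1
  rw [conj_conj]; ring

/-- Lattice coordinates. -/
noncomputable def cY (z : ℂ) : ℝ := z.im / (√3 / 2)
noncomputable def cX (z : ℂ) : ℝ := z.re - cY z / 2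

theorem exists_global (hA : cj A' = A') :
    ∃ J : ℂ → Jet, ∀ z ∉ LL.lattice, FlatAt A' J z ∧ (J z).Nm := by
  classical
  obtain ⟨JR, JS, hR, hS, per, up, dn⟩ := exists_pair hA
  have s3 := s3_gt
  have perZ : ∀ (n : ℤ), ∀ z ∈ S0, JS (z + n) = JS z := by
    intro n
    induction n using Int.induction_on with
    | zero => simp
    | succ n ih =>
      intro z hz
      have hz1 : z + n ∈ S0 := by simp only [mem_S0] at hz ⊢; simpa using hz
      rw [← ih z hz]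
      push_cast
      rw [← add_assoc, per _ hz1]
    | pred n ih =>
      intro z hz
      have hz1 : z + ((-n - 1 : ℤ) : ℂ) ∈ S0 := by simp only [mem_S0] at hz ⊢; simpa using hz
      rw [← ih z hz, ← per _ hz1]
      congr 1; push_cast; ring
  have hY : ∀ z : ℂ, z.im = cY z * (√3 / 2) := fun z => by unfold cY; field_simp
  have hYc : Continuous cY := by unfold cY; fun_prop
  let J : ℂ → Jet := fun z => if Int.fract (cY z) = 0 then
    JR (z + ((-⌊cX z⌋ : ℤ) + (-⌊cY z⌋ : ℤ) * ζ)) else JS (z + ((0 : ℤ) + (-⌊cY z⌋ : ℤ) * ζ))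
  have strip : ∀ (k : ℤ) (z : ℂ), k < cY z → cY z < k + 1 →
      z + ((0 : ℤ) + (-k : ℤ) * ζ) ∈ S0 ∧ J z = JS (z + ((0 : ℤ) + (-k : ℤ) * ζ)) := by
    intro k z h1 h2
    have hf : ⌊cY z⌋ = k := Int.floor_eq_iff.mpr ⟨h1.le, h2⟩
    refine ⟨?_, ?_⟩
    · simp only [mem_S0]; simp [ζ_im]; rw [hY z]; constructor <;> nlinarith
    · simp only [J]
      rw [if_neg (by rw [Int.fract, hf]; linarith), hf]
  refine ⟨J, fun z hz => ?_⟩
  by_cases h0 : Int.fract (cY z) = 0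
  · set k := ⌊cY z⌋ with hk
    set n := ⌊cX z⌋ with hn
    have hYk : cY z = k := by rw [Int.fract] at h0; linarith
    have hX1 : (n : ℝ) < cX z := by
      refine lt_of_le_of_ne (Int.floor_le _) fun h => hz (mem_LL.mpr ⟨n, k, ?_⟩)
      apply Complex.ext
      · simp [ζ_re]; rw [h, ← hYk, cX]; ring
      · simp [ζ_im]; rw [hY z, hYk]
    have hX2 : cX z < n + 1 := Int.lt_floor_add_one _
    have hre : ∀ w : ℂ, (w + ((-n : ℤ) + (-k : ℤ) * ζ)).re = w.re - n - k / 2 := fun w => by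
      simp [ζ_re]; ring
    have him : ∀ w : ℂ, (w + ((-n : ℤ) + (-k : ℤ) * ζ)).im = (cY w - k) * (√3 / 2) := fun w => by
      simp [ζ_im]; rw [hY w]; ring
    have hzR : z + ((-n : ℤ) + (-k : ℤ) * ζ) ∈ R0 := by
      rw [mem_R0, hre, him, hYk]
      unfold cX at hX1 hX2
      refine ⟨⟨?_, ?_⟩, ?_, ?_⟩ <;> linarith
    have hev : J =ᶠ[𝓝 z] fun w => JR (w + ((-n : ℤ) + (-k : ℤ) * ζ)) := by
      have : ∀ᶠ w in 𝓝 z, w + ((-n : ℤ) + (-k : ℤ) * ζ) ∈ R0 :=
        (continuous_add_const _).continuousAt.eventually (R0_open.mem_nhds hzR)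
      filter_upwards [this] with w hw
      have hw' := mem_R0.mp hw
      rw [hre, him] at hw'
      rcases lt_trichotomy (cY w) k with h | h | h
      · obtain ⟨e1, e2⟩ := strip (k - 1) w (by push_cast; nlinarith [hw'.2.1]) (by push_cast; linarith)
        rw [e2, dn _ hw (by rw [him]; nlinarith), ← perZ (-n) _ e1]
        congr 1; push_cast; ring
      · have hf : ⌊cY w⌋ = k := by rw [h]; simp
        have hf' : ⌊cX w⌋ = n := Int.floor_eq_iff.mpr (by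
          unfold cX; rw [h]; constructor <;> linarith [hw'.1.1, hw'.1.2])
        simp only [J]
        rw [if_pos (by rw [h]; simp), hf, hf']
      · obtain ⟨e1, e2⟩ := strip k w h (by nlinarith [hw'.2.2])
        rw [e2, up _ hw (by rw [him]; nlinarith), ← perZ (-n) _ e1]
        congr 1; push_cast; ring
    exact ⟨(flat_tr _ _ (hR _ hzR).1).ev hev, by rw [hev.eq_of_nhds]; exact (hR _ hzR).2⟩
  · set k := ⌊cY z⌋ with hk
    have h1 : (k : ℝ) < cY z := lt_of_le_of_ne (Int.floor_le _) fun h => h0 (by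
      rw [Int.fract, ← hk, h]; simp)
    have h2 : cY z < k + 1 := Int.lt_floor_add_one _
    have hev : J =ᶠ[𝓝 z] fun w => JS (w + ((0 : ℤ) + (-k : ℤ) * ζ)) := by
      filter_upwards [hYc.continuousAt.eventually (Ioo_mem_nhds h1 h2)] with w hw
      exact (strip k w hw.1 hw.2).2
    obtain ⟨e1, e2⟩ := strip k z h1 h2
    exact ⟨(flat_tr _ _ (hS _ e1).1).ev hev, by rw [e2]; exact (hS _ e1).2⟩

end Pool.Agent.Lib.MP_77fc3d_an
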