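import Pool.Agent.Lib.MP_77fc3d_an.Refl

/-! The normal form identity in an arbitrary differential ring. -/

namespace Pool.Agent.Lib.MP_77fc3d_an

open Refl

variable {S : Type} [CommRing S]

/-- The truncation of `sinh (ε X) / ε`, where `T = ε ^ 2 / 1260`. -/
def Sh (T : S) (X : S → S) (v : S) : S :=
  X v + 210 * T * X^[3] v + 13230 * T ^ 2 * X^[5] v + 396900 * T ^ 3 * X^[7] v +
    6945750 * T ^ 4 * X^[9] v

/-- The coefficient of the quadratic term of the normal form, divided by `T`. -/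
def Aq (T : S) : S := 420 - 926100 * T + 2498617800 * T ^ 2 - 7669149862500 * T ^ 3

lemma ev_fP (T U V : S) : evP T U V fP =
    1 + T * Aq T * (U * V) + 1496344752000 * T ^ 4 * (V ^ 3 - U ^ 3) ^ 2 * (U * V) := by
  simp only [fP, evP, evM, Aq]; push_cast; ring

lemma ev_efP (T U V : S) (hT : T ^ 5 = 0) : evP T U V efP =
    2 * T * Aq T * (U * V) + 8 * 1496344752000 * T ^ 4 * (V ^ 3 - U ^ 3) ^ 2 * (U * V) := by
  simp only [efP, ev_add, ev_mul T U V hT]
  simp only [fP, dU, dV, evP, evM, Aq]; push_cast; ring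

theorem normal_form (T U V : S) (hT : T ^ 5 = 0) (δ : Der S) (hd : δ.d T = 0) (f : S)
    (hf : f = 1 + T * Aq T * (U * V) + 1496344752000 * T ^ 4 * (V ^ 3 - U ^ 3) ^ 2 * (U * V))
    (hU : δ.d U = U * f + V ^ 2) (hV : δ.d V = V * f + U ^ 2) :
    ∃ u1 v1 τ1 Θ : S,
      Sh T (fun x => (1 + T * τ1) * δ.d x - x) (V + T * v1) = (U + T * u1) ^ 2 ∧
      Sh T (fun x => (1 + T * τ1) * δ.d x - x) (U + T * u1) = (V + T * v1) ^ 2 ∧
      (1 + T * τ1) * (2 * f + (2 * T * Aq T * (U * V) +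
        8 * 1496344752000 * T ^ 4 * (V ^ 3 - U ^ 3) ^ 2 * (U * V)) + δ.d Θ) = 2 := by
  have hsplit : ∀ (p : Pl), (∀ m ∈ p, 1 ≤ m.2.1) → ∀ U V : S, ∃ w, evP T U V p = T * w := by
    intro p hp U V
    induction p with
    | nil => exact ⟨0, by simp [evP]⟩
    | cons m l ih =>
      obtain ⟨w, hw⟩ := ih (fun n hn => hp n (List.mem_cons_of_mem _ hn))
      obtain ⟨k, hk⟩ := Nat.exists_eq_add_of_le (hp m List.mem_cons_self)
      exact ⟨(m.1 : S) * T ^ k * U ^ m.2.2.1 * V ^ m.2.2.2 + w, by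
        simp only [evP, evM, hw, hk]; ring⟩
  obtain ⟨u1, hu1⟩ := hsplit uP.tail (by decide) U V
  obtain ⟨v1, hv1⟩ := hsplit uP.tail (by decide) V U
  obtain ⟨τ1, hτ1⟩ := hsplit tauP.tail (by decide) U V
  have hu : evP T U V uP = U + T * u1 := by
    rw [← hu1]; simp [uP, evP, evM]
  have hv : evP T U V (swp uP) = V + T * v1 := by
    rw [ev_swp, ← hv1]; simp [uP, evP, evM]
  have hτ : evP T U V tauP = 1 + T * τ1 := by
    rw [← hτ1]; simp [tauP, evP, evM]
  have hpU : evP T U V pU = δ.d U := by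
    simp only [pU, ev_add, ev_mul T U V hT, ev_fP, hU, hf]; simp [evP, evM]
  have hpV : evP T U V pV = δ.d V := by
    simp only [pV, ev_add, ev_mul T U V hT, ev_fP, hV, hf]; simp [evP, evM]
  have hqU : evP T U V qU = (1 + T * τ1) * δ.d U := by
    simp only [qU, ev_cln, ev_mul T U V hT, hτ, hpU]
  have hqV : evP T U V qV = (1 + T * τ1) * δ.d V := by
    simp only [qV, ev_cln, ev_mul T U V hT, hτ, hpV]
  generalize hX : (fun x => (1 + T * τ1) * δ.d x - x) = X
  have hd1 : ∀ p, evP T U V (d1 qU qV p) = X (evP T U V p) := by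
    intro p
    simp only [d1, ev_cln, ev_add, ev_mul T U V hT, ev_sc, hqU, hqV, ← hX, ev_d T U V δ hd]
    push_cast; ring
  have hXT : ∀ x, X (T * x) = T * X x := by
    intro x; simp only [← hX, δ.d_const_mul hd]; ring
  have hnx : ∀ p, evP T U V (nx qU qV p) = T * X (X (evP T U V p)) := by
    intro p
    simp only [nx, hd1, ev_mul T U V hT]
    have : evP T U V [(1, 1, 0, 0)] = T := by simp [evP, evM]
    rw [this, hXT, hXT]
  have hchk : ∀ v u, chk qU qV v u = [] → Sh T X (evP T U V v) = evP T U V u ^ 2 := by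
    intro v u h
    have h0 := congrArg (evP T U V) h
    simp only [chk, ev_cln, ev_add, ev_sc, ev_mul T U V hT, hnx, hd1, hXT, evP] at h0
    simp only [Sh, Function.iterate_succ, Function.comp, Function.iterate_zero, id]
    push_cast at h0
    linear_combination h0
  refine ⟨u1, v1, τ1, evP T U V thP, ?_, ?_, ?_⟩
  · rw [hX, ← hu, ← hv]; exact hchk _ _ chk_v
  · rw [hX, ← hu, ← hv]; exact hchk _ _ chk_u
  · have h0 := congrArg (evP T U V) chk2_eq
    simp only [chk2, ev_cln, ev_add, ev_sc, ev_mul T U V hT, hτ, hpU, hpV, ev_efP T U V hT,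
      ev_fP] at h0
    rw [ev_d T U V δ hd, hf]
    simp only [evP, evM] at h0
    push_cast at h0
    linear_combination h0

end Pool.Agent.Lib.MP_77fc3d_an
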