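import Pool.Agent.Lib.MP_77fc3d_an.Ann
import Pool.Agent.Lib.MP_77fc3d_an.LameG
import Pool.Agent.Lib.MP_77fc3d_an.NF

/-! Truncated power series with analytic coefficients. -/

open Real Filter Topology MeasureTheory PeriodPair

namespace Pool.Agent.Lib.MP_77fc3d_an

open T5 Refl

abbrev S := T5 An

lemma t5S : (t : S) ^ 5 = 0 := t_pow_five

/-- The coefficientwise derivation. -/
noncomputable def DS : Der S where
  d := mapA D.d
  leib x y := by ext <;> simp [D.leib] <;> ring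

lemma DS_c0 (x : S) : (DS.d x).c0 = D.d x.c0 := rfl
lemma DS_C (a : An) : DS.d (C a) = C (D.d a) := by ext <;> simp [DS]
lemma DS_t : DS.d t = 0 := by ext <;> simp [DS, D.d_one]

/-- Scalars. -/
noncomputable def ι : K →+* S := T5.map κ

lemma ι_t : ι t = t := map_t _
lemma ι_C (c : ℂ) : ι (C c) = C (κ c) := map_C _ _
lemma ι_c0 (k : K) : (ι k).c0 = κ k.c0 := rfl
lemma DS_ι (k : K) : DS.d (ι k) = 0 := by ext <;> simp [DS, ι, D_κ]

/-- Fourier coefficient as an additive map. -/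
noncomputable def cfA (j : ℤ) : An →+ ℂ where
  toFun f := cf f j
  map_zero' := cf_zero j
  map_add' f g := cf_add f g j

@[simp] lemma cfA_apply (j : ℤ) (f : An) : cfA j f = cf f j := rfl

/-- Coefficientwise Fourier coefficient. -/
noncomputable def cfS (j : ℤ) : S →+ K := mapA (cfA j)

lemma cfS_D (j : ℤ) (x : S) : cfS j (DS.d x) = C (j : ℂ) * cfS j x := by
  ext <;> simp [cfS, DS, -map_intCast]

lemma cfS_ι (j : ℤ) (k : K) (x : S) : cfS j (ι k * x) = k * cfS j x := by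
  ext <;> simp [cfS, ι]

lemma cfS_one : cfS 0 1 = 1 := by ext <;> simp [cfS, cf_one]

lemma cfS_C (j : ℤ) (a : An) : cfS j (C a) = C (cf a j) := by ext <;> simp [cfS]

lemma cfS_D0 (x : S) : cfS 0 (DS.d x) = 0 := by simp [cfS_D]

/-- Coefficientwise primitive. -/
noncomputable def DinvS (x : S) : S := ⟨Dinv x.c0, Dinv x.c1, Dinv x.c2, Dinv x.c3, Dinv x.c4⟩

lemma D_DinvS (x : S) : DS.d (DinvS x) = x - ι (cfS 0 x) := by
  ext <;> simp [DS, DinvS, D_Dinv, ι, cfS]

lemma Dinv_zero : Dinv 0 = 0 := An.ext_cf fun n => by simp [Dinv, cf_op subExp_inv]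

/-- Evaluation at a real point. -/
noncomputable def evS (x : ℝ) : S →+* K := T5.map (evR x)

lemma evS_t (x : ℝ) : evS x t = t := map_t _
lemma evS_C (x : ℝ) (a : An) : evS x (C a) = C (evR x a) := map_C _ _

lemma evS_eq (x : ℝ) (a : S) : evS x a = evR x a.c0 • (1 : K) + evR x a.c1 • t +
    evR x a.c2 • t ^ 2 + evR x a.c3 • t ^ 3 + evR x a.c4 • t ^ 4 := by
  ext <;> simp [evS, smul_eq, pow_succ]

lemma hasDerivAt_evS (a : S) (x : ℝ) :
    HasDerivAt (fun y => evS y a) (C (2 * π * Complex.I) * evS x (DS.d a)) x := by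
  have := (((((hasDerivAt_evR a.c0 x).smul_const (1 : K)).fun_add
    ((hasDerivAt_evR a.c1 x).smul_const (t : K))).fun_add
    ((hasDerivAt_evR a.c2 x).smul_const (t ^ 2 : K))).fun_add
    ((hasDerivAt_evR a.c3 x).smul_const (t ^ 3 : K))).fun_add
    ((hasDerivAt_evR a.c4 x).smul_const (t ^ 4 : K))
  simp only [← evS_eq] at this
  refine this.congr_deriv ?_
  ext <;> simp [evS, DS, smul_eq, pow_succ]

lemma continuous_evS (a : S) : Continuous fun x => evS x a :=
  continuous_iff_continuousAt.mpr fun x => (hasDerivAt_evS a x).continuousAt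

lemma integral_evS (a : S) : ∫ x in (0 : ℝ)..1, evS x a = cfS 0 a := by
  have h : ∀ (f : An) (k : K), IntervalIntegrable (fun x => evR x f • k) volume 0 1 := fun f k =>
    ((continuous_evR f).smul continuous_const).intervalIntegrable _ _
  have h' : ∀ f : An, ∫ x in (0 : ℝ)..1, evR x f = cf f 0 := fun f => by simp [cf_eq_integral]
  simp only [evS_eq]
  rw [intervalIntegral.integral_add ((((h _ _).add (h _ _)).add (h _ _)).add (h _ _)) (h _ _),
    intervalIntegral.integral_add (((h _ _).add (h _ _)).add (h _ _)) (h _ _),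
    intervalIntegral.integral_add ((h _ _).add (h _ _)) (h _ _),
    intervalIntegral.integral_add (h _ _) (h _ _)]
  simp only [intervalIntegral.integral_smul_const, h']
  ext <;> simp [cfS, smul_eq, pow_succ]

/-- The right-hand side of the normal form, minus one and divided by `t`. -/
def phi {A : Type} [CommRing A] (T P H ρ : A) : A :=
  Aq T * P * ρ ^ 2 + 1496344752000 * T ^ 3 * H ^ 2 * P * ρ ^ 8

lemma natc0 (n : ℕ) [n.AtLeastTwo] {A : Type} [CommRing A] :
    (OfNat.ofNat n : T5 A).c0 = OfNat.ofNat n := map_ofNat c0H n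

lemma Aq_c0 {A : Type} [CommRing A] : (Aq (t : T5 A)).c0 = 420 := by
  have : c0H (Aq (t : T5 A)) = 420 := by
    simp only [Aq, map_sub, map_add, map_mul, map_pow, map_ofNat, c0H_apply, t_c0]; ring
  exact this

lemma exists_rho (s P H : An) (hs : D.d s = s) (h2 : cf (s ^ 2 * P) 0 = 11)
    (h3 : cf (s ^ 3 * P) 0 = 0) :
    ∃ ρ : S, ρ.c0 = s ∧ DS.d ρ = C s * (1 + t * phi t (C P) (C H) ρ) := by
  have key : ∀ n : ℕ, ∃ ρ e : S, ρ.c0 = s ∧
      DS.d ρ - C s * (1 + t * phi t (C P) (C H) ρ) = t ^ (n + 1) * e ∧ cf e.c0 0 = 0 := by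
    intro n
    induction n with
    | zero =>
      refine ⟨C s, -(C s * phi t (C P) (C H) (C s)), rfl, by rw [DS_C, hs]; ring, ?_⟩
      have : (-(C s * phi t (C P) (C H) (C s))).c0 = κ (-420) * (s ^ 3 * P) := by
        simp only [phi, neg_c0, mul_c0, add_c0, pow_c0, C_c0, Aq_c0, t_c0, map_neg, map_ofNat]
        ring
      rw [this, cf_κ_mul, h3, mul_zero]
    | succ n ih =>
      obtain ⟨ρ, e, h0, hE, hm⟩ := ih
      obtain ⟨γ, hγ⟩ : ∃ γ : ℂ, γ * (840 * 11) = cf (e.c1 + κ 840 * (Dinv e.c0 * s ^ 2 * P)) 0 :=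
        ⟨_, div_mul_cancel₀ _ (by norm_num)⟩
      have hD : D.d (κ γ - Dinv e.c0) = -e.c0 := by
        rw [map_sub, D_κ, D_Dinv, hm]; simp
      generalize hw : κ γ - Dinv e.c0 = w at hD
      generalize hρ' : ρ + t ^ (n + 1) * C w = ρ'
      have h0' : ρ'.c0 = s := by rw [← hρ']; simp [h0]
      refine ⟨ρ', T5.sh e - C s * C w * (Aq t * C P * (ρ' + ρ) + 1496344752000 * t ^ 3 * C H ^ 2 * C P *
        (ρ' ^ 7 + ρ' ^ 6 * ρ + ρ' ^ 5 * ρ ^ 2 + ρ' ^ 4 * ρ ^ 3 + ρ' ^ 3 * ρ ^ 4 + ρ' ^ 2 * ρ ^ 5 +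
          ρ' * ρ ^ 6 + ρ ^ 7)), h0', ?_, ?_⟩
      · have e1 : DS.d ρ' = DS.d ρ - t ^ (n + 1) * C e.c0 := by
          rw [← hρ', map_add, DS.d_const_mul (by rw [DS.d_pow, DS_t, mul_zero]), DS_C, hD, map_neg]
          ring
        have e2 := eq_C_add_t_mul e
        have e3 : t ^ (n + 1) * C w = ρ' - ρ := by rw [← hρ']; ring
        rw [e1]
        simp only [phi] at hE ⊢
        linear_combination hE + t ^ (n + 1) * e2 + (t * C s * (Aq t * C P * (ρ' + ρ) +
          1496344752000 * t ^ 3 * C H ^ 2 * C P *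
        (ρ' ^ 7 + ρ' ^ 6 * ρ + ρ' ^ 5 * ρ ^ 2 + ρ' ^ 4 * ρ ^ 3 + ρ' ^ 3 * ρ ^ 4 + ρ' ^ 2 * ρ ^ 5 +
          ρ' * ρ ^ 6 + ρ ^ 7))) * e3
      · simp only [sub_c0, mul_c0, add_c0, pow_c0, C_c0, Aq_c0, t_c0, h0, h0', T5.sh, ← hw]
        have : e.c1 - s * (κ γ - Dinv e.c0) * (420 * P * (s + s) +
            (1496344752000 : S).c0 * 0 ^ 3 * H ^ 2 * P * (s ^ 7 + s ^ 6 * s + s ^ 5 * s ^ 2 +
              s ^ 4 * s ^ 3 + s ^ 3 * s ^ 4 + s ^ 2 * s ^ 5 + s * s ^ 6 + s ^ 7)) =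
            (e.c1 + κ 840 * (Dinv e.c0 * s ^ 2 * P)) - κ (γ * 840) * (s ^ 2 * P) := by
          simp only [map_mul, map_ofNat]; ring
        rw [this, cf_sub, cf_κ_mul, h2, ← hγ]; ring
  obtain ⟨ρ, e, h0, hE, -⟩ := key 4
  exact ⟨ρ, h0, by rw [t5S, zero_mul] at hE; exact sub_eq_zero.mp hE⟩

lemma mul_four {A : Type} [CommRing A] {x y : T5 A} (hx : x.c0 = 0) (hy : y.c0 = 0) :
    x * y ^ 4 = 0 := by
  rw [eq_t_mul_of_c0 hx, eq_t_mul_of_c0 hy]
  linear_combination (T5.sh x * T5.sh y ^ 4) * (t_pow_five (A := A))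

lemma cancel12 {x : K} (h : 12 * x = 0) : x = 0 := by
  have : (C (1 / 12 : ℂ) : K) * 12 = 1 := by
    rw [← map_ofNat (C : ℂ →+* K) 12, ← map_mul]; norm_num
  linear_combination C (1 / 12 : ℂ) * h - x * this

lemma mean_logD {s si : An} (hs : D.d s = s) (hi : s * si = 1) {ρ ρi : S} (h0 : ρ.c0 = s)
    (hρ : ρ * ρi = 1) : cfS 0 (DS.d ρ * ρi) = 1 := by
  have hi' : (C s : S) * C si = 1 := by rw [← map_mul, hi, map_one]
  have hy0 : (C si * ρ - 1).c0 = 0 := by simp [h0, mul_comm si, hi]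
  generalize hy : C si * ρ - 1 = y at hy0
  have e1 : ρ = C s * (1 + y) := by rw [← hy]; linear_combination (-ρ) * hi'
  have e2 : DS.d ρ = C s * DS.d y + (1 + y) * C s := by
    rw [e1, DS.leib, map_add, DS.d_one, zero_add, DS_C, hs]
  have e3 := mul_four (x := DS.d y) (by rw [DS_c0, hy0, map_zero]) hy0
  have e4 : DS.d (12 * y - 6 * y ^ 2 + 4 * y ^ 3 - 3 * y ^ 4) =
      12 * DS.d y * (1 - y + y ^ 2 - y ^ 3) := by
    have c : ∀ n : ℕ, DS.d (n : S) = 0 := fun n => by simpa using DS.d_int n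
    simp only [map_sub, map_add, DS.d_const_mul (c 12), DS.d_const_mul (c 6),
      DS.d_const_mul (c 4), DS.d_const_mul (c 3), DS.leib, DS.d_pow,
      show DS.d (12 : S) = 0 from c 12, show DS.d (6 : S) = 0 from c 6,
      show DS.d (4 : S) = 0 from c 4, show DS.d (3 : S) = 0 from c 3]
    push_cast; ring
  have e5 : ι 12 * (DS.d ρ * ρi - 1) = DS.d (12 * y - 6 * y ^ 2 + 4 * y ^ 3 - 3 * y ^ 4) := by
    rw [e4, e2, map_ofNat]
    rw [e1] at hρ
    linear_combination (12 + 12 * DS.d y * (1 - y + y ^ 2 - y ^ 3)) * hρ + 12 * C s * ρi * e3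
  have e6 := congrArg (cfS 0) e5
  rw [cfS_ι, cfS_D0, map_sub, cfS_one] at e6
  exact sub_eq_zero.mp (cancel12 e6)

lemma Aq_map {A B : Type} [CommRing A] [CommRing B] (f : A →+* B) (T : A) : f (Aq T) = Aq (f T) := by
  simp only [Aq, map_sub, map_add, map_mul, map_pow, map_ofNat]

lemma int_cmul (c : K) {f : ℝ → K} (hf : Continuous f) :
    ∫ x in (0 : ℝ)..1, c * f x = c * ∫ x in (0 : ℝ)..1, f x :=
  (ContinuousLinearMap.mul ℝ K c).intervalIntegral_comp_comm (hf.intervalIntegrable 0 1)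

lemma lame_real {P H : An} (hP : ∀ x, evR x P = ℘[LL] (cz cc rr x)) {ρ : S}
    (hρ : DS.d ρ = C (κ rr * em 1) * (1 + t * phi t (C P) (C H) ρ)) :
    cj (cfS 0 (C (κ rr * em 1) * (t * Aq t) * C P * ρ)) =
      cfS 0 (C (κ rr * em 1) * (t * Aq t) * C P * ρ) := by
  have hA : cj (Aq t) = Aq t := by rw [Aq_map, cj_t]
  obtain ⟨J, hJ⟩ := exists_global hA
  have hs : ∀ x, evR x (κ rr * em 1) = cz cc rr x - cc := fun x => by simp [evR_em, cz]
  generalize hb : C (κ rr * em 1) * (t * Aq t) * C P * ρ = b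
  let y : ℝ → K := fun x => (J (cz cc rr x)).a - evS x ρ * (J (cz cc rr x)).b -
    cj (evS x ρ) * (J (cz cc rr x)).c + evS x ρ * cj (evS x ρ) * (J (cz cc rr x)).d - 1
  let q : ℝ → K := fun x => C (2 * π * Complex.I) * evS x b + cj (C (2 * π * Complex.I) * evS x b)
  have hb0 : b.c0 = 0 := by rw [← hb]; simp
  have hq0 : ∀ x, (q x).c0 = 0 := fun x => by simp [q, cj, evS, hb0]
  have hy0 : ∀ x, (y x).c0 = 0 := fun x => by
    obtain ⟨h1, h2, h3, h4⟩ := (hJ _ (cz_free x)).2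
    simp [y, h1, h2, h3, h4]
  have hd : ∀ x, HasDerivAt y (q x * (1 + y x)) x := by
    intro x
    obtain ⟨hF, -, n2, n3, n4⟩ := hJ _ (cz_free x)
    have m2 := (t4_mul_eq_zero_iff _).mpr n2
    have m3 := (t4_mul_eq_zero_iff _).mpr n3
    have m4 := (t4_mul_eq_zero_iff _).mpr n4
    have hz := hasDerivAt_cz cc rr x
    have r1 := hasDerivAt_evS ρ x
    have r2 : HasDerivAt (fun y => cj (evS y ρ)) (cj (C (2 * π * Complex.I) * evS x (DS.d ρ))) x :=
      cjL.hasFDerivAt.comp_hasDerivAt x r1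
    have := ((((hF.h1.path hz).fun_sub (r1.fun_mul (hF.h2.path hz))).fun_sub
      (r2.fun_mul (hF.h3.path hz))).fun_add ((r1.fun_mul r2).fun_mul (hF.h4.path hz))).sub_const 1
    refine this.congr_deriv ?_
    simp only [q, y, ← hb, hρ, phi, map_mul (evS x), map_add (evS x), map_pow (evS x), map_one,
      map_ofNat, Aq_map, evS_t, evS_C, hP, hs]
    simp only [map_mul cj, map_add cj, map_pow cj, map_one, map_ofNat, cj_t, hA, cj_C]
    simp only [map_mul (starRingEnd ℂ) (2 * π * Complex.I), map_mul C (2 * π * Complex.I : ℂ),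
      map_mul C (starRingEnd ℂ (2 * π * Complex.I))]
    generalize J (cz cc rr x) = j at *
    generalize (C (2 * π * Complex.I) : K) = c1
    generalize (C (starRingEnd ℂ (2 * π * Complex.I)) : K) = c2
    generalize (C (cz cc rr x - cc) : K) = s1
    generalize (C (starRingEnd ℂ (cz cc rr x - cc)) : K) = s2
    generalize (C (℘[LL] (cz cc rr x)) : K) = p1
    generalize (C (starRingEnd ℂ (℘[LL] (cz cc rr x))) : K) = p2
    generalize (C (evR x H) : K) = h1
    generalize (C (starRingEnd ℂ (evR x H)) : K) = h2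
    generalize cj (evS x ρ) = ρ2
    generalize evS x ρ = ρ1
    linear_combination (-(c1 * s1 * 1496344752000 * h1 ^ 2 * p1 * ρ1 ^ 8)) * m2 +
      (-(c2 * s2 * 1496344752000 * h2 ^ 2 * p2 * ρ2 ^ 8)) * m3 +
      (c1 * s1 * 1496344752000 * h1 ^ 2 * p1 * ρ1 ^ 8 * ρ2 +
        c2 * s2 * 1496344752000 * h2 ^ 2 * p2 * ρ2 ^ 8 * ρ1) * m4
  have hL : ∀ x, HasDerivAt (fun x => 12 * y x - 6 * y x ^ 2 + 4 * y x ^ 3 - 3 * y x ^ 4)
      (12 * q x) x := by
    intro x
    have := ((((hd x).const_mul 12).fun_sub (((hd x).fun_pow 2).const_mul 6)).fun_add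
      (((hd x).fun_pow 3).const_mul 4)).fun_sub (((hd x).fun_pow 4).const_mul 3)
    refine this.congr_deriv ?_
    have e := mul_four (hq0 x) (hy0 x)
    push_cast
    linear_combination (-12) * e
  have c1 : Continuous fun x => C (2 * π * Complex.I) * evS x b :=
    continuous_const.mul (continuous_evS b)
  have c2 : Continuous fun x => cj (C (2 * π * Complex.I) * evS x b) := cjL.continuous.comp c1
  have hint := intervalIntegral.integral_eq_sub_of_hasDerivAt (a := 0) (b := 1)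
    (fun x _ => hL x) ((continuous_const.mul (c1.add c2)).intervalIntegrable _ _)
  have hper : y 1 = y 0 := by
    have e1 : cz cc rr 1 = cz cc rr 0 := by simp [cz]
    have e2 : evS 1 ρ = evS 0 ρ := by
      have : ∀ f, evR 1 f = evR 0 f := fun f => by simpa using evR_periodic 0 f
      ext <;> simp [evS, this]
    simp only [y, e1, e2]
  rw [hper, sub_self, int_cmul 12 (f := q) (c1.add c2)] at hint
  have h2 := cancel12 hint
  simp only [q] at h2
  rw [intervalIntegral.integral_add (c1.intervalIntegrable _ _) (c2.intervalIntegrable _ _)] at h2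
  have h3 := cjL.intervalIntegral_comp_comm (c1.intervalIntegrable (μ := volume) 0 1)
  simp only [cjL_apply] at h3
  rw [h3, int_cmul _ (continuous_evS b), integral_evS, map_mul cj, cj_C] at h2
  have h4 : starRingEnd ℂ (2 * π * Complex.I) = -(2 * π * Complex.I) := by
    simp only [map_mul, Complex.conj_I, Complex.conj_ofReal, map_ofNat]; ring
  have h5 : (C (2 * π * Complex.I : ℂ)⁻¹ : K) * C (2 * π * Complex.I) = 1 := by
    rw [← map_mul, inv_mul_cancel₀ (by simp [pi_ne_zero]), map_one]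
  rw [h4, map_neg] at h2
  linear_combination (-C (2 * π * Complex.I : ℂ)⁻¹) * h2 + (cfS 0 b - cj (cfS 0 b)) * h5

end Pool.Agent.Lib.MP_77fc3d_an
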