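import Pool.Agent.Lib.MP_77fc3d_an.Main

/-! Small divisors with an arbitrary Diophantine exponent. -/

open Real Filter Topology

namespace Pool.Agent.Lib.MP_77fc3d_an.H2

/-- The Diophantine condition with exponent `n`. -/
def DioT (n : ℕ) (M β : ℝ) : Prop :=
  ∀ j : ℤ, j ≠ 0 → EE β / (M * |(j : ℝ)| ^ n) ≤ ‖ex β j - 1‖ ∧
    EE β / (M * |(j : ℝ)| ^ n) ≤ ‖ex β j + 1‖

lemma DioT.mono {n : ℕ} {M M' β : ℝ} (h : DioT n M β) (hM : 0 < M) (hM' : M ≤ M') :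
    DioT n M' β := fun j hj => by
  have hj' : 0 < |(j : ℝ)| := abs_pos.mpr (by exact_mod_cast hj)
  have : EE β / (M' * |(j : ℝ)| ^ n) ≤ EE β / (M * |(j : ℝ)| ^ n) := by
    unfold EE; gcongr
  exact ⟨this.trans (h j hj).1, this.trans (h j hj).2⟩

lemma dioT_of {n : ℕ} {ϑ γ : ℝ} (hγ : 0 < γ)
    (h : ∀ q p : ℤ, q ≠ 0 → γ / |(q : ℝ)| ^ n ≤ |q * ϑ - p|) :
    ∃ M ≥ 1, ∀ k : ℕ, 1 ≤ k → DioT n M (ϑ / (2 * k)) := by
  refine ⟨π * |ϑ| / γ + 1, by have : 0 ≤ π * |ϑ| / γ := by positivity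
                              linarith, fun k hk j hj => ?_⟩
  have hk0 : (0 : ℝ) < k := by exact_mod_cast hk
  have hj' : 0 < |(j : ℝ)| ^ n := pow_pos (abs_pos.mpr (by exact_mod_cast hj)) n
  have h1 := four_mul_le_norm_exp (j * ϑ / k)
  have h2 := h j (round (j * ϑ / k) * k) hj
  have e1 : (j : ℝ) * ϑ - ((round (j * ϑ / k) * k : ℤ) : ℝ) = (j * ϑ / k - round (j * ϑ / k)) * k := by
    push_cast; field_simp
  rw [e1, abs_mul, abs_of_pos hk0] at h2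
  have e2 : Complex.exp (2 * π * Complex.I * ((j * ϑ / k : ℝ) : ℂ)) - 1 =
      (ex (ϑ / (2 * k)) j - 1) * (ex (ϑ / (2 * k)) j + 1) := by
    have : (k : ℂ) ≠ 0 := by exact_mod_cast hk0.ne'
    have : Complex.exp (2 * π * Complex.I * ((j * ϑ / k : ℝ) : ℂ)) =
        ex (ϑ / (2 * k)) j * ex (ϑ / (2 * k)) j := by
      unfold ex; rw [← Complex.exp_add]; congr 1; push_cast; field_simp; ring
    rw [this]; ring
  rw [e2, norm_mul] at h1
  have n1 : ‖ex (ϑ / (2 * k)) j - 1‖ ≤ 2 := (norm_sub_le _ _).trans (by rw [norm_ex]; norm_num)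
  have n2 : ‖ex (ϑ / (2 * k)) j + 1‖ ≤ 2 := (norm_add_le _ _).trans (by rw [norm_ex]; norm_num)
  generalize |(j : ℝ)| ^ n = J at hj' h2 ⊢
  have h3 : EE (ϑ / (2 * k)) / ((π * |ϑ| / γ + 1) * J) ≤ γ / J / k := by
    unfold EE
    rw [abs_div, abs_of_pos (by positivity : (0 : ℝ) < 2 * k), div_le_div_iff₀ (by positivity) hk0]
    have : γ / J * ((π * |ϑ| / γ + 1) * J) = π * |ϑ| + γ := by field_simp
    rw [this, show 2 * π * (|ϑ| / (2 * k)) * k = π * |ϑ| by field_simp]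
    linarith
  have h4 : γ / J / k ≤ |j * ϑ / k - round (j * ϑ / k)| := by rwa [div_le_iff₀ hk0]
  have := norm_nonneg (ex (ϑ / (2 * k)) j - 1)
  have := norm_nonneg (ex (ϑ / (2 * k)) j + 1)
  constructor <;> nlinarith

section

variable {n : ℕ} {M β σ : ℝ}

lemma DioT.ne (h : DioT n M β) (hM : 1 ≤ M) (hE : 0 < EE β) {j : ℤ} (hj : j ≠ 0) :
    ex β j - 1 ≠ 0 ∧ ex β j + 1 ≠ 0 := by
  have hj' : 0 < |(j : ℝ)| := abs_pos.mpr (by exact_mod_cast hj)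
  have : 0 < EE β / (M * |(j : ℝ)| ^ n) := by positivity
  exact ⟨norm_pos_iff.mp (this.trans_le (h j hj).1), norm_pos_iff.mp (this.trans_le (h j hj).2)⟩

lemma DioT.sd (h : DioT n M β) (hM : 1 ≤ M) (hE : 0 < EE β) (hE1 : EE β ≤ 1)
    (hσ : 0 < σ) (hσ1 : σ ≤ 1) (j : ℤ) :
    ‖(ex β j + -1)⁻¹‖ ≤ n.factorial * M * (EE β)⁻¹ * σ⁻¹ ^ n * wt σ j ∧
    ‖(-ex β j + -1)⁻¹‖ ≤ n.factorial * M * (EE β)⁻¹ * σ⁻¹ ^ n * wt σ j := by
  have hw := one_le_wt hσ.le j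
  have h1 : (1 : ℝ) ≤ n.factorial := by exact_mod_cast n.factorial_pos
  have h2 : 1 ≤ (EE β)⁻¹ := (one_le_inv₀ hE).mpr hE1
  have h3 : 1 ≤ σ⁻¹ ^ n := one_le_pow₀ ((one_le_inv₀ hσ).mpr hσ1)
  by_cases hj : j = 0
  · subst hj
    have : (1 : ℝ) * 1 * 1 * 1 * 1 ≤ n.factorial * M * (EE β)⁻¹ * σ⁻¹ ^ n * wt σ 0 := by gcongr
    rw [ex_zero]
    generalize n.factorial * M * (EE β)⁻¹ * σ⁻¹ ^ n * wt σ 0 = K at this
    constructor <;> norm_num <;> linarith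
  · have hj' : 0 < |(j : ℝ)| := abs_pos.mpr (by exact_mod_cast hj)
    have h4 := pow_le_wt hσ n j
    have h5 : (EE β / (M * |(j : ℝ)| ^ n))⁻¹ ≤ n.factorial * M * (EE β)⁻¹ * σ⁻¹ ^ n * wt σ j := by
      rw [inv_div, div_eq_mul_inv]
      calc M * |(j : ℝ)| ^ n * (EE β)⁻¹ ≤ M * (n.factorial * σ⁻¹ ^ n * wt σ j) * (EE β)⁻¹ := by gcongr
        _ = _ := by ring
    constructor
    · rw [norm_inv, ← sub_eq_add_neg]
      exact (inv_anti₀ (by positivity) (h j hj).1).trans h5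
    · rw [norm_inv, ← neg_add, norm_neg]
      exact (inv_anti₀ (by positivity) (h j hj).2).trans h5

lemma DioT.se (h : DioT n M β) (hM : 1 ≤ M) (hE : 0 < EE β) (hE1 : EE β ≤ 1) :
    (SubExp fun j => (ex β j + -1)⁻¹) ∧ SubExp fun j => (-ex β j + -1)⁻¹ :=
  ⟨subExp_of fun _ hσ hσ1 => ⟨_, by positivity, fun j _ => (h.sd hM hE hE1 hσ hσ1 j).1⟩,
    subExp_of fun _ hσ hσ1 => ⟨_, by positivity, fun j _ => (h.sd hM hE hE1 hσ hσ1 j).2⟩⟩

lemma DioT.sol_eq (h : DioT n M β) (hM : 1 ≤ M) (hE : 0 < EE β) (hE1 : EE β ≤ 1) {r : B}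
    (hr : mn r = 0) : τ β (sol β (-1) r) - sol β (-1) r = r := by
  have := MP_77fc3d_an.sol_eq (r := r) (h.se hM hE hE1).1 (h.se hM hE hE1).2 (fun j hj => by
    by_cases h0 : j = 0
    · subst h0; exact hr
    · exact absurd (by linear_combination hj) (h.ne hM hE h0).1) (fun j hj => by
    by_cases h0 : j = 0
    · subst h0; rw [ex_zero] at hj; norm_num at hj
    · exact (h.ne hM hE h0).2 (by linear_combination -hj))
  rw [map_neg, map_one] at this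
  linear_combination this

lemma DioT.sol_bd (h : DioT n M β) (hM : 1 ≤ M) (hE : 0 < EE β) (hE1 : EE β ≤ 1)
    (hσ : 0 < σ) (hσ1 : σ ≤ 1) {ρ A : ℝ} {r : B} (hr : BB ρ r A) :
    BB (ρ - σ) (sol β (-1) r) (2 * n.factorial * M * A * ((EE β)⁻¹ * (σ ^ n)⁻¹)) := by
  obtain ⟨h1, h2⟩ := h.se hM hE hE1
  have hK : 0 ≤ n.factorial * M * (EE β)⁻¹ * σ⁻¹ ^ n := by positivity
  have hA : Bd (ρ - σ) (op (fun j => (ex β j + -1)⁻¹) (r.1 + r.2)).1 (_ * (A + A)) :=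
    (hr.1.add hr.2).of_mult hK fun j => by
      change ‖cf _ j‖ ≤ _ * ‖cf (r.1 + r.2) j‖
      rw [cf_op h1, norm_mul]
      exact mul_le_mul_of_nonneg_right (h.sd hM hE hE1 hσ hσ1 j).1 (norm_nonneg _)
  have hB : Bd (ρ - σ) (op (fun j => (-ex β j + -1)⁻¹) (r.1 - r.2)).1 (_ * (A + A)) :=
    (hr.1.sub hr.2).of_mult hK fun j => by
      change ‖cf _ j‖ ≤ _ * ‖cf (r.1 - r.2) j‖
      rw [cf_op h2, norm_mul]
      exact mul_le_mul_of_nonneg_right (h.sd hM hE hE1 hσ hσ1 j).2 (norm_nonneg _)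
  constructor
  · have := (hA.add hB).smul (1 / 2)
    simp only [sol, ← Algebra.smul_def]
    exact this.mono le_rfl (le_of_eq (by rw [show ‖(1 / 2 : ℂ)‖ = 1 / 2 by norm_num, inv_pow]; ring))
  · have := (hA.sub hB).smul (1 / 2)
    simp only [sol, ← Algebra.smul_def]
    exact this.mono le_rfl (le_of_eq (by rw [show ‖(1 / 2 : ℂ)‖ = 1 / 2 by norm_num, inv_pow]; ring))

end

lemma abs_sin_sub (y : ℝ) : |Real.sin y - y| ≤ 2 * |y| ^ 3 := by
  have key : ∀ y : ℝ, 0 < y → |Real.sin y - y| ≤ 2 * y ^ 3 := fun y hy => by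
    have h1 := Real.sin_lt hy
    rw [abs_sub_comm, abs_of_pos (by linarith)]
    have := Real.sin_gt_sub_cube hy
    have : 0 < y ^ 3 := by positivity
    linarith
  rcases lt_trichotomy y 0 with h | h | h
  · have := key (-y) (by linarith)
    rw [Real.sin_neg, show -Real.sin y - -y = -(Real.sin y - y) by ring, abs_neg] at this
    rwa [abs_of_neg h]
  · simp [h]
  · rw [abs_of_pos h]; exact key y h

lemma mult_bd (β : ℝ) (j : ℤ) :
    ‖ex β j * ex β j - 1 - kk β * (ex β j * j)‖ ≤ 4 * EE β ^ 3 * |(j : ℝ)| ^ 3 := by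
  have e : ex β j = Complex.exp (((2 * π * j * β : ℝ) : ℂ) * Complex.I) := by
    unfold ex; congr 1; push_cast; ring
  have e2 : kk β * j = 2 * Complex.I * ((2 * π * j * β : ℝ) : ℂ) := by
    unfold kk; push_cast; ring
  have e3 : |2 * π * j * β| = EE β * |(j : ℝ)| := by
    rw [EE, abs_mul, abs_mul, abs_of_pos (by positivity : 0 < 2 * π)]; ring
  have h := abs_sin_sub (2 * π * j * β)
  rw [e3] at h
  have n1 := norm_ex β j
  generalize 2 * π * j * β = y at e e2 h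
  have e4 : ex β j * ex β j - 1 - kk β * (ex β j * j) =
      ex β j * (2 * Complex.I) * ((Real.sin y - y : ℝ) : ℂ) := by
    have h1 := Complex.exp_mul_I (y : ℂ)
    have h2 := Complex.cos_sq_add_sin_sq (y : ℂ)
    rw [← e] at h1
    push_cast
    linear_combination (-ex β j) * e2 + h2 + (ex β j + Complex.cos y - Complex.sin y * Complex.I) * h1 -
      Complex.sin y ^ 2 * Complex.I_sq
  rw [e4, norm_mul, norm_mul, n1, Complex.norm_real, Real.norm_eq_abs]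
  simp only [norm_mul, Complex.norm_I, Complex.norm_ofNat]
  rw [mul_pow] at h
  linarith

lemma err_one {ρ σ A : ℝ} (hσ : 0 < σ) {f g : An} (hf : Bd ρ f.1 A) (hd : D.d f = g ^ 2) (β : ℝ) :
    Bd (ρ - σ) (sh β (sh β f) - κ 1 * f - κ (kk β) * sh β g ^ 2).1
      (24 * σ⁻¹ ^ 3 * A * EE β ^ 3) := by
  have hE : 0 ≤ EE β := by unfold EE; positivity
  refine (hf.of_mult (K := 24 * σ⁻¹ ^ 3 * EE β ^ 3) (by positivity) fun j => ?_).mono le_rfl
    (le_of_eq (by ring))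
  change ‖cf _ j‖ ≤ _ * ‖cf f j‖
  have e : cf (sh β (sh β f) - κ 1 * f - κ (kk β) * sh β g ^ 2) j =
      (ex β j * ex β j - 1 - kk β * (ex β j * j)) * cf f j := by
    rw [← map_pow, ← hd]
    simp only [cf_sub, cf_κ_mul, cf_sh', cf_D]; ring
  rw [e, norm_mul]
  refine mul_le_mul_of_nonneg_right ((mult_bd β j).trans ?_) (norm_nonneg _)
  have h := pow_le_wt hσ 3 j
  norm_num [Nat.factorial] at h
  calc 4 * EE β ^ 3 * |(j : ℝ)| ^ 3 ≤ 4 * EE β ^ 3 * (6 * (σ ^ 3)⁻¹ * wt σ j) := by gcongr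
    _ = _ := by rw [inv_pow]; ring

/-- The sign vector. -/
noncomputable def uu : B := (1, -1)

lemma uu_sq : uu * uu = 1 := by ext1 <;> simp [uu]

lemma τ_uu (β : ℝ) : τ β uu = -uu := by ext1 <;> simp [uu, τ_fst, τ_snd]

lemma BB_uu (ρ : ℝ) : BB ρ uu 1 := ⟨Bd.one ρ, (Bd.one ρ).neg⟩

lemma cf0_D (f : An) : cf (D.d f) 0 = 0 := by simp

lemma cf0_sh (β : ℝ) (f : An) : cf (sh β f) 0 = cf f 0 := by simp [cf_sh]

lemma exact_mn (β : ℝ) (k : ℂ) (Y : B) :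
    mn (uu * (τ β (DB.d Y) * Err (τ β) (κB k) (κB 1) Y)) = 0 := by
  obtain ⟨u, v⟩ := Y
  have c1 := cf0_D (sh β v ^ 3)
  have c2 := cf0_D (sh β u ^ 3)
  have c3 := cf0_sh β (D.d v * sh β u)
  have c4 := cf0_sh β (D.d u * sh β v)
  have c5 := cf0_D (v * sh β u)
  have c6 := cf0_D (u * sh β v)
  rw [D.d_pow, D_sh] at c1 c2
  rw [D.leib, D_sh, cf_add] at c5 c6
  rw [map_mul] at c3 c4
  have e1 : (uu * (τ β (DB.d (u, v)) * Err (τ β) (κB k) (κB 1) (u, v))).1 =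
      sh β (D.d v) * sh β (sh β u) - u * sh β (D.d v) -
        κ (k / 3) * (((3 : ℕ) : An) * sh β v ^ (3 - 1) * sh β (D.d v)) := by
    have : κ k = κ (k / 3) * 3 := by rw [← map_ofNat κ 3, ← map_mul]; congr 1; ring
    simp only [uu, Err, Prod.fst_mul, Prod.fst_sub, Prod.pow_fst, τ_fst, τ_snd, DB_snd, κB_fst,
      map_one, Prod.fst_one, this]
    push_cast; ring
  have e2 : (uu * (τ β (DB.d (u, v)) * Err (τ β) (κB k) (κB 1) (u, v))).2 =
      -(sh β (D.d u) * sh β (sh β v)) + v * sh β (D.d u) +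
        κ (k / 3) * (((3 : ℕ) : An) * sh β u ^ (3 - 1) * sh β (D.d u)) := by
    have : κ k = κ (k / 3) * 3 := by rw [← map_ofNat κ 3, ← map_mul]; congr 1; ring
    simp only [uu, Err, Prod.snd_mul, Prod.snd_sub, Prod.pow_snd, τ_fst, τ_snd, DB_fst, κB_snd,
      map_one, Prod.snd_one, this]
    push_cast; ring
  rw [mn, e1, e2]
  simp only [cf_add, cf_sub, cf_neg, cf_κ_mul, c1, c2, c3, c4]
  rw [mul_comm (sh β u)] at c5
  rw [mul_comm (sh β v)] at c6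
  linear_combination c5 - c6

end Pool.Agent.Lib.MP_77fc3d_an.H2
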