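import Pool.Agent.Lib.MP_77fc3d_an.HA

/-! One step of the quasi-Newton scheme in the conservative case. -/

open Real Filter Topology

namespace Pool.Agent.Lib.MP_77fc3d_an.H2

/-- The data that do not depend on the small parameter. -/
structure Fx where
  Y0 : B
  h : ℂ
  n : ℕ
  ρ0 : ℝ
  M : ℝ
  hn : 1 ≤ n
  hρ : 0 < ρ0
  hρ1 : ρ0 ≤ 1
  hM : 1 ≤ M
  h0 : h ≠ 0
  bY : BB (4 * ρ0) Y0 M
  d1 : D.d Y0.1 = Y0.2 ^ 2
  d2 : D.d Y0.2 = Y0.1 ^ 2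
  hh : Y0.2 ^ 3 - Y0.1 ^ 3 = κ h

/-- Admissible approximate solutions. -/
structure Ad (F : Fx) where
  β : ℝ
  Y : B
  ρ : ℝ
  σ : ℝ
  e : ℝ
  hβ : 0 < EE β
  he : 0 ≤ e
  hσ : 0 < σ
  hσ1 : σ ≤ 1
  hρ1 : F.ρ0 + 3 * σ ≤ ρ
  hρ2 : ρ ≤ 2 * F.ρ0
  dio : DioT F.n F.M β
  hY : BB ρ (Y - F.Y0) (F.M * EE β)
  hT : BB ρ (DB.d Y - DB.d F.Y0) (F.M * EE β)
  hE : BB ρ (Err (τ β) (κB (kk β)) (κB 1) Y) (EE β * e)

variable {F : Fx}

/-- The scales of an admissible approximate solution. -/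
noncomputable def SH (F : Fx) : Sc (Ad F) where
  l := comap (fun p => EE p.β) (𝓝 0)
  e p := p.e
  E p := EE p.β
  s p := p.σ ^ F.n
  he p := p.he
  hE p := p.hβ
  hs p := pow_pos p.hσ _
  hs1 p := pow_le_one₀ p.hσ.le p.hσ1
  hl := tendsto_comap

/-- The inverse of the unperturbed Wronskian. -/
noncomputable def Fx.W0 (F : Fx) : B := κB F.h⁻¹ * uu

lemma Fx.hinv (F : Fx) : κ F.h * κ F.h⁻¹ = 1 := by rw [← map_mul, mul_inv_cancel₀ F.h0, map_one]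

lemma sh_zero (f : An) : sh 0 f = f := An.ext_cf fun n => by simp [cf_sh]

lemma Fx.hW (F : Fx) : (DB.d F.Y0 * τ 0 F.Y0 - F.Y0 * τ 0 (DB.d F.Y0)) * F.W0 = 1 := by
  ext1
  · simp only [Fx.W0, uu, Prod.fst_mul, Prod.fst_sub, τ_fst, DB_fst, DB_snd, sh_zero, F.d1, F.d2,
      Prod.fst_one, κB_fst]
    linear_combination κ F.h⁻¹ * F.hh + F.hinv
  · simp only [Fx.W0, uu, Prod.snd_mul, Prod.snd_sub, τ_snd, DB_fst, DB_snd, sh_zero, F.d1, F.d2,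
      Prod.snd_one, κB_snd]
    linear_combination κ F.h⁻¹ * F.hh + F.hinv

lemma Fx.τW (F : Fx) (β : ℝ) : τ β F.W0 = -F.W0 := by
  rw [Fx.W0, map_mul, τ_κB, τ_uu]; ring

lemma Fx.bW (F : Fx) {ρ : ℝ} (hρ : 0 ≤ ρ) : BB ρ F.W0 (‖F.h⁻¹‖ * 1) :=
  (BB.const _ _).mul hρ (BB_uu ρ)

lemma Fx.twist (F : Fx) : F.h * mn (uu * F.W0 * τ 0 F.Y0 ^ 3 * F.W0) = 1 := by
  have : (uu * F.W0 * τ 0 F.Y0 ^ 3 * F.W0).1 + (uu * F.W0 * τ 0 F.Y0 ^ 3 * F.W0).2 = κ F.h⁻¹ := by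
    simp only [Fx.W0, uu, Prod.fst_mul, Prod.snd_mul, Prod.pow_fst, Prod.pow_snd, τ_fst, τ_snd,
      sh_zero, κB_fst, κB_snd]
    linear_combination κ F.h⁻¹ ^ 2 * F.hh + κ F.h⁻¹ * F.hinv
  rw [mn, ← cf_add, this, cf_κ, if_pos rfl, mul_inv_cancel₀ F.h0]

lemma Fx.err0 (F : Fx) (β : ℝ) : BB (2 * F.ρ0) (Err (τ β) (κB (kk β)) (κB 1) F.Y0)
    (24 * F.ρ0⁻¹ ^ 3 * F.M * EE β ^ 3) :=
  ⟨(err_one F.hρ F.bY.1 F.d1 β).mono (by have := F.hρ; linarith) le_rfl,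
    (err_one F.hρ F.bY.2 F.d2 β).mono (by have := F.hρ; linarith) le_rfl⟩

namespace Ad

variable (p : Ad F)

noncomputable def K : B := κB (kk p.β)
noncomputable def DY : B := DB.d p.Y
noncomputable def W : B := p.DY * τ p.β F.Y0 - F.Y0 * τ p.β p.DY
noncomputable def Wi : B := Ring.inverse p.W
noncomputable def LN : B := Lin (τ p.β) p.K (κB 1) p.Y F.Y0
noncomputable def Er : B := Err (τ p.β) p.K (κB 1) p.Y
noncomputable def s2 : B := sol p.β (-1) (uu * (τ p.β p.DY * p.Er))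
noncomputable def X0 : B := (uu * p.s2 * p.Wi * p.LN + p.Er) * τ p.β F.Y0 * τ p.β p.Wi
noncomputable def X1 : B := uu * p.Wi * p.LN * τ p.β F.Y0 * τ p.β p.Wi
noncomputable def c : ℂ := -(F.h * mn p.X0 / (F.h * mn p.X1))
noncomputable def η : B := uu * (p.s2 + κB p.c)
noncomputable def X : B := (p.η * p.Wi * p.LN + p.Er) * τ p.β F.Y0 * τ p.β p.Wi
noncomputable def ξ : B := sol p.β (-1) p.X
noncomputable def w : B := p.ξ * p.DY + p.η * p.Wi * F.Y0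
noncomputable def q : B := p.η * p.Wi * τ p.β F.Y0 * τ p.β p.Wi * DB.d p.Er

lemma r0 : 0 < p.ρ := by have := p.hρ1; have := p.hσ; have := F.hρ; linarith
lemma zz : 0 ≤ p.ρ := p.r0.le
lemma r1 : 0 ≤ p.ρ - p.σ := by have := p.hρ1; have := p.hσ; have := F.hρ; linarith
lemma r2 : 0 ≤ p.ρ - p.σ - p.σ := by have := p.hρ1; have := p.hσ; have := F.hρ; linarith
lemma l1 : p.ρ - p.σ ≤ p.ρ := by have := p.hσ; linarith
lemma l2 : p.ρ - p.σ - p.σ ≤ p.ρ := by have := p.hσ; linarith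
lemma l21 : p.ρ - p.σ - p.σ ≤ p.ρ - p.σ := by have := p.hσ; linarith
lemma v4 : p.ρ ≤ 4 * F.ρ0 := by have := p.hρ2; have := F.hρ; linarith
lemma v3 : p.ρ ≤ 4 * F.ρ0 - F.ρ0 := by have := p.hρ2; have := F.hρ; linarith
lemma v2 : p.ρ ≤ 4 * F.ρ0 - F.ρ0 - F.ρ0 := by have := p.hρ2; linarith
lemma sle : p.σ ^ F.n ≤ p.σ := pow_le_of_le_one p.hσ.le p.hσ1 (by have := F.hn; omega)

end Ad

open Ad

section

variable {r : Ad F → ℝ} {x : Ad F → B} {i k : ℕ} {j : ℤ}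

lemma BOsol (h : BO (SH F) r x i j k) :
    BO (SH F) (fun p => r p - p.σ) (fun p => sol p.β (-1) (x p)) i (j - 1) (k + 1) := by
  obtain ⟨C, hC, h⟩ := h
  have hM := F.hM
  refine ⟨2 * F.n.factorial * F.M * C, by positivity, ?_⟩
  filter_upwards [h, (SH F).small one_pos] with p h1 h3
  have e2 : (SH F).mon i (j - 1) (k + 1) p =
      (SH F).mon i j k p * ((EE p.β)⁻¹ * (p.σ ^ F.n)⁻¹) := by
    have := (SH F).mon_mul i 0 j (-1) k 1 p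
    rw [sub_eq_add_neg]
    refine this.trans ?_
    simp [Sc.mon, SH]
  refine (p.dio.sol_bd hM p.hβ h3 p.hσ p.hσ1 h1).mono le_rfl (le_of_eq ?_)
  rw [e2]; ring

lemma BOder (h : BO (SH F) r x i j k) :
    BO (SH F) (fun p => r p - p.σ) (fun p => DB.d (x p)) i j (k + 1) :=
  h.der.rad fun p => by have := p.sle; change _ ≤ _ - p.σ ^ F.n; linarith

end

lemma M0 (F : Fx) : 0 ≤ F.M := zero_le_one.trans F.hM

lemma bU (r : Ad F → ℝ) : BO (SH F) r (fun _ => uu) 0 0 0 :=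
  ⟨1, zero_le_one, Eventually.of_forall fun p => by rw [Sc.mon_zero, mul_one]; exact BB_uu _⟩
lemma bY0 : BO (SH F) Ad.ρ (fun _ => F.Y0) 0 0 0 := BO.fixed F.bY v4
lemma bT0 : BO (SH F) Ad.ρ (fun _ => DB.d F.Y0) 0 0 0 := BO.fixed (F.bY.der F.hρ) v3
lemma bDT0 : BO (SH F) Ad.ρ (fun _ => DB.d (DB.d F.Y0)) 0 0 0 :=
  BO.fixed ((F.bY.der F.hρ).der F.hρ) v2
lemma bW0 : BO (SH F) Ad.ρ (fun _ => F.W0) 0 0 0 :=
  BO.fixed (F.bW (ρ := 4 * F.ρ0) (by have := F.hρ; positivity)) v4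

lemma dY : BO (SH F) Ad.ρ (fun p => p.Y - F.Y0) 0 1 0 :=
  ⟨F.M, M0 F, Eventually.of_forall fun p => by rw [Sc.mon_one]; exact p.hY⟩
lemma dT : BO (SH F) Ad.ρ (fun p => p.DY - DB.d F.Y0) 0 1 0 :=
  ⟨F.M, M0 F, Eventually.of_forall fun p => by rw [Sc.mon_one]; exact p.hT⟩
lemma bE0 : BO (SH F) Ad.ρ (fun p => Err (τ p.β) p.K (κB 1) F.Y0) 0 3 0 :=
  ⟨24 * F.ρ0⁻¹ ^ 3 * F.M, by have := F.hρ; have := M0 F; positivity, Eventually.of_forall fun p => by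
    rw [show (3 : ℤ) = (3 : ℕ) from rfl, Sc.mon_E]; exact (F.err0 p.β).mono p.hρ2 le_rfl⟩
lemma bEr : BO (SH F) Ad.ρ (fun p => p.Er) 1 1 0 :=
  ⟨1, zero_le_one, Eventually.of_forall fun p => p.hE.mono le_rfl (le_of_eq (by
    simp [Sc.mon, SH, mul_comm]))⟩
lemma ck : CO (SH F) (fun p => kk p.β) 0 1 0 :=
  ⟨2, zero_le_two, Eventually.of_forall fun p => by rw [Sc.mon_one, norm_kk]; rfl⟩
lemma bK : BO (SH F) Ad.ρ (fun p => p.K) 0 1 0 := BO.const ck _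
lemma b2 (r : Ad F → ℝ) : BO (SH F) r (fun _ => κB 2) 0 0 0 := BO.const (CO.const 2) _

lemma bY : BO (SH F) Ad.ρ (fun p => p.Y) 0 0 0 :=
  ((dY.w (by norm_num)).add bY0).congr (Eventually.of_forall fun p => by ring)
lemma bDY : BO (SH F) Ad.ρ (fun p => p.DY) 0 0 0 :=
  ((dT.w (by norm_num)).add bT0).congr (Eventually.of_forall fun p => by ring)
lemma btN : BO (SH F) Ad.ρ (fun p => τ p.β F.Y0) 0 0 0 := bY0.tau _
lemma btT : BO (SH F) Ad.ρ (fun p => τ p.β p.DY) 0 0 0 := bDY.tau _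
lemma tN : BO (SH F) Ad.ρ (fun p => τ p.β F.Y0 - τ 0 F.Y0) 0 1 0 :=
  ((BO.tau_sub (x := fun _ => F.Y0) (fun _ => rfl) bT0).w (by norm_num))
lemma tT : BO (SH F) Ad.ρ (fun p => τ p.β p.DY - τ 0 (DB.d F.Y0)) 0 1 0 :=
  ((dT.tau Ad.β).add ((BO.tau_sub (x := fun _ => DB.d F.Y0) (β := Ad.β) (fun _ => rfl) bDT0).w
    (by norm_num))).congr (Eventually.of_forall fun p => by simp only [map_sub]; ring)

lemma hW1 : BO (SH F) Ad.ρ (fun p => 1 - p.W * F.W0) 0 1 0 := by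
  have h1 : BO (SH F) Ad.ρ _ 0 1 0 := ((dT.mul zz btN).w (by norm_num))
  have h2 : BO (SH F) Ad.ρ _ 0 1 0 := ((bT0.mul zz tN).w (by norm_num))
  have h3 : BO (SH F) Ad.ρ _ 0 1 0 := ((bY0.mul zz tT).w (by norm_num))
  refine ((((h3.sub h1).sub h2).mul zz bW0).w (by norm_num)).congr (Eventually.of_forall fun p => ?_)
  unfold Ad.W
  linear_combination F.hW

lemma hWi : ∀ᶠ p in (SH F).l, p.W * p.Wi = 1 := (BO.inverse r0 hW1 bW0).1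
lemma dWi : BO (SH F) Ad.ρ (fun p => p.Wi - F.W0) 0 1 0 := (BO.inverse r0 hW1 bW0).2
lemma bWi : BO (SH F) Ad.ρ (fun p => p.Wi) 0 0 0 :=
  ((dWi.w (by norm_num)).add bW0).congr (Eventually.of_forall fun p => by ring)
lemma btWi : BO (SH F) Ad.ρ (fun p => τ p.β p.Wi) 0 0 0 := bWi.tau _
lemma tWi : BO (SH F) Ad.ρ (fun p => τ p.β p.Wi + F.W0) 0 1 0 :=
  (dWi.tau Ad.β).congr (Eventually.of_forall fun p => by rw [map_sub, F.τW]; ring)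

lemma dLN : BO (SH F) Ad.ρ (fun p => p.LN + p.K * τ p.β F.Y0 ^ 2) 0 2 0 := by
  have h1 : BO (SH F) Ad.ρ _ 0 2 0 := (bE0.w (by norm_num))
  have h2 : BO (SH F) Ad.ρ _ 0 2 0 :=
    (((((b2 _).mul zz bK).mul zz (dY.tau Ad.β)).mul zz btN).w (by norm_num))
  refine (h1.sub h2).congr (Eventually.of_forall fun p => ?_)
  simp only [Ad.LN, Lin, Err, map_sub, map_ofNat]; ring

lemma bLN : BO (SH F) Ad.ρ (fun p => p.LN) 0 1 0 := by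
  have h1 : BO (SH F) Ad.ρ _ 0 1 0 := (dLN.w (by norm_num))
  have h2 : BO (SH F) Ad.ρ _ 0 1 0 := ((bK.mul zz (btN.mul zz btN)).w (by norm_num))
  exact (h1.sub h2).congr (Eventually.of_forall fun p => by ring)

lemma den : ∀ᶠ p in (SH F).l, (SH F).E p ≤ ‖F.h * mn p.X1‖ := by
  have t0 : BO (SH F) Ad.ρ (fun _ => τ 0 F.Y0) 0 0 0 := bY0.tau fun _ => 0
  have h1 : BO (SH F) Ad.ρ _ 0 2 0 :=
    ((((((bU _).mul zz bWi).mul zz dLN).mul zz btN).mul zz btWi).w (by norm_num))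
  have t3 : BO (SH F) Ad.ρ _ 0 0 0 := (((btN.mul zz btN).mul zz btN).w (by norm_num))
  have h2 : BO (SH F) Ad.ρ _ 0 1 0 := ((((dWi.mul zz t3).mul zz btWi)).w (by norm_num))
  have h3 : BO (SH F) Ad.ρ _ 0 1 0 := (((bW0.mul zz t3).mul zz tWi).w (by norm_num))
  have t2 : BO (SH F) Ad.ρ _ 0 0 0 := ((((btN.mul zz btN).w (by norm_num)).add
    ((btN.mul zz t0).w (by norm_num))).add ((t0.mul zz t0).w (by norm_num)))
  have h4 : BO (SH F) Ad.ρ _ 0 1 0 := ((((bW0.mul zz tN).mul zz t2).mul zz bW0).w (by norm_num))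
  have h5 : BO (SH F) Ad.ρ _ 0 2 0 :=
    ((bK.mul zz ((bU _).mul zz ((h2.add h3).sub h4))).w (by norm_num))
  have h6 : CO (SH F) _ 0 ((1 : ℕ) + 1) 0 :=
    (((CO.const F.h).mul ((h1.sub h5).mn_le zz)).w (by norm_num))
  filter_upwards [h6.small_pow one_pos] with p hp
  have e : p.X1 = (uu * p.Wi * (p.LN + p.K * τ p.β F.Y0 ^ 2) * τ p.β F.Y0 * τ p.β p.Wi -
      p.K * (uu * ((p.Wi - F.W0) * (τ p.β F.Y0 * τ p.β F.Y0 * τ p.β F.Y0) * τ p.β p.Wi +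
        F.W0 * (τ p.β F.Y0 * τ p.β F.Y0 * τ p.β F.Y0) * (τ p.β p.Wi + F.W0) -
        F.W0 * (τ p.β F.Y0 - τ 0 F.Y0) * (τ p.β F.Y0 * τ p.β F.Y0 + τ p.β F.Y0 * τ 0 F.Y0 +
          τ 0 F.Y0 * τ 0 F.Y0) * F.W0))) +
      κB (kk p.β) * (uu * F.W0 * τ 0 F.Y0 ^ 3 * F.W0) := by
    unfold Ad.X1 Ad.K; ring
  rw [e, mn_add, mn_κB, mul_add, mul_left_comm F.h (kk p.β), F.twist, mul_one]
  generalize F.h * mn _ = u at hp ⊢
  have h6 := norm_sub_norm_le (kk p.β) (-u)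
  rw [norm_neg, norm_kk, sub_neg_eq_add, add_comm] at h6
  change _ ≤ 1 * EE p.β ^ 1 at hp
  change EE p.β ≤ _
  linarith

lemma bs2 : BO (SH F) (fun p => p.ρ - p.σ) (fun p => p.s2) 1 0 1 :=
  (BOsol ((bU _).mul zz (btT.mul zz bEr))).w (by norm_num)

lemma cc1 : CO (SH F) (fun p => p.c) 1 0 1 := by
  have h1 : BO (SH F) (fun p => p.ρ - p.σ) _ 1 1 1 :=
    (((((bU _).mul r1 bs2).mul r1 (bWi.rad l1)).mul r1 (bLN.rad l1)).w (by norm_num))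
  have h2 : BO (SH F) (fun p => p.ρ - p.σ) _ 1 1 1 :=
    ((((h1.add ((bEr.rad l1).w (by norm_num))).mul r1 (btN.rad l1)).mul r1 (btWi.rad l1)).w
      (by norm_num))
  have h3 : CO (SH F) _ 1 0 1 := ((((CO.const F.h).mul (h2.mn_le r1)).div den).w (by norm_num))
  exact (((CO.const (-1)).mul h3).w (by norm_num)).congr (Eventually.of_forall fun p => by
    unfold Ad.c Ad.X0; ring)

lemma bη : BO (SH F) (fun p => p.ρ - p.σ) (fun p => p.η) 1 0 1 :=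
  ((bU _).mul r1 (bs2.add (BO.const cc1 _))).w (by norm_num)

lemma bX : BO (SH F) (fun p => p.ρ - p.σ) (fun p => p.X) 1 1 1 := by
  have h1 : BO (SH F) (fun p => p.ρ - p.σ) _ 1 1 1 :=
    (((bη.mul r1 (bWi.rad l1)).mul r1 (bLN.rad l1)).w (by norm_num))
  exact ((((h1.add ((bEr.rad l1).w (by norm_num))).mul r1 (btN.rad l1)).mul r1 (btWi.rad l1)).w
    (by norm_num))

lemma bξ : BO (SH F) (fun p => p.ρ - p.σ - p.σ) (fun p => p.ξ) 1 0 2 := (BOsol bX).w (by norm_num)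

lemma bw : BO (SH F) (fun p => p.ρ - p.σ - p.σ) (fun p => p.w) 1 0 2 :=
  ((bξ.mul r2 (bDY.rad l2)).w (by norm_num)).add
    ((((bη.rad l21).mul r2 (bWi.rad l2)).mul r2 (bY0.rad l2)).w (by norm_num))

lemma bDw : BO (SH F) (fun p => p.ρ - p.σ - p.σ - p.σ) (fun p => DB.d p.w) 1 0 3 := BOder bw

lemma bDEr : BO (SH F) (fun p => p.ρ - p.σ) (fun p => DB.d p.Er) 1 1 1 := BOder bEr

lemma bq : BO (SH F) (fun p => p.ρ - p.σ) (fun p => p.q) 2 1 2 :=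
  (((((bη.mul r1 (bWi.rad l1)).mul r1 (btN.rad l1)).mul r1 (btWi.rad l1)).mul r1 bDEr).w
    (by norm_num))

lemma new_err_eq : ∀ᶠ p in (SH F).l,
    Err (τ p.β) p.K (κB 1) (p.Y + p.w) =
      p.q * τ p.β (τ p.β F.Y0) + p.ξ * DB.d p.Er + τ p.β (p.q * τ p.β F.Y0) -
      κB 2 * p.K * τ p.β p.Y * (p.q * τ p.β F.Y0) - p.K * (τ p.β p.w * τ p.β p.w) := by
  filter_upwards [hWi, den, (SH F).small one_pos] with p h1 h2 h3
  have hd : F.h * mn p.X1 ≠ 0 := norm_pos_iff.mp (p.hβ.trans_le h2)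
  have hX : mn p.X = 0 := by
    have e : p.X = p.X0 + κB p.c * p.X1 := by
      unfold Ad.X Ad.X0 Ad.X1 Ad.η; ring
    have hd' := right_ne_zero_of_mul hd
    have := F.h0
    rw [e, mn_add, mn_κB, Ad.c]; field_simp; ring
  have hη : τ p.β p.η + κB 1 * p.η = τ p.β p.DY * (p.K * 0 * p.Y - p.Er) := by
    have e1 := p.dio.sol_eq F.hM p.hβ h3 (exact_mn p.β (kk p.β) p.Y)
    change τ p.β p.s2 - p.s2 = uu * (τ p.β p.DY * p.Er) at e1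
    unfold Ad.η
    rw [map_mul, map_add, τ_κB, τ_uu, map_one]
    linear_combination (-uu) * e1 - τ p.β p.DY * p.Er * uu_sq
  have hξ : τ p.β p.ξ - p.ξ = (p.η * p.Wi * p.LN - (p.K * 0 * p.Y - p.Er)) * τ p.β F.Y0 * τ p.β p.Wi := by
    rw [Ad.ξ, p.dio.sol_eq F.hM p.hβ h3 hX, Ad.X]; ring
  have := newton_alg (τ p.β) DB (k := p.K) (a := κB 1) (dl := 0) (Y := p.Y) (N := F.Y0)
    (Wi := p.Wi) (η := p.η) (ξ := p.ξ) (fun x => DB_τ _ x) rfl (DB_κB _) (DB_κB _) h1 hη hξ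
  rw [mul_zero, add_zero, zero_mul, sub_zero] at this
  rw [map_ofNat κB, ← sq]
  exact this

lemma new_err : BO (SH F) (fun p => p.ρ - p.σ - p.σ)
    (fun p => Err (τ p.β) p.K (κB 1) (p.Y + p.w)) 2 1 4 := by
  have hq := bq (F := F).rad l21
  have hN := btN (F := F).rad l2
  have hK := bK (F := F).rad l2
  have h0 : BO (SH F) _ _ 2 1 2 := ((hq.mul r2 hN).w (by norm_num))
  have h1 : BO (SH F) _ _ 2 1 4 := ((hq.mul r2 (hN.tau Ad.β)).w (by norm_num))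
  have h2 : BO (SH F) _ _ 2 1 4 := ((bξ.mul r2 (bDEr.rad l21)).w (by norm_num))
  have h3 : BO (SH F) _ _ 2 1 4 := ((h0.tau Ad.β).w (by norm_num))
  have h4 : BO (SH F) _ _ 2 1 4 := (((((b2 _).mul r2 hK).mul r2
    ((bY.tau Ad.β).rad l2)).mul r2 h0).w (by norm_num))
  have h6 : BO (SH F) _ _ 2 1 4 :=
    ((hK.mul r2 ((bw.tau Ad.β).mul r2 (bw.tau Ad.β))).w (by norm_num))
  exact ((((h1.add h2).add h3).sub h4).sub h6).congr (new_err_eq.mono fun p hp => hp.symm)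

theorem kam_step (F : Fx) : ∃ C ≥ 1, ∃ E0 > 0, ∀ p : Ad F, EE p.β < E0 → ∃ w : B,
    BB (p.ρ - 3 * p.σ) w (C * (p.e * p.σ⁻¹ ^ (3 * F.n))) ∧
    BB (p.ρ - 3 * p.σ) (DB.d w) (C * (p.e * p.σ⁻¹ ^ (3 * F.n))) ∧
    BB (p.ρ - 3 * p.σ) (Err (τ p.β) (κB (kk p.β)) (κB 1) (p.Y + w))
      (C * (p.e ^ 2 * EE p.β * p.σ⁻¹ ^ (4 * F.n))) := by
  obtain ⟨C2, hC2, h2⟩ : BO (SH F) _ _ 1 0 3 := (bw.w (by norm_num))
  obtain ⟨C3, hC3, h3⟩ := bDw (F := F)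
  obtain ⟨C4, hC4, h4⟩ := new_err (F := F)
  have h5 := h2.and (h3.and h4)
  obtain ⟨t, ht, h6⟩ := mem_comap.mp h5
  obtain ⟨E0, hE0, h7⟩ := Metric.mem_nhds_iff.mp ht
  refine ⟨1 + C2 + C3 + C4, by linarith, E0, hE0, fun p hp => ⟨p.w, ?_⟩⟩
  have hm : EE p.β ∈ t := h7 (by
    rw [Metric.mem_ball, Real.dist_eq, sub_zero, abs_of_pos p.hβ]; exact hp)
  obtain ⟨k2, k3, k4⟩ := h6 hm
  have m2 : (SH F).mon 1 0 3 p = p.e * p.σ⁻¹ ^ (3 * F.n) := by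
    simp [Sc.mon, SH, ← pow_mul, mul_comm]
  have m3 : (SH F).mon 2 1 4 p = p.e ^ 2 * EE p.β * p.σ⁻¹ ^ (4 * F.n) := by
    simp [Sc.mon, SH, ← pow_mul, mul_comm]
  have n2 := (SH F).mon_nonneg 1 0 3 p
  have n3 := (SH F).mon_nonneg 2 1 4 p
  have hσ := p.hσ
  rw [← m2, ← m3]
  refine ⟨k2.mono (by linarith) ?_, k3.mono (by linarith) ?_, k4.mono (by linarith) ?_⟩ <;>
  · gcongr; linarith

end Pool.Agent.Lib.MP_77fc3d_an.H2
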