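import Pool.Agent.Lib.MP_77fc3d_an.HB

/-! Convergence of the scheme in the conservative case. -/

open Real Filter Topology

namespace Pool.Agent.Lib.MP_77fc3d_an.H2

/-- The invariant of the iteration. -/
def Iv (F : Fx) (A β t : ℝ) (Y : B) : Prop :=
  BB (F.ρ0 * (1 + t)) (Y - F.Y0) (EE β * (1 - t)) ∧
  BB (F.ρ0 * (1 + t)) (DB.d Y - DB.d F.Y0) (EE β * (1 - t)) ∧
  BB (F.ρ0 * (1 + t)) (Err (τ β) (κB (kk β)) (κB 1) Y) (EE β * (A * EE β ^ 2 * t ^ (4 * F.n)))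

/-- An iterate is admissible. -/
noncomputable def toAd {F : Fx} {A β t : ℝ} {Y : B} (hA : 0 ≤ A) (hβ : 0 < EE β)
    (dio : DioT F.n F.M β) (ht : 0 < t) (ht1 : t ≤ 1) (h : Iv F A β t Y) : Ad F :=
  have hM := F.hM
  have hρ := F.hρ
  { β := β, Y := Y, ρ := F.ρ0 * (1 + t), σ := F.ρ0 * t / 6, e := A * EE β ^ 2 * t ^ (4 * F.n)
    hβ := hβ
    he := by positivity
    hσ := by positivity
    hσ1 := by have := F.hρ1; nlinarith
    hρ1 := by nlinarith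
    hρ2 := by nlinarith
    dio := dio
    hY := h.1.mono le_rfl (by nlinarith)
    hT := h.2.1.mono le_rfl (by nlinarith)
    hE := h.2.2 }

lemma iv_step (F : Fx) {A : ℝ} (hA : 1 ≤ A) : ∃ E0 > 0, ∀ β, 0 < EE β → DioT F.n F.M β →
    EE β < E0 → ∀ t Y, 0 < t → t ≤ 1 → Iv F A β t Y →
      ∃ Y', Iv F A β (t / 2) Y' ∧ BB 0 (Y' - Y) t := by
  obtain ⟨C, hC, E0, hE0, H⟩ := kam_step F
  have hρ := F.hρ
  have hn := F.hn
  have hc : 1 ≤ 6 / F.ρ0 := by rw [le_div_iff₀ hρ]; have := F.hρ1; linarith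
  generalize hcc : 6 / F.ρ0 = c at hc
  refine ⟨min E0 (1 / (2 ^ (4 * F.n) * C * A * c ^ (4 * F.n))), lt_min hE0 (by positivity), ?_⟩
  intro β hβ dio hE t Y ht ht1 h
  have hE1 := hE.trans_le (min_le_left _ _)
  have hE2 := (hE.trans_le (min_le_right _ _)).le
  rw [le_div_iff₀ (by positivity)] at hE2
  have c3 : 1 ≤ c ^ (3 * F.n) := one_le_pow₀ hc
  have c4 : c ^ (3 * F.n) ≤ c ^ (4 * F.n) := pow_le_pow_right₀ hc (by omega)
  have c5 : (2 : ℝ) ^ 2 ≤ 2 ^ (4 * F.n) := pow_le_pow_right₀ (by norm_num) (by omega)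
  have hB : 4 * (C * A * c ^ (3 * F.n) * EE β) ≤ 1 := by
    refine le_trans ?_ hE2
    calc 4 * (C * A * c ^ (3 * F.n) * EE β) = EE β * (2 ^ 2 * C * A * c ^ (3 * F.n)) := by ring
      _ ≤ _ := by gcongr
  have hE3 : EE β ≤ 1 := by
    have : 1 * 1 * 1 * EE β ≤ C * A * c ^ (3 * F.n) * EE β := by gcongr
    linarith
  obtain ⟨w, k2, k3, k4⟩ := H (toAd (by linarith) hβ dio ht ht1 h) hE1
  have es : (F.ρ0 * t / 6)⁻¹ = c / t := by rw [← hcc]; field_simp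
  have er : F.ρ0 * (1 + t) - 3 * (F.ρ0 * t / 6) = F.ρ0 * (1 + t / 2) := by ring
  simp only [toAd, es, er] at k2 k3 k4
  have tn : t ^ F.n ≤ t := pow_le_of_le_one ht.le ht1 (by omega)
  have b2 : C * (A * EE β ^ 2 * t ^ (4 * F.n) * (c / t) ^ (3 * F.n)) ≤ EE β * (t / 4) := by
    have e : t ^ (4 * F.n) = t ^ (3 * F.n) * t ^ F.n := by rw [← pow_add]; congr 1; ring
    calc _ = 4 * (C * A * c ^ (3 * F.n) * EE β) * (EE β * (t ^ F.n / 4)) := by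
          rw [e, div_pow]; field_simp
      _ ≤ 1 * (EE β * (t / 4)) := by gcongr
      _ = _ := one_mul _
  have b3 : C * ((A * EE β ^ 2 * t ^ (4 * F.n)) ^ 2 * EE β * (c / t) ^ (4 * F.n)) ≤
      EE β * (A * EE β ^ 2 * (t / 2) ^ (4 * F.n)) := by
    calc _ = (EE β * (2 ^ (4 * F.n) * C * A * c ^ (4 * F.n))) * EE β *
          (EE β * (A * EE β ^ 2 * (t / 2) ^ (4 * F.n))) := by
          rw [div_pow, div_pow]; field_simp
      _ ≤ 1 * 1 * (EE β * (A * EE β ^ 2 * (t / 2) ^ (4 * F.n))) := by gcongr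
      _ = _ := by ring
  have hr : F.ρ0 * (1 + t / 2) ≤ F.ρ0 * (1 + t) := by gcongr; linarith
  refine ⟨Y + w, ⟨?_, ?_, k4.mono le_rfl b3⟩, ?_⟩
  · rw [show Y + w - F.Y0 = Y - F.Y0 + w by ring]
    exact ((h.1.mono hr le_rfl).add k2).mono le_rfl (by nlinarith)
  · rw [map_add, show DB.d Y + DB.d w - DB.d F.Y0 = DB.d Y - DB.d F.Y0 + DB.d w by ring]
    exact ((h.2.1.mono hr le_rfl).add k3).mono le_rfl (by nlinarith)
  · rw [add_sub_cancel_left]; exact k2.mono (by positivity) (by nlinarith)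

theorem kam (F : Fx) : ∃ E0 > 0, ∀ β, 0 < EE β → DioT F.n F.M β → EE β < E0 →
    ∃ Y, Err (τ β) (κB (kk β)) (κB 1) Y = 0 ∧ BB F.ρ0 (Y - F.Y0) (EE β) := by
  have hρ := F.hρ
  have hM := F.hM
  have hA : 1 ≤ 24 * F.ρ0⁻¹ ^ 3 * F.M := by
    have : 1 ≤ F.ρ0⁻¹ ^ 3 := one_le_pow₀ ((one_le_inv₀ hρ).mpr F.hρ1)
    nlinarith
  have h00 := F.err0
  generalize 24 * F.ρ0⁻¹ ^ 3 * F.M = A at hA h00
  obtain ⟨E0, hE0, H⟩ := iv_step F hA
  refine ⟨E0, hE0, fun β hβ dio hE => ?_⟩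
  have t0 : ∀ n : ℕ, (0 : ℝ) < (1 / 2) ^ n := fun n => by positivity
  have t1 : ∀ n : ℕ, ((1 : ℝ) / 2) ^ n ≤ 1 := fun n => pow_le_one₀ (by norm_num) (by norm_num)
  have H' : ∀ (n : ℕ) (x : {x : B // Iv F A β ((1 / 2) ^ n) x}),
      ∃ y : {x : B // Iv F A β ((1 / 2) ^ (n + 1)) x}, BB 0 (y.1 - x.1) ((1 / 2) ^ n) := by
    intro n x
    obtain ⟨Y', h1, h2⟩ := H β hβ dio hE _ _ (t0 n) (t1 n) x.2
    exact ⟨⟨Y', by rw [pow_succ, mul_one_div]; exact h1⟩, h2⟩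
  choose f hf using H'
  have h0 : Iv F A β ((1 / 2) ^ 0) F.Y0 := by
    refine ⟨by simpa using BB.zero _, by simpa using BB.zero _, (h00 β).mono ?_ ?_⟩
    · norm_num; linarith
    · apply le_of_eq; rw [pow_zero, one_pow]; ring
  let s : ∀ n : ℕ, {x : B // Iv F A β ((1 / 2) ^ n) x} := fun n => Nat.rec ⟨F.Y0, h0⟩ f n
  have hs : ∀ n, BB 0 ((s (n + 1)).1 - (s n).1) ((1 / 2) ^ n) := fun n => hf n (s n)
  have hb : ∀ n, BB F.ρ0 ((s n).1 - F.Y0) (EE β) := fun n => (s n).2.1.mono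
    (by have := t0 n; nlinarith) (by have := t0 n; nlinarith)
  obtain ⟨x, hx, bx⟩ := exists_lim_An hρ (u := fun n => (s n).1.1) (f := F.Y0.1)
    (fun n => (hs n).1) fun n => (hb n).1
  obtain ⟨y, hy, by'⟩ := exists_lim_An hρ (u := fun n => (s n).1.2) (f := F.Y0.2)
    (fun n => (hs n).2) fun n => (hb n).2
  have he : Tendsto (fun n : ℕ => EE β * (A * EE β ^ 2 * ((1 / 2) ^ n) ^ (4 * F.n))) atTop (𝓝 0) := by
    have := (((tendsto_pow_atTop_nhds_zero_of_lt_one (r := (1 / 2 : ℝ)) (by norm_num)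
      (by norm_num)).pow (4 * F.n)).const_mul (A * EE β ^ 2)).const_mul (EE β)
    rwa [zero_pow (by have := F.hn; omega), mul_zero, mul_zero] at this
  have hE' : ∀ n, BB 0 (Err (τ β) (κB (kk β)) (κB 1) (s n).1)
      (EE β * (A * EE β ^ 2 * ((1 / 2) ^ n) ^ (4 * F.n))) := fun n =>
    (s n).2.2.2.mono (by have := t0 n; positivity) le_rfl
  exact ⟨(x, y), Prod.ext (err_lim hx hy tendsto_const_nhds he fun n => (hE' n).1)
    (err_lim hy hx tendsto_const_nhds he fun n => (hE' n).2), bx, by'⟩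

end Pool.Agent.Lib.MP_77fc3d_an.H2
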