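import Pool.Agent.Lib.MP_77fc3d_an.HC

/-! The Dixon curve along a period. -/

open Real Filter Topology PeriodPair Function

namespace Pool.Agent.Lib.MP_77fc3d_an.H2

theorem exists_an_strip {f : ℂ → ℂ} {h : ℝ} (hh : 0 < h) (hp : ∀ z, f (z + 1) = f z)
    (hf : ∀ z : ℂ, |z.im| < h → DifferentiableAt ℂ f z) : ∃ φ : An, ∀ x : ℝ, evR x φ = f x := by
  have hper : Periodic f (1 : ℝ) := fun z => by simpa using hp z
  have h2 : 0 < 2 * π * h := by positivity
  obtain ⟨φ, hφ⟩ := exists_an (f := Periodic.cuspFunction 1 f) (c := 0) (r := 1)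
    (r1 := exp (-(2 * π * h))) (r2 := exp (2 * π * h)) (exp_pos _)
    (exp_lt_one_iff.mpr (by linarith)) (one_lt_exp_iff.mpr h2) (fun w h1 h3 => by
      rw [sub_zero] at h1 h3
      have hw : 0 < ‖w‖ := (exp_pos _).trans h1
      rw [← Periodic.qParam_right_inv one_ne_zero (norm_pos_iff.mp hw)]
      refine Periodic.differentiableAt_cuspFunction one_ne_zero hper (hf _ ?_)
      rw [Periodic.im_invQParam, abs_lt]
      rw [← lt_log_iff_exp_lt hw] at h1
      rw [← log_lt_iff_lt_exp hw] at h3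
      have e : -1 / (2 * π) * log ‖w‖ = -log ‖w‖ / (2 * π) := by ring
      rw [e, lt_div_iff₀ (by positivity), div_lt_iff₀ (by positivity)]
      constructor <;> linarith)
  refine ⟨φ, fun x => ?_⟩
  rw [hφ, ← Periodic.eq_cuspFunction one_ne_zero hper x]
  congr 1
  simp [cz, Periodic.qParam]

lemma D_eq_line {φ ψ : An} {f : ℂ → ℂ} (h : ∀ x : ℝ, evR x φ = f x)
    (hd : ∀ x : ℝ, HasDerivAt f (2 * π * Complex.I * evR x ψ) x) : D.d φ = ψ :=
  An.ext_ev fun x => by
    have h1 := hasDerivAt_evR φ x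
    have h3 := h1.unique (by simpa only [h] using (hd x).comp_ofReal)
    have : (2 * π * Complex.I : ℂ) ≠ 0 := by simp [pi_ne_zero]
    exact mul_left_cancel₀ this h3

theorem exists_dixon' : ∃ (F G : ℂ → ℂ) (h : ℂ), h ≠ 0 ∧
    (∀ z, F (z + (2 * ζ - 1)) = F z ∧ G (z + (2 * ζ - 1)) = G z) ∧ ∀ z ∉ LL.lattice,
    HasDerivAt F (G z ^ 2) z ∧ HasDerivAt G (F z ^ 2) z ∧ F z * G z = ℘[LL] z ∧
      G z ^ 3 - F z ^ 3 = h := by
  obtain ⟨β, hβ⟩ := IsAlgClosed.exists_pow_nat_eq (3 * LM.g₃) (n := 2) (by norm_num)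
  refine ⟨fun z => (℘'[LM] z + β) / (2 * ℘[LM] z), fun z => (℘'[LM] z - β) / (2 * ℘[LM] z),
    -3 * β, ?_, fun z => ?_, fun z hz => ?_⟩
  · intro h
    have : β = 0 := by linear_combination -h / 3
    rw [this] at hβ
    exact g3_ne (by linear_combination -hβ / 3)
  · have h1 : ℘[LM] (z + (2 * ζ - 1)) = ℘[LM] z :=
      LM.weierstrassP_add_coe z ⟨_, LM.ω₂_mem_lattice⟩
    have h2 : ℘'[LM] (z + (2 * ζ - 1)) = ℘'[LM] z :=
      LM.derivWeierstrassP_add_coe z ⟨_, LM.ω₂_mem_lattice⟩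
    simp only [h1, h2, and_self]
  · have hz' : z ∉ LM.lattice := fun h => hz (LM_sub h)
    have ha := aux_eq hz
    unfold aux at ha
    have hp : ℘[LM] z ≠ 0 := fun h => g3_ne (by rw [← ha, h]; ring)
    have hr := relM z hz'
    have d1 := hasDerivAt_wpM hz'
    have d2 := hasDerivAt_wpM' hz'
    refine ⟨?_, ?_, ?_, ?_⟩
    · refine ((d2.add_const β).div (d1.const_mul 2) (by simpa using hp)).congr_deriv ?_
      field_simp
      linear_combination -3 * hr - hβ
    · refine ((d2.sub_const β).div (d1.const_mul 2) (by simpa using hp)).congr_deriv ?_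
      field_simp
      linear_combination -3 * hr - hβ
    · field_simp
      linear_combination hr - hβ + 4 * ha
    · field_simp
      linear_combination -6 * β * hr - 2 * β * hβ

/-- Parametrisation of the line. -/
noncomputable def ln (z : ℂ) : ℂ := (2 * ζ - 1) * z + 1 / 4

lemma ln_free {z : ℂ} (hz : |z.im| < 1 / 8) : ln z ∉ LL.lattice := fun h => by
  obtain ⟨m, n, h⟩ := mem_LL.mp h
  have h1 := congrArg Complex.re h
  simp [ln, ζ_re, ζ_im] at h1
  have h3 : √3 < 2 := by nlinarith [sq3, Real.sqrt_nonneg 3]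
  have h4 := Real.sqrt_nonneg 3
  rw [abs_lt] at hz
  have h5 : ((2 * m + n : ℤ) : ℝ) < 1 := by push_cast; nlinarith
  have h6 : (0 : ℝ) < ((2 * m + n : ℤ) : ℝ) := by push_cast; nlinarith
  have h7 : 2 * m + n < 1 := by exact_mod_cast h5
  have h8 : 0 < 2 * m + n := by exact_mod_cast h6
  omega

lemma om_ne : 2 * ζ - 1 ≠ 0 := fun h => by
  have := congrArg Complex.im h
  simp [ζ_im] at this

lemma no_period {t : ℝ} (h : ∀ x : ℝ, ℘[LL] (ln (x + t : ℝ)) = ℘[LL] (ln x)) : ∃ m : ℤ, t = m := by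
  by_contra hc
  have hv : (2 * ζ - 1) * t ∉ LL.lattice := fun hl => by
    obtain ⟨m, n, e⟩ := mem_LL.mp hl
    have := coord_inj (a := -t - m) (b := 2 * t - n) (by push_cast; linear_combination e)
    exact hc ⟨-m, by push_cast; linarith [this.1]⟩
  have h' : ∀ x : ℝ, ℘[LL] (ln x + (2 * ζ - 1) * t) = ℘[LL] (ln x) := fun x => by
    rw [← h x]; congr 1; simp only [ln]; push_cast; ring
  have hs : ln 0 + (2 * ζ - 1) * t ∉ LL.lattice := by
    have := ln_free (z := t) (by simp)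
    rwa [show ln t = ln 0 + (2 * ζ - 1) * t by simp only [ln]; ring] at this
  generalize (2 * ζ - 1) * t = v at hv h' hs
  have hL : (LL.lattice : Set ℂ).Countable := countable_of_Lindelof_of_discrete (X := LL.lattice)
  let U : Set ℂ := ((LL.lattice : Set ℂ) ∪ (fun u => u + v) ⁻¹' LL.lattice)ᶜ
  have hU : IsPreconnected U := (Set.Countable.isConnected_compl_of_one_lt_rank (by simp)
    (hL.union (hL.preimage (add_left_injective v)))).2
  have a1 : AnalyticOnNhd ℂ (fun u => ℘[LL] (u + v)) U := fun u hu =>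
    (LL.analyticOnNhd_weierstrassP (u + v) fun h => hu (Or.inr h)).comp_of_eq (by fun_prop) rfl
  have a2 : AnalyticOnNhd ℂ ℘[LL] U := fun u hu =>
    LL.analyticOnNhd_weierstrassP u fun h => hu (Or.inl h)
  have ht : Tendsto (fun x : ℝ => ln x) (𝓝[≠] 0) (𝓝[≠] (ln 0)) :=
    tendsto_nhdsWithin_of_tendsto_nhds_of_eventually_within _
      (((by unfold ln; fun_prop : Continuous fun x : ℝ => ln x).tendsto' 0 _ (by simp)).mono_left
        nhdsWithin_le_nhds)
      (eventually_nhdsWithin_of_forall fun x hx e => hx (by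
        have : (2 * ζ - 1) * (x : ℂ) = 0 := by simpa [ln] using e
        simpa [om_ne] using this))
  have h0 : ln 0 ∈ U := fun hh => hh.elim (ln_free (by simp)) hs
  have e := a1.eqOn_of_preconnected_of_frequently_eq a2 hU h0
    (ht.frequently (Eventually.of_forall h').frequently)
  have a3 : AnalyticAt ℂ (fun u => ℘[LL] (u + v)) 0 :=
    (LL.analyticOnNhd_weierstrassP v hv).comp_of_eq (by fun_prop) (zero_add v)
  have e2 : (fun u => ℘[LL] (u + v)) =ᶠ[𝓝[≠] 0] ℘[LL] := by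
    have : ∀ᶠ u in 𝓝 (0 : ℂ), u + v ∉ LL.lattice :=
      (by fun_prop : Continuous fun u : ℂ => u + v).continuousAt.eventually_mem
        (LL.isClosed_lattice.isOpen_compl.mem_nhds (by simpa using hv))
    filter_upwards [ev_notMem LL 0, mem_nhdsWithin_of_mem_nhds this] with u h1 h2
    exact e fun hh => hh.elim h1 h2
  have h3 := a3.meromorphicOrderAt_nonneg
  rw [meromorphicOrderAt_congr e2, LL.order_weierstrassP 0 (zero_mem _)] at h3
  exact absurd h3 (by decide)

theorem exists_Fx {n : ℕ} (hn : 1 ≤ n) {M1 : ℝ} (hM1 : 1 ≤ M1) : ∃ F : Fx, F.n = n ∧ M1 ≤ F.M ∧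
    (1 : ℤ) ∈ AddSubgroup.closure {j | cf (F.Y0.1 * F.Y0.2) j ≠ 0} := by
  obtain ⟨F, G, h, h0, per, hFG⟩ := exists_dixon'
  have hI : (2 * π * Complex.I : ℂ) ≠ 0 := by simp [pi_ne_zero]
  obtain ⟨c, hc⟩ : ∃ c : ℂ, 2 * π * Complex.I * c = 2 * ζ - 1 := ⟨_, mul_div_cancel₀ _ hI⟩
  have c0 : c ≠ 0 := fun e => om_ne (by rw [← hc, e, mul_zero])
  have dl : ∀ z, HasDerivAt ln (2 * ζ - 1) z := fun z =>
    (((hasDerivAt_id z).const_mul (2 * ζ - 1)).add_const (1 / 4)).congr_deriv (mul_one _)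
  have l1 : ∀ z, ln (z + 1) = ln z + (2 * ζ - 1) := fun z => by simp only [ln]; ring
  have fr : ∀ x : ℝ, ln x ∉ LL.lattice := fun x => ln_free (by simp)
  obtain ⟨φ, hφ⟩ := exists_an_strip (f := fun z => c * F (ln z)) (h := 1 / 8) (by norm_num)
    (fun z => by rw [l1, (per _).1]) fun z hz =>
      (((hFG _ (ln_free hz)).1.comp z (dl z)).const_mul c).differentiableAt
  obtain ⟨ψ, hψ⟩ := exists_an_strip (f := fun z => c * G (ln z)) (h := 1 / 8) (by norm_num)
    (fun z => by rw [l1, (per _).2]) fun z hz =>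
      (((hFG _ (ln_free hz)).2.1.comp z (dl z)).const_mul c).differentiableAt
  obtain ⟨r, hr, A, hA⟩ := exists_BB (φ, ψ)
  have hA0 := hA.nonneg
  refine ⟨{ Y0 := (φ, ψ), h := c ^ 3 * h, n := n, ρ0 := min (r / 4) 1, M := M1 + A, hn := hn
            hρ := lt_min (by positivity) one_pos
            hρ1 := min_le_right _ _
            hM := by linarith
            h0 := mul_ne_zero (pow_ne_zero _ c0) h0
            bY := hA.mono (by have := min_le_left (r / 4) 1; linarith) (by linarith)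
            d1 := D_eq_line hφ fun x => (((hFG _ (fr x)).1.comp _ (dl x)).const_mul c).congr_deriv
              (by rw [map_pow, hψ, ← hc]; ring)
            d2 := D_eq_line hψ fun x => (((hFG _ (fr x)).2.1.comp _ (dl x)).const_mul c).congr_deriv
              (by rw [map_pow, hφ, ← hc]; ring)
            hh := An.ext_ev fun x => by
              rw [map_sub, map_pow, map_pow, hφ, hψ, evR_κ, ← (hFG _ (fr x)).2.2.2]; ring },
    rfl, by change _ ≤ M1 + A; linarith, ?_⟩
  change (1 : ℤ) ∈ AddSubgroup.closure {j | cf (φ * ψ) j ≠ 0}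
  obtain ⟨d, hd⟩ := Int.subgroup_cyclic (AddSubgroup.closure {j | cf (φ * ψ) j ≠ 0})
  have key : ∀ t : ℝ, (∃ m : ℤ, d * t = m) → ∃ m : ℤ, t = m := by
    rintro t ⟨m, hm⟩
    have e : sh t (φ * ψ) = φ * ψ := An.ext_cf fun j => by
      by_cases hj : cf (φ * ψ) j = 0
      · rw [cf_sh, hj, mul_zero]
      · have : j ∈ AddSubgroup.closure {d} := hd ▸ AddSubgroup.subset_closure hj
        obtain ⟨i, rfl⟩ := AddSubgroup.mem_closure_singleton.mp this
        have hm' : (d : ℂ) * t = m := by exact_mod_cast hm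
        rw [cf_sh, show 2 * π * Complex.I * ((i • d : ℤ) : ℂ) * t = (i * m : ℤ) * (2 * π * Complex.I) by
          rw [smul_eq_mul]; push_cast; rw [← hm']; ring, Complex.exp_int_mul_two_pi_mul_I, one_mul]
    refine no_period fun x => ?_
    have := congrArg (evR x) e
    rw [evR_sh, map_mul, map_mul, hφ, hψ, hφ, hψ] at this
    rw [← (hFG _ (fr _)).2.2.1, ← (hFG _ (fr _)).2.2.1]
    apply mul_left_cancel₀ (pow_ne_zero 2 c0)
    linear_combination this
  rw [hd, AddSubgroup.mem_closure_singleton]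
  by_cases hd0 : d = 0
  · obtain ⟨m, hm⟩ := key (1 / 2) ⟨0, by simp [hd0]⟩
    have : (2 * m : ℝ) = 1 := by linarith
    have : 2 * m = 1 := by exact_mod_cast this
    omega
  · have hd1 : (d : ℝ) ≠ 0 := by exact_mod_cast hd0
    obtain ⟨m, hm⟩ := key (1 / d) ⟨1, by field_simp; simp⟩
    rw [div_eq_iff hd1] at hm
    exact ⟨m, by rw [smul_eq_mul]; exact_mod_cast hm.symm⟩

lemma stable {P : An} {j : ℤ} (hj : j ∈ AddSubgroup.closure {j | cf P j ≠ 0}) :
    ∃ ε > 0, ∀ f : An, Bd 0 (f - P).1 ε → ∀ Q : AddSubgroup ℤ, Supp (· ∈ Q) f → j ∈ Q := by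
  induction hj using AddSubgroup.closure_induction with
  | mem j hj =>
    have := norm_pos_iff.mpr hj
    refine ⟨‖cf P j‖ / 2, by positivity, fun f hf Q hQ => ?_⟩
    by_contra hc
    exact cf_ne le_rfl hf (by linarith) (hQ j hc)
  | zero => exact ⟨1, one_pos, fun _ _ Q _ => Q.zero_mem⟩
  | add i j _ _ hi hj =>
    obtain ⟨a, ha, hi⟩ := hi
    obtain ⟨b, hb, hj⟩ := hj
    exact ⟨min a b, lt_min ha hb, fun f hf Q hQ => Q.add_mem
      (hi f (hf.mono le_rfl (min_le_left _ _)) Q hQ) (hj f (hf.mono le_rfl (min_le_right _ _)) Q hQ)⟩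
  | neg j _ hj =>
    obtain ⟨a, ha, hj⟩ := hj
    exact ⟨a, ha, fun f hf Q hQ => Q.neg_mem (hj f hf Q hQ)⟩

end Pool.Agent.Lib.MP_77fc3d_an.H2
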