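import Pool.Agent.Lib.MP_77fc3d_an.HD

/-! Invariant circles of the conservative map with non-zero action. -/

open Real Filter Topology

namespace Pool.Agent.Lib.MP_77fc3d_an.H2

/-- Pairs close to the unperturbed solution. -/
structure Sl (F : Fx) where
  β : ℝ
  Y : B
  hβ : 0 < EE β
  hY : BB F.ρ0 (Y - F.Y0) (EE β)

/-- The scale of such a pair. -/
noncomputable def SS (F : Fx) : Sc (Sl F) where
  l := comap (fun p => EE p.β) (𝓝 0)
  e _ := 1
  E p := EE p.β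
  s _ := 1
  he _ := zero_le_one
  hE p := p.hβ
  hs _ := one_pos
  hs1 _ := le_rfl
  hl := tendsto_comap

lemma SS_iff {F : Fx} {Q : Sl F → Prop} (h : ∀ᶠ p in (SS F).l, Q p) :
    ∃ E0 > 0, ∀ p : Sl F, EE p.β < E0 → Q p := by
  obtain ⟨t, ht, h6⟩ := mem_comap.mp h
  obtain ⟨E0, hE0, h7⟩ := Metric.mem_nhds_iff.mp ht
  refine ⟨E0, hE0, fun p hp => h6 (h7 ?_)⟩
  rw [Metric.mem_ball, Real.dist_eq, sub_zero, abs_of_pos p.hβ]; exact hp

lemma BOsmall {P : Type} {S : Sc P} {r : P → ℝ} {x : P → B} (h : BO S r x 0 1 0) {t : ℝ}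
    (ht : 0 < t) : ∀ᶠ p in S.l, BB (r p) (x p) t := by
  obtain ⟨C, hC, h⟩ := h
  filter_upwards [h, S.small' hC ht] with p h1 h2
  rw [S.mon_one] at h1
  exact h1.mono le_rfl h2

lemma close (F : Fx) {t : ℝ} (ht : 0 < t) : ∃ E0 > 0, ∀ p : Sl F, EE p.β < E0 →
    BB 0 (τ (-p.β) p.Y * p.Y - τ 0 F.Y0 * F.Y0) t ∧
    BB 0 (τ (-p.β) p.Y * DB.d p.Y - τ 0 F.Y0 * DB.d F.Y0) t ∧ BB F.ρ0 (κB (kk p.β) * p.Y) t := by
  have hρ := F.hρ
  have z : ∀ _ : Sl F, (0 : ℝ) ≤ 0 := fun _ => le_rfl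
  have z' : ∀ _ : Sl F, (0 : ℝ) ≤ F.ρ0 := fun _ => hρ.le
  have d0 : BO (SS F) (fun _ => F.ρ0) (fun p => p.Y - F.Y0) 0 1 0 :=
    ⟨1, zero_le_one, Eventually.of_forall fun p => by rw [Sc.mon_one, one_mul]; exact p.hY⟩
  have y0 : BO (SS F) (fun _ => F.ρ0) (fun _ => F.Y0) 0 0 0 := BO.fixed F.bY fun _ => by linarith
  have y1 : BO (SS F) (fun _ => F.ρ0) (fun p => p.Y) 0 0 0 :=
    ((d0.w (by norm_num)).add y0).congr (Eventually.of_forall fun p => by ring)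
  have dd {x : Sl F → B} {j : ℤ} (h : BO (SS F) (fun _ => F.ρ0) x 0 j 0) :
      BO (SS F) (fun _ => 0) (fun p => DB.d (x p)) 0 j 0 := (h.der' hρ).rad fun _ => by linarith
  have t1 : BO (SS F) (fun _ => 0) (fun p => τ (-p.β) F.Y0 - τ 0 F.Y0) 0 1 0 :=
    (BO.tau_sub (S := SS F) (x := fun _ => F.Y0) (β := fun p => -p.β)
      (fun p => show EE p.β = EE (-p.β) by rw [EE, EE, abs_neg]) (dd y0)).w (by norm_num)
  have t2 : BO (SS F) (fun _ => 0) (fun p => τ (-p.β) p.Y - τ 0 F.Y0) 0 1 0 :=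
    (((d0.rad z').tau fun p => -p.β).add t1).congr (Eventually.of_forall fun p => by
      simp only [map_sub]; ring)
  have t0 : BO (SS F) (fun _ => 0) (fun _ => τ 0 F.Y0) 0 0 0 := (y0.rad z').tau fun _ => 0
  have h1 : BO (SS F) (fun _ => 0) _ 0 1 0 := ((t2.mul z (y1.rad z')).w (by norm_num)).add
    ((t0.mul z (d0.rad z')).w (by norm_num))
  have h2 : BO (SS F) (fun _ => 0) _ 0 1 0 := ((t2.mul z (dd y1)).w (by norm_num)).add
    ((t0.mul z (dd d0)).w (by norm_num))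
  have ck : CO (SS F) (fun p => kk p.β) 0 1 0 :=
    ⟨2, zero_le_two, Eventually.of_forall fun p => by rw [Sc.mon_one, norm_kk]; rfl⟩
  have h3 : BO (SS F) (fun _ => F.ρ0) _ 0 1 0 := (((BO.const ck _).mul z' y1).w (by norm_num))
  refine SS_iff ?_
  filter_upwards [BOsmall h1 ht, BOsmall h2 ht, BOsmall h3 ht] with p k1 k2 k3
  have e : ∀ a b c d : B, (a - b) * c + b * (c - d) = a * c - b * d := fun a b c d => by ring
  rw [e] at k1
  rw [map_sub, e] at k2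
  exact ⟨k1, k2, k3⟩

lemma Fx.act0 (F : Fx) : cf (τ 0 F.Y0 * DB.d F.Y0).1 0 = F.h / 2 := by
  have h1 := cf0_D (F.Y0.1 * F.Y0.2)
  have h2 := congrArg (cf · 0) F.hh
  rw [D.leib, F.d1, F.d2, cf_add] at h1
  simp only [cf_sub, cf_κ, if_true] at h2
  rw [Prod.fst_mul, τ_fst, DB_fst, sh_zero, F.d1]
  rw [← pow_succ', ← pow_succ'] at h1
  rw [← pow_succ']
  linear_combination h1 / 2 + h2 / 2

/-- The map acting on pairs of functions. -/
noncomputable def TA (a : ℂ) (p : B) : B := (κ a * p.2, p.1 + p.2 ^ 2)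

/-- The componentwise shift. -/
noncomputable def shB (t : ℝ) (p : B) : B := (sh t p.1, sh t p.2)

lemma sh_sh (s t : ℝ) (f : An) : sh s (sh t f) = sh (s + t) f :=
  An.ext_ev fun x => by simp only [evR_sh, add_assoc]

lemma TA_shB (a : ℂ) (t : ℝ) (p : B) : TA a (shB t p) = shB t (TA a p) := by
  simp [TA, shB]

lemma iter_TA {a : ℂ} {t : ℝ} {p : B} (h : (TA a)^[2] p = shB t p) (j : ℕ) :
    (TA a)^[2 * j] p = shB (j * t) p := by
  induction j with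
  | zero => simp [shB, sh_zero]
  | succ j ih =>
    rw [mul_add, mul_one, add_comm, Function.iterate_add_apply, ih,
      (Function.Commute.iterate_left (TA_shB a _) 2).eq, h]
    simp only [shB, sh_sh]
    push_cast; ring_nf

theorem exists_pair (θ : ℝ) {γ : ℝ} (hγ : 0 < γ) {n : ℕ} (hn : 1 ≤ n)
    (hθ : ∀ q p : ℤ, q ≠ 0 → γ / |(q : ℝ)| ^ n ≤ |q * θ - p|) {ε : ℝ} (hε : 0 < ε) :
    ∃ (p : B) (ρ : ℝ) (k : ℕ), 0 < ρ ∧ BB ρ p ε ∧ 1 ≤ k ∧ (TA 1)^[2 * k] p = shB θ p ∧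
      cf (p.1 * D.d p.2) 0 ≠ 0 ∧
      ∀ Q : AddSubgroup ℤ, Supp (· ∈ Q) p.1 → Supp (· ∈ Q) p.2 → 1 ∈ Q := by
  obtain ⟨M1, hM1, H1⟩ := dioT_of hγ hθ
  obtain ⟨F, rfl, hM, hcl⟩ := exists_Fx hn hM1
  obtain ⟨E1, hE1, H2⟩ := kam F
  obtain ⟨η, hη, H3⟩ := stable hcl
  have h0 := norm_pos_iff.mpr F.h0
  obtain ⟨E2, hE2, H4⟩ := close F (t := min ε (min η (‖F.h‖ / 4))) (by positivity)
  have hθ0 : θ ≠ 0 := by
    rintro rfl
    have := hθ 1 0 one_ne_zero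
    simp at this; linarith
  have hE0 := lt_min hE1 hE2
  obtain ⟨k, hk⟩ := exists_nat_gt (max 1 (π * |θ| / min E1 E2))
  have hk1 : (1 : ℝ) < k := (le_max_left _ _).trans_lt hk
  have hk2 := (le_max_right _ _).trans_lt hk
  have hk0 : (0 : ℝ) < k := by linarith
  have hk3 : 1 ≤ k := by exact_mod_cast hk1.le
  have hd := H1 k hk3
  have hkβ : k * (θ / (2 * k) + θ / (2 * k)) = θ := by field_simp; ring
  have hE : EE (θ / (2 * k)) < min E1 E2 := by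
    rw [div_lt_iff₀ hE0] at hk2
    rw [EE, abs_div, abs_of_pos (by positivity : (0 : ℝ) < 2 * k),
      show 2 * π * (|θ| / (2 * k)) = π * |θ| / k by field_simp, div_lt_iff₀ hk0]
    linarith
  have hβ : 0 < EE (θ / (2 * k)) := EE_pos (by positivity)
  generalize θ / (2 * k) = β at hd hkβ hE hβ
  obtain ⟨Y, e0, hY⟩ := H2 β hβ (hd.mono (by linarith) hM) (hE.trans_le (min_le_left _ _))
  obtain ⟨c1, c2, c3⟩ := H4 ⟨β, Y, hβ, hY⟩ (hE.trans_le (min_le_right _ _))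
  have hkk : kk β ≠ 0 := norm_pos_iff.mp (by rw [norm_kk]; positivity)
  have e1 : sh β (sh β Y.1) - κ 1 * Y.1 - κ (kk β) * sh β Y.2 ^ 2 = 0 := congrArg Prod.fst e0
  have e2 : sh β (sh β Y.2) - κ 1 * Y.2 - κ (kk β) * sh β Y.1 ^ 2 = 0 := congrArg Prod.snd e0
  have e3 := congrArg (sh (-β)) e2
  simp only [map_sub, map_mul, map_pow, sh_κ, sh_sh, map_zero, map_one, neg_add_cancel,
    neg_add_cancel_left, sh_zero] at e1 e3
  refine ⟨(κ (kk β) * sh (-β) Y.2, κ (kk β) * Y.1), F.ρ0, k, F.hρ, ⟨?_, ?_⟩, hk3, ?_, ?_, ?_⟩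
  · exact (c3.2.shC (-β)).mono le_rfl (min_le_left _ _)
  · exact c3.1.mono le_rfl (min_le_left _ _)
  · rw [← hkβ]
    refine iter_TA ?_ k
    simp only [Function.iterate_succ, Function.iterate_zero, Function.comp, id, TA, shB, map_mul,
      sh_κ, sh_sh, map_one, add_neg_cancel_right]
    ext1
    · simp only; linear_combination -κ (kk β) * e3
    · simp only
      linear_combination -κ (kk β) * e1 - κ (kk β) ^ 2 * (sh β Y.2 + sh (-β) Y.2 +
        κ (kk β) * Y.1 ^ 2) * e3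
  · have h1 := cf_ne le_rfl (n := 0) c2.1 (g := (τ 0 F.Y0 * DB.d F.Y0).1) (by
      rw [F.act0, norm_div, Complex.norm_ofNat]
      have := (min_le_right ε _).trans (min_le_right η (‖F.h‖ / 4))
      linarith)
    have e : κ (kk β) * sh (-β) Y.2 * D.d (κ (kk β) * Y.1) =
        κ (kk β) * (κ (kk β) * (τ (-β) Y * DB.d Y).1) := by
      rw [D.d_const_mul (D_κ _), Prod.fst_mul, τ_fst, DB_fst]; ring
    simp only [e, cf_κ_mul]
    exact mul_ne_zero hkk (mul_ne_zero hkk h1)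
  · intro Q s1 s2
    have s3 := s1.mul (fun _ _ => Q.add_mem) s2
    refine H3 (sh (-β) Y.2 * Y.1) ?_ Q fun j hj => ?_
    · have := c1.1.mono le_rfl ((min_le_right _ _).trans (min_le_left _ _))
      rwa [Prod.fst_sub, Prod.fst_mul, Prod.fst_mul, τ_fst, τ_fst, sh_zero, mul_comm F.Y0.2] at this
    · have := s3 j hj
      rw [show κ (kk β) * sh (-β) Y.2 * (κ (kk β) * Y.1) =
        κ (kk β) * (κ (kk β) * (sh (-β) Y.2 * Y.1)) by ring, cf_κ_mul, cf_κ_mul] at this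
      simpa [hkk] using this

end Pool.Agent.Lib.MP_77fc3d_an.H2
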