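import Pool.Agent.Lib.MP_77fc3d_an.HE

/-! Herman rings of the conservative map, and the action obstruction. -/

open Real Filter Topology Metric

namespace Pool.Agent.Lib.MP_77fc3d_an.H2

/-- The holomorphic extension of a pair. -/
noncomputable def ph (p : B) (z : ℂ) : ℂ × ℂ := (ext p.1 z, ext p.2 z)

lemma ph_diff {ρ A : ℝ} {p : B} (h : BB ρ p A) :
    DifferentiableOn ℂ (ph p) {z : ℂ | |z.im| < ρ / (2 * π)} :=
  (differentiableOn_ext h.1).prodMk (differentiableOn_ext h.2)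

lemma ph_int (p : B) (z : ℂ) (j : ℤ) : ph p (z + j) = ph p z := by simp only [ph, ext_add_int]

lemma ph_one (p : B) (z : ℂ) : ph p (z + 1) = ph p z := by simpa using ph_int p z 1

lemma ph_real (p : B) (x : ℝ) : ph p x = (evR x p.1, evR x p.2) := by simp only [ph, ext_ofReal]

lemma ph_iter (a : ℂ) (x : ℝ) (m : ℕ) (p : B) :
    ph ((TA a)^[m] p) x = (fun p : ℂ × ℂ => (a * p.2, p.1 + p.2 ^ 2))^[m] (ph p x) := by
  induction m with
  | zero => rfl
  | succ m ih =>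
    rw [Function.iterate_succ_apply', Function.iterate_succ_apply', ← ih]
    simp [ph_real, TA]

lemma ph_shB (t x : ℝ) (p : B) : ph (shB t p) x = ph p (x + t) := by
  rw [← Complex.ofReal_add, ph_real, ph_real]; simp only [shB, evR_sh]

lemma ph_rot {ρ A θ : ℝ} {a : ℂ} {m : ℕ} {p : B} (hρ : 0 < ρ) (h : BB ρ p A)
    (e : (TA a)^[m] p = shB θ p) {z : ℂ} (hz : |z.im| < ρ / (2 * π)) :
    (fun p : ℂ × ℂ => (a * p.2, p.1 + p.2 ^ 2))^[m] (ph p z) = ph p (z + θ) := by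
  have d1 := ((by fun_prop : Differentiable ℂ fun p : ℂ × ℂ => (a * p.2, p.1 + p.2 ^ 2)).iterate
    m).comp_differentiableOn (ph_diff h)
  have e1 : ∀ x : ℝ, (fun p : ℂ × ℂ => (a * p.2, p.1 + p.2 ^ 2))^[m] (ph p x) = ph p (x + θ) :=
    fun x => by rw [← ph_iter, e, ph_shB]
  exact Prod.ext
    (strip_ext (by positivity) d1.fst (diff_shift (differentiableOn_ext h.1) θ)
      (fun x => congrArg Prod.fst (e1 x)) hz)
    (strip_ext (by positivity) d1.snd (diff_shift (differentiableOn_ext h.2) θ)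
      (fun x => congrArg Prod.snd (e1 x)) hz)

lemma norm_ext_le {ρ A : ℝ} {f : An} (h : Bd ρ f.1 A) {z : ℂ} (hz : |z.im| < ρ / (2 * π)) :
    ‖ext f z‖ ≤ A :=
  (tsum_of_norm_bounded h.summable.hasSum fun n => norm_term_le f n hz).trans h.tsum_le

/-- The action of a pair. -/
noncomputable def act (p : B) : ℂ := cf (p.1 * D.d p.2) 0

lemma act_TA (a : ℂ) (p : B) : act (TA a p) = -a * act p := by
  have c1 := cf0_D (p.1 * p.2)
  have c2 := cf0_D (p.2 ^ 3)
  rw [D.leib, cf_add] at c1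
  rw [D.d_pow] at c2
  have e : κ a * p.2 * D.d (p.1 + p.2 ^ 2) = κ a * (p.2 * D.d p.1) +
      κ (2 * a / 3) * (((3 : ℕ) : An) * p.2 ^ (3 - 1) * D.d p.2) := by
    have : κ (2 * a / 3) * 3 = 2 * κ a := by
      rw [← map_ofNat κ 3, ← map_ofNat κ 2, ← map_mul, ← map_mul]; congr 1; ring
    rw [map_add, D.d_pow]
    push_cast
    linear_combination (-p.2 ^ 2 * D.d p.2) * this
  simp only [act, TA, e, cf_add, cf_κ_mul, c2]
  linear_combination a * c1

lemma act_iter (a : ℂ) (m : ℕ) (p : B) : act ((TA a)^[m] p) = (-a) ^ m * act p := by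
  induction m with
  | zero => simp
  | succ m ih => rw [Function.iterate_succ_apply', act_TA, ih]; ring

lemma act_shB (t : ℝ) (p : B) : act (shB t p) = act p := by
  simp only [act, shB, D_sh, ← map_mul, cf0_sh]

lemma act_zero {a : ℂ} (ha : ‖a‖ < 1) {m : ℕ} (hm : 1 ≤ m) {t : ℝ} {p : B}
    (e : (TA a)^[m] p = shB t p) : act p = 0 := by
  have h := act_iter a m p
  rw [e, act_shB] at h
  by_contra hc
  have h1 : (-a) ^ m = 1 := mul_right_cancel₀ hc (by rw [← h, one_mul])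
  have h2 := pow_lt_one₀ (norm_nonneg a) ha (by omega : m ≠ 0)
  rw [← norm_neg, ← norm_pow, h1, norm_one] at h2
  exact lt_irrefl _ h2

lemma act_side {Q : ℤ → Prop} (hQ : ∀ k, Q k → Q (-k) → k = 0) {p : B} (h1 : Supp Q p.1)
    (h2 : Supp Q p.2) : act p = 0 := by
  refine (hasSum_cf_mul p.1 (D.d p.2) 0).unique ?_
  have : (fun k => cf p.1 k * cf (D.d p.2) (0 - k)) = fun _ => 0 := funext fun k => by
    rw [cf_D, zero_sub]
    by_cases h : Q k
    · by_cases h' : Q (-k)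
      · simp [hQ k h h']
      · rw [h2 _ h']; ring
    · rw [h1 k h, zero_mul]
  rw [this]
  exact hasSum_zero

lemma cf_shift {ρ A : ℝ} {f g : An} (hf : Bd ρ f.1 A) {c : ℂ} (hc : |c.im| < ρ / (2 * π))
    (e : ∀ x : ℝ, evR x g = ext f (x + c)) (n : ℤ) :
    cf g n = cf f n * Complex.exp (2 * π * Complex.I * n * c) := by
  have hs : Summable fun n : ℤ => ‖cf f n * Complex.exp (2 * π * Complex.I * n * c)‖ :=
    hf.summable.of_nonneg_of_le (fun _ => norm_nonneg _) fun n => norm_term_le f n hc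
  have : g.1 = synth fun n : ℤ => cf f n * Complex.exp (2 * π * Complex.I * n * c) := by
    ext x
    induction x using QuotientAddGroup.induction_on with
    | H x =>
      have := ContinuousMap.hasSum_apply (hasSum_synth hs) (x : UnitAddCircle)
      rw [← this.tsum_eq, ← evR_apply, e, ext]
      refine tsum_congr fun n => ?_
      simp only [ContinuousMap.smul_apply, fourier_coe_apply, smul_eq_mul, mul_add, Complex.exp_add]
      simp only [Complex.ofReal_one, div_one]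
      ring
  rw [cf, this, fc_synth hs]

lemma act_shift {ρ A : ℝ} {p q : B} (h : BB ρ p A) {c : ℂ} (hc : |c.im| < ρ / (2 * π))
    (e : ∀ x : ℝ, ph q x = ph p (x + c)) : act q = act p := by
  have e1 := cf_shift h.1 hc (g := q.1) fun x => by
    rw [← ext_ofReal]; exact congrArg Prod.fst (e x)
  have e2 := cf_shift h.2 hc (g := q.2) fun x => by
    rw [← ext_ofReal]; exact congrArg Prod.snd (e x)
  refine (hasSum_cf_mul q.1 (D.d q.2) 0).unique ((hasSum_cf_mul p.1 (D.d p.2) 0).congr_fun fun k => ?_)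
  have : Complex.exp (2 * π * Complex.I * k * c) *
      Complex.exp (2 * π * Complex.I * (0 - k : ℤ) * c) = 1 := by
    rw [← Complex.exp_add, ← Complex.exp_zero]; congr 1; push_cast; ring
  simp only [cf_D, e1, e2]
  linear_combination (cf p.1 k * ((0 - k : ℤ) : ℂ) * cf p.2 (0 - k)) * this

lemma exists_restr {ψ : ℂ → ℂ × ℂ} {h : ℝ} (hh : 0 < h)
    (hd : DifferentiableOn ℂ ψ {z : ℂ | |z.im| < h}) (hp : ∀ z, ψ (z + 1) = ψ z) :
    ∃ q : B, ∀ x : ℝ, ph q x = ψ x := by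
  have hd' : ∀ z : ℂ, |z.im| < h → DifferentiableAt ℂ ψ z := fun z hz =>
    hd.differentiableAt ((isOpen_strip h).mem_nhds hz)
  obtain ⟨u, hu⟩ := exists_an_strip (f := fun z => (ψ z).1) hh (fun z => by rw [hp])
    fun z hz => (hd' z hz).fst
  obtain ⟨v, hv⟩ := exists_an_strip (f := fun z => (ψ z).2) hh (fun z => by rw [hp])
    fun z hz => (hd' z hz).snd
  exact ⟨(u, v), fun x => by rw [ph_real, hu, hv]⟩

lemma B_ext {p q : B} (h : ∀ x : ℝ, ph p x = ph q x) : p = q :=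
  Prod.ext (An.ext_ev fun x => by simpa only [ph_real] using congrArg Prod.fst (h x))
    (An.ext_ev fun x => by simpa only [ph_real] using congrArg Prod.snd (h x))

lemma cf_le {f : An} {K : ℝ} (h : ∀ x : ℝ, ‖evR x f‖ ≤ K) : ‖cf f 0‖ ≤ K := by
  refine (norm_fc_le _ _).trans ((ContinuousMap.norm_le _ ((norm_nonneg _).trans (h 0))).mpr fun x => ?_)
  induction x using QuotientAddGroup.induction_on with
  | H x => exact h x

lemma cauchy_D {f : An} {g : ℂ → ℂ} {h δ : ℝ} (hh : 0 < h)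
    (hg : DifferentiableOn ℂ g {z : ℂ | |z.im| < h}) (e : ∀ x : ℝ, evR x f = g x)
    (hδ : ∀ z : ℂ, |z.im| < h → ‖g z‖ ≤ δ) (x : ℝ) : ‖evR x (D.d f)‖ ≤ δ / h := by
  have hb : ∀ z ∈ closedBall (x : ℂ) (h / 2), |z.im| < h := fun z hz => by
    have := (Complex.abs_im_le_norm (z - x)).trans (mem_closedBall_iff_norm.mp hz)
    simp only [Complex.sub_im, Complex.ofReal_im, sub_zero] at this
    linarith
  have h1 := Complex.norm_deriv_le_of_forall_mem_sphere_norm_le (half_pos hh)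
    (hg.diffContOnCl_ball hb) fun z hz => hδ z (hb z (sphere_subset_closedBall hz))
  have h2 := (hg.differentiableAt ((isOpen_strip h).mem_nhds
    (hb x (mem_closedBall_self (half_pos hh).le)))).hasDerivAt.comp_ofReal
  have h3 := (hasDerivAt_evR f x).unique (by simpa only [e] using h2)
  rw [← h3, norm_mul, show ‖(2 * π * Complex.I : ℂ)‖ = 2 * π by simp [abs_of_pos pi_pos],
    show δ / (h / 2) = 2 * (δ / h) by field_simp] at h1
  nlinarith [pi_gt_three, norm_nonneg (evR x (D.d f))]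

theorem far {φ : ℂ → ℂ × ℂ} {h : ℝ} (hh : 0 < h) (hφ : DifferentiableOn ℂ φ {z : ℂ | |z.im| < h})
    {p : B} (hp : ∀ x : ℝ, ph p x = φ x) (h0 : act p ≠ 0) :
    ∃ δ > 0, ∀ (ψ : ℂ → ℂ × ℂ) (q : B), DifferentiableOn ℂ ψ {z : ℂ | |z.im| < h} →
      (∀ x : ℝ, ph q x = ψ x) → act q = 0 → ∃ z : ℂ, |z.im| < h ∧ δ ≤ ‖ψ z - φ z‖ := by
  have n0 := norm_pos_iff.mpr h0
  obtain ⟨K, hK, k1, k2⟩ : ∃ K > 0, (∀ x : ℝ, ‖evR x (D.d p.1)‖ ≤ K) ∧
      ∀ x : ℝ, ‖evR x (D.d p.2)‖ ≤ K := by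
    have a := norm_nonneg (D.d p.1).1
    have b := norm_nonneg (D.d p.2).1
    exact ⟨‖(D.d p.1).1‖ + ‖(D.d p.2).1‖ + 1, by positivity,
      fun x => ((D.d p.1).1.norm_coe_le_norm _).trans (by linarith),
      fun x => ((D.d p.2).1.norm_coe_le_norm _).trans (by linarith)⟩
  refine ⟨min h (‖act p‖ / (2 * K + 2)), lt_min hh (by positivity), fun ψ q hψ hq a0 => ?_⟩
  by_contra hc
  push Not at hc
  generalize hδ : min h (‖act p‖ / (2 * K + 2)) = δ at hc
  have d0 : 0 < δ := hδ ▸ lt_min hh (by positivity)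
  have d1 : δ / h ≤ 1 := by rw [div_le_one hh, ← hδ]; exact min_le_left _ _
  have d2 : δ * (2 * K + 2) ≤ ‖act p‖ := by
    rw [← le_div_iff₀ (by positivity), ← hδ]; exact min_le_right _ _
  have e : ∀ x : ℝ, (evR x (q.1 - p.1), evR x (q.2 - p.2)) = ψ x - φ x := fun x => by
    rw [← hq, ← hp, ph_real, ph_real, map_sub, map_sub]; rfl
  have b1 : ∀ x : ℝ, ‖evR x (q.1 - p.1)‖ ≤ δ := fun x =>
    (norm_fst_le (evR x (q.1 - p.1), evR x (q.2 - p.2))).trans (e x ▸ (hc x (by simpa using hh)).le)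
  have b2 : ∀ x : ℝ, ‖evR x (q.2 - p.2)‖ ≤ δ := fun x =>
    (norm_snd_le (evR x (q.1 - p.1), evR x (q.2 - p.2))).trans (e x ▸ (hc x (by simpa using hh)).le)
  have b3 := cauchy_D (f := q.2 - p.2) hh (hψ.sub hφ).snd (fun x => congrArg Prod.snd (e x))
    fun z hz => (norm_snd_le _).trans (hc z hz).le
  have c1 := cf0_D (p.1 * (q.2 - p.2))
  rw [D.leib, cf_add] at c1
  have e2 : -act p = cf ((q.1 - p.1) * D.d p.2 - (q.2 - p.2) * D.d p.1 +
      (q.1 - p.1) * D.d (q.2 - p.2)) 0 := by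
    have : (q.1 - p.1) * D.d p.2 + (q.1 - p.1) * D.d (q.2 - p.2) + p.1 * D.d (q.2 - p.2) =
        q.1 * D.d q.2 - p.1 * D.d p.2 := by rw [map_sub]; ring
    have := congrArg (cf · 0) this
    simp only [cf_add, cf_sub (q.1 * _)] at this
    rw [cf_add, cf_sub ((q.1 - p.1) * _)]
    unfold act at a0 ⊢
    linear_combination c1 - this - a0
  have b4 := cf_le (f := (q.1 - p.1) * D.d p.2 - (q.2 - p.2) * D.d p.1 +
      (q.1 - p.1) * D.d (q.2 - p.2)) (K := δ * K + δ * K + δ * 1) fun x => by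
    rw [map_add, map_sub, map_mul, map_mul, map_mul]
    refine (norm_add_le _ _).trans (add_le_add ((norm_sub_le _ _).trans (add_le_add ?_ ?_)) ?_) <;>
      rw [norm_mul]
    · exact mul_le_mul (b1 x) (k2 x) (norm_nonneg _) d0.le
    · exact mul_le_mul (b2 x) (k1 x) (norm_nonneg _) d0.le
    · exact mul_le_mul (b1 x) ((b3 x).trans d1) (norm_nonneg _) d0.le
  rw [← e2, norm_neg] at b4
  nlinarith

lemma dio_int {θ γ : ℝ} (hγ : 0 < γ) {n : ℕ}
    (h : ∀ (q : ℕ) (p : ℤ), 0 < q → γ / (q : ℝ) ^ n ≤ |q * θ - p|) (q p : ℤ) (hq : q ≠ 0) :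
    γ / |(q : ℝ)| ^ (n + 1) ≤ |q * θ - p| := by
  have h1 : (1 : ℝ) ≤ |(q : ℝ)| := by exact_mod_cast Int.one_le_abs hq
  have h2 : γ / |(q : ℝ)| ^ (n + 1) ≤ γ / |(q : ℝ)| ^ n := by gcongr; omega
  refine h2.trans ?_
  obtain ⟨m, rfl | rfl⟩ := Int.eq_nat_or_neg q
  · simpa using h m p (by omega)
  · have := h m (-p) (by omega)
    rw [← abs_neg (_ - _)]
    simpa [sub_eq_add_neg, add_comm] using this

lemma dio_irr {θ γ : ℝ} (hγ : 0 < γ) {n : ℕ}
    (h : ∀ (q : ℕ) (p : ℤ), 0 < q → γ / (q : ℝ) ^ n ≤ |q * θ - p|) : Irrational θ := by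
  rintro ⟨r, rfl⟩
  have h1 := h r.den r.num r.den_pos
  have h2 : (r.den : ℝ) * r - r.num = 0 := by
    have := Rat.mul_den_eq_num r
    have h3 : (r : ℝ) * r.den = r.num := by exact_mod_cast this
    linarith
  have h3 : (0 : ℝ) < r.den := by exact_mod_cast r.den_pos
  have : 0 < γ / (r.den : ℝ) ^ n := by positivity
  rw [h2, abs_zero] at h1
  linarith

lemma ph_inj {ρ A θ : ℝ} (hθ : Irrational θ) {m : ℕ} {p : B} (hρ : 0 < ρ) (h : BB ρ p A)
    (e : (TA 1)^[m] p = shB θ p)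
    (hQ : ∀ Q : AddSubgroup ℤ, Supp (· ∈ Q) p.1 → Supp (· ∈ Q) p.2 → 1 ∈ Q) {z w : ℂ}
    (hz : |z.im| < ρ / (2 * π)) (hw : |w.im| < ρ / (2 * π)) (e0 : ph p z = ph p w) :
    ∃ m : ℤ, z = w + m := by
  have hinj : Function.Injective fun p : ℂ × ℂ => (1 * p.2, p.1 + p.2 ^ 2) := fun p q h => by
    have h2 : p.2 = q.2 := mul_left_cancel₀ one_ne_zero (congrArg Prod.fst h)
    have h1 : p.1 + p.2 ^ 2 = q.1 + q.2 ^ 2 := congrArg Prod.snd h
    rw [h2] at h1
    exact Prod.ext (add_right_cancel h1) h2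
  have hc : ∀ {z : ℂ}, |z.im| < ρ / (2 * π) → Continuous fun x : ℝ => ph p (z + x) := fun hz =>
    (ph_diff h).continuousOn.comp_continuous (by fun_prop) fun x => by simpa using hz
  have h1 := orbit_eq hθ (hc hz) (hc hw) (by simpa using e0) (fun x => by
    simp only [Complex.ofReal_add, ← add_assoc]
    rw [← ph_rot hρ h e (z := z + x) (by simpa using hz),
      ← ph_rot hρ h e (z := w + x) (by simpa using hw)]
    exact (hinj.iterate _).eq_iff.symm) (fun x => by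
    simp only [Complex.ofReal_add, ← add_assoc, Complex.ofReal_one, ph_one])
  have s1 := supp_of_eq h.1 hz hw fun x => congrArg Prod.fst (congrFun h1 x)
  have s2 := supp_of_eq h.2 hz hw fun x => congrArg Prod.snd (congrFun h1 x)
  let Q : AddSubgroup ℤ :=
    { carrier := {n | Complex.exp (2 * π * Complex.I * n * (z - w)) = 1}
      add_mem' := fun {i j} hi hj => by
        have := Complex.exp_add (2 * π * Complex.I * i * (z - w)) (2 * π * Complex.I * j * (z - w))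
        rw [hi, hj, one_mul] at this
        rw [Set.mem_ofPred_eq, ← this]; congr 1; push_cast; ring
      zero_mem' := by simp
      neg_mem' := fun {i} hi => by
        have := Complex.exp_neg (2 * π * Complex.I * i * (z - w))
        rw [hi, inv_one] at this
        rw [Set.mem_ofPred_eq, ← this]; congr 1; push_cast; ring }
  obtain ⟨n, hn⟩ := Complex.exp_eq_one_iff.mp (hQ Q s1 s2)
  refine ⟨n, ?_⟩
  have h2 : (2 * π * Complex.I : ℂ) ≠ 0 := by simp [pi_ne_zero]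
  apply mul_left_cancel₀ h2
  push_cast at hn
  linear_combination hn

theorem rings (θ : ℝ)
    (hθ : ∃ γ : ℝ, 0 < γ ∧ ∃ n : ℕ, ∀ (q : ℕ) (p : ℤ), 0 < q → γ / (q : ℝ) ^ n ≤ |q * θ - p|)
    (ε : ℝ) (hε : 0 < ε) : ∃ h : ℝ, 0 < h ∧ ∃ φ : ℂ → ℂ × ℂ,
      DifferentiableOn ℂ φ {z : ℂ | |z.im| < h} ∧ (∀ z, φ (z + 1) = φ z) ∧
      (∀ z w : ℂ, |z.im| < h → |w.im| < h → φ z = φ w → ∃ m : ℤ, z = w + m) ∧
      (∃ n : ℕ, 2 ≤ n ∧ ∀ z : ℂ, |z.im| < h →
        (fun p : ℂ × ℂ => (p.2, p.1 + p.2 ^ 2))^[n] (φ z) = φ (z + θ)) ∧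
      (∀ z : ℂ, |z.im| < h → ‖φ z‖ < ε) ∧
      (∀ ψ : ℂ → ℂ × ℂ, DiffContOnCl ℂ ψ (ball 0 1) →
        (¬ ∀ x : ℝ, φ x = ψ (Complex.exp (2 * π * Complex.I * x))) ∧
        ¬ ∀ x : ℝ, φ x = ψ (Complex.exp (-(2 * π * Complex.I * x)))) ∧
      ∀ (c : ℂ) (h' : ℝ), 0 < h' → |c.im| + h' ≤ h → ∃ δ : ℝ, 0 < δ ∧
        ∀ a : ℂ, ‖a‖ < 1 → ∀ m : ℕ, 1 ≤ m → ∀ (t : ℝ) (ψ : ℂ → ℂ × ℂ),
          DifferentiableOn ℂ ψ {z : ℂ | |z.im| < h'} → (∀ z, ψ (z + 1) = ψ z) →
          (∀ z : ℂ, |z.im| < h' →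
            (fun p : ℂ × ℂ => (a * p.2, p.1 + p.2 ^ 2))^[m] (ψ z) = ψ (z + t)) →
          ∃ z : ℂ, |z.im| < h' ∧ δ ≤ ‖ψ z - φ (z + c)‖ := by
  obtain ⟨γ, hγ, n, hθ⟩ := hθ
  obtain ⟨p, ρ, k, hρ, hb, hk, e, a0, hQ⟩ := exists_pair θ hγ (n := n + 1) (by omega)
    (dio_int hγ hθ) (half_pos hε)
  refine ⟨ρ / (2 * π), by positivity, ph p, ph_diff hb, ph_one p,
    fun z w => ph_inj (dio_irr hγ hθ) hρ hb e hQ, ⟨2 * k, by omega, fun z hz => ?_⟩,
    fun z hz => ?_, fun ψ hψ => ?_, fun c h' h0 hc => ?_⟩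
  · simpa only [one_mul] using ph_rot hρ hb e hz
  · exact (max_le (norm_ext_le hb.1 hz) (norm_ext_le hb.2 hz)).trans_lt (half_lt_self hε)
  · have g1 : DiffContOnCl ℂ (fun z => (ψ z).1) (ball 0 1) := differentiable_fst.comp_diffContOnCl hψ
    have g2 : DiffContOnCl ℂ (fun z => (ψ z).2) (ball 0 1) := differentiable_snd.comp_diffContOnCl hψ
    refine ⟨fun h => a0 ?_, fun h => a0 ?_⟩
    · exact act_side (Q := (0 ≤ ·)) (fun k => by omega)
        (side_pos g1 fun x => by rw [← h, ph_real]) (side_pos g2 fun x => by rw [← h, ph_real])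
    · exact act_side (Q := (· ≤ 0)) (fun k => by omega)
        (side_neg g1 fun x => by rw [← h, ph_real]) (side_neg g2 fun x => by rw [← h, ph_real])
  · have hd : DifferentiableOn ℂ (fun z => ph p (z + c)) {z : ℂ | |z.im| < h'} :=
      (ph_diff hb).comp (f := fun z : ℂ => z + c) (by fun_prop) fun z hz => by
        have h1 := abs_add_le z.im c.im
        have h2 : |z.im| < h' := hz
        simp only [Set.mem_ofPred_eq, Complex.add_im]
        linarith
    obtain ⟨p', hp'⟩ := exists_restr h0 hd fun z => by rw [add_right_comm, ph_one]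
    obtain ⟨δ, hδ, H⟩ := far h0 hd hp' (by rw [act_shift hb (by linarith) hp']; exact a0)
    refine ⟨δ, hδ, fun a ha m hm t ψ d1 d2 d3 => ?_⟩
    obtain ⟨q, hq⟩ := exists_restr h0 d1 d2
    refine H ψ q d1 hq (act_zero ha hm (t := t) (B_ext fun x => ?_))
    rw [ph_iter, ph_shB, hq, d3 x (by simpa using h0), ← Complex.ofReal_add, hq]

end Pool.Agent.Lib.MP_77fc3d_an.H2
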