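import Pool.Agent.Lib.MP_77fc3d_an.Big

/-! One step of the quasi-Newton scheme. -/

open Real Filter Topology

namespace Pool.Agent.Lib.MP_77fc3d_an

/-- The coefficient of the quadratic term. -/
noncomputable def kk (β : ℝ) : ℂ := 4 * π * Complex.I * β

lemma norm_kk (β : ℝ) : ‖kk β‖ = 2 * EE β := by
  simp only [kk, EE, norm_mul, Complex.norm_real, Complex.norm_I, Real.norm_eq_abs,
    Complex.norm_ofNat, abs_of_pos pi_pos]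
  ring

/-- The data that do not depend on the small parameter. -/
structure Fix where
  N : B
  Y0 : B
  W0 : B
  ρ0 : ℝ
  M : ℝ
  hρ : 0 < ρ0
  hρ1 : ρ0 ≤ 1
  hM : 1 ≤ M
  bN : BB (4 * ρ0) N M
  bY : BB (4 * ρ0) Y0 M
  bW : BB (4 * ρ0) W0 M
  hW : (DB.d Y0 * τ 0 N - N * τ 0 (DB.d Y0)) * W0 = 1
  hres : res (τ 0 (DB.d Y0) * Y0) = 0
  hmn : mn (-(Y0 * τ 0 N * τ 0 W0)) = 1

/-- Admissible approximate solutions. -/
structure Adm (F : Fix) where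
  β : ℝ
  a : ℂ
  Y : B
  ρ : ℝ
  σ : ℝ
  e : ℝ
  hβ : 0 < EE β
  he : 0 ≤ e
  hσ : 0 < σ
  hσ1 : σ ≤ 1
  hρ1 : F.ρ0 + 3 * σ ≤ ρ
  hρ2 : ρ ≤ 2 * F.ρ0
  dio : Dio F.M β
  ha1 : EE β ^ 9 / F.M ≤ 1 - ‖a‖
  ha2 : ‖a - ex β 2‖ ≤ F.M * EE β ^ 3
  ha3 : EE β ^ 3 / F.M ≤ ‖a - ex β 2‖
  hY : BB ρ (Y - F.Y0) (F.M * EE β)
  hT : BB ρ (DB.d Y - DB.d F.Y0) (F.M * EE β)
  hL : BB ρ (Lin (τ β) (κB (kk β)) (κB a) Y F.N) (F.M * EE β ^ 3)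
  hE : BB ρ (Err (τ β) (κB (kk β)) (κB a) Y) (EE β * e)

variable {F : Fix}

/-- The scales of an admissible approximate solution. -/
noncomputable def SA (F : Fix) : Sc (Adm F) where
  l := comap (fun p => EE p.β) (𝓝 0)
  e p := p.e
  E p := EE p.β
  s p := p.σ
  he p := p.he
  hE p := p.hβ
  hs p := p.hσ
  hs1 p := p.hσ1
  hl := tendsto_comap

namespace Adm

variable (p : Adm F)

lemma norm_a_lt : ‖p.a‖ < 1 := by
  have h1 := p.ha1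
  have h2 := p.hβ
  have h3 := F.hM
  have : 0 < EE p.β ^ 9 / F.M := by positivity
  linarith

lemma ne1 (j : ℤ) : ex p.β j + p.a ≠ 0 := fun h => by
  have h1 := p.norm_a_lt
  rw [← neg_eq_of_add_eq_zero_right h, norm_neg, norm_ex] at h1
  exact lt_irrefl _ h1

lemma ne2 (j : ℤ) : -ex p.β j + p.a ≠ 0 := fun h => by
  have h1 := p.norm_a_lt
  rw [← neg_eq_of_add_eq_zero_right h, norm_neg, norm_neg, norm_ex] at h1
  exact lt_irrefl _ h1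

lemma sd1 (h : EE p.β ≤ 1) {σ : ℝ} (hσ : 0 < σ) (hσ1 : σ ≤ 1) (j : ℤ) :
    ‖(ex p.β j + p.a)⁻¹‖ ≤ 16000 * F.M ^ 9 * (EE p.β)⁻¹ * σ⁻¹ ^ 4 * wt σ j := by
  simpa using small_div p.dio F.hM p.hβ h p.ha1 p.ha2 hσ hσ1 (s := 1) (j := j) (Or.inl rfl)

lemma sd2 (h : EE p.β ≤ 1) {σ : ℝ} (hσ : 0 < σ) (hσ1 : σ ≤ 1) (j : ℤ) (hj : j ≠ 2) :
    ‖(-ex p.β j + p.a)⁻¹‖ ≤ 16000 * F.M ^ 9 * (EE p.β)⁻¹ * σ⁻¹ ^ 4 * wt σ j := by
  simpa using small_div p.dio F.hM p.hβ h p.ha1 p.ha2 hσ hσ1 (s := -1) (j := j) (Or.inr ⟨rfl, hj⟩)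

lemma sd3 (h : EE p.β ≤ 1) {σ : ℝ} (hσ : 0 < σ) (hσ1 : σ ≤ 1) (j : ℤ) :
    ‖(ex p.β j + -1)⁻¹‖ ≤ 2 * F.M * (EE p.β)⁻¹ * σ⁻¹ * wt σ j := by
  simpa using small_div_neg p.dio F.hM p.hβ h hσ hσ1 (s := 1) j (Or.inl rfl)

lemma sd4 (h : EE p.β ≤ 1) {σ : ℝ} (hσ : 0 < σ) (hσ1 : σ ≤ 1) (j : ℤ) :
    ‖(-ex p.β j + -1)⁻¹‖ ≤ 2 * F.M * (EE p.β)⁻¹ * σ⁻¹ * wt σ j := by
  simpa using small_div_neg p.dio F.hM p.hβ h hσ hσ1 (s := -1) j (Or.inr rfl)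

lemma se1 (h : EE p.β ≤ 1) : SubExp fun j => (ex p.β j + p.a)⁻¹ := subExp_of fun σ hσ hσ1 =>
  ⟨_, by have := p.hβ; have := F.hM; positivity, fun j _ => p.sd1 h hσ hσ1 j⟩

lemma se2 (h : EE p.β ≤ 1) : SubExp fun j => (-ex p.β j + p.a)⁻¹ := subExp_of fun σ hσ hσ1 =>
  ⟨_, by have := p.hβ; have := F.hM; positivity, fun j hj => p.sd2 h hσ hσ1 j hj⟩

lemma se3 (h : EE p.β ≤ 1) : SubExp fun j => (ex p.β j + -1)⁻¹ := subExp_of fun σ hσ hσ1 =>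
  ⟨_, by have := p.hβ; have := F.hM; positivity, fun j _ => p.sd3 h hσ hσ1 j⟩

lemma se4 (h : EE p.β ≤ 1) : SubExp fun j => (-ex p.β j + -1)⁻¹ := subExp_of fun σ hσ hσ1 =>
  ⟨_, by have := p.hβ; have := F.hM; positivity, fun j _ => p.sd4 h hσ hσ1 j⟩

lemma sol_a (h : EE p.β ≤ 1) (r : B) : τ p.β (sol p.β p.a r) + κB p.a * sol p.β p.a r = r :=
  sol_eq (p.se1 h) (p.se2 h) (fun j hj => absurd hj (p.ne1 j)) p.ne2

lemma sol_neg (h : EE p.β ≤ 1) {r : B} (hr : mn r = 0) :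
    τ p.β (sol p.β (-1) r) - sol p.β (-1) r = r := by
  have hp : ∀ j : ℤ, j ≠ 0 → 0 < EE p.β / (F.M * |(j : ℝ)|) := fun j hj => by
    have : 0 < |(j : ℝ)| := abs_pos.mpr (by exact_mod_cast hj)
    have := p.hβ; have := F.hM; positivity
  have := sol_eq (r := r) (p.se3 h) (p.se4 h) (fun j hj => by
    by_cases h0 : j = 0
    · subst h0; exact hr
    · have h1 := (hp j h0).trans_le (p.dio j h0).1
      rw [sub_eq_add_neg, hj, norm_zero] at h1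
      exact absurd h1 (lt_irrefl _)) (fun j hj => by
    by_cases h0 : j = 0
    · subst h0; rw [ex_zero] at hj; norm_num at hj
    · have h1 := (hp j h0).trans_le (p.dio j h0).2
      rw [show ex p.β j + 1 = -(-ex p.β j + -1) by ring, hj, neg_zero, norm_zero] at h1
      exact absurd h1 (lt_irrefl _))
  rw [map_neg, map_one] at this
  linear_combination this

lemma sol_a_bd (h : EE p.β ≤ 1) {σ ρ A A' : ℝ} (hσ : 0 < σ) (hσ1 : σ ≤ 1) (hρ : ρ ≤ 2) {r : B}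
    (hr : BB ρ r A) (hr' : ‖res r‖ ≤ A' * EE p.β ^ 2) :
    BB (ρ - σ) (sol p.β p.a r)
      ((32000 * F.M ^ 9 * A + F.M * wt 2 2 * A') * (EE p.β)⁻¹ * σ⁻¹ ^ 4) := by
  have hE := p.hβ
  have hM := F.hM
  refine (sol_bd (p.se1 h) (p.se2 h) (by positivity) hσ.le (p.sd1 h hσ hσ1) (p.sd2 h hσ hσ1) hr).mono
    le_rfl ?_
  have h1 : ‖(-ex p.β 2 + p.a)⁻¹‖ ≤ F.M / EE p.β ^ 3 := by
    rw [norm_inv, neg_add_eq_sub, ← inv_div]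
    exact inv_anti₀ (by positivity) p.ha3
  have h2 : 1 ≤ σ⁻¹ ^ 4 := one_le_pow₀ ((one_le_inv₀ hσ).mpr hσ1)
  have h3 := wt_mono hρ 2
  have h4 := wt_pos ρ 2
  have hA' : 0 ≤ A' := by
    have := (norm_nonneg _).trans hr'
    exact nonneg_of_mul_nonneg_left this (by positivity)
  have h5 : ‖(-ex p.β 2 + p.a)⁻¹‖ * ‖res r‖ * wt ρ 2 ≤
      F.M / EE p.β ^ 3 * (A' * EE p.β ^ 2) * wt 2 2 := by gcongr
  have h6 : F.M / EE p.β ^ 3 * (A' * EE p.β ^ 2) * wt 2 2 = F.M * wt 2 2 * A' * (EE p.β)⁻¹ * 1 := by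
    field_simp
  have h7 : F.M * wt 2 2 * A' * (EE p.β)⁻¹ * 1 ≤ F.M * wt 2 2 * A' * (EE p.β)⁻¹ * σ⁻¹ ^ 4 := by
    have := wt_pos 2 2
    gcongr
  linarith

lemma sol_neg_bd (h : EE p.β ≤ 1) {σ ρ A : ℝ} (hσ : 0 < σ) (hσ1 : σ ≤ 1) (hρ0 : 0 ≤ ρ) (hρ : ρ ≤ 2)
    {r : B} (hr : BB ρ r A) :
    BB (ρ - σ) (sol p.β (-1) r) ((4 * F.M + 4 * F.M * wt 1 2 * wt 2 2) * A * (EE p.β)⁻¹ * σ⁻¹) := by
  have hE := p.hβ
  have hM := F.hM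
  refine (sol_bd (p.se3 h) (p.se4 h) (by positivity) hσ.le (p.sd3 h hσ hσ1)
    (fun j _ => p.sd4 h hσ hσ1 j) hr).mono le_rfl ?_
  have h1 := p.sd4 h hσ hσ1 2
  have h2 := hr.res_le hρ0
  have h3 := wt_mono hρ 2
  have h4 := wt_pos ρ 2
  have h5 := wt_mono hσ1 2
  have h6 := wt_pos σ 2
  have hA := hr.nonneg
  have h7 : ‖(-ex p.β 2 + -1)⁻¹‖ * ‖res r‖ * wt ρ 2 ≤
      (2 * F.M * (EE p.β)⁻¹ * σ⁻¹ * wt 1 2) * (2 * A) * wt 2 2 := by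
    have h8 : ‖(-ex p.β 2 + -1)⁻¹‖ ≤ 2 * F.M * (EE p.β)⁻¹ * σ⁻¹ * wt 1 2 := h1.trans (by gcongr)
    have := wt_pos 1 2
    gcongr
  linarith

end Adm

section

variable {r : Adm F → ℝ} {x : Adm F → B} {i k : ℕ} {j : ℤ}

lemma BO.sol_a (hr : ∀ p, r p ≤ 2) (h : BO (SA F) r x i j k)
    (h' : CO (SA F) (fun p => res (x p)) i (j + 2) k) :
    BO (SA F) (fun p => r p - p.σ) (fun p => sol p.β p.a (x p)) i (j - 1) (k + 4) := by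
  obtain ⟨C, hC, h⟩ := h
  obtain ⟨C', hC', h'⟩ := h'
  have hM := F.hM
  have hw := wt_pos 2 2
  refine ⟨32000 * F.M ^ 9 * C + F.M * wt 2 2 * C', by positivity, ?_⟩
  filter_upwards [h, h', (SA F).small one_pos] with p h1 h2 h3
  have e1 : (SA F).mon i (j + 2) k p = (SA F).mon i j k p * EE p.β ^ 2 := by
    have := (SA F).mon_mul i 0 j (2 : ℕ) k 0 p
    rw [Sc.mon_E] at this; exact this
  have e2 : (SA F).mon i (j - 1) (k + 4) p = (SA F).mon i j k p * ((EE p.β)⁻¹ * p.σ⁻¹ ^ 4) := by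
    have := (SA F).mon_mul i 0 j (-1) k 4 p
    rw [sub_eq_add_neg]
    refine this.trans ?_
    simp [Sc.mon, SA]
  rw [e1, ← mul_assoc] at h2
  refine (p.sol_a_bd h3 p.hσ p.hσ1 (hr p) h1 h2).mono le_rfl (le_of_eq ?_)
  rw [e2]; ring

lemma BO.sol_a' (hr : ∀ p, r p ≤ 2) (h : BO (SA F) r x i j k)
    (h' : CO (SA F) (fun p => res (x p)) i (j + 2) k) :
    BO (SA F) (fun p => r p - F.ρ0) (fun p => sol p.β p.a (x p)) i (j - 1) k := by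
  obtain ⟨C, hC, h⟩ := h
  obtain ⟨C', hC', h'⟩ := h'
  have hM := F.hM
  have hw := wt_pos 2 2
  have hρ := F.hρ
  refine ⟨(32000 * F.M ^ 9 * C + F.M * wt 2 2 * C') * F.ρ0⁻¹ ^ 4, by positivity, ?_⟩
  filter_upwards [h, h', (SA F).small one_pos] with p h1 h2 h3
  have e1 : (SA F).mon i (j + 2) k p = (SA F).mon i j k p * EE p.β ^ 2 := by
    have := (SA F).mon_mul i 0 j (2 : ℕ) k 0 p
    rw [Sc.mon_E] at this; exact this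
  have e2 : (SA F).mon i (j - 1) k p = (SA F).mon i j k p * (EE p.β)⁻¹ := by
    have := (SA F).mon_mul i 0 j (-1) k 0 p
    rw [sub_eq_add_neg]
    refine this.trans ?_
    simp [Sc.mon, SA]
  rw [e1, ← mul_assoc] at h2
  refine (p.sol_a_bd h3 F.hρ F.hρ1 (hr p) h1 h2).mono le_rfl (le_of_eq ?_)
  rw [e2]; ring

lemma BO.sol_neg (hr0 : ∀ p, 0 ≤ r p) (hr : ∀ p, r p ≤ 2) (h : BO (SA F) r x i j k) :
    BO (SA F) (fun p => r p - p.σ) (fun p => sol p.β (-1) (x p)) i (j - 1) (k + 1) := by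
  obtain ⟨C, hC, h⟩ := h
  have hM := F.hM
  have hw := wt_pos 2 2
  have hw' := wt_pos 1 2
  refine ⟨(4 * F.M + 4 * F.M * wt 1 2 * wt 2 2) * C, by positivity, ?_⟩
  filter_upwards [h, (SA F).small one_pos] with p h1 h3
  have e2 : (SA F).mon i (j - 1) (k + 1) p = (SA F).mon i j k p * ((EE p.β)⁻¹ * p.σ⁻¹) := by
    have := (SA F).mon_mul i 0 j (-1) k 1 p
    rw [sub_eq_add_neg]
    refine this.trans ?_
    simp [Sc.mon, SA]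
  refine (p.sol_neg_bd h3 p.hσ p.hσ1 (hr0 p) (hr p) h1).mono le_rfl (le_of_eq ?_)
  rw [e2]; ring

end

end Pool.Agent.Lib.MP_77fc3d_an
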