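import Pool.Agent.Lib.MP_77fc3d_an.Kam

/-! Estimates for one step of the quasi-Newton scheme. -/

open Real Filter Topology

namespace Pool.Agent.Lib.MP_77fc3d_an

variable {F : Fix}

namespace Adm

variable (p : Adm F)

noncomputable def K : B := κB (kk p.β)
noncomputable def DY : B := DB.d p.Y
noncomputable def W : B := p.DY * τ p.β F.N - F.N * τ p.β p.DY
noncomputable def Wi : B := Ring.inverse p.W
noncomputable def LN : B := Lin (τ p.β) p.K (κB p.a) p.Y F.N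
noncomputable def Er : B := Err (τ p.β) p.K (κB p.a) p.Y
noncomputable def s1 : B := sol p.β p.a (τ p.β p.DY * (p.K * p.Y))
noncomputable def s2 : B := sol p.β p.a (τ p.β p.DY * p.Er)
noncomputable def XX (s R : B) : B := (s * p.Wi * p.LN - R) * τ p.β F.N * τ p.β p.Wi
noncomputable def δ : ℂ := mn (p.XX p.s2 p.Er) / mn (p.XX p.s1 (p.K * p.Y))
noncomputable def η : B := κB p.δ * p.s1 - p.s2
noncomputable def X : B :=
  (p.η * p.Wi * p.LN - (p.K * κB p.δ * p.Y - p.Er)) * τ p.β F.N * τ p.β p.Wi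
noncomputable def ξ : B := sol p.β (-1) p.X
noncomputable def w : B := p.ξ * p.DY + p.η * p.Wi * F.N
noncomputable def q : B := p.η * p.Wi * τ p.β F.N * τ p.β p.Wi * DB.d p.Er

lemma r0 : 0 < p.ρ := by have := p.hρ1; have := p.hσ; have := F.hρ; linarith
lemma r1 : 0 ≤ p.ρ - p.σ := by have := p.hρ1; have := p.hσ; have := F.hρ; linarith
lemma r2 : 0 ≤ p.ρ - p.σ - p.σ := by have := p.hρ1; have := p.hσ; have := F.hρ; linarith
lemma r9 : 0 ≤ p.ρ - F.ρ0 := by have := p.hρ1; have := p.hσ; linarith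
lemma l1 : p.ρ - p.σ ≤ p.ρ := by have := p.hσ; linarith
lemma l2 : p.ρ - p.σ - p.σ ≤ p.ρ := by have := p.hσ; linarith
lemma l21 : p.ρ - p.σ - p.σ ≤ p.ρ - p.σ := by have := p.hσ; linarith
lemma l9 : p.ρ - F.ρ0 ≤ p.ρ := by have := F.hρ; linarith
lemma u0 : p.ρ ≤ 2 := by have := p.hρ2; have := F.hρ1; linarith
lemma u1 : p.ρ - p.σ ≤ 2 := p.l1.trans p.u0
lemma v4 : p.ρ ≤ 4 * F.ρ0 := by have := p.hρ2; have := F.hρ; linarith
lemma v3 : p.ρ ≤ 4 * F.ρ0 - F.ρ0 := by have := p.hρ2; have := F.hρ; linarith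
lemma v2 : p.ρ ≤ 4 * F.ρ0 - F.ρ0 - F.ρ0 := by have := p.hρ2; linarith

end Adm

open Adm

lemma z0 (p : Adm F) : 0 ≤ p.ρ := p.r0.le

lemma M0 (F : Fix) : 0 ≤ F.M := zero_le_one.trans F.hM

lemma bN : BO (SA F) Adm.ρ (fun _ => F.N) 0 0 0 := BO.fixed F.bN v4
lemma bDN : BO (SA F) Adm.ρ (fun _ => DB.d F.N) 0 0 0 := BO.fixed (F.bN.der F.hρ) v3
lemma bY0 : BO (SA F) Adm.ρ (fun _ => F.Y0) 0 0 0 := BO.fixed F.bY v4
lemma bT0 : BO (SA F) Adm.ρ (fun _ => DB.d F.Y0) 0 0 0 := BO.fixed (F.bY.der F.hρ) v3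
lemma bDT0 : BO (SA F) Adm.ρ (fun _ => DB.d (DB.d F.Y0)) 0 0 0 :=
  BO.fixed ((F.bY.der F.hρ).der F.hρ) v2
lemma bW0 : BO (SA F) Adm.ρ (fun _ => F.W0) 0 0 0 := BO.fixed F.bW v4
lemma bDW0 : BO (SA F) Adm.ρ (fun _ => DB.d F.W0) 0 0 0 := BO.fixed (F.bW.der F.hρ) v3

lemma dY : BO (SA F) Adm.ρ (fun p => p.Y - F.Y0) 0 1 0 :=
  ⟨F.M, M0 F, Eventually.of_forall fun p => by rw [Sc.mon_one]; exact p.hY⟩
lemma dT : BO (SA F) Adm.ρ (fun p => p.DY - DB.d F.Y0) 0 1 0 :=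
  ⟨F.M, M0 F, Eventually.of_forall fun p => by rw [Sc.mon_one]; exact p.hT⟩
lemma bLN : BO (SA F) Adm.ρ (fun p => p.LN) 0 3 0 :=
  ⟨F.M, M0 F, Eventually.of_forall fun p => by
    rw [show (3 : ℤ) = (3 : ℕ) from rfl, Sc.mon_E]; exact p.hL⟩
lemma bEr : BO (SA F) Adm.ρ (fun p => p.Er) 1 1 0 :=
  ⟨1, zero_le_one, Eventually.of_forall fun p => p.hE.mono le_rfl (le_of_eq (by
    simp [Sc.mon, SA, mul_comm]))⟩
lemma ck : CO (SA F) (fun p => kk p.β) 0 1 0 :=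
  ⟨2, zero_le_two, Eventually.of_forall fun p => by rw [Sc.mon_one, norm_kk]; rfl⟩
lemma bK : BO (SA F) Adm.ρ (fun p => p.K) 0 1 0 := BO.const ck _

lemma bY : BO (SA F) Adm.ρ (fun p => p.Y) 0 0 0 :=
  ((dY.w (by norm_num)).add bY0).congr (Eventually.of_forall fun p => by ring)
lemma bDY : BO (SA F) Adm.ρ (fun p => p.DY) 0 0 0 :=
  ((dT.w (by norm_num)).add bT0).congr (Eventually.of_forall fun p => by ring)
lemma btN : BO (SA F) Adm.ρ (fun p => τ p.β F.N) 0 0 0 := bN.tau _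
lemma btT : BO (SA F) Adm.ρ (fun p => τ p.β p.DY) 0 0 0 := bDY.tau _
lemma tN : BO (SA F) Adm.ρ (fun p => τ p.β F.N - τ 0 F.N) 0 1 0 :=
  ((BO.tau_sub (x := fun _ => F.N) (fun _ => rfl) bDN).w (by norm_num))
lemma tT : BO (SA F) Adm.ρ (fun p => τ p.β p.DY - τ 0 (DB.d F.Y0)) 0 1 0 :=
  ((dT.tau Adm.β).add ((BO.tau_sub (x := fun _ => DB.d F.Y0) (β := Adm.β) (fun _ => rfl) bDT0).w (by norm_num))).congr
    (Eventually.of_forall fun p => by simp only [map_sub]; ring)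

lemma hW1 : BO (SA F) Adm.ρ (fun p => 1 - p.W * F.W0) 0 1 0 := by
  have h1 : BO (SA F) Adm.ρ _ 0 1 0 := ((dT.mul z0 btN).w (by norm_num))
  have h2 : BO (SA F) Adm.ρ _ 0 1 0 := ((bT0.mul z0 tN).w (by norm_num))
  have h3 : BO (SA F) Adm.ρ _ 0 1 0 := ((bN.mul z0 tT).w (by norm_num))
  refine ((((h3.sub h1).sub h2).mul z0 bW0).w (by norm_num)).congr (Eventually.of_forall fun p => ?_)
  unfold Adm.W
  linear_combination F.hW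

lemma hWi : ∀ᶠ p in (SA F).l, p.W * p.Wi = 1 := (BO.inverse r0 hW1 bW0).1
lemma dWi : BO (SA F) Adm.ρ (fun p => p.Wi - F.W0) 0 1 0 := (BO.inverse r0 hW1 bW0).2
lemma bWi : BO (SA F) Adm.ρ (fun p => p.Wi) 0 0 0 :=
  ((dWi.w (by norm_num)).add bW0).congr (Eventually.of_forall fun p => by ring)
lemma btWi : BO (SA F) Adm.ρ (fun p => τ p.β p.Wi) 0 0 0 := bWi.tau _
lemma tWi : BO (SA F) Adm.ρ (fun p => τ p.β p.Wi - τ 0 F.W0) 0 1 0 :=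
  ((dWi.tau Adm.β).add ((BO.tau_sub (x := fun _ => F.W0) (β := Adm.β) (fun _ => rfl) bDW0).w (by norm_num))).congr
    (Eventually.of_forall fun p => by simp only [map_sub]; ring)

lemma res1 : CO (SA F) (fun p => res (τ p.β p.DY * (p.K * p.Y))) 0 (0 + 2) 0 := by
  have h1 : BO (SA F) Adm.ρ _ 0 1 0 := ((tT.mul z0 bY).w (by norm_num))
  have h2 : BO (SA F) Adm.ρ _ 0 1 0 := (((bT0.tau fun _ => 0).mul z0 dY).w (by norm_num))
  refine ((ck.mul ((h1.add h2).res_le z0)).w (by norm_num)).congr (Eventually.of_forall fun p => ?_)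
  have e : τ p.β p.DY * (p.K * p.Y) = κB (kk p.β) * (τ p.β p.DY * p.Y) := by unfold Adm.K; ring
  have e' : (τ p.β p.DY - τ 0 (DB.d F.Y0)) * p.Y + τ 0 (DB.d F.Y0) * (p.Y - F.Y0) =
    τ p.β p.DY * p.Y - τ 0 (DB.d F.Y0) * F.Y0 := by ring
  rw [e, e', res_κB, res_sub, F.hres, sub_zero]

lemma bx1 : BO (SA F) Adm.ρ (fun p => τ p.β p.DY * (p.K * p.Y)) 0 0 0 := ((btT.mul z0 (bK.mul z0 bY)).w (by norm_num))
lemma bs1 : BO (SA F) (fun p => p.ρ - p.σ) (fun p => p.s1) 0 (-1) 4 := ((bx1.sol_a u0 res1).w (by norm_num))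
lemma bs1' : BO (SA F) (fun p => p.ρ - F.ρ0) (fun p => p.s1) 0 (-1) 0 := ((bx1.sol_a' u0 res1).w (by norm_num))
lemma bs2 : BO (SA F) (fun p => p.ρ - p.σ) (fun p => p.s2) 1 (-2) 4 := by
  have h1 : BO (SA F) Adm.ρ _ 1 1 0 := ((btT.mul z0 bEr).w (by norm_num))
  have h2 : BO (SA F) Adm.ρ _ 1 (-1) 0 := (h1.w (by norm_num))
  exact ((h2.sol_a u0 ((h1.res_le z0).w (by norm_num))).w (by norm_num))

lemma den : ∀ᶠ p in (SA F).l, (SA F).E p ≤ ‖mn (p.XX p.s1 (p.K * p.Y))‖ := by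
  have h1 : BO (SA F) (fun p => p.ρ - F.ρ0) _ 0 2 0 :=
    (((((bs1'.mul r9 (bWi.rad l9)).mul r9 (bLN.rad l9)).mul r9 (btN.rad l9)).mul r9 (btWi.rad l9)).w (by norm_num))
  have h2 : BO (SA F) Adm.ρ _ 0 1 0 := (((dY.mul z0 btN).mul z0 btWi).w (by norm_num))
  have h3 : BO (SA F) Adm.ρ _ 0 1 0 := (((bY0.mul z0 tN).mul z0 btWi).w (by norm_num))
  have h4 : BO (SA F) Adm.ρ _ 0 1 0 := (((bY0.mul z0 (bN.tau fun _ => 0)).mul z0 tWi).w (by norm_num))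
  have h5 : CO (SA F) _ 0 ((1 : ℕ) + 1) 0 :=
    (((h1.mn_le r9).sub ((ck.mul (((h2.add h3).add h4).mn_le z0)).w (by norm_num))).w (by norm_num))
  filter_upwards [h5.small_pow one_pos] with p hp
  have e : p.XX p.s1 (p.K * p.Y) = (p.s1 * p.Wi * p.LN * τ p.β F.N * τ p.β p.Wi -
      κB (kk p.β) * ((p.Y - F.Y0) * τ p.β F.N * τ p.β p.Wi +
        F.Y0 * (τ p.β F.N - τ 0 F.N) * τ p.β p.Wi + F.Y0 * τ 0 F.N * (τ p.β p.Wi - τ 0 F.W0))) +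
      κB (kk p.β) * -(F.Y0 * τ 0 F.N * τ 0 F.W0) := by
    unfold Adm.XX Adm.K; ring
  rw [e, mn_add, mn_sub, mn_κB, mn_κB, F.hmn, mul_one]
  generalize mn (p.s1 * p.Wi * p.LN * τ p.β F.N * τ p.β p.Wi) - _ = u at hp ⊢
  have h6 := norm_sub_norm_le (kk p.β) (-u)
  rw [norm_neg, norm_kk, sub_neg_eq_add, add_comm] at h6
  change _ ≤ 1 * EE p.β ^ 1 at hp
  change EE p.β ≤ _
  linarith

lemma cδ : CO (SA F) (fun p => p.δ) 1 0 4 := by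
  have h1 : BO (SA F) (fun p => p.ρ - p.σ) _ 1 1 4 :=
    (((bs2.mul r1 (bWi.rad l1)).mul r1 (bLN.rad l1)).w (by norm_num))
  have h2 : BO (SA F) (fun p => p.ρ - p.σ) _ 1 1 4 :=
    ((((h1.sub ((bEr.rad l1).w (by norm_num))).mul r1 (btN.rad l1)).mul r1 (btWi.rad l1)).w (by norm_num))
  exact (((h2.mn_le r1).div den).w (by norm_num))

lemma bη : BO (SA F) (fun p => p.ρ - p.σ) (fun p => p.η) 1 (-2) 8 :=
  (((BO.const cδ _).mul r1 bs1).w (by norm_num)).sub (bs2.w (by norm_num))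

lemma bX : BO (SA F) (fun p => p.ρ - p.σ) (fun p => p.X) 1 1 8 := by
  have h1 : BO (SA F) (fun p => p.ρ - p.σ) _ 1 1 8 :=
    (((bη.mul r1 (bWi.rad l1)).mul r1 (bLN.rad l1)).w (by norm_num))
  have h2 : BO (SA F) Adm.ρ _ 1 1 8 := (((bK.mul z0 (BO.const cδ _)).mul z0 bY).w (by norm_num)).sub (bEr.w (by norm_num))
  exact ((((h1.sub (h2.rad l1)).mul r1 (btN.rad l1)).mul r1 (btWi.rad l1)).w (by norm_num))

lemma bξ : BO (SA F) (fun p => p.ρ - p.σ - p.σ) (fun p => p.ξ) 1 0 9 := ((bX.sol_neg r1 u1).w (by norm_num))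

lemma bw : BO (SA F) (fun p => p.ρ - p.σ - p.σ) (fun p => p.w) 1 (-2) 9 :=
  ((bξ.mul r2 (bDY.rad l2)).w (by norm_num)).add ((((bη.rad l21).mul r2 (bWi.rad l2)).mul r2 (bN.rad l2)).w (by norm_num))

lemma bDw : BO (SA F) (fun p => p.ρ - p.σ - p.σ - p.σ) (fun p => DB.d p.w) 1 (-2) 10 := bw.der

lemma bDEr : BO (SA F) (fun p => p.ρ - p.σ) (fun p => DB.d p.Er) 1 1 1 := bEr.der

lemma bq : BO (SA F) (fun p => p.ρ - p.σ) (fun p => p.q) 2 (-1) 9 :=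
  (((((bη.mul r1 (bWi.rad l1)).mul r1 (btN.rad l1)).mul r1 (btWi.rad l1)).mul r1 bDEr).w (by norm_num))

lemma new_err_eq : ∀ᶠ p in (SA F).l,
    Err (τ p.β) p.K (κB (p.a + kk p.β * p.δ)) (p.Y + p.w) =
      p.q * τ p.β (τ p.β F.N) + p.ξ * DB.d p.Er + τ p.β (p.q * τ p.β F.N) -
      κB 2 * p.K * τ p.β p.Y * (p.q * τ p.β F.N) - p.K * κB p.δ * p.w -
      p.K * (τ p.β p.w * τ p.β p.w) := by
  filter_upwards [hWi, den, (SA F).small one_pos] with p h1 h2 h3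
  have hd : mn (p.XX p.s1 (p.K * p.Y)) ≠ 0 := norm_pos_iff.mp (p.hβ.trans_le h2)
  have hX : mn p.X = 0 := by
    have e : p.X = κB p.δ * p.XX p.s1 (p.K * p.Y) - p.XX p.s2 p.Er := by
      unfold Adm.X Adm.XX Adm.η; ring
    rw [e, mn_sub, mn_κB, Adm.δ, div_mul_cancel₀ _ hd, sub_self]
  have hη : τ p.β p.η + κB p.a * p.η = τ p.β p.DY * (p.K * κB p.δ * p.Y - p.Er) := by
    have e1 := p.sol_a h3 (τ p.β p.DY * (p.K * p.Y))
    have e2 := p.sol_a h3 (τ p.β p.DY * p.Er)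
    unfold Adm.η Adm.s1 Adm.s2
    rw [map_sub, map_mul, τ_κB]
    linear_combination κB p.δ * e1 - e2
  have := newton_alg (τ p.β) DB (k := p.K) (a := κB p.a) (dl := κB p.δ) (Y := p.Y) (N := F.N)
    (Wi := p.Wi) (η := p.η) (ξ := p.ξ) (fun x => DB_τ _ x) rfl (DB_κB _) (DB_κB _) h1 hη
    (p.sol_neg h3 hX)
  rw [map_add κB, map_mul κB, map_ofNat κB, ← sq]
  exact this

lemma new_err : BO (SA F) (fun p => p.ρ - p.σ - p.σ)
    (fun p => Err (τ p.β) p.K (κB (p.a + kk p.β * p.δ)) (p.Y + p.w)) 2 (-3) 20 := by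
  have hq := bq (F := F).rad l21
  have hN := btN (F := F).rad l2
  have hK := bK (F := F).rad l2
  have h0 : BO (SA F) _ _ 2 (-1) 9 := ((hq.mul r2 hN).w (by norm_num))
  have h1 : BO (SA F) _ _ 2 (-3) 20 := ((hq.mul r2 (hN.tau Adm.β)).w (by norm_num))
  have h2 : BO (SA F) _ _ 2 (-3) 20 := ((bξ.mul r2 (bDEr.rad l21)).w (by norm_num))
  have h3 : BO (SA F) _ _ 2 (-3) 20 := ((h0.tau Adm.β).w (by norm_num))
  have h4 : BO (SA F) _ _ 2 (-3) 20 := (((((BO.const (CO.const 2) _).mul r2 hK).mul r2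
    ((bY.tau Adm.β).rad l2)).mul r2 h0).w (by norm_num))
  have h5 : BO (SA F) _ _ 2 (-3) 20 := (((hK.mul r2 (BO.const cδ _)).mul r2 bw).w (by norm_num))
  have h6 : BO (SA F) _ _ 2 (-3) 20 := ((hK.mul r2 ((bw.tau Adm.β).mul r2 (bw.tau Adm.β))).w (by norm_num))
  exact (((((h1.add h2).add h3).sub h4).sub h5).sub h6).congr (new_err_eq.mono fun p hp => hp.symm)

theorem kam_step (F : Fix) : ∃ C ≥ 1, ∃ E0 > 0, ∀ p : Adm F, EE p.β < E0 → ∃ (δ : ℂ) (w : B),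
    ‖δ‖ ≤ C * (p.e * p.σ⁻¹ ^ 10) ∧
    BB (p.ρ - 3 * p.σ) w (C * (p.e * (EE p.β)⁻¹ ^ 2 * p.σ⁻¹ ^ 10)) ∧
    BB (p.ρ - 3 * p.σ) (DB.d w) (C * (p.e * (EE p.β)⁻¹ ^ 2 * p.σ⁻¹ ^ 10)) ∧
    BB (p.ρ - 3 * p.σ) (Err (τ p.β) (κB (kk p.β)) (κB (p.a + kk p.β * δ)) (p.Y + w))
      (C * (p.e ^ 2 * (EE p.β)⁻¹ ^ 3 * p.σ⁻¹ ^ 20)) := by
  obtain ⟨C1, hC1, h1⟩ : CO (SA F) _ 1 0 10 := (cδ.w (by norm_num))
  obtain ⟨C2, hC2, h2⟩ : BO (SA F) _ _ 1 (-2) 10 := (bw.w (by norm_num))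
  obtain ⟨C3, hC3, h3⟩ := bDw (F := F)
  obtain ⟨C4, hC4, h4⟩ := new_err (F := F)
  have h5 := (h1.and h2).and (h3.and h4)
  obtain ⟨t, ht, h6⟩ := mem_comap.mp h5
  obtain ⟨E0, hE0, h7⟩ := Metric.mem_nhds_iff.mp ht
  refine ⟨1 + C1 + C2 + C3 + C4, by linarith, E0, hE0, fun p hp => ⟨p.δ, p.w, ?_⟩⟩
  have hm : EE p.β ∈ t := h7 (by
    rw [Metric.mem_ball, Real.dist_eq, sub_zero, abs_of_pos p.hβ]; exact hp)
  obtain ⟨⟨k1, k2⟩, k3, k4⟩ := h6 hm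
  have m1 : (SA F).mon 1 0 10 p = p.e * p.σ⁻¹ ^ 10 := by simp [Sc.mon, SA]
  have m2 : (SA F).mon 1 (-2) 10 p = p.e * (EE p.β)⁻¹ ^ 2 * p.σ⁻¹ ^ 10 := by
    simp [Sc.mon, SA]
  have m3 : (SA F).mon 2 (-3) 20 p = p.e ^ 2 * (EE p.β)⁻¹ ^ 3 * p.σ⁻¹ ^ 20 := by
    simp [Sc.mon, SA]
  have n1 := (SA F).mon_nonneg 1 0 10 p
  have n2 := (SA F).mon_nonneg 1 (-2) 10 p
  have n3 := (SA F).mon_nonneg 2 (-3) 20 p
  have hσ := p.hσ
  rw [← m1, ← m2, ← m3]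
  refine ⟨k1.trans ?_, k2.mono (by linarith) ?_, k3.mono (by linarith) ?_, k4.mono (by linarith) ?_⟩ <;>
  · gcongr; linarith

end Pool.Agent.Lib.MP_77fc3d_an
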