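import Pool.Agent.Lib.MP_77fc3d_an.Kam2

/-! Convergence of the quasi-Newton scheme. -/

open Real Filter Topology

namespace Pool.Agent.Lib.MP_77fc3d_an

/-- Hypotheses on the initial approximation. -/
structure Init (F : Fix) (β : ℝ) (a : ℂ) (Y : B) : Prop where
  hβ : 0 < EE β
  dio : Dio F.M β
  ha1 : EE β ^ 9 / F.M ≤ 1 - ‖a‖
  ha2 : ‖a - ex β 2‖ ≤ F.M * EE β ^ 3
  ha3 : EE β ^ 3 / F.M ≤ ‖a - ex β 2‖
  hY : BB (2 * F.ρ0) (Y - F.Y0) (F.M * EE β)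
  hT : BB (2 * F.ρ0) (DB.d Y - DB.d F.Y0) (F.M * EE β)
  hL : BB (2 * F.ρ0) (Lin (τ β) (κB (kk β)) (κB a) Y F.N) (F.M * EE β ^ 3)
  hE : BB (2 * F.ρ0) (Err (τ β) (κB (kk β)) (κB a) Y) (F.M * EE β ^ 11)

/-- The same data with a larger constant. -/
def Fix.big (F : Fix) : Fix :=
  { F with
    M := 6 * F.M
    hM := by have := F.hM; linarith
    bN := F.bN.mono le_rfl (by have := F.hM; linarith)
    bY := F.bY.mono le_rfl (by have := F.hM; linarith)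
    bW := F.bW.mono le_rfl (by have := F.hM; linarith) }

/-- The invariant of the iteration. -/
def Inv (F : Fix) (β : ℝ) (a0 : ℂ) (Y0 : B) (t : ℝ) (a : ℂ) (Y : B) : Prop :=
  ‖a - a0‖ ≤ EE β ^ 10 * (1 - t) ∧ BB (F.ρ0 * (1 + t)) (Y - Y0) (EE β ^ 7 * (1 - t)) ∧
  BB (F.ρ0 * (1 + t)) (DB.d Y - DB.d Y0) (EE β ^ 7 * (1 - t)) ∧
  BB (F.ρ0 * (1 + t)) (Err (τ β) (κB (kk β)) (κB a) Y) (EE β * (F.M * EE β ^ 10 * t ^ 20))

/-- An iterate is admissible. -/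
noncomputable def toAdm {F : Fix} {β : ℝ} {a0 : ℂ} {Y0 : B} {t : ℝ} {a : ℂ} {Y : B}
    (hi : Init F β a0 Y0) (hE : 2 * F.M * EE β ≤ 1) (ht : 0 < t) (ht1 : t ≤ 1)
    (h : Inv F β a0 Y0 t a Y) : Adm F.big :=
  have hβ := hi.hβ
  have hM := F.hM
  have hρ := F.hρ
  have hE1 : EE β ≤ 1 := by nlinarith
  have hr : F.ρ0 * (1 + t) ≤ 2 * F.ρ0 := by nlinarith
  have ha : ‖a - a0‖ ≤ EE β ^ 10 := h.1.trans (by have : 0 < EE β ^ 10 := by positivity
                                                  nlinarith)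
  have h7 : EE β ^ 7 * (1 - t) ≤ EE β ^ 7 := by
    have : 0 < EE β ^ 7 := by positivity
    nlinarith
  have h71 : EE β ^ 7 ≤ EE β := pow_le_of_le_one hβ.le hE1 (by norm_num)
  have h9 : EE β ^ 10 ≤ EE β ^ 9 / (2 * F.M) := by
    rw [le_div_iff₀ (by positivity)]
    have : 0 < EE β ^ 9 := by positivity
    nlinarith
  have h93 : EE β ^ 9 ≤ EE β ^ 3 := pow_le_pow_of_le_one hβ.le hE1 (by norm_num)
  have h103 : EE β ^ 10 ≤ EE β ^ 3 := pow_le_pow_of_le_one hβ.le hE1 (by norm_num)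
  have h3 : 0 < EE β ^ 3 := by positivity
  { β := β, a := a, Y := Y, ρ := F.ρ0 * (1 + t), σ := F.ρ0 * t / 6, e := F.M * EE β ^ 10 * t ^ 20
    hβ := hβ
    he := by positivity
    hσ := by positivity
    hσ1 := by have := F.hρ1; nlinarith
    hρ1 := by change F.ρ0 + _ ≤ _; nlinarith
    hρ2 := hr
    dio := hi.dio.mono (by linarith) (by change _ ≤ 6 * F.M; linarith)
    ha1 := by
      have h1 := hi.ha1
      have h2 := norm_sub_norm_le a a0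
      have e1 : EE β ^ 9 / F.M = 2 * (EE β ^ 9 / (2 * F.M)) := by field_simp
      have e2 : EE β ^ 9 / (6 * F.M) ≤ EE β ^ 9 / (2 * F.M) := by gcongr; norm_num
      change EE β ^ 9 / (6 * F.M) ≤ _
      linarith
    ha2 := by
      have h1 := hi.ha2
      have h2 := norm_add_le (a - a0) (a0 - ex β 2)
      rw [sub_add_sub_cancel] at h2
      change _ ≤ 6 * F.M * _
      nlinarith
    ha3 := by
      have h1 := hi.ha3
      have h2 := norm_sub_le (a - ex β 2) (a - a0)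
      rw [sub_sub_sub_cancel_left] at h2
      have e1 : EE β ^ 3 / F.M = 2 * (EE β ^ 3 / (2 * F.M)) := by field_simp
      have e2 : EE β ^ 3 / (6 * F.M) ≤ EE β ^ 3 / (2 * F.M) := by gcongr; norm_num
      have e3 : EE β ^ 9 / (2 * F.M) ≤ EE β ^ 3 / (2 * F.M) := by gcongr
      change EE β ^ 3 / (6 * F.M) ≤ _
      linarith
    hY := by
      have := h.2.1.add (hi.hY.mono hr le_rfl)
      rw [sub_add_sub_cancel] at this
      exact this.mono le_rfl (by change _ ≤ 6 * F.M * _; nlinarith)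
    hT := by
      have := h.2.2.1.add (hi.hT.mono hr le_rfl)
      rw [sub_add_sub_cancel] at this
      exact this.mono le_rfl (by change _ ≤ 6 * F.M * _; nlinarith)
    hL := by
      have r0 : 0 ≤ F.ρ0 * (1 + t) := by positivity
      have bN : BB (F.ρ0 * (1 + t)) F.N F.M := F.bN.mono (by linarith) le_rfl
      have h1 := ((hi.hL.mono hr le_rfl).sub ((BB.const _ (a - a0)).mul r0 bN)).sub
        (((BB.const _ (2 * kk β)).mul r0 (h.2.1.tau β)).mul r0 (bN.tau β))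
      have e : Lin (τ β) (κB (kk β)) (κB a0) Y0 F.N - κB (a - a0) * F.N -
          κB (2 * kk β) * τ β (Y - Y0) * τ β F.N = Lin (τ β) (κB (kk β)) (κB a) Y F.N := by
        simp only [Lin, map_sub, map_mul, map_ofNat]; ring
      rw [e, norm_mul, norm_kk] at h1
      refine h1.mono le_rfl ?_
      have h2 : EE β * (EE β ^ 7 * (1 - t)) ≤ EE β ^ 3 := by
        have : EE β ^ 8 ≤ EE β ^ 3 := pow_le_pow_of_le_one hβ.le hE1 (by norm_num)
        nlinarith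
      change _ ≤ 6 * F.M * _
      simp only [Complex.norm_ofNat]
      nlinarith
    hE := h.2.2.2 }

lemma inv_step (F : Fix) : ∃ E0 > 0, ∀ β a0 Y0, Init F β a0 Y0 → EE β < E0 → ∀ t a Y, 0 < t → t ≤ 1 →
    Inv F β a0 Y0 t a Y → ∃ a' Y', Inv F β a0 Y0 (t / 2) a' Y' ∧ ‖a' - a‖ ≤ t ∧ BB 0 (Y' - Y) t := by
  obtain ⟨C, hC, E0, hE0, H⟩ := kam_step F.big
  have hM := F.hM
  have hρ := F.hρ
  have hc : 1 ≤ 6 / F.ρ0 := by rw [le_div_iff₀ hρ]; have := F.hρ1; linarith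
  generalize hcc : 6 / F.ρ0 = c at hc
  refine ⟨min E0 (1 / (2 ^ 20 * C * F.M * c ^ 20)), lt_min hE0 (by positivity), ?_⟩
  intro β a0 Y0 hi hE t a Y ht ht1 h
  have hβ := hi.hβ
  have hE1 := hE.trans_le (min_le_left _ _)
  have hE2 := (hE.trans_le (min_le_right _ _)).le
  rw [le_div_iff₀ (by positivity)] at hE2
  have c10 : 1 ≤ c ^ 10 := one_le_pow₀ hc
  have c20 : c ^ 10 ≤ c ^ 20 := pow_le_pow_right₀ hc (by norm_num)
  have hA : 4 * (C * F.M * c ^ 10 * EE β) ≤ 1 := by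
    refine le_trans ?_ hE2
    have : C * F.M * c ^ 10 * EE β ≤ C * F.M * c ^ 20 * EE β := by gcongr
    have : 0 ≤ C * F.M * c ^ 20 * EE β := by positivity
    nlinarith
  have hB : 2 * F.M * EE β ≤ 1 := by
    have : 1 * F.M * 1 * EE β ≤ C * F.M * c ^ 10 * EE β := by gcongr
    have : 0 ≤ F.M * EE β := by positivity
    linarith
  have hE3 : EE β ≤ 1 := by nlinarith
  obtain ⟨δ, w, k1, k2, k3, k4⟩ := H (toAdm hi hB ht ht1 h) hE1
  have es : (F.ρ0 * t / 6)⁻¹ = c / t := by rw [← hcc]; field_simp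
  have er : F.ρ0 * (1 + t) - 3 * (F.ρ0 * t / 6) = F.ρ0 * (1 + t / 2) := by ring
  simp only [toAdm, es, er] at k1 k2 k3 k4
  have t10 : t ^ 10 ≤ t := pow_le_of_le_one ht.le ht1 (by norm_num)
  have b1 : ‖kk β * δ‖ ≤ EE β ^ 10 * (t / 2) := by
    rw [norm_mul, norm_kk]
    calc 2 * EE β * ‖δ‖ ≤ 2 * EE β * (C * (F.M * EE β ^ 10 * t ^ 20 * (c / t) ^ 10)) := by gcongr
      _ = 4 * (C * F.M * c ^ 10 * EE β) * (EE β ^ 10 * (t ^ 10 / 2)) := by field_simp; ring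
      _ ≤ 1 * (EE β ^ 10 * (t / 2)) := by gcongr
      _ = _ := one_mul _
  have b2 : C * (F.M * EE β ^ 10 * t ^ 20 * (EE β)⁻¹ ^ 2 * (c / t) ^ 10) ≤ EE β ^ 7 * (t / 4) := by
    calc _ = 4 * (C * F.M * c ^ 10 * EE β) * (EE β ^ 7 * (t ^ 10 / 4)) := by field_simp
      _ ≤ 1 * (EE β ^ 7 * (t / 4)) := by gcongr
      _ = _ := one_mul _
  have b3 : C * ((F.M * EE β ^ 10 * t ^ 20) ^ 2 * (EE β)⁻¹ ^ 3 * (c / t) ^ 20) ≤
      EE β * (F.M * EE β ^ 10 * (t / 2) ^ 20) := by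
    have : EE β ^ 5 ≤ 1 := pow_le_one₀ hβ.le hE3
    calc _ = (EE β * (2 ^ 20 * C * F.M * c ^ 20)) * EE β ^ 5 *
          (EE β * (F.M * EE β ^ 10 * (t / 2) ^ 20)) := by field_simp
      _ ≤ 1 * 1 * (EE β * (F.M * EE β ^ 10 * (t / 2) ^ 20)) := by gcongr
      _ = _ := by ring
  have hr : F.ρ0 * (1 + t / 2) ≤ F.ρ0 * (1 + t) := by gcongr; linarith
  have e7 : 0 < EE β ^ 7 := by positivity
  have e71 : EE β ^ 7 ≤ 1 := pow_le_one₀ hβ.le hE3
  have e101 : EE β ^ 10 ≤ 1 := pow_le_one₀ hβ.le hE3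
  refine ⟨a + kk β * δ, Y + w, ⟨?_, ?_, ?_, k4.mono le_rfl b3⟩, ?_, ?_⟩
  · have := norm_add_le (a - a0) (kk β * δ)
    rw [show a + kk β * δ - a0 = a - a0 + kk β * δ by ring]
    have := h.1
    linarith
  · rw [show Y + w - Y0 = Y - Y0 + w by ring]
    exact ((h.2.1.mono hr le_rfl).add k2).mono le_rfl (by nlinarith)
  · rw [map_add, show DB.d Y + DB.d w - DB.d Y0 = DB.d Y - DB.d Y0 + DB.d w by ring]
    exact ((h.2.2.1.mono hr le_rfl).add k3).mono le_rfl (by nlinarith)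
  · rw [add_sub_cancel_left]; nlinarith
  · rw [add_sub_cancel_left]; exact k2.mono (by positivity) (by nlinarith)

lemma exists_lim {X : Type} [NormedAddCommGroup X] [CompleteSpace X] {u : ℕ → X}
    (h : ∀ n, ‖u (n + 1) - u n‖ ≤ (1 / 2) ^ n) : ∃ x, Tendsto u atTop (𝓝 x) :=
  cauchySeq_tendsto_of_complete (cauchySeq_of_le_geometric (1 / 2) 1 (by norm_num) fun n => by
    rw [dist_comm, dist_eq_norm, one_mul]; exact h n)

lemma exists_lim_An {ρ M : ℝ} (hρ : 0 < ρ) {u : ℕ → An} {f : An}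
    (h : ∀ n, Bd 0 (u (n + 1) - u n).1 ((1 / 2) ^ n)) (hb : ∀ n, Bd ρ (u n - f).1 M) :
    ∃ x : An, Tendsto (fun n => (u n).1) atTop (𝓝 x.1) ∧ Bd ρ (x - f).1 M := by
  obtain ⟨y, hy⟩ := exists_lim (u := fun n => (u n).1) fun n => (h n).norm_le le_rfl
  have h1 : Bd ρ (y - f.1) M := Bd.of_tendsto (hy.sub_const f.1) (Eventually.of_forall hb)
  refine ⟨(show An from ⟨y - f.1, ρ, hρ, M, h1⟩) + f, ?_, ?_⟩
  · rw [val_add, sub_add_cancel]; exact hy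
  · rw [add_sub_cancel_right]; exact h1

lemma err_lim {β : ℝ} {k a : ℂ} {u v : ℕ → An} {b : ℕ → ℂ} {x y : An}
    (hu : Tendsto (fun n => (u n).1) atTop (𝓝 x.1)) (hv : Tendsto (fun n => (v n).1) atTop (𝓝 y.1))
    (hb : Tendsto b atTop (𝓝 a)) {e : ℕ → ℝ} (he : Tendsto e atTop (𝓝 0))
    (h : ∀ n, Bd 0 (sh β (sh β (u n)) - κ (b n) * u n - κ k * sh β (v n) ^ 2).1 (e n)) :
    sh β (sh β x) - κ a * x - κ k * sh β y ^ 2 = 0 := by
  have e1 : ∀ (f g : An) (c : ℂ), (sh β (sh β f) - κ c * f - κ k * sh β g ^ 2).1 =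
      shC β (shC β f.1) - c • f.1 - k • (shC β g.1 * shC β g.1) := by
    intro f g c
    rw [← Algebra.smul_def, ← Algebra.smul_def, sq]; rfl
  have c1 := (continuous_shC β).tendsto
  have h1 := ((((c1 _).comp ((c1 _).comp hu)).sub (hb.smul hu))).sub
    ((((c1 _).comp hv).mul ((c1 _).comp hv)).const_smul k)
  have h2 : Tendsto (fun n => (sh β (sh β (u n)) - κ (b n) * u n - κ k * sh β (v n) ^ 2).1) atTop (𝓝 0) :=
    squeeze_zero_norm (fun n => (h n).norm_le le_rfl) he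
  simp only [e1] at h2
  apply Subtype.ext
  rw [e1]
  exact tendsto_nhds_unique h1 h2

theorem kam (F : Fix) : ∃ E0 > 0, ∀ β a0 Y0, Init F β a0 Y0 → EE β < E0 →
    ∃ a Y, Err (τ β) (κB (kk β)) (κB a) Y = 0 ∧ ‖a - a0‖ ≤ EE β ^ 10 ∧
      BB F.ρ0 (Y - Y0) (EE β ^ 7) := by
  obtain ⟨E0, hE0, H⟩ := inv_step F
  refine ⟨E0, hE0, fun β a0 Y0 hi hE => ?_⟩
  have hβ := hi.hβ
  have hρ := F.hρ
  have t0 : ∀ n : ℕ, (0 : ℝ) < (1 / 2) ^ n := fun n => by positivity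
  have t1 : ∀ n : ℕ, ((1 : ℝ) / 2) ^ n ≤ 1 := fun n => pow_le_one₀ (by norm_num) (by norm_num)
  have H' : ∀ (n : ℕ) (x : {x : ℂ × B // Inv F β a0 Y0 ((1 / 2) ^ n) x.1 x.2}),
      ∃ y : {x : ℂ × B // Inv F β a0 Y0 ((1 / 2) ^ (n + 1)) x.1 x.2},
        ‖y.1.1 - x.1.1‖ ≤ (1 / 2) ^ n ∧ BB 0 (y.1.2 - x.1.2) ((1 / 2) ^ n) := by
    intro n x
    obtain ⟨a', Y', h1, h2⟩ := H β a0 Y0 hi hE _ _ _ (t0 n) (t1 n) x.2
    exact ⟨⟨(a', Y'), by rw [pow_succ, mul_one_div]; exact h1⟩, h2⟩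
  choose f hf using H'
  have h0 : Inv F β a0 Y0 ((1 / 2) ^ 0) a0 Y0 := by
    refine ⟨by simp, by simpa using BB.zero _, by simpa using BB.zero _, hi.hE.mono ?_ ?_⟩
    · norm_num; linarith
    · apply le_of_eq; ring
  let s : ∀ n : ℕ, {x : ℂ × B // Inv F β a0 Y0 ((1 / 2) ^ n) x.1 x.2} :=
    fun n => Nat.rec ⟨(a0, Y0), h0⟩ f n
  have hs : ∀ n, ‖(s (n + 1)).1.1 - (s n).1.1‖ ≤ (1 / 2) ^ n ∧
      BB 0 ((s (n + 1)).1.2 - (s n).1.2) ((1 / 2) ^ n) := fun n => hf n (s n)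
  have hb : ∀ n, BB F.ρ0 ((s n).1.2 - Y0) (EE β ^ 7) := fun n => (s n).2.2.1.mono
    (by have := t0 n; nlinarith) (by have := t0 n; have : 0 < EE β ^ 7 := by positivity
                                     nlinarith)
  obtain ⟨a, ha⟩ := exists_lim (u := fun n => (s n).1.1) fun n => (hs n).1
  obtain ⟨x, hx, bx⟩ := exists_lim_An hρ (u := fun n => (s n).1.2.1) (f := Y0.1)
    (fun n => (hs n).2.1) fun n => (hb n).1
  obtain ⟨y, hy, by'⟩ := exists_lim_An hρ (u := fun n => (s n).1.2.2) (f := Y0.2)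
    (fun n => (hs n).2.2) fun n => (hb n).2
  have he : Tendsto (fun n : ℕ => EE β * (F.M * EE β ^ 10 * ((1 / 2) ^ n) ^ 20)) atTop (𝓝 0) := by
    have := (((tendsto_pow_atTop_nhds_zero_of_lt_one (r := (1 / 2 : ℝ)) (by norm_num)
      (by norm_num)).pow 20).const_mul (F.M * EE β ^ 10)).const_mul (EE β)
    simpa using this
  have hE' : ∀ n, BB 0 (Err (τ β) (κB (kk β)) (κB (s n).1.1) (s n).1.2)
      (EE β * (F.M * EE β ^ 10 * ((1 / 2) ^ n) ^ 20)) := fun n =>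
    (s n).2.2.2.2.mono (by have := t0 n; positivity) le_rfl
  refine ⟨a, (x, y), Prod.ext (err_lim hx hy ha he fun n => (hE' n).1)
    (err_lim hy hx ha he fun n => (hE' n).2), ?_, bx, by'⟩
  refine le_of_tendsto' (ha.sub_const a0).norm fun n => (s n).2.1.trans ?_
  have := t0 n
  have : 0 < EE β ^ 10 := by positivity
  nlinarith

end Pool.Agent.Lib.MP_77fc3d_an
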