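import Pool.Agent.Lib.MP_77fc3d_an.T5
import Pool.Agent.Lib.MP_77fc3d_an.Ell

/-! Flat sesquilinear sections for the equianharmonic Lamé equation: local theory. -/

open Complex Filter Topology PeriodPair

namespace Pool.Agent.Lib.MP_77fc3d_an

open T5

abbrev K := T5 ℂ

lemma t5K : (t : K) ^ 5 = 0 := t_pow_five

/-- The real linear map `v ↦ v p + conj v q`. -/
noncomputable def lin (p q : K) : ℂ →L[ℝ] K :=
  (ContinuousLinearMap.id ℝ ℂ).smulRight p + (conjCLE : ℂ →L[ℝ] ℂ).smulRight q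

lemma lin_apply (p q : K) (v : ℂ) : lin p q v = C v * p + C (starRingEnd ℂ v) * q := by
  simp [lin, smul_eq]

/-- `f` has Wirtinger derivatives `p` and `q` at `z`. -/
def HL (f : ℂ → K) (p q : K) (z : ℂ) : Prop := HasFDerivAt f (lin p q) z

namespace HL

variable {f g : ℂ → K} {p q p' q' : K} {z : ℂ}

lemma congr (h : HL f p q z) (hp : p = p') (hq : q = q') : HL f p' q' z := hp ▸ hq ▸ h

lemma ev (h : HL f p q z) (hg : g =ᶠ[𝓝 z] f) : HL g p q z := h.congr_of_eventuallyEq hg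

lemma add (h : HL f p q z) (h' : HL g p' q' z) : HL (fun w => f w + g w) (p + p') (q + q') z :=
  (HasFDerivAt.add h h').congr_fderiv (by ext1 v; simp only [ContinuousLinearMap.add_apply, lin_apply]; ring)

lemma const (c : K) : HL (fun _ => c) 0 0 z :=
  (hasFDerivAt_const c z).congr_fderiv (by ext1 v; simp [lin_apply])

lemma mul (h : HL f p q z) (h' : HL g p' q' z) :
    HL (fun w => f w * g w) (p * g z + f z * p') (q * g z + f z * q') z :=
  (HasFDerivAt.mul h h').congr_fderiv (by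
    ext1 v; simp only [ContinuousLinearMap.add_apply, ContinuousLinearMap.smul_apply, lin_apply,
      smul_eq_mul]; ring)

lemma const_mul (h : HL f p q z) (c : K) : HL (fun w => c * f w) (c * p) (c * q) z :=
  ((const c).mul h).congr (by ring) (by ring)

lemma of_hasDerivAt (h : HasDerivAt f p z) : HL f p 0 z :=
  (h.hasFDerivAt.restrictScalars ℝ).congr_fderiv (by ext1 v; simp [lin_apply, smul_eq])

lemma cj (h : HL f p q z) : HL (fun w => T5.cj (f w)) (T5.cj q) (T5.cj p) z :=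
  (cjL.hasFDerivAt.comp z h).congr_fderiv (by
    ext1 v; simp only [ContinuousLinearMap.comp_apply, cjL_apply, lin_apply, map_add, map_mul,
      cj_C, conj_conj]; ring)

lemma aff {k l : ℂ} (h : HL f p q (k * z + l)) :
    HL (fun w => f (k * w + l)) (C k * p) (C (starRingEnd ℂ k) * q) z := by
  have h1 : HasFDerivAt (fun w : ℂ => k * w + l) (k • ContinuousLinearMap.id ℝ ℂ) z :=
    (((hasFDerivAt_id z).const_mul k).add_const l)
  exact (HasFDerivAt.comp z (g := f) (f := fun w : ℂ => k * w + l) h h1).congr_fderiv (by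
    ext1 v; simp only [ContinuousLinearMap.comp_apply, ContinuousLinearMap.smul_apply,
      ContinuousLinearMap.id_apply, lin_apply, smul_eq_mul, map_mul]; ring)

lemma raff {k l : ℂ} (h : HL f p q (k * starRingEnd ℂ z + l)) :
    HL (fun w => f (k * starRingEnd ℂ w + l)) (C (starRingEnd ℂ k) * q) (C k * p) z := by
  have h1 : HasFDerivAt (fun w : ℂ => k * starRingEnd ℂ w + l) (k • (conjCLE : ℂ →L[ℝ] ℂ)) z :=
    ((conjCLE.hasFDerivAt.const_mul k).add_const l)
  exact (HasFDerivAt.comp z (g := f) (f := fun w : ℂ => k * starRingEnd ℂ w + l) h h1).congr_fderiv (by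
    ext1 v; simp only [ContinuousLinearMap.comp_apply, ContinuousLinearMap.smul_apply,
      ContinuousLinearEquiv.coe_coe, conjCLE_apply, lin_apply, smul_eq_mul, map_mul, conj_conj]
    ring)

lemma path {γ : ℝ → ℂ} {γ' : ℂ} {x : ℝ} (h : HL f p q (γ x)) (hγ : HasDerivAt γ γ' x) :
    HasDerivAt (fun y => f (γ y)) (C γ' * p + C (starRingEnd ℂ γ') * q) x := by
  have := HasFDerivAt.comp_hasDerivAt x (l := f) h hγ
  rwa [lin_apply] at this

lemma eq_of_zero {U : Set ℂ} (hU : IsOpen U) (hc : Convex ℝ U) (h : ∀ z ∈ U, HL f 0 0 z)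
    {x y : ℂ} (hx : x ∈ U) (hy : y ∈ U) : f x = f y := by
  refine hU.is_const_of_fderiv_eq_zero (𝕜 := ℝ) hc.isPreconnected
    (fun z hz => (h z hz).differentiableAt.differentiableWithinAt) (fun z hz => ?_) hx hy
  rw [(h z hz).fderiv]; ext1 v; simp [lin_apply]

end HL

lemma hl_C (z : ℂ) : HL (fun w => C w) 1 0 z := by
  have : HasDerivAt (fun w : ℂ => w • (1 : K)) ((1 : ℂ) • (1 : K)) z :=
    (hasDerivAt_id z).smul_const 1
  simpa [smul_eq] using HL.of_hasDerivAt this

/-- Jets. -/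
@[ext] structure Jet where
  a : K
  b : K
  c : K
  d : K

/-- Flatness for the connection attached to `y'' = - A ℘ y`, where `A = t A'`. -/
structure FlatAt (A' : K) (J : ℂ → Jet) (z : ℂ) : Prop where
  h1 : HL (fun w => (J w).a) (J z).b (J z).c z
  h2 : HL (fun w => (J w).b) (-(C (℘[LL] z) * (t * A') * (J z).a)) (J z).d z
  h3 : HL (fun w => (J w).c) (J z).d (-(C (starRingEnd ℂ (℘[LL] z)) * (t * A') * (J z).a)) z
  h4 : HL (fun w => (J w).d) (-(C (℘[LL] z) * (t * A') * (J z).c))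
    (-(C (starRingEnd ℂ (℘[LL] z)) * (t * A') * (J z).b)) z

/-- Linear combination of jets. -/
def Jet.lc (x : K) (j : Jet) (y : K) (k : Jet) : Jet :=
  ⟨x * j.a + y * k.a, x * j.b + y * k.b, x * j.c + y * k.c, x * j.d + y * k.d⟩

/-- Rotation of jets. -/
noncomputable def Jet.rot (k : ℂ) (j : Jet) : Jet := ⟨j.a, C k * j.b, C (starRingEnd ℂ k) * j.c, j.d⟩

/-- Reflection of jets. -/
noncomputable def Jet.rfl' (k : ℂ) (j : Jet) : Jet :=
  ⟨j.a, C (starRingEnd ℂ k) * j.c, C k * j.b, j.d⟩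

variable {A' : K}

namespace FlatAt

variable {J J' : ℂ → Jet} {z : ℂ}

lemma ev (h : FlatAt A' J z) (hg : J' =ᶠ[𝓝 z] J) : FlatAt A' J' z := by
  have h0 : J' z = J z := hg.eq_of_nhds
  refine ⟨?_, ?_, ?_, ?_⟩ <;> rw [h0]
  · exact h.h1.ev (hg.mono fun w hw => by simp only [hw])
  · exact h.h2.ev (hg.mono fun w hw => by simp only [hw])
  · exact h.h3.ev (hg.mono fun w hw => by simp only [hw])
  · exact h.h4.ev (hg.mono fun w hw => by simp only [hw])

lemma lc (h : FlatAt A' J z) (h' : FlatAt A' J' z) (x y : K) :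
    FlatAt A' (fun w => Jet.lc x (J w) y (J' w)) z :=
  ⟨(h.h1.const_mul x).add (h'.h1.const_mul y),
    ((h.h2.const_mul x).add (h'.h2.const_mul y)).congr (by simp only [Jet.lc]; ring) rfl,
    ((h.h3.const_mul x).add (h'.h3.const_mul y)).congr rfl (by simp only [Jet.lc]; ring),
    ((h.h4.const_mul x).add (h'.h4.const_mul y)).congr (by simp only [Jet.lc]; ring)
      (by simp only [Jet.lc]; ring)⟩

lemma rot {k l : ℂ} (hk : k * starRingEnd ℂ k = 1) (hp : k ^ 2 * ℘[LL] (k * z + l) = ℘[LL] z)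
    (h : FlatAt A' J (k * z + l)) : FlatAt A' (fun w => Jet.rot k (J (k * w + l))) z := by
  have e1 := congrArg (C : ℂ →+* K) hk
  have e2 := congrArg (C : ℂ →+* K) hp
  have e3 := congrArg (fun x => (C : ℂ →+* K) (starRingEnd ℂ x)) hp
  simp only [map_mul, map_pow, map_one] at e1 e2 e3
  refine ⟨h.h1.aff, (h.h2.aff.const_mul (C k)).congr ?_ ?_,
    (h.h3.aff.const_mul (C (starRingEnd ℂ k))).congr ?_ ?_, h.h4.aff.congr ?_ ?_⟩ <;>
    simp only [Jet.rot]
  · linear_combination (-(t * A') * (J (k * z + l)).a) * e2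
  · linear_combination (J (k * z + l)).d * e1
  · linear_combination (J (k * z + l)).d * e1
  · linear_combination (-(t * A') * (J (k * z + l)).a) * e3
  · linear_combination (-(t * A') * (J (k * z + l)).c * C (starRingEnd ℂ k)) * e2 +
      ((t * A') * (J (k * z + l)).c * C k * C (℘[LL] (k * z + l))) * e1
  · linear_combination (-(t * A') * (J (k * z + l)).b * C k) * e3 +
      ((t * A') * (J (k * z + l)).b * C (starRingEnd ℂ k) *
        C (starRingEnd ℂ (℘[LL] (k * z + l)))) * e1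

lemma rfl' {k l : ℂ} (hk : k * starRingEnd ℂ k = 1)
    (hp : k ^ 2 * ℘[LL] (k * starRingEnd ℂ z + l) = starRingEnd ℂ (℘[LL] z))
    (h : FlatAt A' J (k * starRingEnd ℂ z + l)) :
    FlatAt A' (fun w => Jet.rfl' k (J (k * starRingEnd ℂ w + l))) z := by
  have e1 := congrArg (C : ℂ →+* K) hk
  have e2 := congrArg (C : ℂ →+* K) hp
  have e3 := congrArg (fun x => (C : ℂ →+* K) (starRingEnd ℂ x)) hp
  simp only [map_mul, map_pow, map_one, conj_conj] at e1 e2 e3
  refine ⟨h.h1.raff, (h.h3.raff.const_mul (C (starRingEnd ℂ k))).congr ?_ ?_,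
    (h.h2.raff.const_mul (C k)).congr ?_ ?_, h.h4.raff.congr ?_ ?_⟩ <;>
    simp only [Jet.rfl'] <;> generalize k * starRingEnd ℂ z + l = w at *
  · linear_combination (-(t * A') * (J w).a) * e3
  · linear_combination (J w).d * e1
  · linear_combination (J w).d * e1
  · linear_combination (-(t * A') * (J w).a) * e2
  · linear_combination (-(t * A') * (J w).b * C k) * e3 +
      ((t * A') * (J w).b * C (starRingEnd ℂ k) * C (starRingEnd ℂ (℘[LL] w))) * e1
  · linear_combination (-(t * A') * (J w).c * C (starRingEnd ℂ k)) * e2 +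
      ((t * A') * (J w).c * C k * C (℘[LL] w)) * e1

end FlatAt

lemma flat_zero {U : Set ℂ} (hU : IsOpen U) (hc : Convex ℝ U) {J : ℂ → Jet}
    (h : ∀ z ∈ U, FlatAt A' J z) {z₀ : ℂ} (h0 : z₀ ∈ U) (hJ : J z₀ = ⟨0, 0, 0, 0⟩) :
    ∀ z ∈ U, J z = ⟨0, 0, 0, 0⟩ := by
  have step : ∀ n : ℕ, (∀ z ∈ U, t ^ (n + 1) * (J z).a = 0 ∧ t ^ (n + 1) * (J z).b = 0 ∧
      t ^ (n + 1) * (J z).c = 0 ∧ t ^ (n + 1) * (J z).d = 0) →
      ∀ z ∈ U, t ^ n * (J z).a = 0 ∧ t ^ n * (J z).b = 0 ∧ t ^ n * (J z).c = 0 ∧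
        t ^ n * (J z).d = 0 := by
    intro n ih
    have hd : ∀ z ∈ U, t ^ n * (J z).d = 0 := fun z hz => by
      have := HL.eq_of_zero hU hc (f := fun w => t ^ n * (J w).d) (fun w hw =>
        ((h w hw).h4.const_mul _).congr
          (by linear_combination (-(C (℘[LL] w) * A')) * (ih w hw).2.2.1)
          (by linear_combination (-(C (starRingEnd ℂ (℘[LL] w)) * A')) * (ih w hw).2.1)) hz h0
      simpa [hJ] using this
    have hb : ∀ z ∈ U, t ^ n * (J z).b = 0 := fun z hz => by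
      have := HL.eq_of_zero hU hc (f := fun w => t ^ n * (J w).b) (fun w hw =>
        ((h w hw).h2.const_mul _).congr
          (by linear_combination (-(C (℘[LL] w) * A')) * (ih w hw).1) (hd w hw)) hz h0
      simpa [hJ] using this
    have hc' : ∀ z ∈ U, t ^ n * (J z).c = 0 := fun z hz => by
      have := HL.eq_of_zero hU hc (f := fun w => t ^ n * (J w).c) (fun w hw =>
        ((h w hw).h3.const_mul _).congr (hd w hw)
          (by linear_combination (-(C (starRingEnd ℂ (℘[LL] w)) * A')) * (ih w hw).1)) hz h0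
      simpa [hJ] using this
    have ha : ∀ z ∈ U, t ^ n * (J z).a = 0 := fun z hz => by
      have := HL.eq_of_zero hU hc (f := fun w => t ^ n * (J w).a) (fun w hw =>
        ((h w hw).h1.const_mul _).congr (hb w hw) (hc' w hw)) hz h0
      simpa [hJ] using this
    exact fun z hz => ⟨ha z hz, hb z hz, hc' z hz, hd z hz⟩
  have := step 0 (step 1 (step 2 (step 3 (step 4 (fun z _ => by simp [t_pow_five])))))
  intro z hz
  obtain ⟨h1, h2, h3, h4⟩ := this z hz
  simp only [pow_zero, one_mul] at h1 h2 h3 h4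
  exact Jet.ext h1 h2 h3 h4

lemma flat_unique {U : Set ℂ} (hU : IsOpen U) (hc : Convex ℝ U) {J J' : ℂ → Jet}
    (h : ∀ z ∈ U, FlatAt A' J z) (h' : ∀ z ∈ U, FlatAt A' J' z) {z₀ : ℂ} (h0 : z₀ ∈ U)
    (hJ : J z₀ = J' z₀) : ∀ z ∈ U, J z = J' z := by
  intro z hz
  have := flat_zero hU hc (fun w hw => (h w hw).lc (h' w hw) 1 (-1)) h0
    (by simp [Jet.lc, hJ]) z hz
  simp only [Jet.lc, Jet.mk.injEq] at this
  ext1
  · linear_combination this.1
  · linear_combination this.2.1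
  · linear_combination this.2.2.1
  · linear_combination this.2.2.2

lemma exists_prim {U : Set ℂ} (hU : IsOpen U) (hc : Convex ℝ U) {e : ℂ → K}
    (he : DifferentiableOn ℂ e U) (z₀ : ℂ) :
    ∃ E : ℂ → K, E z₀ = 0 ∧ ∀ z ∈ U, HasDerivAt E (e z) z := by
  obtain ⟨g, hg⟩ := hc.exists_forall_hasDerivWithinAt he
  exact ⟨fun z => g z - g z₀, sub_self _, fun z hz =>
    ((hg z hz).hasDerivAt (hU.mem_nhds hz)).sub_const _⟩

lemma exists_sol {U : Set ℂ} (hU : IsOpen U) (hc : Convex ℝ U) (hL : ∀ z ∈ U, z ∉ LL.lattice)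
    (A' : K) (z₀ : ℂ) (p q : K) : ∃ y y' : ℂ → K, y z₀ = p ∧ y' z₀ = q ∧ ∀ z ∈ U,
      HasDerivAt y (y' z) z ∧ HasDerivAt y' (-(C (℘[LL] z) * (t * A') * y z)) z := by
  have hP : DifferentiableOn ℂ (fun z => (C (℘[LL] z) : K)) U := by
    have : DifferentiableOn ℂ (fun z => ℘[LL] z • (1 : K)) U :=
      (LL.differentiableOn_weierstrassP.mono hL).smul_const 1
    simpa [smul_eq] using this
  have key : ∀ n : ℕ, ∃ y y' e : ℂ → K, y z₀ = p ∧ y' z₀ = q ∧ DifferentiableOn ℂ e U ∧ ∀ z ∈ U,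
      HasDerivAt y (y' z) z ∧
        HasDerivAt y' (-(C (℘[LL] z) * (t * A') * y z) + t ^ n * e z) z := by
    intro n
    induction n with
    | zero =>
      refine ⟨fun z => p + (z - z₀) • q, fun _ => q,
        fun z => C (℘[LL] z) * (t * A') * (p + (z - z₀) • q), by simp, rfl,
        (hP.mul_const (t * A')).fun_mul (by fun_prop),
        fun z _ => ⟨?_, ?_⟩⟩
      · simpa using (((hasDerivAt_id z).sub_const z₀).smul_const q).const_add p
      · simpa using hasDerivAt_const z q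
    | succ n ih =>
      obtain ⟨y, y', e, h1, h2, h3, h4⟩ := ih
      obtain ⟨E1, hE1, hE1'⟩ := exists_prim hU hc h3 z₀
      obtain ⟨E2, hE2, hE2'⟩ := exists_prim hU hc (e := E1)
        (fun z hz => (hE1' z hz).differentiableAt.differentiableWithinAt) z₀
      have hd : DifferentiableOn ℂ E2 U :=
        fun z hz => (hE2' z hz).differentiableAt.differentiableWithinAt
      refine ⟨fun z => y z - t ^ n * E2 z, fun z => y' z - t ^ n * E1 z,
        fun z => -(C (℘[LL] z) * A' * E2 z), by simp [h1, hE2], by simp [h2, hE1],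
        ((hP.mul_const A').fun_mul hd).fun_neg,
        fun z hz => ⟨(h4 z hz).1.fun_sub ((hE2' z hz).const_mul (t ^ n)), ?_⟩⟩
      exact ((h4 z hz).2.fun_sub ((hE1' z hz).const_mul (t ^ n))).congr_deriv (by ring)
  obtain ⟨y, y', e, h1, h2, -, h4⟩ := key 5
  exact ⟨y, y', h1, h2, fun z hz => ⟨(h4 z hz).1, by simpa [t_pow_five] using (h4 z hz).2⟩⟩

lemma flat_prod (hA : cj A' = A') {y y' w w' : ℂ → K} {z : ℂ}
    (hy : HasDerivAt y (y' z) z ∧ HasDerivAt y' (-(C (℘[LL] z) * (t * A') * y z)) z)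
    (hw : HasDerivAt w (w' z) z ∧ HasDerivAt w' (-(C (℘[LL] z) * (t * A') * w z)) z) :
    FlatAt A' (fun v => ⟨y v * cj (w v), y' v * cj (w v), y v * cj (w' v), y' v * cj (w' v)⟩) z := by
  have a1 := HL.of_hasDerivAt hy.1
  have a2 := HL.of_hasDerivAt hy.2
  have b1 := (HL.of_hasDerivAt hw.1).cj
  have b2 := (HL.of_hasDerivAt hw.2).cj
  simp only [map_zero, map_neg, map_mul, cj_C, cj_t, hA] at b1 b2
  exact ⟨(a1.mul b1).congr (by ring) (by ring), (a2.mul b1).congr (by ring) (by ring),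
    (a1.mul b2).congr (by ring) (by ring), (a2.mul b2).congr (by ring) (by ring)⟩

lemma exists_flat (hA : cj A' = A') {U : Set ℂ} (hU : IsOpen U) (hc : Convex ℝ U)
    (hL : ∀ z ∈ U, z ∉ LL.lattice) (z₀ : ℂ) (j : Jet) :
    ∃ J : ℂ → Jet, J z₀ = j ∧ ∀ z ∈ U, FlatAt A' J z := by
  obtain ⟨y, y', h1, h2, hy⟩ := exists_sol hU hc hL A' z₀ 1 0
  obtain ⟨w, w', h3, h4, hw⟩ := exists_sol hU hc hL A' z₀ 0 1
  refine ⟨_, ?_, fun z hz => (((flat_prod hA (hy z hz) (hy z hz)).lc
    (flat_prod hA (hw z hz) (hy z hz)) j.a j.b).lc ((flat_prod hA (hy z hz) (hw z hz)).lc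
    (flat_prod hA (hw z hz) (hw z hz)) j.c j.d) 1 1)⟩
  ext1 <;> simp [Jet.lc, h1, h2, h3, h4]

lemma flat_const (z : ℂ) : FlatAt A' (fun _ => ⟨t ^ 4, 0, 0, 0⟩) z :=
  ⟨HL.const _, (HL.const _).congr (by linear_combination (C (℘[LL] z) * A') * t5K) rfl,
    (HL.const _).congr rfl
      (by linear_combination (C (starRingEnd ℂ (℘[LL] z)) * A') * t5K),
    (HL.const _).congr (by simp) (by simp)⟩

lemma flat_quad (o z : ℂ) : FlatAt A' (fun w => ⟨t ^ 4 * ((C w - C o) * cj (C w - C o)),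
    t ^ 4 * cj (C w - C o), t ^ 4 * (C w - C o), t ^ 4⟩) z := by
  have a1 : HL (fun w => C w - C o) 1 0 z := by
    simpa [sub_eq_add_neg] using (hl_C z).add (HL.const (-C o))
  have a2 := a1.cj
  simp only [map_zero, map_one] at a2
  refine ⟨((a1.mul a2).const_mul _).congr (by ring) (by ring),
    (a2.const_mul _).congr ?_ (by ring), (a1.const_mul _).congr (by ring) ?_,
    (HL.const _).congr ?_ ?_⟩
  · linear_combination (C (℘[LL] z) * A' * ((C z - C o) * cj (C z - C o))) * t5K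
  · linear_combination (C (starRingEnd ℂ (℘[LL] z)) * A' * ((C z - C o) * cj (C z - C o))) *
      t5K
  · linear_combination (C (℘[LL] z) * A' * (C z - C o)) * t5K
  · linear_combination (C (starRingEnd ℂ (℘[LL] z)) * A' * cj (C z - C o)) * t5K

end Pool.Agent.Lib.MP_77fc3d_an
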