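import Pool.Agent.Lib.MP_77fc3d_an.Apx3

/-! The invariant annulus. -/

open Real Filter Topology Metric

namespace Pool.Agent.Lib.MP_77fc3d_an

lemma strip_ext {h : ℝ} (hh : 0 < h) {f g : ℂ → ℂ} (hf : DifferentiableOn ℂ f {z : ℂ | |z.im| < h})
    (hg : DifferentiableOn ℂ g {z : ℂ | |z.im| < h}) (e : ∀ x : ℝ, f x = g x) {z : ℂ}
    (hz : |z.im| < h) : f z = g z := by
  have hc : Convex ℝ {z : ℂ | |z.im| < h} := by
    have : {z : ℂ | |z.im| < h} = {z : ℂ | -h < z.im} ∩ {z : ℂ | z.im < h} := by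
      ext z; exact abs_lt (a := z.im)
    rw [this]
    exact (convex_halfSpace_im_gt _).inter (convex_halfSpace_im_lt _)
  have ht : Tendsto (fun x : ℝ => (x : ℂ)) (𝓝[≠] 0) (𝓝[≠] 0) :=
    tendsto_nhdsWithin_of_tendsto_nhds_of_eventually_within _
      ((Complex.continuous_ofReal.tendsto' 0 0 rfl).mono_left nhdsWithin_le_nhds)
      (eventually_nhdsWithin_of_forall fun x hx => by simpa using hx)
  exact (hf.analyticOnNhd (isOpen_strip h)).eqOn_of_preconnected_of_frequently_eq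
    (hg.analyticOnNhd (isOpen_strip h)) hc.isPreconnected (z₀ := 0) (by simpa using hh)
    (ht.frequently (Eventually.of_forall e).frequently) hz

lemma diff_shift {h : ℝ} {f : ℂ → ℂ} (hf : DifferentiableOn ℂ f {z : ℂ | |z.im| < h}) (t : ℝ) :
    DifferentiableOn ℂ (fun z => f (z + t)) {z : ℂ | |z.im| < h} :=
  hf.comp (f := fun z : ℂ => z + t) (by fun_prop) fun z hz => by simpa using hz

lemma func_eq {ρ A β : ℝ} (hρ : 0 < ρ) {k a : ℂ} {u v : An} (hu : Bd ρ u.1 A) (hv : Bd ρ v.1 A)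
    (e : sh β (sh β u) - κ a * u - κ k * sh β v ^ 2 = 0) {z : ℂ} (hz : |z.im| < ρ / (2 * π)) :
    ext u (z + β + β) = a * ext u z + k * ext v (z + β) ^ 2 := by
  have du := differentiableOn_ext hu
  have dv := differentiableOn_ext hv
  refine strip_ext (by positivity) (diff_shift (diff_shift du β) β)
    (g := fun z => a * ext u z + k * ext v (z + β) ^ 2)
    ((du.const_mul a).add (((diff_shift dv β).pow 2).const_mul k)) (fun x => ?_) hz
  have := congrArg (evR x) e
  simp only [map_sub, map_mul, map_pow, evR_sh, evR_κ, map_zero] at this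
  simp only [← Complex.ofReal_add, ext_ofReal]
  linear_combination this

/-- The Fourier coefficients vanish outside a given set. -/
def Supp (Q : ℤ → Prop) (f : An) : Prop := ∀ n : ℤ, ¬Q n → cf f n = 0

lemma Supp.mul {Q : ℤ → Prop} (hQ : ∀ m n, Q m → Q n → Q (m + n)) {f g : An} (hf : Supp Q f)
    (hg : Supp Q g) : Supp Q (f * g) := fun n hn => by
  refine (hasSum_cf_mul f g n).unique ?_
  have : (fun k => cf f k * cf g (n - k)) = fun _ => 0 := funext fun k => by
    by_cases h : Q k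
    · rw [hg (n - k) fun h' => hn (by simpa using hQ _ _ h h'), mul_zero]
    · rw [hf k h, zero_mul]
  rw [this]
  exact hasSum_zero

lemma Supp.sub {Q : ℤ → Prop} {f g : An} (hf : Supp Q f) (hg : Supp Q g) : Supp Q (f - g) :=
  fun n hn => by rw [cf_sub, hf n hn, hg n hn, sub_zero]

lemma Supp.of_mul {Q : ℤ → Prop} {f : An} {c : ℂ} {β : ℝ} (hc : c ≠ 0)
    (hf : Supp Q (κ c * sh β f)) : Supp Q f := fun n hn => by
  have := hf n hn
  rw [cf_κ_mul, cf_sh] at this
  simpa [hc] using this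

lemma Supp.two {Q : ℤ → Prop} (hQ : ∀ m n, Q m → Q n → Q (m + n)) {f g : An} (hf : Supp Q f)
    (hg : Supp Q g) (h : cf (f * g) (-2) ≠ 0) : Q (-2) := by
  by_contra hc
  exact h (hf.mul hQ hg _ hc)

lemma Supp.three {Q : ℤ → Prop} (hQ : ∀ m n, Q m → Q n → Q (m + n)) {f g : An} (hf : Supp Q f)
    (hg : Supp Q g) (h : cf (g ^ 3 - f ^ 3) 3 ≠ 0) : Q 3 := by
  by_contra hc
  rw [pow_three, pow_three] at h
  exact h ((hg.mul hQ (hg.mul hQ hg)).sub (hf.mul hQ (hf.mul hQ hf)) _ hc)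

lemma supp_of_eq {ρ A : ℝ} {f : An} (hf : Bd ρ f.1 A) {z w : ℂ} (hz : |z.im| < ρ / (2 * π))
    (hw : |w.im| < ρ / (2 * π)) (e : ∀ x : ℝ, ext f (z + x) = ext f (w + x)) :
    Supp (fun n => Complex.exp (2 * π * Complex.I * n * (z - w)) = 1) f := by
  have key : ∀ {z : ℂ}, |z.im| < ρ / (2 * π) → ∃ g : CT, (∀ x : ℝ, g x = ext f (z + x)) ∧
      ∀ n, fc g n = cf f n * Complex.exp (2 * π * Complex.I * n * z) := by
    intro z hz
    have hs : Summable fun n : ℤ => ‖cf f n * Complex.exp (2 * π * Complex.I * n * z)‖ :=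
      hf.summable.of_nonneg_of_le (fun _ => norm_nonneg _) fun n => norm_term_le f n hz
    refine ⟨_, fun x => ?_, fc_synth hs⟩
    have := ContinuousMap.hasSum_apply (hasSum_synth hs) (x : UnitAddCircle)
    rw [← this.tsum_eq, ext]
    refine tsum_congr fun n => ?_
    simp only [ContinuousMap.smul_apply, fourier_coe_apply, smul_eq_mul, mul_add, Complex.exp_add]
    simp [mul_assoc]
  obtain ⟨g, hg, hg'⟩ := key hz
  obtain ⟨g', hh, hh'⟩ := key hw
  have : g = g' := by
    ext x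
    induction x using QuotientAddGroup.induction_on with
    | H x => rw [hg, hh, e]
  intro n hn
  have h1 := hg' n
  rw [this, hh'] at h1
  by_contra hc
  apply hn
  rw [mul_sub, Complex.exp_sub, ← mul_left_cancel₀ hc h1, div_self (Complex.exp_ne_zero _)]

lemma orbit_eq {X : Type} [TopologicalSpace X] [T2Space X] {θ : ℝ} (hθ : Irrational θ) {u v : ℝ → X}
    (hu : Continuous u) (hv : Continuous v) (h0 : u 0 = v 0)
    (h1 : ∀ x, u x = v x ↔ u (x + θ) = v (x + θ)) (h2 : ∀ x, u x = v x ↔ u (x + 1) = v (x + 1)) :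
    u = v := by
  let G : AddSubgroup ℝ :=
    { carrier := {t | ∀ x, u x = v x ↔ u (x + t) = v (x + t)}
      add_mem' := fun {a b} ha hb x => by rw [ha x, hb (x + a), add_assoc]
      zero_mem' := fun x => by rw [add_zero]
      neg_mem' := fun {a} ha x => by rw [ha (x + -a), neg_add_cancel_right] }
  have hd : Dense (AddSubgroup.closure {θ, 1} : Set ℝ) :=
    dense_addSubgroupClosure_pair_iff.mpr (by rwa [div_one])
  have hle : AddSubgroup.closure {θ, 1} ≤ G := (AddSubgroup.closure_le G).mpr (by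
    rintro t (rfl | rfl)
    · exact h1
    · exact h2)
  exact hu.ext_on hd hv fun t ht => by simpa using (hle ht 0).mp h0

lemma cauchy {g : ℂ → ℂ} (hg : DiffContOnCl ℂ g (ball 0 1)) {n : ℤ} (hn : n < 0) :
    ∫ x in (0 : ℝ)..1, Complex.exp (2 * π * Complex.I * (-n : ℤ) * x) *
      g (Complex.exp (2 * π * Complex.I * x)) = 0 := by
  have h := integral_eq_circle g 0 one_pos n
  simp only [cz, zero_add, Complex.ofReal_one, one_mul, sub_zero] at h
  obtain ⟨m, hm⟩ := Int.eq_ofNat_of_zero_le (by omega : 0 ≤ -n - 1)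
  have h2 : DiffContOnCl ℂ (fun z : ℂ => z ^ m • g z) (ball 0 1) :=
    (by fun_prop : Differentiable ℂ fun z : ℂ => z ^ m).diffContOnCl.smul hg
  have h3 := h2.circleIntegral_eq_zero zero_le_one
  rw [h, hm]
  simp only [zpow_natCast]
  exact mul_eq_zero_of_right _ h3

lemma side_pos {g : ℂ → ℂ} (hg : DiffContOnCl ℂ g (ball 0 1)) {f : An}
    (e : ∀ x : ℝ, evR x f = g (Complex.exp (2 * π * Complex.I * x))) : Supp (0 ≤ ·) f := fun n hn => by
  rw [cf_eq_integral]
  simp only [e]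
  exact cauchy hg (by omega)

lemma side_neg {g : ℂ → ℂ} (hg : DiffContOnCl ℂ g (ball 0 1)) {f : An}
    (e : ∀ x : ℝ, evR x f = g (Complex.exp (-(2 * π * Complex.I * x)))) : Supp (· ≤ 0) f := fun n hn => by
  have h := cauchy hg (n := -n) (by omega)
  have h1 := intervalIntegral.integral_comp_sub_left (a := 0) (b := 1)
    (fun x : ℝ => Complex.exp (2 * π * Complex.I * (- -n : ℤ) * x) *
      g (Complex.exp (2 * π * Complex.I * x))) 1
  rw [sub_self, sub_zero, h] at h1
  rw [cf_eq_integral, ← h1]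
  refine intervalIntegral.integral_congr fun x _ => ?_
  have e1 : Complex.exp (2 * π * Complex.I * (- -n : ℤ) * ((1 - x : ℝ) : ℂ)) =
      Complex.exp (2 * π * Complex.I * (-n : ℤ) * x) := by
    rw [← mul_one (Complex.exp (_ * (x : ℂ))), ← Complex.exp_int_mul_two_pi_mul_I n, ← Complex.exp_add]
    congr 1; push_cast; ring
  have e2 : Complex.exp (2 * π * Complex.I * ((1 - x : ℝ) : ℂ)) =
      Complex.exp (-(2 * π * Complex.I * x)) := by
    rw [← mul_one (Complex.exp (-_)), ← Complex.exp_two_pi_mul_I, ← Complex.exp_add]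
    congr 1; push_cast; ring
  simp only [e, e1, e2]

theorem main (θ : ℝ) (hθ : Irrational θ)
    (hb : ∃ M : ℝ, ∀ n b, (GenContFract.of θ).partDens.get? n = some b → b ≤ M)
    (ε : ℝ) (hε : 0 < ε) : ∃ a : ℂ, a ≠ 0 ∧ ‖a‖ < 1 ∧ ‖a - 1‖ < ε ∧
    ∃ h : ℝ, 0 < h ∧ ∃ φ : ℂ → ℂ × ℂ, DifferentiableOn ℂ φ {z : ℂ | |z.im| < h} ∧
      (∀ z, φ (z + 1) = φ z) ∧
      (∀ z w : ℂ, |z.im| < h → |w.im| < h → φ z = φ w → ∃ m : ℤ, z = w + m) ∧
      (∃ n : ℕ, 2 ≤ n ∧ ∀ z : ℂ, |z.im| < h →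
        (fun p : ℂ × ℂ => (a * p.2, p.1 + p.2 ^ 2))^[n] (φ z) = φ (z + θ)) ∧
      ∀ ψ : ℂ → ℂ × ℂ, DiffContOnCl ℂ ψ (ball 0 1) →
        (¬ ∀ x : ℝ, φ x = ψ (Complex.exp (2 * π * Complex.I * x))) ∧
        ¬ ∀ x : ℝ, φ x = ψ (Complex.exp (-(2 * π * Complex.I * x))) := by
  obtain ⟨γ, hγ, hbad⟩ := bad_of_bounded hθ hb
  have hsh : ∀ m : ℤ, ∃ M ≥ 1, ∀ k : ℕ, 1 ≤ k → Dio M ((θ - m) / (2 * k)) := fun m =>
    dio_of_bad hγ fun q p hq => by
      have := hbad q (p + q * m) hq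
      rwa [show (q : ℝ) * θ - ((p + q * m : ℤ) : ℝ) = q * (θ - m) - p by push_cast; ring] at this
  obtain ⟨M1, hM1, H1⟩ := hsh (⌊θ⌋ - 1)
  obtain ⟨M2, hM2, H2⟩ := hsh (⌊θ⌋ + 1)
  obtain ⟨s, hs, H⟩ := exists_circle (M1 := max M1 M2) (η := min ε 1) (le_max_of_le_left hM1)
  obtain ⟨E0, hE0, H⟩ := H (lt_min hε one_pos)
  obtain ⟨m, hm, H3⟩ : ∃ m : ℤ, 0 < (θ - m) * s ∧
      ∀ k : ℕ, 1 ≤ k → Dio (max M1 M2) ((θ - m) / (2 * k)) := by
    rcases lt_or_gt_of_ne hs with h | h
    · refine ⟨⌊θ⌋ + 1, mul_pos_of_neg_of_neg ?_ h,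
        fun k hk => (H2 k hk).mono (by linarith) (le_max_right _ _)⟩
      have := Int.lt_floor_add_one θ; push_cast; linarith
    · refine ⟨⌊θ⌋ - 1, mul_pos ?_ h, fun k hk => (H1 k hk).mono (by linarith) (le_max_left _ _)⟩
      have := Int.floor_le θ; push_cast; linarith
  obtain ⟨k, hk⟩ := exists_nat_gt (max 1 (π * |θ - m| / E0))
  have hk1 : (1 : ℝ) < k := (le_max_left _ _).trans_lt hk
  have hk2 := (le_max_right _ _).trans_lt hk
  have hk0 : (0 : ℝ) < k := by linarith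
  have hk3 : 1 ≤ k := by exact_mod_cast hk1.le
  generalize hβ : (θ - m) / (2 * k) = β
  have hβs : 0 < β * s := by rw [← hβ, div_mul_eq_mul_div]; positivity
  have hβ0 : β ≠ 0 := by rintro rfl; simp at hβs
  have hE : EE β < E0 := by
    rw [div_lt_iff₀ hE0] at hk2
    rw [← hβ, EE, abs_div, abs_of_pos (by positivity : (0 : ℝ) < 2 * k),
      show 2 * π * (|θ - m| / (2 * k)) = π * |θ - m| / k by field_simp, div_lt_iff₀ hk0]
    linarith
  obtain ⟨a, Y, e0, ha1, ha2, n1, n2⟩ := H β hβs hE (hβ ▸ H3 k hk3)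
  have ha0 : a ≠ 0 := by
    rintro rfl
    have := ha2.trans_le (min_le_right _ _)
    simp at this
  have hkk : kk β ≠ 0 := norm_pos_iff.mp (by rw [norm_kk]; have := EE_pos hβ0; positivity)
  obtain ⟨ρ, hρ, A, b1, b2⟩ := exists_BB Y
  have E1 := fun z => func_eq hρ b1 b2 (z := z) (congrArg Prod.fst e0)
  have E2 := fun z => func_eq hρ b2 b1 (z := z) (congrArg Prod.snd e0)
  let φ : ℂ → ℂ × ℂ := fun z => (a * kk β * ext Y.2 (z + (-β : ℝ)), kk β * ext Y.1 z)
  have hint : ∀ (z : ℂ) (j : ℤ), φ (z + j) = φ z := fun z j => by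
    simp only [φ]; rw [add_right_comm, ext_add_int, ext_add_int]
  have step : ∀ z : ℂ, |z.im| < ρ / (2 * π) →
      (fun p : ℂ × ℂ => (a * p.2, p.1 + p.2 ^ 2))^[2] (φ z) = φ (z + (2 * β : ℝ)) := by
    intro z hz
    have e1 := E1 z hz
    have e2 := E2 (z + (-β : ℝ)) (by simpa using hz)
    rw [show z + ((-β : ℝ) : ℂ) + β = z by push_cast; ring] at e2
    simp only [φ, Function.iterate_succ, Function.iterate_zero, Function.comp, id]
    rw [show z + ((2 * β : ℝ) : ℂ) + ((-β : ℝ) : ℂ) = z + β by push_cast; ring,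
      show z + ((2 * β : ℝ) : ℂ) = z + β + β by push_cast; ring, e1, e2]
    ext1 <;> simp only <;> ring
  have iter : ∀ (j : ℕ) (z : ℂ), |z.im| < ρ / (2 * π) →
      (fun p : ℂ × ℂ => (a * p.2, p.1 + p.2 ^ 2))^[2 * j] (φ z) = φ (z + (j * (2 * β) : ℝ)) := by
    intro j
    induction j with
    | zero => intro z _; simp
    | succ j ih =>
      intro z hz
      rw [mul_add, mul_one, Function.iterate_add_apply, step z hz, ih _ (by simpa using hz)]
      congr 1; push_cast; ring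
  have ev1 : ∀ x : ℝ, evR x (κ (a * kk β) * sh (-β) Y.2) = (φ x).1 := fun x => by
    simp only [φ, map_mul, evR_κ, evR_sh, ← Complex.ofReal_add, ext_ofReal]
  have ev2 : ∀ x : ℝ, evR x (κ (kk β) * sh 0 Y.1) = (φ x).2 := fun x => by
    simp only [φ, map_mul, evR_κ, evR_sh, add_zero, ext_ofReal]
  have hrot : ∀ z : ℂ, |z.im| < ρ / (2 * π) →
      (fun p : ℂ × ℂ => (a * p.2, p.1 + p.2 ^ 2))^[2 * k] (φ z) = φ (z + θ) := fun z hz => by
    rw [iter k z hz, ← hint _ m, ← hβ]
    congr 1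
    have : (k : ℂ) ≠ 0 := by exact_mod_cast hk0.ne'
    push_cast; field_simp; ring
  have hdiff : DifferentiableOn ℂ φ {z : ℂ | |z.im| < ρ / (2 * π)} :=
    ((diff_shift (differentiableOn_ext b2) (-β)).const_mul _).prodMk
      ((differentiableOn_ext b1).const_mul _)
  have hone : ∀ z, φ (z + 1) = φ z := fun z => by simpa using hint z 1
  refine ⟨a, ha0, ha1, ha2.trans_le (min_le_left _ _), ρ / (2 * π), by positivity, φ, hdiff, hone,
    fun z w hz hw e => ?_, ⟨2 * k, by omega, hrot⟩, fun ψ hψ => ?_⟩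
  · have hinj : Function.Injective fun p : ℂ × ℂ => (a * p.2, p.1 + p.2 ^ 2) := fun p q h => by
      have h2 : p.2 = q.2 := mul_left_cancel₀ ha0 (congrArg Prod.fst h)
      have h1 : p.1 + p.2 ^ 2 = q.1 + q.2 ^ 2 := congrArg Prod.snd h
      rw [h2] at h1
      exact Prod.ext (add_right_cancel h1) h2
    have hc : ∀ {z : ℂ}, |z.im| < ρ / (2 * π) → Continuous fun x : ℝ => φ (z + x) := fun hz =>
      hdiff.continuousOn.comp_continuous (by fun_prop) fun x => by simpa using hz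
    have h1 := orbit_eq hθ (hc hz) (hc hw) (by simpa using e) (fun x => by
      simp only [Complex.ofReal_add, ← add_assoc]
      rw [← hrot (z + x) (by simpa using hz), ← hrot (w + x) (by simpa using hw)]
      exact (hinj.iterate _).eq_iff.symm) (fun x => by
      simp only [Complex.ofReal_add, ← add_assoc, Complex.ofReal_one, hone])
    have s1 := supp_of_eq b1 hz hw fun x =>
      mul_left_cancel₀ hkk (congrArg Prod.snd (congrFun h1 x))
    have s2 := supp_of_eq b2 hz hw fun x => by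
      have := mul_left_cancel₀ (mul_ne_zero ha0 hkk) (congrArg Prod.fst (congrFun h1 (x + β)))
      simpa [add_assoc] using this
    have hQ : ∀ i j : ℤ, Complex.exp (2 * π * Complex.I * i * (z - w)) = 1 →
        Complex.exp (2 * π * Complex.I * j * (z - w)) = 1 →
        Complex.exp (2 * π * Complex.I * (i + j : ℤ) * (z - w)) = 1 := fun i j hi hj => by
      have := Complex.exp_add (2 * π * Complex.I * i * (z - w)) (2 * π * Complex.I * j * (z - w))
      rw [hi, hj, one_mul] at this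
      rw [← this]; congr 1; push_cast; ring
    obtain ⟨n, hn⟩ := Complex.exp_eq_one_iff.mp (hQ _ _ (s1.two hQ s2 n1) (s1.three hQ s2 n2))
    refine ⟨n, ?_⟩
    have h2 : (2 * π * Complex.I : ℂ) ≠ 0 := by simp [pi_ne_zero]
    apply mul_left_cancel₀ h2
    push_cast at hn
    linear_combination hn
  · have g1 : DiffContOnCl ℂ (fun z => (ψ z).1) (ball 0 1) := differentiable_fst.comp_diffContOnCl hψ
    have g2 : DiffContOnCl ℂ (fun z => (ψ z).2) (ball 0 1) := differentiable_snd.comp_diffContOnCl hψ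
    refine ⟨fun h => ?_, fun h => ?_⟩
    · have s2 := (side_pos g1 fun x => by rw [ev1, h]).of_mul (mul_ne_zero ha0 hkk)
      have s1 := (side_pos g2 fun x => by rw [ev2, h]).of_mul hkk
      exact absurd (s1.two (fun _ _ => add_nonneg) s2 n1) (by norm_num)
    · have s2 := (side_neg g1 fun x => by rw [ev1, h]).of_mul (mul_ne_zero ha0 hkk)
      have s1 := (side_neg g2 fun x => by rw [ev2, h]).of_mul hkk
      exact absurd (s1.three (fun _ _ => add_nonpos) s2 n2) (by norm_num)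

end Pool.Agent.Lib.MP_77fc3d_an
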