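import Mathlib

/-! Polynomials in one variable `t` truncated at `t ^ 5 = 0`. -/

namespace Pool.Agent.Lib.MP_77fc3d_an

@[ext] structure T5 (A : Type) where
  c0 : A
  c1 : A
  c2 : A
  c3 : A
  c4 : A

namespace T5

variable {A B : Type} [CommRing A] [CommRing B]

instance : Add (T5 A) := ⟨fun x y => ⟨x.c0 + y.c0, x.c1 + y.c1, x.c2 + y.c2, x.c3 + y.c3, x.c4 + y.c4⟩⟩
instance : Neg (T5 A) := ⟨fun x => ⟨-x.c0, -x.c1, -x.c2, -x.c3, -x.c4⟩⟩
instance : Zero (T5 A) := ⟨⟨0, 0, 0, 0, 0⟩⟩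
instance : One (T5 A) := ⟨⟨1, 0, 0, 0, 0⟩⟩
instance : Mul (T5 A) := ⟨fun x y => ⟨x.c0 * y.c0, x.c0 * y.c1 + x.c1 * y.c0,
  x.c0 * y.c2 + x.c1 * y.c1 + x.c2 * y.c0,
  x.c0 * y.c3 + x.c1 * y.c2 + x.c2 * y.c1 + x.c3 * y.c0,
  x.c0 * y.c4 + x.c1 * y.c3 + x.c2 * y.c2 + x.c3 * y.c1 + x.c4 * y.c0⟩⟩

@[simp] lemma add_c0 (x y : T5 A) : (x + y).c0 = x.c0 + y.c0 := rfl
@[simp] lemma add_c1 (x y : T5 A) : (x + y).c1 = x.c1 + y.c1 := rfl
@[simp] lemma add_c2 (x y : T5 A) : (x + y).c2 = x.c2 + y.c2 := rfl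
@[simp] lemma add_c3 (x y : T5 A) : (x + y).c3 = x.c3 + y.c3 := rfl
@[simp] lemma add_c4 (x y : T5 A) : (x + y).c4 = x.c4 + y.c4 := rfl
@[simp] lemma neg_c0 (x : T5 A) : (-x).c0 = -x.c0 := rfl
@[simp] lemma neg_c1 (x : T5 A) : (-x).c1 = -x.c1 := rfl
@[simp] lemma neg_c2 (x : T5 A) : (-x).c2 = -x.c2 := rfl
@[simp] lemma neg_c3 (x : T5 A) : (-x).c3 = -x.c3 := rfl
@[simp] lemma neg_c4 (x : T5 A) : (-x).c4 = -x.c4 := rfl
@[simp] lemma zero_c0 : (0 : T5 A).c0 = 0 := rfl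
@[simp] lemma zero_c1 : (0 : T5 A).c1 = 0 := rfl
@[simp] lemma zero_c2 : (0 : T5 A).c2 = 0 := rfl
@[simp] lemma zero_c3 : (0 : T5 A).c3 = 0 := rfl
@[simp] lemma zero_c4 : (0 : T5 A).c4 = 0 := rfl
@[simp] lemma one_c0 : (1 : T5 A).c0 = 1 := rfl
@[simp] lemma one_c1 : (1 : T5 A).c1 = 0 := rfl
@[simp] lemma one_c2 : (1 : T5 A).c2 = 0 := rfl
@[simp] lemma one_c3 : (1 : T5 A).c3 = 0 := rfl
@[simp] lemma one_c4 : (1 : T5 A).c4 = 0 := rfl
@[simp] lemma mul_c0 (x y : T5 A) : (x * y).c0 = x.c0 * y.c0 := rfl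
@[simp] lemma mul_c1 (x y : T5 A) : (x * y).c1 = x.c0 * y.c1 + x.c1 * y.c0 := rfl
@[simp] lemma mul_c2 (x y : T5 A) : (x * y).c2 = x.c0 * y.c2 + x.c1 * y.c1 + x.c2 * y.c0 := rfl
@[simp] lemma mul_c3 (x y : T5 A) :
    (x * y).c3 = x.c0 * y.c3 + x.c1 * y.c2 + x.c2 * y.c1 + x.c3 * y.c0 := rfl
@[simp] lemma mul_c4 (x y : T5 A) :
    (x * y).c4 = x.c0 * y.c4 + x.c1 * y.c3 + x.c2 * y.c2 + x.c3 * y.c1 + x.c4 * y.c0 := rfl

instance : CommRing (T5 A) := CommRing.ofMinimalAxioms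
  (fun a b c => by ext <;> simp [add_assoc])
  (fun a => by ext <;> simp)
  (fun a => by ext <;> simp)
  (fun a b c => by ext <;> simp <;> ring)
  (fun a b => by ext <;> simp <;> ring)
  (fun a => by ext <;> simp)
  (fun a b c => by ext <;> simp <;> ring)

@[simp] lemma sub_c0 (x y : T5 A) : (x - y).c0 = x.c0 - y.c0 := by rw [sub_eq_add_neg]; simp [sub_eq_add_neg]
@[simp] lemma sub_c1 (x y : T5 A) : (x - y).c1 = x.c1 - y.c1 := by rw [sub_eq_add_neg]; simp [sub_eq_add_neg]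
@[simp] lemma sub_c2 (x y : T5 A) : (x - y).c2 = x.c2 - y.c2 := by rw [sub_eq_add_neg]; simp [sub_eq_add_neg]
@[simp] lemma sub_c3 (x y : T5 A) : (x - y).c3 = x.c3 - y.c3 := by rw [sub_eq_add_neg]; simp [sub_eq_add_neg]
@[simp] lemma sub_c4 (x y : T5 A) : (x - y).c4 = x.c4 - y.c4 := by rw [sub_eq_add_neg]; simp [sub_eq_add_neg]

/-- Constants. -/
def C : A →+* T5 A where
  toFun a := ⟨a, 0, 0, 0, 0⟩
  map_one' := rfl
  map_mul' a b := by ext <;> simp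
  map_zero' := rfl
  map_add' a b := by ext <;> simp

@[simp] lemma C_c0 (a : A) : (C a).c0 = a := rfl
@[simp] lemma C_c1 (a : A) : (C a).c1 = 0 := rfl
@[simp] lemma C_c2 (a : A) : (C a).c2 = 0 := rfl
@[simp] lemma C_c3 (a : A) : (C a).c3 = 0 := rfl
@[simp] lemma C_c4 (a : A) : (C a).c4 = 0 := rfl

/-- The variable. -/
def t : T5 A := ⟨0, 1, 0, 0, 0⟩

@[simp] lemma t_c0 : (t : T5 A).c0 = 0 := rfl
@[simp] lemma t_c1 : (t : T5 A).c1 = 1 := rfl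
@[simp] lemma t_c2 : (t : T5 A).c2 = 0 := rfl
@[simp] lemma t_c3 : (t : T5 A).c3 = 0 := rfl
@[simp] lemma t_c4 : (t : T5 A).c4 = 0 := rfl

lemma t_pow_five : (t : T5 A) ^ 5 = 0 := by
  ext <;> simp [pow_succ]

lemma t_pow_four : (t : T5 A) ^ 4 = ⟨0, 0, 0, 0, 1⟩ := by
  ext <;> simp [pow_succ]

/-- The constant coefficient as a ring homomorphism. -/
def c0H : T5 A →+* A where
  toFun x := x.c0
  map_one' := rfl
  map_mul' _ _ := rfl
  map_zero' := rfl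
  map_add' _ _ := rfl

@[simp] lemma c0H_apply (x : T5 A) : c0H x = x.c0 := rfl

@[simp] lemma pow_c0 (x : T5 A) (n : ℕ) : (x ^ n).c0 = x.c0 ^ n := map_pow c0H x n

lemma expand (x : T5 A) :
    x = C x.c0 + t * C x.c1 + t ^ 2 * C x.c2 + t ^ 3 * C x.c3 + t ^ 4 * C x.c4 := by
  ext <;> simp [pow_succ]

/-- Division by `t`. -/
def sh (x : T5 A) : T5 A := ⟨x.c1, x.c2, x.c3, x.c4, 0⟩

lemma eq_C_add_t_mul (x : T5 A) : x = C x.c0 + t * sh x := by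
  ext <;> simp [sh]

lemma eq_t_mul_of_c0 {x : T5 A} (h : x.c0 = 0) : x = t * sh x := by
  ext <;> simp [sh, h]

lemma t4_mul_eq_zero_iff (x : T5 A) : t ^ 4 * x = 0 ↔ x.c0 = 0 := by
  rw [t_pow_four]
  constructor
  · intro h
    have := congrArg T5.c4 h
    simpa using this
  · intro h
    ext <;> simp [h]

lemma pow_five_of_c0 {x : T5 A} (h : x.c0 = 0) : x ^ 5 = 0 := by
  rw [eq_t_mul_of_c0 h, mul_pow, t_pow_five, zero_mul]

lemma exists_inv {x : T5 A} {a : A} (h : x.c0 * a = 1) : ∃ y : T5 A, x * y = 1 ∧ y.c0 = a := by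
  have h0 : (1 - x * C a).c0 = 0 := by simp [h]
  have h5 := pow_five_of_c0 h0
  generalize hw : 1 - x * C a = w at h0 h5
  refine ⟨C a * (1 + w + w ^ 2 + w ^ 3 + w ^ 4), ?_, ?_⟩
  · have : x * C a = 1 - w := by rw [← hw]; ring
    linear_combination (1 + w + w ^ 2 + w ^ 3 + w ^ 4) * this - h5
  · simp [h0]

/-- Coefficientwise application of an additive map. -/
def mapA (f : A →+ B) : T5 A →+ T5 B where
  toFun x := ⟨f x.c0, f x.c1, f x.c2, f x.c3, f x.c4⟩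
  map_zero' := by ext <;> simp
  map_add' x y := by ext <;> simp

@[simp] lemma mapA_c0 (f : A →+ B) (x : T5 A) : (mapA f x).c0 = f x.c0 := rfl
@[simp] lemma mapA_c1 (f : A →+ B) (x : T5 A) : (mapA f x).c1 = f x.c1 := rfl
@[simp] lemma mapA_c2 (f : A →+ B) (x : T5 A) : (mapA f x).c2 = f x.c2 := rfl
@[simp] lemma mapA_c3 (f : A →+ B) (x : T5 A) : (mapA f x).c3 = f x.c3 := rfl
@[simp] lemma mapA_c4 (f : A →+ B) (x : T5 A) : (mapA f x).c4 = f x.c4 := rfl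

/-- Coefficientwise application of a ring homomorphism. -/
def map (f : A →+* B) : T5 A →+* T5 B where
  toFun x := ⟨f x.c0, f x.c1, f x.c2, f x.c3, f x.c4⟩
  map_one' := by ext <;> simp
  map_mul' x y := by ext <;> simp
  map_zero' := by ext <;> simp
  map_add' x y := by ext <;> simp

@[simp] lemma map_c0 (f : A →+* B) (x : T5 A) : (map f x).c0 = f x.c0 := rfl
@[simp] lemma map_c1 (f : A →+* B) (x : T5 A) : (map f x).c1 = f x.c1 := rfl
@[simp] lemma map_c2 (f : A →+* B) (x : T5 A) : (map f x).c2 = f x.c2 := rfl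
@[simp] lemma map_c3 (f : A →+* B) (x : T5 A) : (map f x).c3 = f x.c3 := rfl
@[simp] lemma map_c4 (f : A →+* B) (x : T5 A) : (map f x).c4 = f x.c4 := rfl

@[simp] lemma map_t (f : A →+* B) : map f t = t := by ext <;> simp
@[simp] lemma map_C (f : A →+* B) (a : A) : map f (C a) = C (f a) := by ext <;> simp

/-- Substitution of an element without constant term for the variable. -/
def subst (x : T5 A) (hx : x.c0 = 0) : T5 A →+* T5 A where
  toFun a := C a.c0 + x * C a.c1 + x ^ 2 * C a.c2 + x ^ 3 * C a.c3 + x ^ 4 * C a.c4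
  map_one' := by simp
  map_mul' a b := by
    have h5 := pow_five_of_c0 hx
    simp only [mul_c0, mul_c1, mul_c2, mul_c3, mul_c4, map_add, map_mul]
    linear_combination (-(C a.c1 * C b.c4 + C a.c2 * C b.c3 + C a.c3 * C b.c2 + C a.c4 * C b.c1)
      - x * (C a.c2 * C b.c4 + C a.c3 * C b.c3 + C a.c4 * C b.c2)
      - x ^ 2 * (C a.c3 * C b.c4 + C a.c4 * C b.c3) - x ^ 3 * (C a.c4 * C b.c4)) * h5
  map_zero' := by simp
  map_add' a b := by simp only [add_c0, add_c1, add_c2, add_c3, add_c4, map_add]; ring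

lemma subst_apply (x : T5 A) (hx : x.c0 = 0) (a : T5 A) :
    subst x hx a = C a.c0 + x * C a.c1 + x ^ 2 * C a.c2 + x ^ 3 * C a.c3 + x ^ 4 * C a.c4 := rfl

@[simp] lemma subst_t (x : T5 A) (hx : x.c0 = 0) : subst x hx t = x := by simp [subst_apply]

@[simp] lemma subst_C (x : T5 A) (hx : x.c0 = 0) (a : A) : subst x hx (C a) = C a := by
  simp [subst_apply]

lemma subst_c0 (x : T5 A) (hx : x.c0 = 0) (a : T5 A) : (subst x hx a).c0 = a.c0 := by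
  simp [subst_apply, hx]

/-- Evaluation of the truncated polynomial at a point. -/
def ev (z : A) (x : T5 A) : A := x.c0 + z * x.c1 + z ^ 2 * x.c2 + z ^ 3 * x.c3 + z ^ 4 * x.c4

lemma ev_add (z : A) (x y : T5 A) : ev z (x + y) = ev z x + ev z y := by simp [ev]; ring
lemma ev_sub (z : A) (x y : T5 A) : ev z (x - y) = ev z x - ev z y := by simp [ev]; ring
@[simp] lemma ev_C (z a : A) : ev z (C a) = a := by simp [ev]
@[simp] lemma ev_t (z : A) : ev z t = z := by simp [ev]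
@[simp] lemma ev_one (z : A) : ev z 1 = 1 := by simp [ev]
lemma ev_C_mul (z a : A) (x : T5 A) : ev z (C a * x) = a * ev z x := by simp [ev]; ring

lemma ev_mul (z : A) (a b : T5 A) : ev z a * ev z b = ev z (a * b) + z ^ 5 *
    ((a.c1 * b.c4 + a.c2 * b.c3 + a.c3 * b.c2 + a.c4 * b.c1)
      + z * (a.c2 * b.c4 + a.c3 * b.c3 + a.c4 * b.c2)
      + z ^ 2 * (a.c3 * b.c4 + a.c4 * b.c3) + z ^ 3 * (a.c4 * b.c4)) := by
  simp [ev]; ring

/-! ### The Banach algebra of truncated polynomials with complex coefficients -/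

noncomputable instance : Algebra ℂ (T5 ℂ) := (C : ℂ →+* T5 ℂ).toAlgebra

lemma smul_eq (z : ℂ) (x : T5 ℂ) : z • x = C z * x := rfl

lemma algebraMap_eq (z : ℂ) : algebraMap ℂ (T5 ℂ) z = C z := rfl

noncomputable def nrm : AddGroupNorm (T5 ℂ) where
  toFun x := ‖x.c0‖ + ‖x.c1‖ + ‖x.c2‖ + ‖x.c3‖ + ‖x.c4‖
  map_zero' := by simp
  add_le' x y := by
    have := norm_add_le x.c0 y.c0
    have := norm_add_le x.c1 y.c1
    have := norm_add_le x.c2 y.c2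
    have := norm_add_le x.c3 y.c3
    have := norm_add_le x.c4 y.c4
    simp only [add_c0, add_c1, add_c2, add_c3, add_c4]
    linarith
  neg' x := by simp
  eq_zero_of_map_eq_zero' x h := by
    have := norm_nonneg x.c0
    have := norm_nonneg x.c1
    have := norm_nonneg x.c2
    have := norm_nonneg x.c3
    have := norm_nonneg x.c4
    ext <;> simp only [zero_c0, zero_c1, zero_c2, zero_c3, zero_c4] <;>
      apply norm_eq_zero.mp <;> linarith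

noncomputable instance : NormedAddCommGroup (T5 ℂ) := nrm.toNormedAddCommGroup

lemma norm_def (x : T5 ℂ) : ‖x‖ = ‖x.c0‖ + ‖x.c1‖ + ‖x.c2‖ + ‖x.c3‖ + ‖x.c4‖ := rfl

lemma norm_mul_le' (x y : T5 ℂ) : ‖x * y‖ ≤ ‖x‖ * ‖y‖ := by
  simp only [norm_def, mul_c0, mul_c1, mul_c2, mul_c3, mul_c4]
  have h1 : ‖x.c0 * y.c1 + x.c1 * y.c0‖ ≤ ‖x.c0‖ * ‖y.c1‖ + ‖x.c1‖ * ‖y.c0‖ := by
    refine (norm_add_le _ _).trans ?_; simp
  have h2 : ‖x.c0 * y.c2 + x.c1 * y.c1 + x.c2 * y.c0‖ ≤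
      ‖x.c0‖ * ‖y.c2‖ + ‖x.c1‖ * ‖y.c1‖ + ‖x.c2‖ * ‖y.c0‖ := by
    refine (norm_add₃_le).trans ?_; simp
  have h3 : ‖x.c0 * y.c3 + x.c1 * y.c2 + x.c2 * y.c1 + x.c3 * y.c0‖ ≤
      ‖x.c0‖ * ‖y.c3‖ + ‖x.c1‖ * ‖y.c2‖ + ‖x.c2‖ * ‖y.c1‖ + ‖x.c3‖ * ‖y.c0‖ := by
    refine (norm_add₄_le).trans ?_; simp
  have h4 : ‖x.c0 * y.c4 + x.c1 * y.c3 + x.c2 * y.c2 + x.c3 * y.c1 + x.c4 * y.c0‖ ≤
      ‖x.c0‖ * ‖y.c4‖ + ‖x.c1‖ * ‖y.c3‖ + ‖x.c2‖ * ‖y.c2‖ + ‖x.c3‖ * ‖y.c1‖ + ‖x.c4‖ * ‖y.c0‖ := by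
    refine (norm_add_le _ _).trans ?_
    have := @norm_add₄_le ℂ _ (x.c0 * y.c4) (x.c1 * y.c3) (x.c2 * y.c2) (x.c3 * y.c1)
    simp only [norm_mul] at this ⊢
    linarith
  rw [norm_mul]
  have a0 := norm_nonneg x.c0
  have a1 := norm_nonneg x.c1
  have a2 := norm_nonneg x.c2
  have a3 := norm_nonneg x.c3
  have a4 := norm_nonneg x.c4
  have b0 := norm_nonneg y.c0
  have b1 := norm_nonneg y.c1
  have b2 := norm_nonneg y.c2
  have b3 := norm_nonneg y.c3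
  have b4 := norm_nonneg y.c4
  nlinarith [mul_nonneg a1 b4, mul_nonneg a2 b3, mul_nonneg a3 b2, mul_nonneg a4 b1,
    mul_nonneg a2 b4, mul_nonneg a3 b3, mul_nonneg a4 b2, mul_nonneg a3 b4, mul_nonneg a4 b3,
    mul_nonneg a4 b4]

noncomputable instance : NormedCommRing (T5 ℂ) :=
  { (inferInstance : NormedAddCommGroup (T5 ℂ)), (inferInstance : CommRing (T5 ℂ)) with
    norm_mul_le := norm_mul_le' }

lemma norm_C (z : ℂ) : ‖(C z : T5 ℂ)‖ = ‖z‖ := by simp [norm_def]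

lemma norm_t : ‖(t : T5 ℂ)‖ = 1 := by simp [norm_def]

noncomputable instance : NormedAlgebra ℂ (T5 ℂ) where
  norm_smul_le z x := by
    rw [smul_eq]
    exact (norm_mul_le' _ _).trans (by rw [norm_C])

instance : NormOneClass (T5 ℂ) := ⟨by simp [norm_def]⟩

/-- Coordinates. -/
noncomputable def coordE : T5 ℂ ≃ₗ[ℂ] (Fin 5 → ℂ) where
  toFun x := ![x.c0, x.c1, x.c2, x.c3, x.c4]
  invFun v := ⟨v 0, v 1, v 2, v 3, v 4⟩
  map_add' x y := by ext i; fin_cases i <;> simp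
  map_smul' z x := by ext i; fin_cases i <;> simp [smul_eq]
  left_inv x := by ext <;> simp
  right_inv v := by ext i; fin_cases i <;> simp

instance : FiniteDimensional ℂ (T5 ℂ) := LinearEquiv.finiteDimensional coordE.symm

instance : CompleteSpace (T5 ℂ) := FiniteDimensional.complete ℂ _

/-- Complex conjugation of the coefficients. -/
noncomputable def cj : T5 ℂ →+* T5 ℂ := map (starRingEnd ℂ)

lemma cj_C (z : ℂ) : cj (C z) = C (starRingEnd ℂ z) := map_C _ _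
lemma cj_t : cj t = t := map_t _
lemma cj_cj (x : T5 ℂ) : cj (cj x) = x := by ext <;> simp [cj]
lemma norm_cj (x : T5 ℂ) : ‖cj x‖ = ‖x‖ := by simp [norm_def, cj]
lemma cj_smul (z : ℂ) (x : T5 ℂ) : cj (z • x) = starRingEnd ℂ z • cj x := by
  rw [smul_eq, smul_eq, map_mul, cj_C]

/-- Conjugation as a real continuous linear map. -/
noncomputable def cjL : T5 ℂ →L[ℝ] T5 ℂ :=
  LinearMap.mkContinuous
    { toFun := cj
      map_add' := map_add cj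
      map_smul' := fun r x => by
        have h : ∀ y : T5 ℂ, r • y = (r : ℂ) • y := fun y => rfl
        simp only [RingHom.id_apply]
        rw [h, h, cj_smul, Complex.conj_ofReal] } 1 (fun x => by simp [norm_cj])

@[simp] lemma cjL_apply (x : T5 ℂ) : cjL x = cj x := rfl

lemma norm_ev_le {z : ℂ} (hz : ‖z‖ ≤ 1) (x : T5 ℂ) : ‖ev z x‖ ≤ ‖x‖ := by
  have h : ∀ (n : ℕ) (w : ℂ), ‖z ^ n * w‖ ≤ ‖w‖ := fun n w => by
    rw [norm_mul, norm_pow]
    exact mul_le_of_le_one_left (norm_nonneg _) (pow_le_one₀ (norm_nonneg _) hz)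
  have h1 := h 1 x.c1
  have h2 := h 2 x.c2
  have h3 := h 3 x.c3
  have h4 := h 4 x.c4
  rw [pow_one] at h1
  have := norm_add_le (x.c0 + z * x.c1 + z ^ 2 * x.c2 + z ^ 3 * x.c3) (z ^ 4 * x.c4)
  have := @norm_add₄_le ℂ _ x.c0 (z * x.c1) (z ^ 2 * x.c2) (z ^ 3 * x.c3)
  rw [ev, norm_def]
  linarith

lemma norm_ev_mul_sub {z : ℂ} (hz : ‖z‖ ≤ 1) (a b : T5 ℂ) :
    ‖ev z (a * b) - ev z a * ev z b‖ ≤ ‖z‖ ^ 5 * (‖a‖ * ‖b‖) := by
  rw [ev_mul, sub_add_cancel_left, norm_neg, norm_mul, norm_pow]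
  refine mul_le_mul_of_nonneg_left ?_ (by positivity)
  have h := norm_ev_le hz (⟨a.c1 * b.c4 + a.c2 * b.c3 + a.c3 * b.c2 + a.c4 * b.c1,
    a.c2 * b.c4 + a.c3 * b.c3 + a.c4 * b.c2, a.c3 * b.c4 + a.c4 * b.c3, a.c4 * b.c4, 0⟩ : T5 ℂ)
  simp only [ev, mul_zero, add_zero, norm_def, norm_zero] at h
  refine h.trans ?_
  have h1 := @norm_add₄_le ℂ _ (a.c1 * b.c4) (a.c2 * b.c3) (a.c3 * b.c2) (a.c4 * b.c1)
  have h2 := @norm_add₃_le ℂ _ (a.c2 * b.c4) (a.c3 * b.c3) (a.c4 * b.c2)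
  have h3 := norm_add_le (a.c3 * b.c4) (a.c4 * b.c3)
  simp only [norm_mul] at h1 h2 h3 ⊢
  have a0 := norm_nonneg a.c0
  have a1 := norm_nonneg a.c1
  have a2 := norm_nonneg a.c2
  have a3 := norm_nonneg a.c3
  have a4 := norm_nonneg a.c4
  have b0 := norm_nonneg b.c0
  have b1 := norm_nonneg b.c1
  have b2 := norm_nonneg b.c2
  have b3 := norm_nonneg b.c3
  have b4 := norm_nonneg b.c4
  simp only [norm_def]
  nlinarith [mul_nonneg a0 b0, mul_nonneg a0 b1, mul_nonneg a0 b2, mul_nonneg a0 b3,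
    mul_nonneg a0 b4, mul_nonneg a1 b0, mul_nonneg a1 b1, mul_nonneg a1 b2, mul_nonneg a1 b3,
    mul_nonneg a2 b0, mul_nonneg a2 b1, mul_nonneg a2 b2, mul_nonneg a3 b0, mul_nonneg a3 b1,
    mul_nonneg a4 b0]

end T5

end Pool.Agent.Lib.MP_77fc3d_an
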